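import Pool.Agent.H.MP_b7f8b0_co.helper73.Tri

set_option autoImplicit false
open Matrix

namespace Pool.Agent.H.MP_b7f8b0_co.helper73

section InsepFacts
variable {ι : Type} [DecidableEq ι] [Fintype ι]

private theorem insepFacts_unit (e : ℤˣ) : ((e : ℤ) : ℝ) = 1 ∨ ((e : ℤ) : ℝ) = -1 := by
  rcases Int.units_eq_one_or e with h | h <;> simp [h]

private theorem insepFacts_sq (e : ℤˣ) : ((e : ℤ) : ℝ) * ((e : ℤ) : ℝ) = 1 := by
  rcases insepFacts_unit e with h | h <;> rw [h] <;> norm_num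

private theorem insepFacts_inj {e f : ℤˣ} (h : ((e : ℤ) : ℝ) = ((f : ℤ) : ℝ)) : e = f := by
  apply Units.ext
  exact_mod_cast h

private theorem insepFacts_ne {a b : V3} {e : ℝ} (h : 0 < e * (a ⬝ᵥ b)) : b ≠ 0 := by
  rintro rfl
  simp at h

theorem lune_small {a : ι → V3} (ha : Simple a) (hn : 3 ≤ Fintype.card ι) {x y : ι} (hxy : x ≠ y)
    {s : ℝ} (hs : s = 1 ∨ s = -1) (h : InsepSgn a x y s) {ε : ι → ℤˣ} (hε : Tope a ε)
    (hl : ((ε x : ℤ) : ℝ) * ((ε y : ℤ) : ℝ) = -s) : sz a ε ≤ 4 := by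
  classical
  have key : ∀ i ∈ edgeSet a ε, i ≠ x → i ≠ y → nb a ε i = {x, y} := by
    intro i hi hix hiy
    have hsub : nb a ε i ⊆ {x, y} := by
      intro j hj
      by_contra hjn
      rw [Set.mem_insert_iff, Set.mem_singleton_iff, not_or] at hjn
      obtain ⟨v, hv1, hv2, hv3⟩ := corner_point hj.1.symm hε hi hj.2.1 hj.2.2
      have hx := hv3 x (Ne.symm hix) (Ne.symm hjn.1)
      have hy := hv3 y (Ne.symm hiy) (Ne.symm hjn.2)
      have h1 := h i j hj.1.symm hix hiy hjn.1 hjn.2 v (insepFacts_ne hx) hv1 hv2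
      have h2 := mul_pos hx hy
      have h3 : ((ε x : ℤ) : ℝ) * (a x ⬝ᵥ v) * (((ε y : ℤ) : ℝ) * (a y ⬝ᵥ v)) =
          -(s * ((a x ⬝ᵥ v) * (a y ⬝ᵥ v))) := by
        linear_combination ((a x ⬝ᵥ v) * (a y ⬝ᵥ v)) * hl
      linarith
    apply Set.eq_of_subset_of_ncard_le hsub
    rw [nb_ncard ha hn hε hi, Set.ncard_pair hxy]
  by_cases hall : edgeSet a ε ⊆ {x, y}
  · have h1 : (edgeSet a ε).ncard ≤ ({x, y} : Set ι).ncard := Set.ncard_le_ncard hall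
    rw [Set.ncard_pair hxy] at h1
    unfold sz
    omega
  · rw [Set.not_subset] at hall
    obtain ⟨i, hi, hin⟩ := hall
    rw [Set.mem_insert_iff, Set.mem_singleton_iff, not_or] at hin
    have hnbi := key i hi hin.1 hin.2
    have hxi : x ∈ nb a ε i := by rw [hnbi]; simp
    have hxe : Tope a (flip ε x) := hxi.2.1
    have hsub : edgeSet a ε ⊆ {x, y} ∪ nb a ε x := by
      intro j hj
      by_cases hjx : j = x
      · left; simp [hjx]
      · by_cases hjy : j = y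
        · left; simp [hjy]
        · right
          apply nb_symm hj
          rw [key j hj hjx hjy]
          simp
    have h1 : (edgeSet a ε).ncard ≤ (({x, y} : Set ι) ∪ nb a ε x).ncard := Set.ncard_le_ncard hsub
    have h2 := Set.ncard_union_le ({x, y} : Set ι) (nb a ε x)
    rw [Set.ncard_pair hxy, nb_ncard ha hn hε hxe] at h2
    unfold sz
    omega

theorem insep_prod {a : ι → V3} (ha : Simple a) {x y z m : ι} (hxy : x ≠ y) (hxz : x ≠ z)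
    (hyz : y ≠ z) (hmx : m ≠ x) (hmy : m ≠ y) (hmz : m ≠ z) {s t : ℝ} (h1 : InsepSgn a x y s)
    (h2 : InsepSgn a x z t) {v : V3} (hv : v ≠ 0) (hvx : a x ⬝ᵥ v = 0) (hvm : a m ⬝ᵥ v = 0) :
    0 < -(s * t) * ((a y ⬝ᵥ v) * (a z ⬝ᵥ v)) := by
  obtain ⟨u, hu0, hum, huz⟩ := exists_vertex a m z
  obtain ⟨w, hw0, hwm, hwy⟩ := exists_vertex a m y
  have g1 := h1 m z hmz hmx hmy hxz.symm hyz.symm u hu0 hum huz
  have g2 := h2 m y hmy hmx hmz hxy.symm hyz w hw0 hwm hwy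
  have hyu : a y ⬝ᵥ u ≠ 0 := by
    intro h
    rw [h, mul_zero, mul_zero] at g1
    exact lt_irrefl _ g1
  have hzw : a z ⬝ᵥ w ≠ 0 := by
    intro h
    rw [h, mul_zero, mul_zero] at g2
    exact lt_irrefl _ g2
  have hzv : a z ⬝ᵥ v ≠ 0 := fun h => hv (gp3 ha hmx hxz hmz hvm hvx h)
  obtain ⟨α, hα⟩ : ∃ α : ℝ, α = (a y ⬝ᵥ v) / (a y ⬝ᵥ u) := ⟨_, rfl⟩
  obtain ⟨β, hβ⟩ : ∃ β : ℝ, β = (a z ⬝ᵥ v) / (a z ⬝ᵥ w) := ⟨_, rfl⟩
  have eα : α * (a y ⬝ᵥ u) = a y ⬝ᵥ v := by rw [hα]; field_simp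
  have eβ : β * (a z ⬝ᵥ w) = a z ⬝ᵥ v := by rw [hβ]; field_simp
  have hd : v - α • u - β • w = 0 := by
    apply gp3 ha hmy hyz hmz
    · rw [dotProduct_sub, dotProduct_sub, dotProduct_smul, dotProduct_smul, hvm, hum, hwm]
      simp
    · rw [dotProduct_sub, dotProduct_sub, dotProduct_smul, dotProduct_smul, hwy, smul_eq_mul, eα]
      simp
    · rw [dotProduct_sub, dotProduct_sub, dotProduct_smul, dotProduct_smul, huz, smul_eq_mul,
        smul_eq_mul, eβ]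
      simp
  have hx := congrArg (fun p => a x ⬝ᵥ p) hd
  simp only [dotProduct_sub, dotProduct_smul, hvx, smul_eq_mul, dotProduct_zero] at hx
  have hβ0 : β ≠ 0 := by
    intro h
    rw [h, zero_mul] at eβ
    exact hzv eβ.symm
  have hxw : a x ⬝ᵥ w ≠ 0 := by
    intro h
    rw [h, zero_mul, mul_zero] at g2
    exact lt_irrefl _ g2
  -- `α β (x·u) (x·w) < 0`
  have k1 : α * β * ((a x ⬝ᵥ u) * (a x ⬝ᵥ w)) = -(β * (a x ⬝ᵥ w)) ^ 2 := by
    linear_combination (-(β * (a x ⬝ᵥ w))) * hx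
  have k2 : 0 < (β * (a x ⬝ᵥ w)) ^ 2 := by positivity
  have k3 := mul_pos (mul_pos g1 g2) k2
  have k4 : s * ((a x ⬝ᵥ u) * (a y ⬝ᵥ u)) * (t * ((a x ⬝ᵥ w) * (a z ⬝ᵥ w))) *
      (β * (a x ⬝ᵥ w)) ^ 2 =
      (-(s * t) * ((a y ⬝ᵥ v) * (a z ⬝ᵥ v))) * ((a x ⬝ᵥ u) * (a x ⬝ᵥ w)) ^ 2 := by
    rw [← eα, ← eβ]
    linear_combination (s * ((a x ⬝ᵥ u) * (a y ⬝ᵥ u)) * (t * ((a x ⬝ᵥ w) * (a z ⬝ᵥ w)))) * k1
  rw [k4] at k3
  exact (pos_iff_pos_of_mul_pos k3).mpr (by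
    have : ((a x ⬝ᵥ u) * (a x ⬝ᵥ w)) ^ 2 ≠ 0 := by
      intro h
      rw [h, mul_zero] at k3
      exact lt_irrefl _ k3
    positivity)

theorem insep_three {a : ι → V3} (ha : Simple a) (hn : 5 ≤ Fintype.card ι) {x y z w : ι}
    (h1 : Insep a x y) (h2 : Insep a x z) (h3 : Insep a x w) (hyz : y ≠ z) (hyw : y ≠ w)
    (hzw : z ≠ w) : False := by
  obtain ⟨hxy, s1, -, g1⟩ := h1
  obtain ⟨hxz, s2, -, g2⟩ := h2
  obtain ⟨hxw, s3, -, g3⟩ := h3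
  obtain ⟨m, hm⟩ : ∃ m, m ∉ ({x, y, z, w} : Finset ι) := by
    by_contra hcon
    push Not at hcon
    have h4 : Fintype.card ι ≤ ({x, y, z, w} : Finset ι).card := by
      rw [← Finset.card_univ]
      exact Finset.card_le_card fun i _ => hcon i
    have h5 : ({x, y, z, w} : Finset ι).card ≤ 4 := Finset.card_le_four
    omega
  simp only [Finset.mem_insert, Finset.mem_singleton, not_or] at hm
  obtain ⟨hmx, hmy, hmz, hmw⟩ := hm
  obtain ⟨v, hv0, hvx, hvm⟩ := exists_vertex a x m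
  have k1 := insep_prod ha hxy hxz hyz hmx hmy hmz g1 g2 hv0 hvx hvm
  have k2 := insep_prod ha hxy hxw hyw hmx hmy hmw g1 g3 hv0 hvx hvm
  have k3 := insep_prod ha hxz hxw hzw hmx hmz hmw g2 g3 hv0 hvx hvm
  have k4 := mul_pos (mul_pos k1 k2) k3
  have k5 : -(s1 * s2) * ((a y ⬝ᵥ v) * (a z ⬝ᵥ v)) * (-(s1 * s3) * ((a y ⬝ᵥ v) * (a w ⬝ᵥ v))) *
      (-(s2 * s3) * ((a z ⬝ᵥ v) * (a w ⬝ᵥ v))) =
      -((s1 * s2 * s3) * ((a y ⬝ᵥ v) * (a z ⬝ᵥ v) * (a w ⬝ᵥ v))) ^ 2 := by ring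
  rw [k5] at k4
  have := sq_nonneg ((s1 * s2 * s3) * ((a y ⬝ᵥ v) * (a z ⬝ᵥ v) * (a w ⬝ᵥ v)))
  linarith

/-- in a face with at least five edges the signs of inseparable lines are determined -/
private theorem insepFacts_sign {a : ι → V3} (ha : Simple a) (hn : 3 ≤ Fintype.card ι) {x y : ι}
    (hxy : x ≠ y) {s : ℝ} (hs : s = 1 ∨ s = -1) (h : InsepSgn a x y s) {ε : ι → ℤˣ}
    (hε : Tope a ε) (h5 : 5 ≤ sz a ε) : ((ε x : ℤ) : ℝ) * ((ε y : ℤ) : ℝ) = s := by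
  by_contra hne
  have h1 : ((ε x : ℤ) : ℝ) * ((ε y : ℤ) : ℝ) = -s := by
    rcases insepFacts_unit (ε x) with hx | hx <;> rcases insepFacts_unit (ε y) with hy | hy <;>
      rcases hs with hs | hs <;> rw [hx, hy, hs] at hne ⊢ <;> norm_num at hne <;> norm_num
  have := lune_small ha hn hxy hs h hε h1
  omega

theorem interior_nb {a : ι → V3} (ha : Simple a) (hn : 3 ≤ Fintype.card ι) {x y z : ι}
    (h1 : Insep a x y) (h2 : Insep a x z) (hyz : y ≠ z) {ε : ι → ℤˣ} (hε : Tope a ε)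
    (h5 : 5 ≤ sz a ε) (hx : Tope a (flip ε x)) : nb a ε x = {y, z} := by
  obtain ⟨hxy, s, hs, g1⟩ := h1
  obtain ⟨hxz, t, ht, g2⟩ := h2
  have e1 := insepFacts_sign ha hn hxy hs g1 hε h5
  have e2 := insepFacts_sign ha hn hxz ht g2 hε h5
  have hsub : nb a ε x ⊆ {y, z} := by
    intro m hm
    by_contra hmn
    rw [Set.mem_insert_iff, Set.mem_singleton_iff, not_or] at hmn
    obtain ⟨v, hv1, hv2, hv3⟩ := corner_point hm.1.symm hε hx hm.2.1 hm.2.2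
    have hy := hv3 y hxy.symm (Ne.symm hmn.1)
    have hz := hv3 z hxz.symm (Ne.symm hmn.2)
    have k1 := insep_prod ha hxy hxz hyz hm.1 hmn.1 hmn.2 g1 g2 (insepFacts_ne hy) hv1 hv2
    have k2 := mul_pos hy hz
    have k3 := insepFacts_sq (ε x)
    have k4 : ((ε y : ℤ) : ℝ) * (a y ⬝ᵥ v) * (((ε z : ℤ) : ℝ) * (a z ⬝ᵥ v)) =
        (s * t) * ((a y ⬝ᵥ v) * (a z ⬝ᵥ v)) := by
      rw [← e1, ← e2]
      linear_combination (-(((ε y : ℤ) : ℝ) * ((ε z : ℤ) : ℝ) * (a y ⬝ᵥ v) * (a z ⬝ᵥ v))) * k3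
    linarith
  apply Set.eq_of_subset_of_ncard_le hsub
  rw [nb_ncard ha hn hε hx, Set.ncard_pair hyz]

private theorem insepFacts_same {a : ι → V3} (ha : Simple a) (hn : 3 ≤ Fintype.card ι) {x y z : ι}
    (h1 : Insep a x y) (h2 : Insep a x z) (hyz : y ≠ z) {ε ε' : ι → ℤˣ} (hε : Tope a ε)
    (h5 : 5 ≤ sz a ε) (hx : Tope a (flip ε x)) (hε' : Tope a ε') (h5' : 5 ≤ sz a ε')
    (hx' : Tope a (flip ε' x)) (hy : ε' y = ε y) : ε' = ε := by
  obtain ⟨hxy, s, hs, g1⟩ := h1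
  obtain ⟨hxz, t, ht, g2⟩ := h2
  have e1 := insepFacts_sign ha hn hxy hs g1 hε h5
  have e2 := insepFacts_sign ha hn hxz ht g2 hε h5
  have e1' := insepFacts_sign ha hn hxy hs g1 hε' h5'
  have e2' := insepFacts_sign ha hn hxz ht g2 hε' h5'
  have hex : ε' x = ε x := by
    apply insepFacts_inj
    rw [hy, ← e1] at e1'
    have h3 := insepFacts_sq (ε y)
    linear_combination ((ε y : ℤ) : ℝ) * e1' +
      (((ε x : ℤ) : ℝ) - ((ε' x : ℤ) : ℝ)) * h3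
  have hez : ε' z = ε z := by
    apply insepFacts_inj
    rw [hex, ← e2] at e2'
    have h3 := insepFacts_sq (ε x)
    linear_combination ((ε x : ℤ) : ℝ) * e2' +
      (((ε z : ℤ) : ℝ) - ((ε' z : ℤ) : ℝ)) * h3
  funext m
  by_contra hm
  have hmx : m ≠ x := by rintro rfl; exact hm hex
  have hmy : m ≠ y := by rintro rfl; exact hm hy
  have hmz : m ≠ z := by rintro rfl; exact hm hez
  have hmm : ((ε' m : ℤ) : ℝ) = -((ε m : ℤ) : ℝ) := by
    have h3 : ((ε' m : ℤ) : ℝ) ≠ ((ε m : ℤ) : ℝ) := fun h => hm (insepFacts_inj h)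
    rcases insepFacts_unit (ε m) with h | h <;> rcases insepFacts_unit (ε' m) with h' | h'
    · exact absurd (h'.trans h.symm) h3
    · rw [h, h']
    · rw [h, h', neg_neg]
    · exact absurd (h'.trans h.symm) h3
  obtain ⟨p, hp0, hp⟩ := edge_point hε hx
  obtain ⟨p', hp0', hp'⟩ := edge_point hε' hx'
  have c1 := hp m hmx
  have c2 := hp' m hmx
  rw [hmm] at c2
  set A := ((ε m : ℤ) : ℝ) * (a m ⬝ᵥ p) with hA
  set B := -((ε m : ℤ) : ℝ) * (a m ⬝ᵥ p') with hB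
  have hdot : ∀ k, a k ⬝ᵥ (B • p + A • p') = B * (a k ⬝ᵥ p) + A * (a k ⬝ᵥ p') := by
    intro k
    rw [dotProduct_add, dotProduct_smul, dotProduct_smul, smul_eq_mul, smul_eq_mul]
  have hpos : ∀ k, k ≠ x → ε' k = ε k →
      0 < ((ε k : ℤ) : ℝ) * (a k ⬝ᵥ (B • p + A • p')) := by
    intro k hk hkk
    have d1 := hp k hk
    have d2 := hp' k hk
    rw [hkk] at d2
    rw [hdot]
    have d3 := mul_pos c2 d1
    have d4 := mul_pos c1 d2
    have d5 : ((ε k : ℤ) : ℝ) * (B * (a k ⬝ᵥ p) + A * (a k ⬝ᵥ p')) =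
        B * (((ε k : ℤ) : ℝ) * (a k ⬝ᵥ p)) + A * (((ε k : ℤ) : ℝ) * (a k ⬝ᵥ p')) := by ring
    rw [d5]
    exact add_pos d3 d4
  have hy1 := hpos y hxy.symm hy
  have hz1 := hpos z hxz.symm hez
  have hwx : a x ⬝ᵥ (B • p + A • p') = 0 := by rw [hdot, hp0, hp0']; ring
  have hwm : a m ⬝ᵥ (B • p + A • p') = 0 := by
    rw [hdot, hA, hB]
    ring
  have k1 := insep_prod ha hxy hxz hyz hmx hmy hmz g1 g2 (insepFacts_ne hy1) hwx hwm
  have k2 := mul_pos hy1 hz1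
  have k3 := insepFacts_sq (ε x)
  set v := B • p + A • p' with hv
  have k4 : ((ε y : ℤ) : ℝ) * (a y ⬝ᵥ v) * (((ε z : ℤ) : ℝ) * (a z ⬝ᵥ v)) =
      (s * t) * ((a y ⬝ᵥ v) * (a z ⬝ᵥ v)) := by
    rw [← e1, ← e2]
    linear_combination (-(((ε y : ℤ) : ℝ) * ((ε z : ℤ) : ℝ) * (a y ⬝ᵥ v) * (a z ⬝ᵥ v))) * k3
  linarith

theorem interior_unique {a : ι → V3} (ha : Simple a) (hn : 3 ≤ Fintype.card ι) {x y z : ι}
    (h1 : Insep a x y) (h2 : Insep a x z) (hyz : y ≠ z) {ε ε' : ι → ℤˣ} (hε : Tope a ε)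
    (h5 : 5 ≤ sz a ε) (hx : Tope a (flip ε x)) (hε' : Tope a ε') (h5' : 5 ≤ sz a ε')
    (hx' : Tope a (flip ε' x)) : ε' = ε ∨ ε' = -ε := by
  by_cases hy : ε' y = ε y
  · left
    exact insepFacts_same ha hn h1 h2 hyz hε h5 hx hε' h5' hx' hy
  · right
    have hy2 : (-ε') y = ε y := by
      rw [Pi.neg_apply]
      rcases Int.units_eq_one_or (ε y) with h | h <;>
        rcases Int.units_eq_one_or (ε' y) with h' | h'
      · exact absurd (h'.trans h.symm) hy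
      · rw [h, h', neg_neg]
      · rw [h, h']
      · exact absurd (h'.trans h.symm) hy
    have h3 := insepFacts_same ha hn h1 h2 hyz hε h5 hx ((tope_neg a ε').mpr hε')
      (by rw [sz_neg]; exact h5') (by rw [flip_neg]; exact (tope_neg a _).mpr hx') hy2
    rw [← h3, neg_neg]

end InsepFacts

end Pool.Agent.H.MP_b7f8b0_co.helper73
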