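import Pool.Agent.H.MP_b7f8b0_co.helper73.Basic
import Pool.Agent.H.MP_b7f8b0_co.helper73.InsepFacts

set_option autoImplicit false
open Matrix

namespace Pool.Agent.H.MP_b7f8b0_co.helper73

/-! ### module Acyc -/
section Acyc
variable {ι : Type}

/-- the two neighbours of a vertex on a cycle -/
theorem Acyc_decomp {G : SimpleGraph ι} {x : ι} (c : G.Walk x x) (hc : c.IsCycle) :
    ∃ b1 b2, G.Adj x b1 ∧ G.Adj x b2 ∧ b1 ≠ b2 ∧ ∃ q : G.Walk b2 b1, x ∉ q.support ∧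
      ∀ y ∈ q.support, y ∈ c.support := by
  cases c with
  | nil => exact absurd hc (by simp)
  | @cons _ b1 _ h p =>
    rw [SimpleGraph.Walk.cons_isCycle_iff] at hc
    obtain ⟨hp, he⟩ := hc
    have hr : p.reverse.IsPath := (SimpleGraph.Walk.isPath_reverse_iff p).2 hp
    have hsub : ∀ y ∈ p.reverse.support, y ∈ p.support := by
      intro y hy
      rwa [SimpleGraph.Walk.support_reverse, List.mem_reverse] at hy
    have hed : ∀ e ∈ p.reverse.edges, e ∈ p.edges := by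
      intro y hy
      rwa [SimpleGraph.Walk.edges_reverse, List.mem_reverse] at hy
    generalize p.reverse = r at hr hsub hed
    cases r with
    | nil => exact absurd rfl h.ne
    | @cons _ b2 _ h' q =>
      rw [SimpleGraph.Walk.cons_isPath_iff] at hr
      refine ⟨b1, b2, h, h', ?_, q, hr.2, ?_⟩
      · rintro rfl
        apply he
        apply hed
        simp
      · intro y hy
        have := hsub y (by simp [hy])
        simp [this]

/-- the sign of the normalised product is constant along a walk -/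
theorem Acyc_walk {G : SimpleGraph ι} (P : ι → ℝ) (Q : ι → Prop)
    (h0 : ∀ x, Q x → P x ≠ 0) (h : ∀ x y, Q x → Q y → G.Adj x y → 0 < P x * P y) {u v : ι}
    (q : G.Walk u v) (hq : ∀ y ∈ q.support, Q y) : 0 < P u * P v := by
  induction q with
  | @nil b =>
    have := h0 b (hq b (by simp))
    exact mul_self_pos.2 this
  | @cons a b c hab p ih =>
    have h1 := ih (fun y hy => hq y (by simp [hy]))
    have h2 := h a b (hq a (by simp)) (hq b (by simp)) hab
    have h3 : P b ≠ 0 := h0 b (hq b (by simp))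
    have h4 : 0 < (P a * P c) * (P b * P b) := by
      have : (P a * P c) * (P b * P b) = (P a * P b) * (P b * P c) := by ring
      rw [this]; exact mul_pos h2 h1
    exact (pos_iff_pos_of_mul_pos h4).2 (mul_self_pos.2 h3)

/-- triple products -/
theorem Acyc_trip (u v w : V3) : u ⬝ᵥ (v ⨯₃ w) = -(v ⬝ᵥ (u ⨯₃ w)) := by
  rw [cross_apply, cross_apply, vec3_dotProduct, vec3_dotProduct]
  simp only [Matrix.cons_val_zero, Matrix.cons_val_one, Matrix.cons_val]
  ring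

theorem Acyc_ne {a : ι → V3} (ha : Simple a) {i j k : ι} (h1 : i ≠ j) (h2 : j ≠ k) (h3 : i ≠ k) :
    a i ⨯₃ a j ≠ 0 := by
  rw [crossProduct_ne_zero_iff_linearIndependent]
  have := ha i j k h1 h2 h3
  have h := this.comp (![0, 1] : Fin 2 → Fin 3) (by decide)
  have e : (![a i, a j] : Fin 2 → V3) = ![a i, a j, a k] ∘ (![0, 1] : Fin 2 → Fin 3) := by
    funext t; fin_cases t <;> rfl
  rw [e]; exact h

/-- the basic sign relation, normalised by `f` -/
theorem Acyc_star {a : ι → V3} (ha : Simple a) {z z' : ι} (hz : z ≠ z') {x y : ι}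
    (h : Insep a x y) (hxz : x ≠ z) (hxz' : x ≠ z') (hyz : y ≠ z) (hyz' : y ≠ z') {m m' : ι}
    (hm : m ≠ m') (hmx : m ≠ x) (hmy : m ≠ y) (hmx' : m' ≠ x) (hmy' : m' ≠ y) :
    0 < ((a x ⬝ᵥ (a z ⨯₃ a z')) * (a x ⬝ᵥ (a m ⨯₃ a m'))) *
      ((a y ⬝ᵥ (a z ⨯₃ a z')) * (a y ⬝ᵥ (a m ⨯₃ a m'))) := by
  obtain ⟨hxy, s, hs, hsgn⟩ := h
  have h1 := hsgn z z' hz hxz.symm hyz.symm hxz'.symm hyz'.symm (a z ⨯₃ a z')
    (Acyc_ne ha hz hxz'.symm hxz.symm) (dot_self_cross _ _) (dot_cross_self _ _)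
  have h2 := hsgn m m' hm hmx hmy hmx' hmy' (a m ⨯₃ a m')
    (Acyc_ne ha hm hmx' hmx) (dot_self_cross _ _) (dot_cross_self _ _)
  have h3 := mul_pos h1 h2
  have hss : s * s = 1 := by rcases hs with rfl | rfl <;> norm_num
  calc (0 : ℝ) < _ := h3
    _ = (s * s) * (((a x ⬝ᵥ (a z ⨯₃ a z')) * (a x ⬝ᵥ (a m ⨯₃ a m'))) *
      ((a y ⬝ᵥ (a z ⨯₃ a z')) * (a y ⬝ᵥ (a m ⨯₃ a m')))) := by ring
    _ = _ := by rw [hss, one_mul]

variable [DecidableEq ι] [Fintype ι]

/-- no cycle of the inseparability graph avoids two lines -/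
theorem no_cycle_avoiding {a : ι → V3} (ha : Simple a) {z z' : ι} (hz : z ≠ z') {x : ι}
    (c : (insepGraph a).Walk x x) (hc : c.IsCycle) (h1 : z ∉ c.support) (h2 : z' ∉ c.support) :
    False := by
  obtain ⟨b1, b2, hb1, hb2, hne, q, hxq, hsub⟩ := Acyc_decomp c hc
  have hxc : x ∈ c.support := c.start_mem_support
  have hb2c : b2 ∈ c.support := hsub _ q.start_mem_support
  have hb1c : b1 ∈ c.support := hsub _ q.end_mem_support
  have hxz : x ≠ z := fun h => h1 (h ▸ hxc)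
  have hxz' : x ≠ z' := fun h => h2 (h ▸ hxc)
  have hb1z : b1 ≠ z := fun h => h1 (h ▸ hb1c)
  have hb1z' : b1 ≠ z' := fun h => h2 (h ▸ hb1c)
  have hb2z : b2 ≠ z := fun h => h1 (h ▸ hb2c)
  have hb2z' : b2 ≠ z' := fun h => h2 (h ▸ hb2c)
  have hxb1 : x ≠ b1 := hb1.1
  have hxb2 : x ≠ b2 := hb2.1
  -- along the walk
  have e1 := Acyc_walk (G := insepGraph a)
    (fun y => (a y ⬝ᵥ (a z ⨯₃ a z')) * (a y ⬝ᵥ (a x ⨯₃ a z)))
    (fun y => y ≠ x ∧ y ≠ z ∧ y ≠ z')
    (by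
      rintro y ⟨hyx, hyz, hyz'⟩ h
      rcases mul_eq_zero.1 h with h | h
      · exact Acyc_ne ha hz hyz'.symm hyz.symm
          (gp3 ha hyz hz hyz' h (dot_self_cross _ _) (dot_cross_self _ _))
      · exact Acyc_ne ha hxz hyz.symm hyx.symm
          (gp3 ha hyx hxz hyz h (dot_self_cross _ _) (dot_cross_self _ _)))
    (by
      rintro y y' ⟨hyx, hyz, hyz'⟩ ⟨hyx', hyz1, hyz1'⟩ hadj
      exact Acyc_star ha hz hadj hyz hyz' hyz1 hyz1' hxz hyx.symm hyx'.symm hyz.symm hyz1.symm)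
    q (by
      intro y hy
      have hyc := hsub y hy
      exact ⟨fun h => hxq (h ▸ hy), fun h => h1 (h ▸ hyc), fun h => h2 (h ▸ hyc)⟩)
  have e2 := Acyc_star ha hz hb1 hxz hxz' hb1z hb1z' (m := b2) (m' := z) hb2z hxb2.symm hne.symm
    hxz.symm hb1z.symm
  have e3 := Acyc_star ha hz hb2 hxz hxz' hb2z hb2z' (m := b1) (m' := z) hb1z hxb1.symm hne
    hxz.symm hb2z.symm
  beta_reduce at e1
  have t1 := Acyc_trip (a x) (a b2) (a z)
  have t2 := Acyc_trip (a x) (a b1) (a z)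
  have t3 := Acyc_trip (a b1) (a b2) (a z)
  rw [t1] at e2
  rw [t2] at e3
  rw [t3] at e2
  have e4 := mul_pos (mul_pos e2 e3) e1
  generalize a x ⬝ᵥ (a z ⨯₃ a z') = f0 at e1 e2 e3 e4
  generalize a b1 ⬝ᵥ (a z ⨯₃ a z') = f1 at e1 e2 e3 e4
  generalize a b2 ⬝ᵥ (a z ⨯₃ a z') = f2 at e1 e2 e3 e4
  generalize a b2 ⬝ᵥ (a x ⨯₃ a z) = g2 at e1 e2 e3 e4
  generalize a b1 ⬝ᵥ (a x ⨯₃ a z) = g1 at e1 e2 e3 e4
  generalize a b2 ⬝ᵥ (a b1 ⨯₃ a z) = g at e1 e2 e3 e4
  have : (f0 * -g2 * (f1 * -g) * (f0 * -g1 * (f2 * g))) * (f2 * g2 * (f1 * g1)) =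
    -((f0 * g * f1 * f2 * g1 * g2) ^ 2) := by ring
  have h9 := sq_nonneg (f0 * g * f1 * f2 * g1 * g2)
  nlinarith

/-- transport along a walk -/
theorem Acyc_prop {G : SimpleGraph ι} (P Q : ι → Prop) (h : ∀ x y, Q x → P x → G.Adj x y → P y)
    {u v : ι} (q : G.Walk u v) (hq : ∀ y ∈ q.support, Q y) (hu : P u) : P v := by
  induction q with
  | nil => exact hu
  | @cons a b c hab p ih =>
    exact ih (fun y hy => hq y (by simp [hy])) (h a b (hq a (by simp)) hu hab)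

/-- all lines of a cycle carry edges of a large face -/
theorem Acyc_all {a : ι → V3} (ha : Simple a) (hn : 5 ≤ Fintype.card ι) {ε : ι → ℤˣ}
    (hε : Tope a ε) (h5 : 5 ≤ sz a ε) {x : ι} (c : (insepGraph a).Walk x x) (hc : c.IsCycle) :
    Tope a (flip ε x) := by
  classical
  -- every line of the cycle has two partners
  have hQ : ∀ u ∈ c.support, ∃ w w', w ≠ w' ∧ Insep a u w ∧ Insep a u w' := by
    intro u hu
    obtain ⟨b1, b2, h1, h2, h3, -⟩ := Acyc_decomp (c.rotate u hu) (hc.rotate hu)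
    exact ⟨b1, b2, h3, h1, h2⟩
  -- some edge of ε is a line of the cycle
  have hex : ∃ x0 ∈ c.support, Tope a (flip ε x0) := by
    have h2 : 1 < (edgeSet a ε).ncard := lt_of_lt_of_le (by norm_num) h5
    obtain ⟨i, hi, j, hj, hij⟩ := (Set.one_lt_ncard_iff_nontrivial_and_finite.1 h2).1
    by_contra hcon
    push Not at hcon
    exact no_cycle_avoiding ha hij c hc (fun h => hcon i h hi) (fun h => hcon j h hj)
  obtain ⟨x0, hx0, hx0t⟩ := hex
  refine Acyc_prop (G := insepGraph a) (fun y => Tope a (flip ε y)) (fun y => y ∈ c.support) ?_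
    (c.dropUntil x0 hx0) (fun y hy => c.support_dropUntil_subset_support hx0 hy) hx0t
  intro u w hu ht hadj
  obtain ⟨w1, w2, hne, hi1, hi2⟩ := hQ u hu
  have key : ∀ w', w' ≠ w → Insep a u w' → Tope a (flip ε w) := by
    intro w' hw' hi
    have := interior_nb ha (by omega) hadj hi hw'.symm hε h5 ht
    have hmem : w ∈ nb a ε u := by rw [this]; simp
    exact hmem.2.1
  by_cases hw : w1 = w
  · exact key w2 (fun h => hne (hw.trans h.symm)) hi2
  · exact key w1 hw hi1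

theorem insep_acyclic {a : ι → V3} (ha : Simple a) (hn : 5 ≤ Fintype.card ι) {ε ε' : ι → ℤˣ}
    (hε : Tope a ε) (h5 : 5 ≤ sz a ε) (hε' : Tope a ε') (h5' : 5 ≤ sz a ε') (h1 : ε' ≠ ε)
    (h2 : ε' ≠ -ε) : (insepGraph a).IsAcyclic := by
  intro x c hc
  obtain ⟨b1, b2, hb1, hb2, hne, -⟩ := Acyc_decomp c hc
  rcases interior_unique ha (by omega) hb1 hb2 hne hε h5 (Acyc_all ha hn hε h5 c hc) hε' h5'
    (Acyc_all ha hn hε' h5' c hc) with h | h
  · exact h1 h
  · exact h2 h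
end Acyc

end Pool.Agent.H.MP_b7f8b0_co.helper73
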