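import Pool.Agent.H.MP_b7f8b0_co.helper73.Chain

set_option autoImplicit false
open Matrix

namespace Pool.Agent.H.MP_b7f8b0_co.helper73

/-- choosing the faces for the construction with `n = P - e` -/
theorem choose_faces (K : Multiset ℕ) (hK : ∀ k ∈ K, 5 ≤ k) (e : ℕ) (he : 1 ≤ e) (hr : e + 2 ≤ K.card)
    (hg : ∃ g ∈ K, e + 4 ≤ g) (h6 : e = 1 ∨ e ≤ (K.filter (fun k => 6 ≤ k)).card) :
    ∃ (x0 y g : ℕ) (xs : List ℕ) (R : Multiset ℕ), K = x0 ::ₘ y ::ₘ g ::ₘ ((xs : Multiset ℕ) + R) ∧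
      5 ≤ x0 ∧ 5 ≤ y ∧ (∀ k ∈ xs, 6 ≤ k) ∧ xs.length + 1 = e ∧ xs.length + 5 ≤ g ∧ ∀ k ∈ R, 5 ≤ k := by
  classical
  obtain ⟨g, hgK, hg⟩ := hg
  obtain ⟨K1, hK1⟩ := Multiset.exists_cons_of_mem hgK
  -- the list xs
  have hxs : ∃ X : Multiset ℕ, X ≤ K1 ∧ X.card = e - 1 ∧ ∀ k ∈ X, 6 ≤ k := by
    rcases h6 with h6 | h6
    · exact ⟨0, Multiset.zero_le _, by simp [h6], by simp⟩
    · have h7 : e - 1 ≤ (K1.filter (fun k => 6 ≤ k)).card := by
        rw [hK1, Multiset.filter_cons] at h6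
        by_cases h8 : 6 ≤ g
        · rw [if_pos h8, Multiset.card_add, Multiset.card_singleton] at h6
          omega
        · rw [if_neg h8, zero_add] at h6
          omega
      have hX : ∃ X : Multiset ℕ, X ≤ K1.filter (fun k => 6 ≤ k) ∧ X.card = e - 1 := by
        refine ⟨((K1.filter (fun k => 6 ≤ k)).toList.take (e - 1) : List ℕ), ?_, ?_⟩
        · have h9 : ((K1.filter (fun k => 6 ≤ k)).toList : Multiset ℕ) = K1.filter (fun k => 6 ≤ k) :=
            Multiset.coe_toList _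
          conv_rhs => rw [← h9]
          exact Multiset.coe_le.2 (List.take_sublist _ _).subperm
        · rw [Multiset.coe_card, List.length_take, Multiset.length_toList]
          omega
      obtain ⟨X, hX1, hX2⟩ := hX
      refine ⟨X, hX1.trans (Multiset.filter_le _ _), hX2, ?_⟩
      intro k hk
      exact (Multiset.mem_filter.1 (Multiset.mem_of_le hX1 hk)).2
  obtain ⟨X, hX1, hX2, hX3⟩ := hxs
  obtain ⟨K2, hK2⟩ := Multiset.le_iff_exists_add.1 hX1
  have hc2 : 2 ≤ K2.card := by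
    have h1 : K.card = K1.card + 1 := by rw [hK1, Multiset.card_cons]
    have h2 : K1.card = X.card + K2.card := by rw [hK2, Multiset.card_add]
    omega
  obtain ⟨x0, hx0⟩ := Multiset.card_pos_iff_exists_mem.1 (show 0 < K2.card by omega)
  obtain ⟨K3, hK3⟩ := Multiset.exists_cons_of_mem hx0
  have hc3 : 1 ≤ K3.card := by
    rw [hK3, Multiset.card_cons] at hc2
    omega
  obtain ⟨y, hy⟩ := Multiset.card_pos_iff_exists_mem.1 (show 0 < K3.card by omega)
  obtain ⟨R, hR⟩ := Multiset.exists_cons_of_mem hy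
  have hKK : K = x0 ::ₘ y ::ₘ g ::ₘ (X + R) := by
    rw [hK1, hK2, hK3, hR]
    simp only [← Multiset.singleton_add]
    abel
  refine ⟨x0, y, g, X.toList, R, ?_, ?_, ?_, ?_, ?_, ?_, ?_⟩
  · rw [Multiset.coe_toList]; exact hKK
  · apply hK; rw [hKK]; simp
  · apply hK; rw [hKK]; simp
  · intro k hk
    exact hX3 k (Multiset.mem_toList.1 hk)
  · rw [Multiset.length_toList]; omega
  · rw [Multiset.length_toList]; omega
  · intro k hk
    apply hK; rw [hKK]
    simp [hk]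

theorem chain' (K : Multiset ℕ) (hK : ∀ k ∈ K, 5 ≤ k) (e : ℕ) (he : 1 ≤ e) (hr : e + 2 ≤ K.card)
    (hg : ∃ g ∈ K, e + 4 ≤ g) (h6 : e = 1 ∨ e ≤ (K.filter (fun k => 6 ≤ k)).card) :
    Rlz (4 + (K.map (fun k => k - 4)).sum - e) (4 + (K.map (fun k => k - 4)).sum) K := by
  obtain ⟨x0, y, g, xs, R, hKK, h0, hy, hxs, hl, hg, hR⟩ := choose_faces K hK e he hr hg h6
  have := chain R hR x0 y g h0 hy xs hxs hg
  rw [← hKK, hl] at this
  exact this

end Pool.Agent.H.MP_b7f8b0_co.helper73
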