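import Pool.Agent.H.MP_b7f8b0_co.helper73.Defs

set_option autoImplicit false

namespace Pool.Agent.H.MP_b7f8b0_co.helper73

/-! ### module FirstReturn (abstract) -/

private theorem first_return_rev {Ω : Type} (c g : Ω → Ω) (hc : ∀ x, c (c x) = x)
    (hg : ∀ x, g (g x) = x) (x : Ω) (hx : g x = x) (k : ℕ)
    (hk : (fun z => c (g z))^[k] x = x) :
    ∀ t, 1 ≤ t → t < k → g ((fun z => c (g z))^[k - t] x) = (fun z => c (g z))^[t] x := by
  intro t
  induction t with
  | zero => intro h; omega
  | succ t ih =>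
    intro _ htk
    rcases Nat.eq_zero_or_pos t with rfl | ht
    · have h1 : (fun z => c (g z))^[k] x = c (g ((fun z => c (g z))^[k - 1] x)) := by
        conv_lhs => rw [show k = (k - 1) + 1 by omega, Function.iterate_succ_apply']
      rw [hk] at h1
      have h2 : g ((fun z => c (g z))^[k - 1] x) = c x := by
        have h3 := congrArg c h1
        rw [hc] at h3
        exact h3.symm
      rw [zero_add, h2, Function.iterate_one]
      show c x = c (g x)
      rw [hx]
    · have h1 := ih ht (by omega)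
      have h2 : (fun z => c (g z))^[k - t] x = c (g ((fun z => c (g z))^[k - (t + 1)] x)) := by
        conv_lhs => rw [show k - t = (k - (t + 1)) + 1 by omega, Function.iterate_succ_apply']
      rw [Function.iterate_succ_apply']
      show _ = c (g _)
      rw [← h1, hg, h2, hc]

private theorem first_return_ne {Ω : Type} (c g : Ω → Ω) (hc : ∀ x, c (c x) = x)
    (hg : ∀ x, g (g x) = x) (hcf : ∀ x, c x ≠ x) (x : Ω) (hx : g x = x) (k : ℕ) (hk1 : 1 ≤ k)
    (hmin : ∀ t, 1 ≤ t → t < k → g ((fun z => c (g z))^[t] x) ≠ (fun z => c (g z))^[t] x) :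
    (fun z => c (g z))^[k] x ≠ x := by
  intro hk
  have h1 := first_return_rev c g hc hg x hx k hk
  rcases Nat.even_or_odd' k with ⟨t, rfl | rfl⟩
  · have h2 := h1 t (by omega) (by omega)
    rw [show 2 * t - t = t by omega] at h2
    exact hmin t (by omega) (by omega) h2
  · rcases Nat.eq_zero_or_pos t with rfl | ht
    · rw [Nat.mul_zero, zero_add, Function.iterate_one] at hk
      have h2 : c (g x) = x := hk
      rw [hx] at h2
      exact hcf x h2
    · have h2 := h1 t (by omega) (by omega)
      rw [show 2 * t + 1 - t = t + 1 by omega] at h2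
      have h3 : (fun z => c (g z))^[t + 1] x = c (g ((fun z => c (g z))^[t] x)) :=
        Function.iterate_succ_apply' _ _ _
      rw [← h2, hg] at h3
      exact hcf _ h3.symm

theorem first_return {Ω : Type} [Finite Ω] (c g : Ω → Ω) (hc : ∀ x, c (c x) = x)
    (hg : ∀ x, g (g x) = x) (hcf : ∀ x, c x ≠ x) :
    ∃ π : Ω → Ω, (∀ x, g x = x → g (π x) = π x ∧ π x ≠ x ∧ ∃ k, 1 ≤ k ∧
        (fun z => c (g z))^[k] x = π x ∧
        ∀ t, 1 ≤ t → t < k → g ((fun z => c (g z))^[t] x) ≠ (fun z => c (g z))^[t] x) ∧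
      (∀ x y, g x = x → g y = y → π x = π y → x = y) := by
  classical
  have hinj : Function.Injective (fun z => c (g z)) := by
    intro u v huv
    have h1 : g u = g v := by rw [← hc (g u), ← hc (g v)]; exact congrArg c huv
    rw [← hg u, ← hg v, h1]
  have hex : ∀ x, g x = x → ∃ k, 1 ≤ k ∧
      g ((fun z => c (g z))^[k] x) = (fun z => c (g z))^[k] x := by
    intro x hx
    obtain ⟨m, hm, hmx⟩ := hinj.mem_periodicPts x
    exact ⟨m, hm, by rw [show (fun z => c (g z))^[m] x = x from hmx, hx]⟩
  choose kk hkk using fun (x : Ω) => (show ∃ k, g x = x → (1 ≤ k ∧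
      g ((fun z => c (g z))^[k] x) = (fun z => c (g z))^[k] x ∧
      ∀ t, 1 ≤ t → t < k → g ((fun z => c (g z))^[t] x) ≠ (fun z => c (g z))^[t] x) by
    by_cases hx : g x = x
    · refine ⟨Nat.find (hex x hx), fun _ => ⟨(Nat.find_spec (hex x hx)).1,
        (Nat.find_spec (hex x hx)).2, fun t ht htk h => ?_⟩⟩
      exact Nat.find_min (hex x hx) htk ⟨ht, h⟩
    · exact ⟨0, fun h => absurd h hx⟩)
  refine ⟨fun x => (fun z => c (g z))^[kk x] x, fun x hx => ?_, ?_⟩
  · obtain ⟨h1, h2, h3⟩ := hkk x hx
    exact ⟨h2, first_return_ne c g hc hg hcf x hx _ h1 h3, kk x, h1, rfl, h3⟩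
  · have key : ∀ x y, g x = x → g y = y → kk x ≤ kk y →
        (fun z => c (g z))^[kk x] x = (fun z => c (g z))^[kk y] y → x = y := by
      intro x y hx hy hle h
      obtain ⟨h1, -, -⟩ := hkk x hx
      obtain ⟨-, -, h6⟩ := hkk y hy
      have h7 : (fun z => c (g z))^[kk x] x =
          (fun z => c (g z))^[kk x] ((fun z => c (g z))^[kk y - kk x] y) := by
        rw [h, ← Function.iterate_add_apply]
        congr 1
        omega
      have h8 : x = (fun z => c (g z))^[kk y - kk x] y := hinj.iterate _ h7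
      rcases Nat.eq_zero_or_pos (kk y - kk x) with h9 | h9
      · rw [h9] at h8
        exact h8
      · exact absurd (by rw [← h8, hx]) (h6 (kk y - kk x) h9 (by omega))
    intro x y hx hy h
    rcases le_total (kk x) (kk y) with h1 | h1
    · exact key x y hx hy h1 h
    · exact (key y x hy hx h1 h.symm).symm

end Pool.Agent.H.MP_b7f8b0_co.helper73
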