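import Pool.Agent.H.MP_b7f8b0_co.helper73.Tri

/-!
A path of quadrangles between two triangles gives an inseparable pair of lines.
-/

set_option autoImplicit false
open Matrix

namespace Pool.Agent.H.MP_b7f8b0_co.helper73

section PathInsep
variable {ι : Type} [DecidableEq ι] [Fintype ι]

/-- The corner of a triangle between two of its edges. -/
private theorem pathInsep_corner {a : ι → V3} (ha : Simple a) (hn : 4 ≤ Fintype.card ι)
    {ε : ι → ℤˣ} (h : Tope a ε) (h3 : sz a ε = 3) {x y : ι} (hxy : x ≠ y)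
    (hx : Tope a (flip ε x)) (hy : Tope a (flip ε y)) :
    ∃ v : V3, a x ⬝ᵥ v = 0 ∧ a y ⬝ᵥ v = 0 ∧
      ∀ k, k ≠ x → k ≠ y → 0 < ((ε k : ℤ) : ℝ) * (a k ⬝ᵥ v) := by
  have h1 := tri_corner ha (by omega) h h3 hx hy hxy
  exact corner_point hxy h hx hy h1.2.2

private theorem pathInsep_unit (e : ℤˣ) : ((e : ℤ) : ℝ) = 1 ∨ ((e : ℤ) : ℝ) = -1 := by
  rcases Int.units_eq_one_or e with h | h <;> rw [h] <;> simp

private theorem pathInsep_eq {e e' : ℤˣ} {r : ℝ} (h : 0 < ((e : ℤ) : ℝ) * r)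
    (h' : 0 < ((e' : ℤ) : ℝ) * r) : e' = e := by
  rcases Int.units_eq_one_or e with h1 | h1 <;> rcases Int.units_eq_one_or e' with h2 | h2 <;>
    rw [h1] at h ⊢ <;> rw [h2] at h' ⊢ <;> exfalso <;> push_cast at h h' <;> linarith

theorem path_insep {a : ι → V3} (ha : Simple a) (hn : 4 ≤ Fintype.card ι) {k : ℕ} (hk : 1 ≤ k)
    (F : ℕ → ι → ℤˣ) (i : ℕ → ι) {x y : ι} (hxy : x ≠ y)
    (hF : ∀ t, t < k → F (t + 1) = flip (F t) (i t)) (hT : ∀ t, t ≤ k → Tope a (F t))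
    (hnb : ∀ t, t < k → nb a (F t) (i t) = {x, y})
    (h0 : sz a (F 0) = 3) (hk3 : sz a (F k) = 3) (hne : F k ≠ F 0) : Insep a x y := by
  -- the lines `x`, `y` are never crossed
  have hxm : ∀ t, t < k → x ∈ nb a (F t) (i t) := fun t ht => by
    rw [hnb t ht]; exact Set.mem_insert _ _
  have hym : ∀ t, t < k → y ∈ nb a (F t) (i t) := fun t ht => by
    rw [hnb t ht]; exact Set.mem_insert_of_mem _ rfl
  have hxi : ∀ t, t < k → x ≠ i t := fun t ht => (hxm t ht).1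
  have hyi : ∀ t, t < k → y ≠ i t := fun t ht => (hym t ht).1
  have hconst : ∀ z, (∀ t, t < k → z ≠ i t) → ∀ t, t ≤ k → F t z = F 0 z := by
    intro z hz t
    induction t with
    | zero => intro _; rfl
    | succ t ih =>
      intro ht
      rw [hF t ht, flip_ne _ (hz t ht), ih (by omega)]
  have hFx := hconst x hxi
  have hFy := hconst y hyi
  -- the corners of the two triangles
  obtain ⟨v₀, hv₀x, hv₀y, hv₀⟩ := pathInsep_corner ha hn (hT 0 (Nat.zero_le k)) h0 hxy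
    (hxm 0 hk).2.1 (hym 0 hk).2.1
  obtain ⟨v₁, hv₁x, hv₁y, hv₁⟩ := pathInsep_corner ha hn (hT k le_rfl) hk3 hxy
    (by
      obtain ⟨l, rfl⟩ : ∃ l, k = l + 1 := ⟨k - 1, by omega⟩
      have h1 := nb_flip (hT l (by omega)) (by rw [← hF l (by omega)]; exact hT _ le_rfl)
      rw [← hF l (by omega)] at h1
      have h2 := hxm l (by omega)
      rw [← h1] at h2
      exact h2.2.1)
    (by
      obtain ⟨l, rfl⟩ : ∃ l, k = l + 1 := ⟨k - 1, by omega⟩
      have h1 := nb_flip (hT l (by omega)) (by rw [← hF l (by omega)]; exact hT _ le_rfl)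
      rw [← hF l (by omega)] at h1
      have h2 := hym l (by omega)
      rw [← h1] at h2
      exact h2.2.1)
  -- a third line
  obtain ⟨z, hz⟩ : ∃ z, z ∉ ({x, y} : Finset ι) := by
    by_contra hcon
    push Not at hcon
    have h1 : Fintype.card ι ≤ ({x, y} : Finset ι).card :=
      Finset.card_le_card fun z _ => hcon z
    have h2 := Finset.card_le_two (a := x) (b := y)
    omega
  rw [Finset.mem_insert, Finset.mem_singleton, not_or] at hz
  have hv₀0 : v₀ ≠ 0 := by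
    rintro rfl
    have h1 := hv₀ z hz.1 hz.2
    rw [dotProduct_zero, mul_zero] at h1
    exact lt_irrefl _ h1
  obtain ⟨c, hc⟩ := vertex_unique ha hxy (Ne.symm hz.2) (Ne.symm hz.1) hv₀0 hv₀x hv₀y hv₁x hv₁y
  have hopp : ∀ m, m ≠ x → m ≠ y → F k m ≠ F 0 m := by
    by_cases hc0 : 0 ≤ c
    · exfalso
      apply hne
      funext m
      by_cases hmx : m = x
      · rw [hmx]; exact hFx k le_rfl
      by_cases hmy : m = y
      · rw [hmy]; exact hFy k le_rfl
      have h1 := hv₀ m hmx hmy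
      have h2 := hv₁ m hmx hmy
      rw [hc, dotProduct_smul, smul_eq_mul] at h2
      rcases hc0.eq_or_lt with h3 | h3
      · rw [← h3, zero_mul, mul_zero] at h2
        exact absurd h2 (lt_irrefl _)
      · have h4 : 0 < ((F k m : ℤ) : ℝ) * (a m ⬝ᵥ v₀) := by
          have h5 : ((F k m : ℤ) : ℝ) * (c * a m ⬝ᵥ v₀) = c * (((F k m : ℤ) : ℝ) * a m ⬝ᵥ v₀) := by
            ring
          rw [h5] at h2
          exact (mul_pos_iff_of_pos_left h3).mp h2
        exact pathInsep_eq h1 h4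
    · intro m hmx hmy heq
      have h1 := hv₀ m hmx hmy
      have h2 := hv₁ m hmx hmy
      rw [hc, dotProduct_smul, smul_eq_mul, heq] at h2
      have h5 : ((F 0 m : ℤ) : ℝ) * (c * a m ⬝ᵥ v₀) = c * (((F 0 m : ℤ) : ℝ) * a m ⬝ᵥ v₀) := by
        ring
      rw [h5] at h2
      have h6 := mul_neg_of_neg_of_pos (not_le.mp hc0) h1
      linarith
  have hex : ∀ m, m ≠ x → m ≠ y → ∃ t, t < k ∧ m = i t := by
    intro m hmx hmy
    by_contra hcon
    push Not at hcon
    exact hopp m hmx hmy (hconst m hcon k le_rfl)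
  refine ⟨hxy, -(((F 0 x : ℤ) : ℝ) * ((F 0 y : ℤ) : ℝ)), ?_, ?_⟩
  · rcases pathInsep_unit (F 0 x) with h1 | h1 <;> rcases pathInsep_unit (F 0 y) with h2 | h2 <;>
      rw [h1, h2] <;> norm_num
  · intro m m' hmm hmx hmy hmx' hmy' v hv hmv hmv'
    obtain ⟨t, ht, hmt⟩ := hex m hmx hmy
    have hT' := hT t ht.le
    have hfl : Tope a (flip (F t) m) := by
      rw [hmt, ← hF t ht]
      exact hT _ ht
    have hx := hxm t ht
    have hy := hym t ht
    rw [← hmt] at hx hy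
    obtain ⟨u, hum, hux, hu⟩ := corner_point hmx hT' hfl hx.2.1 hx.2.2
    obtain ⟨w, hwm, hwy, hw⟩ := corner_point hmy hT' hfl hy.2.1 hy.2.2
    have hyu := hu y (Ne.symm hmy) (Ne.symm hxy)
    have hxw := hw x (Ne.symm hmx) hxy
    have hm'u := hu m' (Ne.symm hmm) hmx'
    have hm'w := hw m' (Ne.symm hmm) hmy'
    have hyu0 : a y ⬝ᵥ u ≠ 0 := by
      intro h; rw [h, mul_zero] at hyu; exact lt_irrefl _ hyu
    have hxw0 : a x ⬝ᵥ w ≠ 0 := by
      intro h; rw [h, mul_zero] at hxw; exact lt_irrefl _ hxw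
    set α := (a y ⬝ᵥ v) / (a y ⬝ᵥ u) with hα
    set β := (a x ⬝ᵥ v) / (a x ⬝ᵥ w) with hβ
    have hαu : a y ⬝ᵥ v = α * (a y ⬝ᵥ u) := by rw [hα, div_mul_cancel₀ _ hyu0]
    have hβw : a x ⬝ᵥ v = β * (a x ⬝ᵥ w) := by rw [hβ, div_mul_cancel₀ _ hxw0]
    have hzero : v - α • u - β • w = 0 := by
      refine gp3 ha hmx hxy hmy ?_ ?_ ?_
      · rw [dotProduct_sub, dotProduct_sub, dotProduct_smul, dotProduct_smul, hmv, hum, hwm]
        simp
      · rw [dotProduct_sub, dotProduct_sub, dotProduct_smul, dotProduct_smul, hβw, hux]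
        simp
      · rw [dotProduct_sub, dotProduct_sub, dotProduct_smul, dotProduct_smul, hαu, hwy]
        simp
    have hveq : v = α • u + β • w := by
      rw [sub_sub, sub_eq_zero] at hzero
      exact hzero
    have hcomb : α * (((F t m' : ℤ) : ℝ) * (a m' ⬝ᵥ u)) + β * (((F t m' : ℤ) : ℝ) * (a m' ⬝ᵥ w)) =
        0 := by
      have h1 : ((F t m' : ℤ) : ℝ) * (a m' ⬝ᵥ v) = 0 := by rw [hmv', mul_zero]
      rw [hveq, dotProduct_add, dotProduct_smul, dotProduct_smul, smul_eq_mul, smul_eq_mul] at h1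
      linarith
    have hαβ : α * β < 0 := by
      have hβ0 : β ≠ 0 := by
        intro h
        rw [h, zero_mul, add_zero] at hcomb
        have h1 : α = 0 := by
          rcases mul_eq_zero.mp hcomb with h2 | h2
          · exact h2
          · exact absurd h2 hm'u.ne'
        rw [h, h1] at hveq
        apply hv
        rw [hveq]
        simp
      have h1 : (α * β) * (((F t m' : ℤ) : ℝ) * (a m' ⬝ᵥ u)) =
          -(β ^ 2 * (((F t m' : ℤ) : ℝ) * (a m' ⬝ᵥ w))) := by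
        have h2 : α * (((F t m' : ℤ) : ℝ) * (a m' ⬝ᵥ u)) =
            -(β * (((F t m' : ℤ) : ℝ) * (a m' ⬝ᵥ w))) := by linarith
        calc (α * β) * (((F t m' : ℤ) : ℝ) * (a m' ⬝ᵥ u)) =
            β * (α * (((F t m' : ℤ) : ℝ) * (a m' ⬝ᵥ u))) := by ring
          _ = _ := by rw [h2]; ring
      have h3 : 0 < β ^ 2 * (((F t m' : ℤ) : ℝ) * (a m' ⬝ᵥ w)) :=
        mul_pos (by positivity) hm'w
      by_contra hcon
      have h4 : 0 ≤ (α * β) * (((F t m' : ℤ) : ℝ) * (a m' ⬝ᵥ u)) :=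
        mul_nonneg (not_lt.mp hcon) hm'u.le
      linarith
    rw [hβw, hαu, ← hFx t ht.le, ← hFy t ht.le]
    have h5 : -(((F t x : ℤ) : ℝ) * ((F t y : ℤ) : ℝ)) * (β * (a x ⬝ᵥ w) * (α * (a y ⬝ᵥ u))) =
        (-(α * β)) * ((((F t x : ℤ) : ℝ) * (a x ⬝ᵥ w)) * (((F t y : ℤ) : ℝ) * (a y ⬝ᵥ u))) := by
      ring
    rw [h5]
    exact mul_pos (by linarith) (mul_pos hxw hyu)

end PathInsep

end Pool.Agent.H.MP_b7f8b0_co.helper73
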