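import Pool.Agent.H.MP_b7f8b0_co.helper73.TwoNbr

/-! Triangles and quadrangles: neighbouring edges. -/

set_option autoImplicit false
open Matrix

namespace Pool.Agent.H.MP_b7f8b0_co.helper73

section Tri
variable {ι : Type} [DecidableEq ι] [Fintype ι]

theorem nb_symm {a : ι → V3} {ε : ι → ℤˣ} {i j : ι} (hi : Tope a (flip ε i)) (h : j ∈ nb a ε i) :
    i ∈ nb a ε j := by
  obtain ⟨h1, _, h3⟩ := h
  exact ⟨h1.symm, hi, by rwa [flip_comm]⟩

theorem nb_flip {a : ι → V3} {ε : ι → ℤˣ} {i : ι} (h : Tope a ε) (hi : Tope a (flip ε i)) :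
    nb a (flip ε i) i = nb a ε i := by
  have _ := h
  have _ := hi
  ext j
  unfold nb
  rw [Set.mem_ofPred_eq, Set.mem_ofPred_eq, flip_flip]
  tauto

theorem nb_sub_edgeSet {a : ι → V3} {ε : ι → ℤˣ} {i : ι} : nb a ε i ⊆ edgeSet a ε :=
  fun _ h => h.2.1

theorem Tri_insert {a : ι → V3} (ha : Simple a) (hn : 3 ≤ Fintype.card ι) {ε : ι → ℤˣ} {i : ι}
    (h : Tope a ε) (hi : Tope a (flip ε i)) :
    insert i (nb a ε i) ⊆ edgeSet a ε ∧ (insert i (nb a ε i)).ncard = 3 := by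
  refine ⟨Set.insert_subset hi nb_sub_edgeSet, ?_⟩
  rw [Set.ncard_insert_of_notMem (fun h1 => h1.1 rfl), nb_ncard ha hn h hi]

theorem three_le_sz {a : ι → V3} (ha : Simple a) (hn : 3 ≤ Fintype.card ι) {ε : ι → ℤˣ} {i : ι}
    (h : Tope a ε) (hi : Tope a (flip ε i)) : 3 ≤ sz a ε := by
  obtain ⟨h1, h2⟩ := Tri_insert ha hn h hi
  rw [← h2]
  exact Set.ncard_le_ncard h1

theorem Tri_eq {a : ι → V3} (ha : Simple a) (hn : 3 ≤ Fintype.card ι) {ε : ι → ℤˣ} {i : ι}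
    (h : Tope a ε) (h3 : sz a ε = 3) (hi : Tope a (flip ε i)) :
    edgeSet a ε = insert i (nb a ε i) := by
  obtain ⟨h1, h2⟩ := Tri_insert ha hn h hi
  refine (Set.eq_of_subset_of_ncard_le h1 ?_).symm
  rw [h2]
  exact h3.le

/-- in a triangle any two edges meet -/
theorem tri_corner {a : ι → V3} (ha : Simple a) (hn : 3 ≤ Fintype.card ι) {ε : ι → ℤˣ} {i j : ι}
    (h : Tope a ε) (h3 : sz a ε = 3) (hi : Tope a (flip ε i)) (hj : Tope a (flip ε j)) (hij : i ≠ j) :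
    j ∈ nb a ε i := by
  have h1 : j ∈ edgeSet a ε := hj
  rw [Tri_eq ha hn h h3 hi] at h1
  rcases h1 with h1 | h1
  · exact absurd h1.symm hij
  · exact h1

theorem Tri_sign {s : ℤˣ} {t c : ℝ} (h1 : 0 < ((s : ℤ) : ℝ) * t)
    (h2 : 0 < ((s : ℤ) : ℝ) * (c * t)) : 0 < c := by
  have h3 : ((s : ℤ) : ℝ) * (c * t) = c * (((s : ℤ) : ℝ) * t) := by ring
  rw [h3] at h2
  exact (pos_iff_pos_of_mul_pos h2).2 h1

theorem no_adj_tri {a : ι → V3} (ha : Simple a) (hn : 4 ≤ Fintype.card ι) {ε : ι → ℤˣ} {i : ι}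
    (h : Tope a ε) (h3 : sz a ε = 3) (hi : Tope a (flip ε i)) : sz a (flip ε i) ≠ 3 := by
  intro h3'
  have hn3 : 3 ≤ Fintype.card ι := by omega
  have hi' : Tope a (flip (flip ε i) i) := by rwa [flip_flip]
  have hE := Tri_eq ha hn3 h h3 hi
  have hE' := Tri_eq ha hn3 hi h3' hi'
  rw [nb_flip h hi, ← hE] at hE'
  obtain ⟨b, c, hbc, hnb⟩ := Set.ncard_eq_two.1 (nb_ncard ha hn3 h hi)
  have hb : b ∈ nb a ε i := by
    rw [hnb]
    exact Set.mem_insert b _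
  have hc : c ∈ nb a ε i := by
    rw [hnb]
    exact Set.mem_insert_of_mem b rfl
  have hb' : Tope a (flip (flip ε i) b) := hb.2.2
  have hc' : Tope a (flip (flip ε i) c) := hc.2.2
  have h1 := tri_corner ha hn3 h h3 hb.2.1 hc.2.1 hbc
  have h2 := tri_corner ha hn3 hi h3' hb' hc' hbc
  obtain ⟨v, hvb, hvc, hv⟩ := corner_point hbc h hb.2.1 hc.2.1 h1.2.2
  obtain ⟨v', hvb', hvc', hv'⟩ := corner_point hbc hi hb' hc' h2.2.2
  have hib : i ≠ b := hb.1.symm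
  have hic : i ≠ c := hc.1.symm
  have hv0 : v ≠ 0 := by
    rintro rfl
    have := hv i hib hic
    simp at this
  obtain ⟨r, rfl⟩ := vertex_unique ha hbc hic.symm hib.symm hv0 hvb hvc hvb' hvc'
  obtain ⟨k, hk⟩ : ∃ k, k ∉ ({i, b, c} : Finset ι) := by
    by_contra hcon
    push Not at hcon
    have h4 : (Finset.univ : Finset ι) ⊆ {i, b, c} := fun k _ => hcon k
    have h5 := Finset.card_le_card h4
    have h6 := Finset.card_le_three (a := i) (b := b) (c := c)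
    rw [Finset.card_univ] at h5
    omega
  simp only [Finset.mem_insert, Finset.mem_singleton, not_or] at hk
  obtain ⟨hki, hkb, hkc⟩ := hk
  have e1 := hv i hib hic
  have e2 := hv' i hib hic
  have e3 := hv k hkb hkc
  have e4 := hv' k hkb hkc
  rw [dotProduct_smul, smul_eq_mul] at e2 e4
  rw [flip_ne _ hki] at e4
  rw [flip_same, Units.val_neg, Int.cast_neg] at e2
  have r1 := Tri_sign e3 e4
  have r2 : ((ε i : ℤ) : ℝ) * (r * (a i ⬝ᵥ v)) = r * (((ε i : ℤ) : ℝ) * (a i ⬝ᵥ v)) := by ring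
  have r3 := mul_pos r1 e1
  rw [← r2] at r3
  linarith

/-- the opposite edge in a quadrangle -/
theorem quad_opp {a : ι → V3} (ha : Simple a) (hn : 3 ≤ Fintype.card ι) {ε : ι → ℤˣ} {i : ι}
    (h : Tope a ε) (h4 : sz a ε = 4) (hi : Tope a (flip ε i)) :
    ∃ j, j ≠ i ∧ Tope a (flip ε j) ∧ j ∉ nb a ε i ∧ nb a ε j = nb a ε i ∧
      ∀ k, Tope a (flip ε k) → k ≠ i → k ∉ nb a ε i → k = j := by
  obtain ⟨h1, h2⟩ := Tri_insert ha hn h hi
  have h5 : (edgeSet a ε \ insert i (nb a ε i)).ncard = 1 := by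
    rw [Set.ncard_sdiff h1, h2]
    change sz a ε - 3 = 1
    rw [h4]
  obtain ⟨j, hj⟩ := Set.ncard_eq_one.1 h5
  have hj1 : j ∈ edgeSet a ε \ insert i (nb a ε i) := by
    rw [hj]
    rfl
  obtain ⟨hjE, hjn⟩ := hj1
  rw [Set.mem_insert_iff, not_or] at hjn
  have huniq : ∀ k, Tope a (flip ε k) → k ≠ i → k ∉ nb a ε i → k = j := by
    intro k hk hki hkn
    have : k ∈ edgeSet a ε \ insert i (nb a ε i) := by
      refine ⟨hk, ?_⟩
      rw [Set.mem_insert_iff, not_or]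
      exact ⟨hki, hkn⟩
    rw [hj] at this
    exact this
  refine ⟨j, hjn.1, hjE, hjn.2, ?_, huniq⟩
  refine Set.eq_of_subset_of_ncard_le ?_ ?_
  · intro k hk
    by_contra hkn
    have hki : k ≠ i := by
      rintro rfl
      exact hjn.2 (nb_symm hjE hk)
    exact hk.1 (huniq k hk.2.1 hki hkn)
  · rw [nb_ncard ha hn h hi, nb_ncard ha hn h hjE]

end Tri

end Pool.Agent.H.MP_b7f8b0_co.helper73
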