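import Pool.Agent.H.MP_b7f8b0_co.helper73.Basic

set_option autoImplicit false
open Matrix

namespace Pool.Agent.H.MP_b7f8b0_co.helper73

section TwoNbr
variable {ι : Type} [DecidableEq ι] [Fintype ι]

omit [DecidableEq ι] [Fintype ι] in
/-- a vector of the plane of the line `i` orthogonal to `p` -/
private theorem TwoNbr_frame (u p : V3) (hu : u ≠ 0) (hp : p ≠ 0) (h : u ⬝ᵥ p = 0) :
    ∃ q : V3, u ⬝ᵥ q = 0 ∧ p ⬝ᵥ q = 0 ∧ q ≠ 0 := by
  refine ⟨crossProduct u p, ?_, ?_, ?_⟩
  · exact dot_self_cross u p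
  · exact dot_cross_self u p
  · intro hq
    have h1 := cross_dot_cross u p u p
    rw [hq, zero_dotProduct, dotProduct_comm p u, h, zero_mul, sub_zero] at h1
    rcases mul_eq_zero.1 h1.symm with h2 | h2
    · exact hu (dotProduct_self_eq_zero.1 h2)
    · exact hp (dotProduct_self_eq_zero.1 h2)

theorem nb_ncard {a : ι → V3} (ha : Simple a) (hn : 3 ≤ Fintype.card ι) {ε : ι → ℤˣ} {i : ι}
    (h : Tope a ε) (hi : Tope a (flip ε i)) : (nb a ε i).ncard = 2 := by
  classical
  obtain ⟨p, hip, hp⟩ := edge_point h hi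
  have hai := simple_ne_zero ha hn i
  -- other lines
  have hcard : 2 ≤ (Finset.univ.erase i).card := by
    rw [Finset.card_erase_of_mem (Finset.mem_univ i), Finset.card_univ]
    omega
  have hother : ∀ j, j ≠ i → ∃ k, k ≠ i ∧ k ≠ j := by
    intro j hj
    have h1 : 0 < ((Finset.univ.erase i).erase j).card := by
      rw [Finset.card_erase_of_mem (Finset.mem_erase.2 ⟨hj, Finset.mem_univ j⟩)]
      omega
    obtain ⟨k, hk⟩ := Finset.card_pos.1 h1
    exact ⟨k, (Finset.mem_erase.1 (Finset.mem_erase.1 hk).2).1, (Finset.mem_erase.1 hk).1⟩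
  have hne : (Finset.univ.erase i).Nonempty := Finset.card_pos.1 (by omega)
  have hp0 : p ≠ 0 := by
    obtain ⟨k, hk⟩ := hne
    intro h1
    have h2 := hp k (Finset.mem_erase.1 hk).1
    rw [h1, dotProduct_zero, mul_zero] at h2
    exact lt_irrefl _ h2
  obtain ⟨q, hiq, hpq, hq0⟩ := TwoNbr_frame (a i) p hai hp0 hip
  have hap : ∀ k, k ≠ i → a k ⬝ᵥ p ≠ 0 := by
    intro k hk h1
    have h2 := hp k hk
    rw [h1, mul_zero] at h2
    exact lt_irrefl _ h2
  obtain ⟨t, ht⟩ : ∃ t : ι → ℝ, t = fun k => (a k ⬝ᵥ q) / (a k ⬝ᵥ p) := ⟨_, rfl⟩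
  have ht' : ∀ k, k ≠ i → a k ⬝ᵥ q = t k * (a k ⬝ᵥ p) := by
    intro k hk
    rw [ht]
    field_simp [hap k hk]
  obtain ⟨v, hv⟩ : ∃ v : ι → V3, v = fun j => q - t j • p := ⟨_, rfl⟩
  have hvi : ∀ j, a i ⬝ᵥ v j = 0 := by
    intro j
    rw [hv, dotProduct_sub, dotProduct_smul, hiq, hip, smul_zero, sub_zero]
  have hvk : ∀ j k, k ≠ i → a k ⬝ᵥ v j = (a k ⬝ᵥ p) * (t k - t j) := by
    intro j k hk
    rw [hv, dotProduct_sub, dotProduct_smul, ht' k hk, smul_eq_mul]
    ring
  have hvj : ∀ j, j ≠ i → a j ⬝ᵥ v j = 0 := by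
    intro j hj
    rw [hvk j j hj, sub_self, mul_zero]
  have hv0 : ∀ j, v j ≠ 0 := by
    intro j h1
    rw [hv] at h1
    have h2 : q = t j • p := sub_eq_zero.1 h1
    apply hq0
    have h3 : q ⬝ᵥ q = 0 := by
      conv_lhs => rw [h2]
      rw [smul_dotProduct, ← h2, hpq, smul_zero]
    exact dotProduct_self_eq_zero.1 h3
  have hinj : ∀ j k, j ≠ i → k ≠ i → t j = t k → j = k := by
    intro j k hj hk h1
    by_contra h2
    refine hv0 j (gp3 ha hj.symm h2 hk.symm (hvi j) (hvj j hj) ?_)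
    rw [hvk j k hk, h1, sub_self, mul_zero]
  -- characterisation
  have hchar : ∀ j, j ≠ i → (j ∈ nb a ε i ↔
      (∀ k, k ≠ i → k ≠ j → t j < t k) ∨ (∀ k, k ≠ i → k ≠ j → t k < t j)) := by
    intro j hj
    constructor
    · rintro ⟨-, h1, h2⟩
      obtain ⟨w, hw1, hw2, hw3⟩ := corner_point hj.symm h hi h1 h2
      obtain ⟨k0, hk0, hk0'⟩ := hother j hj
      obtain ⟨c, hc⟩ := vertex_unique ha hj.symm hk0'.symm hk0.symm (hv0 j) (hvi j) (hvj j hj)
        hw1 hw2
      have key : ∀ k, k ≠ i → k ≠ j → 0 < c * (t k - t j) := by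
        intro k hk hkj
        have h3 := hw3 k hk hkj
        rw [hc, dotProduct_smul, hvk j k hk, smul_eq_mul] at h3
        have h4 := hp k hk
        have h5 : ((ε k : ℤ) : ℝ) * (c * (a k ⬝ᵥ p * (t k - t j))) =
            (((ε k : ℤ) : ℝ) * (a k ⬝ᵥ p)) * (c * (t k - t j)) := by ring
        rw [h5] at h3
        exact (pos_iff_pos_of_mul_pos h3).1 h4
      rcases lt_trichotomy c 0 with hc0 | hc0 | hc0
      · right
        intro k hk hkj
        have h3 := key k hk hkj
        by_contra h4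
        have h5 : 0 ≤ t k - t j := by linarith [not_lt.1 h4]
        have h6 := mul_nonpos_of_nonpos_of_nonneg hc0.le h5
        linarith
      · have h3 := key k0 hk0 hk0'
        rw [hc0, zero_mul] at h3
        exact absurd h3 (lt_irrefl _)
      · left
        intro k hk hkj
        have h3 := key k hk hkj
        by_contra h4
        have h5 : t k - t j ≤ 0 := by linarith [not_lt.1 h4]
        have h6 := mul_nonpos_of_nonneg_of_nonpos hc0.le h5
        linarith
    · intro hcase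
      have hlin := simple_pair ha hn hj.symm
      obtain ⟨w, hw1, hw2, hw3⟩ : ∃ w : V3, a i ⬝ᵥ w = 0 ∧ a j ⬝ᵥ w = 0 ∧
          ∀ k, k ≠ i → k ≠ j → 0 < ((ε k : ℤ) : ℝ) * (a k ⬝ᵥ w) := by
        rcases hcase with h1 | h1
        · refine ⟨v j, hvi j, hvj j hj, fun k hk hkj => ?_⟩
          rw [hvk j k hk, ← mul_assoc]
          exact mul_pos (hp k hk) (sub_pos.2 (h1 k hk hkj))
        · refine ⟨-v j, by rw [dotProduct_neg, hvi, neg_zero],
            by rw [dotProduct_neg, hvj j hj, neg_zero], fun k hk hkj => ?_⟩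
          rw [dotProduct_neg, hvk j k hk]
          have h2 : ((ε k : ℤ) : ℝ) * -(a k ⬝ᵥ p * (t k - t j)) =
              (((ε k : ℤ) : ℝ) * (a k ⬝ᵥ p)) * (t j - t k) := by ring
          rw [h2]
          exact mul_pos (hp k hk) (sub_pos.2 (h1 k hk hkj))
      refine ⟨hj, ?_, ?_⟩
      · exact tope_of_corner_point hlin hw1 hw2 hw3 fun k hk hkj => flip_ne ε hkj
      · exact tope_of_corner_point hlin hw1 hw2 hw3 fun k hk hkj => by
          rw [flip_ne _ hkj, flip_ne _ hk]
  obtain ⟨j1, hj1, hmin⟩ := Finset.exists_min_image (Finset.univ.erase i) t hne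
  obtain ⟨j2, hj2, hmax⟩ := Finset.exists_max_image (Finset.univ.erase i) t hne
  have hj1i := (Finset.mem_erase.1 hj1).1
  have hj2i := (Finset.mem_erase.1 hj2).1
  have hmin' : ∀ k, k ≠ i → k ≠ j1 → t j1 < t k := by
    intro k hk hkj
    refine lt_of_le_of_ne (hmin k (Finset.mem_erase.2 ⟨hk, Finset.mem_univ k⟩)) fun h1 => ?_
    exact hkj (hinj j1 k hj1i hk h1).symm
  have hmax' : ∀ k, k ≠ i → k ≠ j2 → t k < t j2 := by
    intro k hk hkj
    refine lt_of_le_of_ne (hmax k (Finset.mem_erase.2 ⟨hk, Finset.mem_univ k⟩)) fun h1 => ?_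
    exact hkj (hinj k j2 hk hj2i h1)
  have h12 : j1 ≠ j2 := by
    intro h1
    obtain ⟨k, hk, hkj⟩ := hother j1 hj1i
    have h2 := hmin' k hk hkj
    have h3 := hmax' k hk (h1 ▸ hkj)
    rw [← h1] at h3
    exact lt_irrefl _ (h2.trans h3)
  have hset : nb a ε i = {j1, j2} := by
    ext j
    rw [Set.mem_insert_iff, Set.mem_singleton_iff]
    constructor
    · intro hj
      have hji : j ≠ i := hj.1
      rcases (hchar j hji).1 hj with h1 | h1
      · left
        by_contra h2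
        have h3 := h1 j1 hj1i (Ne.symm h2)
        have h4 := hmin' j hji h2
        exact lt_irrefl _ (h3.trans h4)
      · right
        by_contra h2
        have h3 := h1 j2 hj2i (Ne.symm h2)
        have h4 := hmax' j hji h2
        exact lt_irrefl _ (h3.trans h4)
    · rintro (rfl | rfl)
      · exact (hchar _ hj1i).2 (Or.inl hmin')
      · exact (hchar _ hj2i).2 (Or.inr hmax')
  rw [hset, Set.ncard_pair h12]
end TwoNbr

end Pool.Agent.H.MP_b7f8b0_co.helper73
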