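import Pool.Agent.H.MP_b7f8b0_co.helper73.Basic
import Pool.Agent.H.MP_b7f8b0_co.helper73.TwoNbr
import Pool.Agent.H.MP_b7f8b0_co.helper73.Tri
import Pool.Agent.H.MP_b7f8b0_co.helper73.PathInsep
import Pool.Agent.H.MP_b7f8b0_co.helper73.FirstReturn

set_option autoImplicit false
open Matrix

namespace Pool.Agent.H.MP_b7f8b0_co.helper73

section Beam
variable {ι : Type} [DecidableEq ι] [Fintype ι]

/-- sides: a face together with one of its edges -/
private abbrev Side (a : ι → V3) : Type :=
  {p : (ι → ℤˣ) × ι // Tope a p.1 ∧ Tope a (flip p.1 p.2)}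

/-- the other side of the same edge -/
private def crs (a : ι → V3) (p : Side a) : Side a :=
  ⟨(flip p.1.1 p.1.2, p.1.2), p.2.2, by
    show Tope a (flip (flip p.1.1 p.1.2) p.1.2)
    rw [flip_flip]
    exact p.2.1⟩

omit [Fintype ι] in
private theorem crs_crs (a : ι → V3) (p : Side a) : crs a (crs a p) = p := by
  apply Subtype.ext
  show (flip (flip p.1.1 p.1.2) p.1.2, p.1.2) = p.1
  rw [flip_flip]

omit [Fintype ι] in
private theorem crs_ne (a : ι → V3) (p : Side a) : crs a p ≠ p := by
  intro h
  have h1 : flip p.1.1 p.1.2 = p.1.1 := congrArg (fun q : Side a => q.1.1) h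
  exact flip_ne_self _ _ h1

/-- the neighbours of an edge -/
private def sn (a : ι → V3) (p : Side a) : Set ι := nb a p.1.1 p.1.2

private theorem sn_crs (a : ι → V3) (p : Side a) : sn a (crs a p) = sn a p :=
  nb_flip p.2.1 p.2.2

/-- the opposite side in a quadrangle, identity elsewhere -/
private theorem exists_opp {a : ι → V3} (ha : Simple a) (hn : 4 ≤ Fintype.card ι) :
    ∃ g : Side a → Side a, (∀ p, g (g p) = p) ∧ (∀ p, (g p).1.1 = p.1.1) ∧
      (∀ p, sn a (g p) = sn a p) ∧ (∀ p, g p = p ↔ sz a p.1.1 ≠ 4) := by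
  classical
  have hopp : ∀ p : Side a, ∃ q : Side a, q.1.1 = p.1.1 ∧ sn a q = sn a p ∧
      (q = p ↔ sz a p.1.1 ≠ 4) ∧ (∀ r : Side a, r.1.1 = p.1.1 → sz a p.1.1 = 4 →
        r ≠ p → r.1.2 ∉ sn a p → r = q) ∧ (sz a p.1.1 = 4 → q.1.2 ∉ sn a p) := by
    intro p
    by_cases h4 : sz a p.1.1 = 4
    · obtain ⟨j, hj1, hj2, hj3, hj4, hj5⟩ := quad_opp ha (by omega) p.2.1 h4 p.2.2
      refine ⟨⟨(p.1.1, j), p.2.1, hj2⟩, rfl, hj4, ?_, ?_, fun _ => hj3⟩
      · constructor
        · intro h
          exact absurd (congrArg (fun q : Side a => q.1.2) h) hj1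
        · intro h
          exact absurd h4 h
      · intro r hr _ hrp hrn
        apply Subtype.ext
        have h1 : r.1.2 = j := by
          apply hj5
          · rw [← hr]; exact r.2.2
          · intro h
            apply hrp
            apply Subtype.ext
            exact Prod.ext hr h
          · exact hrn
        exact Prod.ext hr h1
    · exact ⟨p, rfl, rfl, ⟨fun _ => h4, fun _ => rfl⟩, fun _ _ h => absurd h h4,
        fun h => absurd h h4⟩
  choose g h1 h2 h3 h4 h5 using hopp
  refine ⟨g, fun p => ?_, h1, h2, h3⟩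
  by_cases h : sz a p.1.1 = 4
  · symm
    apply h4 (g p) p (h1 p).symm
    · rw [h1]; exact h
    · intro h6
      exact absurd h ((h3 p).1 h6.symm)
    · rw [h2 p]
      intro h7
      exact h7.1 rfl
  · have h6 : g p = p := (h3 p).2 h
    rw [h6, h6]

/-- a triangle has only one side with given neighbours -/
private theorem side_unique {a : ι → V3} (ha : Simple a) (hn : 4 ≤ Fintype.card ι)
    {p q : Side a} (h : p.1.1 = q.1.1) (h3 : sz a p.1.1 = 3) (hs : sn a p = sn a q) : p = q := by
  by_contra hne
  have h1 : p.1.2 ≠ q.1.2 := fun h1 => hne (Subtype.ext (Prod.ext h h1))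
  have h2 : q.1.2 ∈ nb a p.1.1 p.1.2 :=
    tri_corner ha (by omega) p.2.1 h3 p.2.2 (by rw [h]; exact q.2.2) h1
  have h4 : q.1.2 ∈ sn a q := by
    rw [← hs]; exact h2
  exact h4.1 rfl

/-- at most four triangle sides have the neighbours `x`, `y` -/
private theorem fibre_le {a : ι → V3} (ha : Simple a) (hn : 4 ≤ Fintype.card ι) (S : Finset (Side a))
    (N : Set ι) (hS : ∀ p ∈ S, sz a p.1.1 = 3 ∧ sn a p = N) : S.card ≤ 4 := by
  classical
  rcases S.eq_empty_or_nonempty with rfl | ⟨p0, hp0⟩
  · simp
  have hN : N.ncard = 2 := by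
    rw [← (hS p0 hp0).2]
    exact nb_ncard ha (by omega) p0.2.1 p0.2.2
  obtain ⟨x, y, hxy, rfl⟩ := Set.ncard_eq_two.1 hN
  obtain ⟨m, hmx, hmy⟩ : ∃ m : ι, m ≠ x ∧ m ≠ y := by
    by_contra hcon
    push Not at hcon
    have h1 : (Finset.univ : Finset ι) ⊆ {x, y} := by
      intro m _
      rw [Finset.mem_insert, Finset.mem_singleton]
      by_cases h : m = x
      · exact Or.inl h
      · exact Or.inr (hcon m h)
    have h2 := Finset.card_le_card h1
    rw [Finset.card_univ, Finset.card_pair hxy] at h2
    omega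
  -- the corner `x`, `y`
  have hcorner : ∀ p ∈ S, Tope a (flip p.1.1 x) ∧ Tope a (flip p.1.1 y) ∧
      Tope a (flip (flip p.1.1 x) y) := by
    intro p hp
    obtain ⟨h3, h4⟩ := hS p hp
    have hx : x ∈ nb a p.1.1 p.1.2 := by
      have : x ∈ sn a p := by rw [h4]; simp
      exact this
    have hy : y ∈ nb a p.1.1 p.1.2 := by
      have : y ∈ sn a p := by rw [h4]; simp
      exact this
    have h5 : y ∈ nb a p.1.1 x :=
      tri_corner ha (by omega) p.2.1 h3 hx.2.1 hy.2.1 hxy
    exact ⟨hx.2.1, hy.2.1, h5.2.2⟩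
  have hinj : Set.InjOn (fun p : Side a => (p.1.1 m, p.1.1 y)) (S : Set (Side a)) := by
    intro p hp q hq hpq
    have hp' : p ∈ S := hp
    have hq' : q ∈ S := hq
    obtain ⟨hpx, hpy, hpxy⟩ := hcorner p hp'
    obtain ⟨hqx, hqy, hqxy⟩ := hcorner q hq'
    have hm : p.1.1 m = q.1.1 m := congrArg Prod.fst hpq
    have hy : p.1.1 y = q.1.1 y := congrArg Prod.snd hpq
    obtain ⟨v, hv1, hv2, hv3⟩ := corner_point hxy p.2.1 hpx hpy hpxy
    obtain ⟨w, hw1, hw2, hw3⟩ := corner_point hxy q.2.1 hqx hqy hqxy
    have hv0 : v ≠ 0 := by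
      rintro rfl
      have := hv3 m hmx hmy
      rw [dotProduct_zero, mul_zero] at this
      exact lt_irrefl _ this
    obtain ⟨c, hc⟩ := vertex_unique ha hxy (Ne.symm hmy) (Ne.symm hmx) hv0 hv1 hv2 hw1 hw2
    have hc0 : 0 < c := by
      have h1 := hv3 m hmx hmy
      have h2 := hw3 m hmx hmy
      rw [hc, dotProduct_smul, smul_eq_mul, ← hm] at h2
      have h3 : ((p.1.1 m : ℤ) : ℝ) * (c * (a m ⬝ᵥ v)) = c * (((p.1.1 m : ℤ) : ℝ) * (a m ⬝ᵥ v)) := by
        ring
      rw [h3] at h2
      exact (pos_iff_pos_of_mul_pos h2).2 h1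
    have hoff : ∀ k, k ≠ x → k ≠ y → p.1.1 k = q.1.1 k := by
      intro k hkx hky
      have h1 := hv3 k hkx hky
      have h2 := hw3 k hkx hky
      rw [hc, dotProduct_smul, smul_eq_mul] at h2
      rcases Int.units_eq_one_or (p.1.1 k) with h3 | h3 <;>
        rcases Int.units_eq_one_or (q.1.1 k) with h4 | h4
      · rw [h3, h4]
      · exfalso
        rw [h3] at h1
        rw [h4] at h2
        push_cast at h1 h2
        nlinarith
      · exfalso
        rw [h3] at h1
        rw [h4] at h2
        push_cast at h1 h2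
        nlinarith
      · rw [h3, h4]
    have hface : p.1.1 = q.1.1 := by
      by_cases hx : p.1.1 x = q.1.1 x
      · funext k
        by_cases hkx : k = x
        · rw [hkx]; exact hx
        · by_cases hky : k = y
          · rw [hky]; exact hy
          · exact hoff k hkx hky
      · exfalso
        have h1 : q.1.1 = flip p.1.1 x := by
          funext k
          by_cases hkx : k = x
          · rw [hkx, flip_same]
            rcases Int.units_eq_one_or (p.1.1 x) with h3 | h3 <;>
              rcases Int.units_eq_one_or (q.1.1 x) with h4 | h4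
            · exact absurd (h3.trans h4.symm) hx
            · rw [h3, h4]
            · rw [h3, h4, neg_neg]
            · exact absurd (h3.trans h4.symm) hx
          · rw [flip_ne _ hkx]
            by_cases hky : k = y
            · rw [hky]; exact hy.symm
            · exact (hoff k hkx hky).symm
        have h2 := no_adj_tri ha hn p.2.1 (hS p hp').1 hpx
        rw [← h1] at h2
        exact h2 (hS q hq').1
    exact side_unique ha hn hface (hS p hp').1 ((hS p hp').2.trans (hS q hq').2.symm)
  have h1 : S.card ≤ (Finset.univ : Finset (ℤˣ × ℤˣ)).card :=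
    Finset.card_le_card_of_injOn _ (fun _ _ => Finset.mem_coe.2 (Finset.mem_univ _)) hinj
  have h2 : (Finset.univ : Finset (ℤˣ × ℤˣ)).card = 4 := by decide
  omega

/-- the number of sides of the faces of size `k` -/
private theorem card_sides (a : ι → V3) (k : ℕ) [Fintype (Side a)] :
    ((Finset.univ : Finset (Side a)).filter (fun p => sz a p.1.1 = k)).card = k * cnt a k := by
  classical
  have h1 : cnt a k = ((Finset.univ : Finset (ι → ℤˣ)).filter
      (fun ε => Tope a ε ∧ sz a ε = k)).card := by
    rw [cnt, ← Set.ncard_coe_finset]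
    congr 1
    ext ε
    simp
  rw [Finset.card_eq_sum_card_fiberwise (f := fun p : Side a => p.1.1)
    (t := (Finset.univ : Finset (ι → ℤˣ)).filter (fun ε => Tope a ε ∧ sz a ε = k))]
  · rw [Finset.sum_const_nat (m := k), h1, mul_comm]
    intro ε hε
    rw [Finset.mem_filter] at hε
    obtain ⟨-, hε1, hε2⟩ := hε
    have h2 : (edgeSet a ε).ncard = k := hε2
    have h3 : edgeSet a ε = (((Finset.univ : Finset ι).filter (fun i => Tope a (flip ε i)) :
        Finset ι) : Set ι) := by
      ext i
      simp [edgeSet]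
    rw [h3, Set.ncard_coe_finset] at h2
    refine Eq.trans ?_ h2
    apply Finset.card_bij (fun (p : Side a) _ => p.1.2)
    · intro p hp
      rw [Finset.mem_filter, Finset.mem_filter] at hp
      rw [Finset.mem_filter]
      refine ⟨Finset.mem_univ _, ?_⟩
      rw [← hp.2]
      exact p.2.2
    · intro p hp q hq hpq
      rw [Finset.mem_filter, Finset.mem_filter] at hp hq
      exact Subtype.ext (Prod.ext (hp.2.trans hq.2.symm) hpq)
    · intro i hi
      rw [Finset.mem_filter] at hi
      refine ⟨⟨(ε, i), hε1, hi.2⟩, ?_, rfl⟩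
      rw [Finset.mem_filter, Finset.mem_filter]
      exact ⟨⟨Finset.mem_univ _, hε2⟩, rfl⟩
  · intro p hp
    rw [Finset.mem_coe, Finset.mem_filter] at hp
    rw [Finset.mem_coe, Finset.mem_filter]
    exact ⟨Finset.mem_univ _, p.2.1, hp.2⟩

theorem beam {a : ι → V3} (ha : Simple a) (hn : 4 ≤ Fintype.card ι) :
    3 * cnt a 3 ≤ (∑ k ∈ Finset.Icc 5 (Fintype.card ι), k * cnt a k)
      + 4 * (insepGraph a).edgeSet.ncard := by
  classical
  obtain ⟨g, hg1, hg2, hg3, hg4⟩ := exists_opp ha hn
  obtain ⟨π, hπ1, hπ2⟩ := first_return (crs a) g (crs_crs a) hg1 (crs_ne a)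
  have hsz : ∀ p : Side a, 3 ≤ sz a p.1.1 := fun p => three_le_sz ha (by omega) p.2.1 p.2.2
  have hszn : ∀ p : Side a, sz a p.1.1 ≤ Fintype.card ι := by
    intro p
    rw [sz, ← Nat.card_eq_fintype_card, ← Set.ncard_univ]
    exact Set.ncard_le_ncard (Set.subset_univ _) (Set.toFinite _)
  -- triangle sides and the sides of large faces
  set T : Finset (Side a) := Finset.univ.filter (fun p => sz a p.1.1 = 3) with hT
  set L : Finset (Side a) := Finset.univ.filter (fun p => 5 ≤ sz a p.1.1) with hL
  have hTc : T.card = 3 * cnt a 3 := card_sides a 3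
  have hLc : L.card = ∑ k ∈ Finset.Icc 5 (Fintype.card ι), k * cnt a k := by
    rw [Finset.card_eq_sum_card_fiberwise (f := fun p : Side a => sz a p.1.1)
      (t := Finset.Icc 5 (Fintype.card ι))]
    · apply Finset.sum_congr rfl
      intro k hk
      rw [Finset.mem_Icc] at hk
      rw [← card_sides a k]
      congr 1
      ext p
      rw [Finset.mem_filter, Finset.mem_filter, Finset.mem_filter]
      constructor
      · rintro ⟨-, h⟩
        exact ⟨Finset.mem_univ _, h⟩
      · rintro ⟨-, h⟩
        exact ⟨⟨Finset.mem_univ _, by rw [h]; exact hk.1⟩, h⟩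
    · intro p hp
      rw [Finset.mem_coe, Finset.mem_filter] at hp
      rw [Finset.mem_coe, Finset.mem_Icc]
      exact ⟨hp.2, hszn p⟩
  have hTfix : ∀ p ∈ T, g p = p := by
    intro p hp
    rw [Finset.mem_filter] at hp
    rw [hg4]
    omega
  have hsplit : T.card = (T.filter (fun p => sz a (π p).1.1 = 3)).card +
      (T.filter (fun p => ¬ sz a (π p).1.1 = 3)).card :=
    (Finset.card_filter_add_card_filter_not _).symm
  have hbig : (T.filter (fun p => ¬ sz a (π p).1.1 = 3)).card ≤ L.card := by
    apply Finset.card_le_card_of_injOn π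
    · intro p hp
      rw [Finset.mem_coe, Finset.mem_filter] at hp
      rw [Finset.mem_coe, Finset.mem_filter]
      refine ⟨Finset.mem_univ _, ?_⟩
      have h1 := (hg4 (π p)).1 (hπ1 p (hTfix p hp.1)).1
      have h2 := hsz (π p)
      have h3 := hp.2
      omega
    · intro p hp q hq hpq
      rw [Finset.mem_coe, Finset.mem_filter] at hp hq
      exact hπ2 p q (hTfix p hp.1) (hTfix q hq.1) hpq
  -- the neighbours along a path
  have hstep : ∀ (p : Side a) (t : ℕ), sn a ((fun z => crs a (g z))^[t] p) = sn a p := by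
    intro p t
    induction t with
    | zero => rfl
    | succ t ih =>
      rw [Function.iterate_succ_apply']
      show sn a (crs a (g _)) = _
      rw [sn_crs, hg3, ih]
  have hins : ∀ p ∈ T.filter (fun p => sz a (π p).1.1 = 3),
      ∃ x y, sn a p = {x, y} ∧ Insep a x y := by
    intro p hp
    rw [Finset.mem_filter] at hp
    obtain ⟨hpT, hp3⟩ := hp
    obtain ⟨h1, h2, k, hk, hkp, h3⟩ := hπ1 p (hTfix p hpT)
    have hN : (sn a p).ncard = 2 := nb_ncard ha (by omega) p.2.1 p.2.2
    obtain ⟨x, y, hxy, hN2⟩ := Set.ncard_eq_two.1 hN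
    refine ⟨x, y, hN2, ?_⟩
    have hpT3 : sz a p.1.1 = 3 := by
      rw [Finset.mem_filter] at hpT
      exact hpT.2
    apply path_insep ha hn hk (fun t => ((fun z => crs a (g z))^[t] p).1.1)
      (fun t => (g ((fun z => crs a (g z))^[t] p)).1.2) hxy
    · intro t _
      show ((fun z => crs a (g z))^[t + 1] p).1.1 = _
      rw [Function.iterate_succ_apply']
      show flip (g _).1.1 (g _).1.2 = _
      rw [hg2]
    · intro t _
      exact ((fun z => crs a (g z))^[t] p).2.1
    · intro t _
      have h4 : sn a (g ((fun z => crs a (g z))^[t] p)) = {x, y} := by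
        rw [hg3, hstep, hN2]
      rw [← h4, sn, hg2]
    · exact hpT3
    · show sz a ((fun z => crs a (g z))^[k] p).1.1 = 3
      rw [hkp]
      exact hp3
    · intro h4
      have h5 : (π p).1.1 = p.1.1 := by
        rw [← hkp]
        exact h4
      apply h2
      apply side_unique ha hn h5 hp3
      rw [← hkp, hstep]
  have hsmall : (T.filter (fun p => sz a (π p).1.1 = 3)).card ≤
      4 * (insepGraph a).edgeSet.ncard := by
    have h1 : (T.filter (fun p => sz a (π p).1.1 = 3)).card ≤
        4 * ((T.filter (fun p => sz a (π p).1.1 = 3)).image (sn a)).card := by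
      apply Finset.card_le_mul_card_image
      intro N _
      apply fibre_le ha hn _ N
      intro p hp
      rw [Finset.mem_filter, Finset.mem_filter, Finset.mem_filter] at hp
      exact ⟨hp.1.1.2, hp.2⟩
    have h2 : ((T.filter (fun p => sz a (π p).1.1 = 3)).image (sn a)).card ≤
        (insepGraph a).edgeSet.ncard := by
      have h3 : (((T.filter (fun p => sz a (π p).1.1 = 3)).image (sn a) : Finset (Set ι)) :
          Set (Set ι)) ⊆ (fun e : Sym2 ι => {z | z ∈ e}) '' (insepGraph a).edgeSet := by
        intro N hN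
        rw [Finset.mem_coe, Finset.mem_image] at hN
        obtain ⟨p, hp, rfl⟩ := hN
        obtain ⟨x, y, hxy, hins'⟩ := hins p hp
        refine ⟨s(x, y), ?_, ?_⟩
        · rw [SimpleGraph.mem_edgeSet]
          exact hins'
        · show {z | z ∈ s(x, y)} = sn a p
          rw [hxy]
          ext z
          simp
      rw [← Set.ncard_coe_finset]
      exact (Set.ncard_le_ncard h3 (Set.toFinite _)).trans (Set.ncard_image_le (Set.toFinite _))
    exact h1.trans (Nat.mul_le_mul_left _ h2)
  omega

end Beam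

end Pool.Agent.H.MP_b7f8b0_co.helper73
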