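import Pool.Agent.H.MP_b7f8b0_co.helper73.InsepFacts

set_option autoImplicit false
open Matrix

namespace Pool.Agent.H.MP_b7f8b0_co.helper73

section CompAux

/-- In a forest two paths with the same ends have the same second vertex. -/
private theorem Comp_snd {V : Type} {G : SimpleGraph V} (hG : G.IsAcyclic) {w x y : V}
    (hxy : x = y) (q : G.Walk w x) (hq : q.IsPath) (q' : G.Walk w y) (hq' : q'.IsPath) :
    q.snd = q'.snd := by
  subst hxy
  have h := (hG.subsingleton_path w x).elim ⟨q, hq⟩ ⟨q', hq'⟩
  have h1 : q = q' := congrArg Subtype.val h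
  rw [h1]

private theorem Comp_support {V : Type} {G : SimpleGraph V} {u v w : V} (h : v = u)
    (q : G.Walk u v) (hq : q.IsPath) (hw : w ∈ q.support) : w = u := by
  subst h
  have h1 := SimpleGraph.Walk.isPath_iff_eq_nil.1 hq
  rw [h1] at hw
  simpa using hw

/-- A forest has at most as many edges as vertices that are not chosen in their component. -/
theorem Comp_forest {V : Type} [Fintype V] (G : SimpleGraph V) (hG : G.IsAcyclic) :
    G.edgeSet.ncard + Nat.card G.ConnectedComponent ≤ Fintype.card V := by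
  classical
  have hout : ∀ c : G.ConnectedComponent, G.connectedComponentMk c.out = c := fun c =>
    Quot.out_eq c
  obtain ⟨r, hr⟩ : ∃ r : V → V, r = fun v => (G.connectedComponentMk v).out := ⟨_, rfl⟩
  have hreach : ∀ v, G.Reachable v (r v) := by
    intro v
    rw [← SimpleGraph.ConnectedComponent.eq, hr]
    exact (hout _).symm
  have hpath : ∀ v, ∃ p : G.Walk v (r v), p.IsPath := fun v => (hreach v).exists_isPath
  choose p hp using hpath
  obtain ⟨R, hR⟩ : ∃ R : Set V, R = Set.range (fun c : G.ConnectedComponent => c.out) := ⟨_, rfl⟩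
  have hRr : ∀ v ∈ R, r v = v := by
    intro v hv
    rw [hR] at hv
    obtain ⟨c, rfl⟩ := hv
    rw [hr]
    exact congrArg Quot.out (hout c)
  have hRcard : R.ncard = Nat.card G.ConnectedComponent := by
    rw [hR, ← Set.image_univ, Set.ncard_image_of_injective, Set.ncard_univ]
    intro c c' h
    rw [← hout c, ← hout c']
    exact congrArg _ h
  have hsub : G.edgeSet ⊆ (fun v => s(v, (p v).snd)) '' Rᶜ := by
    intro e
    induction e using Sym2.ind with
    | _ u w =>
      intro he
      have hadj : G.Adj u w := he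
      by_cases hw : w ∈ (p u).support
      · refine ⟨u, ?_, ?_⟩
        · intro hu
          have h1 := Comp_support (hRr u hu) (p u) (hp u) hw
          rw [h1] at hadj
          exact G.loopless.irrefl u hadj
        · show s(u, (p u).snd) = s(u, w)
          rw [← hG.eq_snd_of_adj_start (hp u) hadj hw]
      · have hcc : r w = r u := by
          rw [hr]
          show (G.connectedComponentMk w).out = (G.connectedComponentMk u).out
          rw [SimpleGraph.ConnectedComponent.eq.2 hadj.symm.reachable]
        have h1 : (SimpleGraph.Walk.cons hadj.symm (p u)).IsPath := (hp u).cons hw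
        have h2 := Comp_snd hG hcc (p w) (hp w) _ h1
        rw [SimpleGraph.Walk.snd_cons] at h2
        refine ⟨w, ?_, ?_⟩
        · intro hwR
          apply hw
          have h3 : w = r u := by rw [← hcc, hRr w hwR]
          have h4 : r u ∈ (p u).support := (p u).end_mem_support
          rw [h3]
          exact h4
        · show s(w, (p w).snd) = s(u, w)
          rw [h2, Sym2.eq_swap]
  have h1 : G.edgeSet.ncard ≤ Rᶜ.ncard :=
    (Set.ncard_le_ncard hsub (Set.toFinite _)).trans (Set.ncard_image_le (Set.toFinite _))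
  have h2 := Set.ncard_add_ncard_compl R
  rw [Nat.card_eq_fintype_card] at h2
  omega

end CompAux

section Comp
variable {ι : Type} [DecidableEq ι] [Fintype ι]

private theorem Comp_nbr {a : ι → V3} (ha : Simple a) (hn : 3 ≤ Fintype.card ι) {ε : ι → ℤˣ}
    (hε : Tope a ε) (h5 : 5 ≤ sz a ε) {v w : ι} (hw : Insep a v w)
    (hint : ∃ y z, y ≠ z ∧ Insep a v y ∧ Insep a v z) (hv : Tope a (flip ε v)) :
    Tope a (flip ε w) := by
  have key : ∀ u, Insep a v u → w ≠ u → Tope a (flip ε w) := by
    intro u hu hne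
    have h := interior_nb ha hn hw hu hne hε h5 hv
    have h1 : w ∈ nb a ε v := by
      rw [h]
      exact Set.mem_insert _ _
    exact h1.2.1
  obtain ⟨y, z, hyz, hy, hz⟩ := hint
  by_cases h : w = y
  · exact key z hz (by rw [h]; exact hyz)
  · exact key y hy h

private theorem Comp_walk {a : ι → V3} (ha : Simple a) (hn : 3 ≤ Fintype.card ι) {ε : ι → ℤˣ}
    (hε : Tope a ε) (h5 : 5 ≤ sz a ε) : ∀ {x x' : ι} (p : (insepGraph a).Walk x x'), p.IsPath →
    (∃ y z, y ≠ z ∧ Insep a x y ∧ Insep a x z) → Tope a (flip ε x) → Tope a (flip ε x')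
  | _, _, .nil, _, _, h => h
  | _, _, .cons h .nil, _, hint, hx => Comp_nbr ha hn hε h5 h hint hx
  | u, _, .cons (v := v) h (.cons (v := w) h' p), hp, hint, hx => by
    refine Comp_walk ha hn hε h5 (.cons h' p) hp.of_cons ⟨u, w, ?_, h.symm, h'⟩
      (Comp_nbr ha hn hε h5 h hint hx)
    intro huw
    rw [SimpleGraph.Walk.cons_isPath_iff] at hp
    apply hp.2
    rw [SimpleGraph.Walk.support_cons, huw]
    exact List.mem_cons_of_mem _ p.start_mem_support

/-- the number of faces (up to sign) that own an interior line is at most the number of components -/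
theorem large_le {a : ι → V3} (ha : Simple a) (hn : 5 ≤ Fintype.card ι)
    (hac : (insepGraph a).IsAcyclic) (L : Set (ι → ℤˣ))
    (hL : ∀ ε ∈ L, Tope a ε ∧ 5 ≤ sz a ε ∧
      ∃ x y z, y ≠ z ∧ Insep a x y ∧ Insep a x z ∧ Tope a (flip ε x)) :
    L.ncard + 2 * (insepGraph a).edgeSet.ncard ≤ 2 * Fintype.card ι := by
  classical
  have hne : Nonempty ι := Fintype.card_pos_iff.1 (by omega)
  have hn3 : 3 ≤ Fintype.card ι := by omega
  have hex : ∀ ε : ι → ℤˣ, ε ∈ L → ∃ x : ι, (∃ y z, y ≠ z ∧ Insep a x y ∧ Insep a x z) ∧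
      Tope a (flip ε x) := by
    intro ε hε
    obtain ⟨-, -, x, y, z, h1, h2, h3, h4⟩ := hL ε hε
    exact ⟨x, ⟨y, z, h1, h2, h3⟩, h4⟩
  choose! x hx using hex
  have hfin : L.Finite := Set.toFinite L
  have hcard : hfin.toFinset.card ≤
      2 * (hfin.toFinset.image fun ε => (insepGraph a).connectedComponentMk (x ε)).card := by
    refine Finset.card_le_mul_card_image _ 2 fun c hc => ?_
    rw [Finset.mem_image] at hc
    obtain ⟨ε0, h0, rfl⟩ := hc
    rw [Set.Finite.mem_toFinset] at h0
    refine le_trans (Finset.card_le_card ?_) (Finset.card_le_two (a := ε0) (b := -ε0))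
    intro ε hε
    rw [Finset.mem_filter, Set.Finite.mem_toFinset] at hε
    obtain ⟨hε, hc⟩ := hε
    obtain ⟨hT0, h50, -⟩ := hL ε0 h0
    obtain ⟨hT, h5, -⟩ := hL ε hε
    obtain ⟨hi0, ht0⟩ := hx ε0 h0
    obtain ⟨hi, ht⟩ := hx ε hε
    have hr : (insepGraph a).Reachable (x ε0) (x ε) :=
      (SimpleGraph.ConnectedComponent.eq.1 hc).symm
    obtain ⟨p, hp⟩ := hr.exists_isPath
    have h1 := Comp_walk ha hn3 hT0 h50 p hp hi0 ht0
    obtain ⟨y, z, hyz, hy, hz⟩ := hi
    rw [Finset.mem_insert, Finset.mem_singleton]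
    exact interior_unique ha hn3 hy hz hyz hT0 h50 h1 hT h5 ht
  have h2 : (hfin.toFinset.image fun ε => (insepGraph a).connectedComponentMk (x ε)).card ≤
      Nat.card (insepGraph a).ConnectedComponent := by
    rw [Nat.card_eq_fintype_card]
    exact Finset.card_le_univ _
  have h3 := Comp_forest (insepGraph a) hac
  rw [Set.ncard_eq_toFinset_card L hfin]
  omega

/-- number of lines with at most one inseparable partner -/
theorem few_ends {a : ι → V3} (ha : Simple a) (hn : 5 ≤ Fintype.card ι) :
    {x : ι | ¬ ∃ y z, y ≠ z ∧ Insep a x y ∧ Insep a x z}.ncard + 2 * (insepGraph a).edgeSet.ncard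
      ≤ 2 * Fintype.card ι := by
  classical
  obtain ⟨E, hE⟩ : ∃ E : Set ι, E = {x : ι | ¬ ∃ y z, y ≠ z ∧ Insep a x y ∧ Insep a x z} :=
    ⟨_, rfl⟩
  rw [← hE]
  have hdeg : ∀ x, (if x ∈ E then 1 else 0) + (insepGraph a).degree x ≤ 2 := by
    intro x
    rw [← SimpleGraph.card_neighborFinset_eq_degree]
    split_ifs with hx
    · have h1 : ¬ 1 < ((insepGraph a).neighborFinset x).card := by
        intro h
        obtain ⟨y, hy, z, hz, hyz⟩ := Finset.one_lt_card.1 h
        rw [SimpleGraph.mem_neighborFinset] at hy hz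
        rw [hE] at hx
        exact hx ⟨y, z, hyz, hy, hz⟩
      omega
    · have h1 : ¬ 2 < ((insepGraph a).neighborFinset x).card := by
        intro h
        obtain ⟨y, z, w, hy, hz, hw, hyz, hyw, hzw⟩ := Finset.two_lt_card_iff.1 h
        rw [SimpleGraph.mem_neighborFinset] at hy hz hw
        exact insep_three ha hn hy hz hw hyz hyw hzw
      omega
  have h1 := Finset.sum_le_sum fun x (_ : x ∈ (Finset.univ : Finset ι)) => hdeg x
  rw [Finset.sum_add_distrib, SimpleGraph.sum_degrees_eq_twice_card_edges, Finset.sum_const,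
    Finset.card_univ, smul_eq_mul, ← Finset.card_filter] at h1
  have h2 : E.ncard = (Finset.univ.filter fun x => x ∈ E).card := by
    rw [Set.ncard_eq_toFinset_card']
    congr 1
    ext x
    simp
  have h3 : (insepGraph a).edgeSet.ncard = (insepGraph a).edgeFinset.card := by
    rw [Set.ncard_eq_toFinset_card']
    rfl
  rw [h2, h3]
  omega
end Comp

end Pool.Agent.H.MP_b7f8b0_co.helper73
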