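import Pool.Agent.H.MP_b7f8b0_co.helper73.Tri

/-! Levi: every line is adjacent to at least three triangles (MP_b7f8b0_co). -/

set_option autoImplicit false
open Matrix

namespace Pool.Agent.H.MP_b7f8b0_co.helper73

section Levi

variable {ι : Type} [DecidableEq ι] [Fintype ι]

private theorem Levi_pos {f X Y : ℝ} (h1 : 0 < f * X) (h2 : 0 < X * Y) : 0 < f * Y := by
  have h3 : 0 < (f * X) * (X * Y) := mul_pos h1 h2
  by_contra hc
  have h4 : (f * X) * (X * Y) = (f * Y) * (X * X) := by ring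
  have h5 : (f * Y) * (X * X) ≤ 0 := mul_nonpos_of_nonpos_of_nonneg (not_lt.1 hc)
    (mul_self_nonneg X)
  linarith

private theorem Levi_div {x y : ℝ} (h : 0 < x * y) : 0 < x / y := by
  have hy : y ≠ 0 := by
    rintro rfl
    rw [mul_zero] at h
    exact lt_irrefl _ h
  have h1 : x / y = (x * y) / (y * y) := by
    field_simp
  rw [h1]
  exact div_pos h (mul_self_pos.2 hy)

/-- A triangle with two corners at the line `ℓ`. -/
private theorem Levi_tri {a : ι → V3} (ha : Simple a) (hn : 4 ≤ Fintype.card ι) {ℓ i j : ι}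
    (hi : ℓ ≠ i) (hj : ℓ ≠ j) (hij : i ≠ j) {v ui uj : V3} (hv : a ℓ ⬝ᵥ v = 1)
    (hvi : a i ⬝ᵥ v = 0) (hvj : a j ⬝ᵥ v = 0) (h1 : a ℓ ⬝ᵥ ui = 0) (h2 : a i ⬝ᵥ ui = 0)
    (h3 : a ℓ ⬝ᵥ uj = 0) (h4 : a j ⬝ᵥ uj = 0) (h5 : a j ⬝ᵥ ui ≠ 0) (h6 : a i ⬝ᵥ uj ≠ 0)
    (hk : ∀ k, k ≠ i → k ≠ j → k ≠ ℓ →
      0 < (a k ⬝ᵥ v) * (a k ⬝ᵥ ui) ∧ 0 < (a k ⬝ᵥ v) * (a k ⬝ᵥ uj)) :
    ∃ F : ι → ℤˣ, Tope a F ∧ sz a F = 3 ∧ Tope a (flip F ℓ) ∧ F ℓ = 1 ∧
      0 < ((F i : ℤ) : ℝ) * (a i ⬝ᵥ uj) ∧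
      ∀ k, k ≠ i → k ≠ j → k ≠ ℓ → 0 < ((F k : ℤ) : ℝ) * (a k ⬝ᵥ v) := by
  have h0 : ∀ k, a k ⬝ᵥ (v + ui + uj) ≠ 0 := by
    intro k
    rw [dotProduct_add, dotProduct_add]
    by_cases ki : k = i
    · rw [ki, hvi, h2, zero_add, zero_add]
      exact h6
    · by_cases kj : k = j
      · rw [kj, hvj, h4, zero_add, add_zero]
        exact h5
      · by_cases kl : k = ℓ
        · rw [kl, hv, h1, h3]
          norm_num
        · intro h
          obtain ⟨e1, e2⟩ := hk k ki kj kl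
          have e3 : (a k ⬝ᵥ v) * (a k ⬝ᵥ v + a k ⬝ᵥ ui + a k ⬝ᵥ uj) = 0 := by rw [h, mul_zero]
          have e4 : (a k ⬝ᵥ v) * (a k ⬝ᵥ v + a k ⬝ᵥ ui + a k ⬝ᵥ uj) =
              (a k ⬝ᵥ v) * (a k ⬝ᵥ v) + (a k ⬝ᵥ v) * (a k ⬝ᵥ ui) +
                (a k ⬝ᵥ v) * (a k ⬝ᵥ uj) := by ring
          have e5 := mul_self_nonneg (a k ⬝ᵥ v)
          linarith
  obtain ⟨F, hF⟩ : ∃ F : ι → ℤˣ, ∀ k, 0 < ((F k : ℤ) : ℝ) * (a k ⬝ᵥ (v + ui + uj)) := by
    refine ⟨fun k => if 0 < a k ⬝ᵥ (v + ui + uj) then 1 else -1, fun k => ?_⟩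
    by_cases hpos : 0 < a k ⬝ᵥ (v + ui + uj)
    · simp only [hpos, if_true]
      simpa using hpos
    · simp only [hpos, if_false]
      have : a k ⬝ᵥ (v + ui + uj) < 0 := lt_of_le_of_ne (not_lt.1 hpos) (h0 k)
      push_cast
      linarith
  have hFv : ∀ k, k ≠ i → k ≠ j → k ≠ ℓ → 0 < ((F k : ℤ) : ℝ) * (a k ⬝ᵥ v) := by
    intro k ki kj kl
    refine Levi_pos (hF k) ?_
    rw [dotProduct_add, dotProduct_add]
    obtain ⟨e1, e2⟩ := hk k ki kj kl
    have e5 := mul_self_nonneg (a k ⬝ᵥ v)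
    have e4 : (a k ⬝ᵥ v + a k ⬝ᵥ ui + a k ⬝ᵥ uj) * (a k ⬝ᵥ v) =
        (a k ⬝ᵥ v) * (a k ⬝ᵥ v) + (a k ⬝ᵥ v) * (a k ⬝ᵥ ui) +
          (a k ⬝ᵥ v) * (a k ⬝ᵥ uj) := by ring
    rw [e4]
    linarith
  have hFi : ∀ k, k ≠ i → k ≠ j → k ≠ ℓ → 0 < ((F k : ℤ) : ℝ) * (a k ⬝ᵥ ui) :=
    fun k ki kj kl => Levi_pos (hFv k ki kj kl) (hk k ki kj kl).1
  have hFj : ∀ k, k ≠ i → k ≠ j → k ≠ ℓ → 0 < ((F k : ℤ) : ℝ) * (a k ⬝ᵥ uj) :=
    fun k ki kj kl => Levi_pos (hFv k ki kj kl) (hk k ki kj kl).2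
  have fi : 0 < ((F i : ℤ) : ℝ) * (a i ⬝ᵥ uj) := by
    have := hF i
    rwa [dotProduct_add, dotProduct_add, hvi, h2, zero_add, zero_add] at this
  have fj : 0 < ((F j : ℤ) : ℝ) * (a j ⬝ᵥ ui) := by
    have := hF j
    rwa [dotProduct_add, dotProduct_add, hvj, h4, zero_add, add_zero] at this
  have fl : F ℓ = 1 := by
    have := hF ℓ
    rw [dotProduct_add, dotProduct_add, hv, h1, h3] at this
    rcases Int.units_eq_one_or (F ℓ) with h | h
    · exact h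
    · rw [h] at this
      norm_num at this
  have hF1 : Tope a F := ⟨v + ui + uj, hF⟩
  have tl : Tope a (flip F ℓ) := by
    refine tope_of_edge_point (ε := F) (i := ℓ) (simple_ne_zero ha (by omega) ℓ)
      (p := ui + uj) ?_ ?_ (fun k hk' => flip_ne F hk')
    · rw [dotProduct_add, h1, h3, add_zero]
    · intro k hkl
      rw [dotProduct_add, mul_add]
      by_cases ki : k = i
      · rw [ki, h2, mul_zero, zero_add]
        exact fi
      · by_cases kj : k = j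
        · rw [kj, h4, mul_zero, add_zero]
          exact fj
        · exact add_pos (hFi k ki kj hkl) (hFj k ki kj hkl)
  have ti : Tope a (flip F i) := by
    refine tope_of_edge_point (ε := F) (i := i) (simple_ne_zero ha (by omega) i)
      (p := v + ui) ?_ ?_ (fun k hk' => flip_ne F hk')
    · rw [dotProduct_add, hvi, h2, add_zero]
    · intro k ki
      rw [dotProduct_add, mul_add]
      by_cases kl : k = ℓ
      · rw [kl, hv, h1, mul_zero, add_zero, fl]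
        norm_num
      · by_cases kj : k = j
        · rw [kj, hvj, mul_zero, zero_add]
          exact fj
        · exact add_pos (hFv k ki kj kl) (hFi k ki kj kl)
  have tj : Tope a (flip F j) := by
    refine tope_of_edge_point (ε := F) (i := j) (simple_ne_zero ha (by omega) j)
      (p := v + uj) ?_ ?_ (fun k hk' => flip_ne F hk')
    · rw [dotProduct_add, hvj, h4, add_zero]
    · intro k kj
      rw [dotProduct_add, mul_add]
      by_cases kl : k = ℓ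
      · rw [kl, hv, h3, mul_zero, add_zero, fl]
        norm_num
      · by_cases ki : k = i
        · rw [ki, hvi, mul_zero, zero_add]
          exact fi
        · exact add_pos (hFv k ki kj kl) (hFj k ki kj kl)
  refine ⟨F, hF1, ?_, tl, fl, fi, hFv⟩
  unfold sz
  rw [Set.ncard_eq_three]
  refine ⟨ℓ, i, j, hi, hj, hij, ?_⟩
  ext k
  simp only [edgeSet, Set.mem_ofPred_eq, Set.mem_insert_iff, Set.mem_singleton_iff]
  constructor
  · rintro ⟨y, hy⟩
    by_contra hcon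
    push Not at hcon
    obtain ⟨kl, ki, kj⟩ := hcon
    have yl : 0 < a ℓ ⬝ᵥ y := by
      have := hy ℓ
      rw [flip_ne F (Ne.symm kl), fl] at this
      simpa using this
    have yi : 0 < ((F i : ℤ) : ℝ) * (a i ⬝ᵥ y) := by
      have := hy i
      rwa [flip_ne F (Ne.symm ki)] at this
    have yj : 0 < ((F j : ℤ) : ℝ) * (a j ⬝ᵥ y) := by
      have := hy j
      rwa [flip_ne F (Ne.symm kj)] at this
    have sgn : ∀ {f X Y : ℝ}, 0 < f * X → 0 < f * Y → 0 < X * Y := by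
      intro f X Y hX hY
      have e3 : 0 < (f * X) * (f * Y) := mul_pos hX hY
      by_contra hc
      have e4 : (f * X) * (f * Y) = (X * Y) * (f * f) := by ring
      have e5 : (X * Y) * (f * f) ≤ 0 := mul_nonpos_of_nonpos_of_nonneg (not_lt.1 hc)
        (mul_self_nonneg f)
      linarith
    obtain ⟨β, hβ⟩ : ∃ β, β = (a j ⬝ᵥ y) / (a j ⬝ᵥ ui) := ⟨_, rfl⟩
    obtain ⟨γ, hγ⟩ : ∃ γ, γ = (a i ⬝ᵥ y) / (a i ⬝ᵥ uj) := ⟨_, rfl⟩
    have β0 : 0 < β := by
      rw [hβ]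
      exact Levi_div (sgn yj fj)
    have γ0 : 0 < γ := by
      rw [hγ]
      exact Levi_div (sgn yi fi)
    have hβ' : β * (a j ⬝ᵥ ui) = a j ⬝ᵥ y := by
      rw [hβ]
      field_simp
    have hγ' : γ * (a i ⬝ᵥ uj) = a i ⬝ᵥ y := by
      rw [hγ]
      field_simp
    have hz : y - ((a ℓ ⬝ᵥ y) • v + β • ui + γ • uj) = 0 := by
      refine gp3 ha hi hij hj ?_ ?_ ?_
      · rw [dotProduct_sub, dotProduct_add, dotProduct_add, dotProduct_smul, dotProduct_smul,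
          dotProduct_smul, hv, h1, h3, smul_eq_mul, smul_eq_mul, smul_eq_mul]
        ring
      · rw [dotProduct_sub, dotProduct_add, dotProduct_add, dotProduct_smul, dotProduct_smul,
          dotProduct_smul, hvi, h2, smul_eq_mul, smul_eq_mul, smul_eq_mul, hγ']
        ring
      · rw [dotProduct_sub, dotProduct_add, dotProduct_add, dotProduct_smul, dotProduct_smul,
          dotProduct_smul, hvj, h4, smul_eq_mul, smul_eq_mul, smul_eq_mul, hβ']
        ring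
    have hy' : a k ⬝ᵥ y = (a ℓ ⬝ᵥ y) * (a k ⬝ᵥ v) + β * (a k ⬝ᵥ ui) + γ * (a k ⬝ᵥ uj) := by
      have e1 : y = (a ℓ ⬝ᵥ y) • v + β • ui + γ • uj := sub_eq_zero.1 hz
      have e2 := congrArg (fun z => a k ⬝ᵥ z) e1
      simp only [dotProduct_add, dotProduct_smul, smul_eq_mul] at e2
      exact e2
    have yk := hy k
    rw [flip_same, hy'] at yk
    have e1 := mul_pos yl (hFv k ki kj kl)
    have e2 := mul_pos β0 (hFi k ki kj kl)
    have e3 := mul_pos γ0 (hFj k ki kj kl)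
    push_cast at yk
    nlinarith
  · rintro (h | h | h)
    · rw [h]
      exact tl
    · rw [h]
      exact ti
    · rw [h]
      exact tj

/-- in each of the two lunes of the lines `ℓ`, `m` there is a triangle with an edge on `ℓ` -/
theorem levi_lune {a : ι → V3} (ha : Simple a) (hn : 4 ≤ Fintype.card ι) {ℓ m : ι} (h : ℓ ≠ m)
    (s : ℤˣ) : ∃ ε : ι → ℤˣ, Tope a ε ∧ sz a ε = 3 ∧ Tope a (flip ε ℓ) ∧ ε ℓ = 1 ∧ ε m = s := by
  classical
  obtain ⟨σ, hσ⟩ : ∃ σ : ℝ, σ = ((s : ℤ) : ℝ) := ⟨_, rfl⟩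
  have hσσ : σ * σ = 1 := by
    rw [hσ]
    rcases Int.units_eq_one_or s with h | h <;> simp [h]
  have hσ0 : σ ≠ 0 := by
    intro h0
    rw [h0, mul_zero] at hσσ
    exact zero_ne_one hσσ
  -- the crossing points
  have hV : ∀ i j : ι, ∃ v : V3, i ≠ j → ℓ ≠ i → ℓ ≠ j →
      a i ⬝ᵥ v = 0 ∧ a j ⬝ᵥ v = 0 ∧ a ℓ ⬝ᵥ v = 1 := by
    intro i j
    obtain ⟨v, hv0, hvi, hvj⟩ := exists_vertex a i j
    by_cases hc : i ≠ j ∧ ℓ ≠ i ∧ ℓ ≠ j
    · obtain ⟨hij, hi, hj⟩ := hc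
      have hl : a ℓ ⬝ᵥ v ≠ 0 := fun h0 => hv0 (gp3 ha hi hij hj h0 hvi hvj)
      refine ⟨(a ℓ ⬝ᵥ v)⁻¹ • v, fun _ _ _ => ⟨?_, ?_, ?_⟩⟩
      · rw [dotProduct_smul, hvi, smul_zero]
      · rw [dotProduct_smul, hvj, smul_zero]
      · rw [dotProduct_smul, smul_eq_mul, inv_mul_cancel₀ hl]
    · exact ⟨0, fun h1 h2 h3 => absurd ⟨h1, h2, h3⟩ hc⟩
  choose V hV using hV
  have hVu : ∀ {i j : ι} {w : V3}, i ≠ j → ℓ ≠ i → ℓ ≠ j → a i ⬝ᵥ w = 0 → a j ⬝ᵥ w = 0 →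
      a ℓ ⬝ᵥ w = 1 → w = V i j := by
    intro i j w hij hi hj h1 h2 h3
    obtain ⟨e1, e2, e3⟩ := hV i j hij hi hj
    have hz : w - V i j = 0 := by
      refine gp3 ha hi hij hj ?_ ?_ ?_
      · rw [dotProduct_sub, h3, e3, sub_self]
      · rw [dotProduct_sub, h1, e1, sub_self]
      · rw [dotProduct_sub, h2, e2, sub_self]
    exact sub_eq_zero.1 hz
  -- the directions
  have hD : ∀ (i t : ι), ℓ ≠ i → ℓ ≠ t → i ≠ t → ∀ τ : ℝ, τ ≠ 0 →
      ∃ u : V3, a ℓ ⬝ᵥ u = 0 ∧ a i ⬝ᵥ u = 0 ∧ 0 < τ * (a t ⬝ᵥ u) ∧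
        ∀ k, k ≠ i → k ≠ ℓ → a k ⬝ᵥ u ≠ 0 := by
    intro i t hi ht hit τ hτ
    obtain ⟨u, hu0, hul, hui⟩ := exists_vertex a ℓ i
    have hne : ∀ k, k ≠ i → k ≠ ℓ → a k ⬝ᵥ u ≠ 0 := fun k ki kl h0 =>
      hu0 (gp3 ha hi (Ne.symm ki) (Ne.symm kl) hul hui h0)
    have ht0 : τ * (a t ⬝ᵥ u) ≠ 0 := mul_ne_zero hτ (hne t (Ne.symm hit) (Ne.symm ht))
    rcases lt_or_gt_of_ne ht0 with hlt | hgt
    · refine ⟨-u, ?_, ?_, ?_, ?_⟩
      · rw [dotProduct_neg, hul, neg_zero]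
      · rw [dotProduct_neg, hui, neg_zero]
      · rw [dotProduct_neg, mul_neg]
        linarith
      · intro k ki kl
        rw [dotProduct_neg]
        exact neg_ne_zero.2 (hne k ki kl)
    · exact ⟨u, hul, hui, hgt, hne⟩
  -- moving from a crossing point along the line `i`
  have hmove : ∀ {i k : ι} {v u : V3}, i ≠ k → ℓ ≠ i → ℓ ≠ k → a ℓ ⬝ᵥ v = 1 → a i ⬝ᵥ v = 0 →
      a k ⬝ᵥ v ≠ 0 → a ℓ ⬝ᵥ u = 0 → a i ⬝ᵥ u = 0 → a k ⬝ᵥ u ≠ 0 →
      ¬ 0 < (a k ⬝ᵥ v) * (a k ⬝ᵥ u) → ∃ lam : ℝ, 0 < lam ∧ V i k = v + lam • u := by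
    intro i k v u hik hi hk e1 e2 e3 e4 e5 e6 e7
    refine ⟨-(a k ⬝ᵥ v) / (a k ⬝ᵥ u), Levi_div ?_, ?_⟩
    · have h0 : (a k ⬝ᵥ v) * (a k ⬝ᵥ u) ≠ 0 := mul_ne_zero e3 e6
      have h1 := lt_of_le_of_ne (not_lt.1 e7) h0
      linarith
    · symm
      apply hVu hik hi hk
      · rw [dotProduct_add, dotProduct_smul, e2, e5, smul_zero, add_zero]
      · rw [dotProduct_add, dotProduct_smul, smul_eq_mul, div_mul_cancel₀ _ e6]
        ring
      · rw [dotProduct_add, dotProduct_smul, e1, e4, smul_zero, add_zero]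
  have fin : ∀ {F : ι → ℤˣ} {X : ℝ}, 0 < ((F m : ℤ) : ℝ) * X → 0 < σ * X → F m = s := by
    intro F X h1 h2
    rw [hσ] at h2
    rcases Int.units_eq_one_or (F m) with h3 | h3 <;> rcases Int.units_eq_one_or s with h4 | h4 <;>
      rw [h3, h4] <;> rw [h3] at h1 <;> rw [h4] at h2 <;> exfalso <;> push_cast at h1 h2 <;> linarith
  by_cases hcase : ∃ p : ι × ι, p.1 ≠ p.2 ∧ ℓ ≠ p.1 ∧ ℓ ≠ p.2 ∧ 0 < σ * (a m ⬝ᵥ V p.1 p.2)
  · obtain ⟨p0, hp0⟩ := hcase
    obtain ⟨⟨i, j⟩, hpm, hmax⟩ := Finset.exists_max_image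
      (Finset.univ.filter fun p : ι × ι => p.1 ≠ p.2 ∧ ℓ ≠ p.1 ∧ ℓ ≠ p.2 ∧
        0 < σ * (a m ⬝ᵥ V p.1 p.2)) (fun p => σ * (a m ⬝ᵥ V p.1 p.2))
      ⟨p0, Finset.mem_filter.2 ⟨Finset.mem_univ _, hp0⟩⟩
    obtain ⟨-, hij, hi, hj, hpos⟩ := Finset.mem_filter.1 hpm
    simp only at hij hi hj hpos
    obtain ⟨evi, evj, evl⟩ := hV i j hij hi hj
    have hmi : m ≠ i := by
      rintro rfl
      rw [evi, mul_zero] at hpos
      exact lt_irrefl _ hpos
    have hmj : m ≠ j := by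
      rintro rfl
      rw [evj, mul_zero] at hpos
      exact lt_irrefl _ hpos
    obtain ⟨ui, ui1, ui2, ui3, ui4⟩ := hD i m hi h (Ne.symm hmi) σ hσ0
    obtain ⟨uj, uj1, uj2, uj3, uj4⟩ := hD j m hj h (Ne.symm hmj) σ hσ0
    have hmaxk : ∀ {i' k : ι} {u : V3} {lam : ℝ}, i' ≠ k → ℓ ≠ i' → ℓ ≠ k → 0 < lam →
        0 < σ * (a m ⬝ᵥ u) → V i' k = V i j + lam • u → False := by
      intro i' k u lam h1 h2 h3 h4 h5 h6
      have e1 : σ * (a m ⬝ᵥ V i' k) = σ * (a m ⬝ᵥ V i j) + lam * (σ * (a m ⬝ᵥ u)) := by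
        rw [h6, dotProduct_add, dotProduct_smul, smul_eq_mul]
        ring
      have e2 := mul_pos h4 h5
      have e3 := hmax (i', k) (Finset.mem_filter.2 ⟨Finset.mem_univ _, h1, h2, h3, by
        simp only
        linarith⟩)
      simp only at e3
      linarith
    obtain ⟨F, f1, f2, f3, f4, -, f5⟩ := Levi_tri ha hn hi hj hij evl evi evj ui1 ui2 uj1 uj2
      (ui4 j (Ne.symm hij) (Ne.symm hj)) (uj4 i hij (Ne.symm hi)) (by
        intro k ki kj kl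
        have hvk : a k ⬝ᵥ V i j ≠ 0 := by
          intro h0
          have h1 := gp3 ha hij (Ne.symm kj) (Ne.symm ki) evi evj h0
          rw [h1, dotProduct_zero] at evl
          exact zero_ne_one evl
        constructor
        · by_contra hc
          obtain ⟨lam, hl1, hl2⟩ := hmove (Ne.symm ki) hi (Ne.symm kl) evl evi hvk ui1 ui2
            (ui4 k ki kl) hc
          exact hmaxk (Ne.symm ki) hi (Ne.symm kl) hl1 ui3 hl2
        · by_contra hc
          obtain ⟨lam, hl1, hl2⟩ := hmove (Ne.symm kj) hj (Ne.symm kl) evl evj hvk uj1 uj2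
            (uj4 k kj kl) hc
          exact hmaxk (Ne.symm kj) hj (Ne.symm kl) hl1 uj3 hl2)
    exact ⟨F, f1, f2, f3, f4, fin (f5 m hmi hmj (Ne.symm h)) hpos⟩
  · push Not at hcase
    -- a third line
    obtain ⟨t, htm, htl⟩ : ∃ t, t ≠ m ∧ t ≠ ℓ := by
      by_contra hcon
      push Not at hcon
      have h1 : (Finset.univ : Finset ι) ⊆ {m, ℓ} := by
        intro x _
        rw [Finset.mem_insert, Finset.mem_singleton]
        by_cases hx : x = m
        · exact Or.inl hx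
        · exact Or.inr (hcon x hx)
      have h2 := Finset.card_le_card h1
      have h3 : ({m, ℓ} : Finset ι).card ≤ 2 := Finset.card_le_two
      rw [Finset.card_univ] at h2
      omega
    obtain ⟨um, um1, um2, um3, um4⟩ := hD m t h (Ne.symm htl) (Ne.symm htm) 1 one_ne_zero
    rw [one_mul] at um3
    obtain ⟨i, him, hmax⟩ := Finset.exists_max_image
      (Finset.univ.filter fun i : ι => i ≠ m ∧ i ≠ ℓ) (fun i => a t ⬝ᵥ V m i)
      ⟨t, Finset.mem_filter.2 ⟨Finset.mem_univ _, htm, htl⟩⟩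
    obtain ⟨-, him, hil⟩ := Finset.mem_filter.1 him
    obtain ⟨evm, evi, evl⟩ := hV m i (Ne.symm him) h (Ne.symm hil)
    obtain ⟨ui, ui1, ui2, ui3, ui4⟩ := hD i m (Ne.symm hil) h him σ hσ0
    obtain ⟨F, f1, f2, f3, f4, f5, -⟩ := Levi_tri ha hn h (Ne.symm hil) (Ne.symm him) evl evm evi
      um1 um2 ui1 ui2 (um4 i him hil) (ui4 m (Ne.symm him) (Ne.symm h)) (by
        intro k km ki kl
        have hvk : a k ⬝ᵥ V m i ≠ 0 := by
          intro h0
          have h1 := gp3 ha (Ne.symm him) (Ne.symm ki) (Ne.symm km) evm evi h0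
          rw [h1, dotProduct_zero] at evl
          exact zero_ne_one evl
        constructor
        · by_contra hc
          obtain ⟨lam, hl1, hl2⟩ := hmove (Ne.symm km) h (Ne.symm kl) evl evm hvk um1 um2
            (um4 k km kl) hc
          have e1 : a t ⬝ᵥ V m k = a t ⬝ᵥ V m i + lam * (a t ⬝ᵥ um) := by
            rw [hl2, dotProduct_add, dotProduct_smul, smul_eq_mul]
          have e2 := mul_pos hl1 um3
          have e3 := hmax k (Finset.mem_filter.2 ⟨Finset.mem_univ _, km, kl⟩)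
          linarith
        · by_contra hc
          obtain ⟨lam, hl1, hl2⟩ := hmove (Ne.symm ki) (Ne.symm hil) (Ne.symm kl) evl evi hvk ui1
            ui2 (ui4 k ki kl) hc
          have e1 : σ * (a m ⬝ᵥ V i k) = σ * (a m ⬝ᵥ V m i) + lam * (σ * (a m ⬝ᵥ ui)) := by
            rw [hl2, dotProduct_add, dotProduct_smul, smul_eq_mul]
            ring
          rw [evm, mul_zero, zero_add] at e1
          have e2 := mul_pos hl1 ui3
          have e3 := hcase (i, k) (Ne.symm ki) (Ne.symm hil) (Ne.symm kl)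
          simp only at e3
          linarith)
    exact ⟨F, f1, f2, f3, f4, fin f5 ui3⟩

private theorem Levi_three {a : ι → V3} (ha : Simple a) (hn : 4 ≤ Fintype.card ι) (ℓ : ι)
    (S : Finset (ι → ℤˣ))
    (hS : ∀ ε, ε ∈ S ↔ Tope a ε ∧ sz a ε = 3 ∧ Tope a (flip ε ℓ) ∧ ε ℓ = 1) : 3 ≤ S.card := by
  classical
  obtain ⟨m0, hm0⟩ : ∃ m0, ℓ ≠ m0 := by
    by_contra hcon
    push Not at hcon
    have h1 : (Finset.univ : Finset ι) ⊆ {ℓ} := by
      intro x _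
      rw [Finset.mem_singleton]
      exact (hcon x).symm
    have h2 := Finset.card_le_card h1
    rw [Finset.card_univ, Finset.card_singleton] at h2
    omega
  obtain ⟨A, A1, A2, A3, A4, A5⟩ := levi_lune ha hn hm0 1
  obtain ⟨B, B1, B2, B3, B4, B5⟩ := levi_lune ha hn hm0 (-1)
  have hAB : A ≠ B := by
    rintro rfl
    rw [A5] at B5
    exact absurd B5 (by decide)
  by_contra hc
  have hsub : ({A, B} : Finset (ι → ℤˣ)) ⊆ S := by
    intro x hx
    rw [Finset.mem_insert, Finset.mem_singleton] at hx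
    rcases hx with rfl | rfl
    · exact (hS _).2 ⟨A1, A2, A3, A4⟩
    · exact (hS _).2 ⟨B1, B2, B3, B4⟩
  have heq : ({A, B} : Finset (ι → ℤˣ)) = S :=
    Finset.eq_of_subset_of_card_le hsub (by rw [Finset.card_pair hAB]; omega)
  have hBm : ∀ m, ℓ ≠ m → B m = -A m := by
    intro m hm
    obtain ⟨C, C1, C2, C3, C4, C5⟩ := levi_lune ha hn hm (-A m)
    have hC : C ∈ ({A, B} : Finset (ι → ℤˣ)) := by
      rw [heq]
      exact (hS _).2 ⟨C1, C2, C3, C4⟩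
    rw [Finset.mem_insert, Finset.mem_singleton] at hC
    rcases hC with rfl | rfl
    · exfalso
      rcases Int.units_eq_one_or (C m) with h | h <;> rw [h] at C5 <;> exact absurd C5 (by decide)
    · exact C5
  have hfl : flip B ℓ = -A := by
    funext k
    by_cases hk : k = ℓ
    · rw [hk, flip_same, B4, Pi.neg_apply, A4]
    · rw [flip_ne B hk, Pi.neg_apply]
      exact hBm k (Ne.symm hk)
  apply no_adj_tri ha hn B1 B2 B3
  rw [hfl, sz_neg, A2]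

theorem levi {a : ι → V3} (ha : Simple a) (hn : 4 ≤ Fintype.card ι) :
    2 * Fintype.card ι ≤ cnt a 3 := by
  classical
  obtain ⟨T, hT⟩ : ∃ T : Finset (ι → ℤˣ), T =
      Finset.univ.filter fun ε => Tope a ε ∧ sz a ε = 3 := ⟨_, rfl⟩
  have hTm : ∀ ε, ε ∈ T ↔ Tope a ε ∧ sz a ε = 3 := by
    intro ε
    rw [hT, Finset.mem_filter]
    exact ⟨fun h => h.2, fun h => ⟨Finset.mem_univ _, h⟩⟩
  have hcnt : cnt a 3 = T.card := by
    unfold cnt
    rw [← Set.ncard_coe_finset]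
    congr 1
    ext ε
    rw [Set.mem_ofPred_eq, Finset.mem_coe, hTm]
  have hdc := Finset.sum_card_bipartiteAbove_eq_sum_card_bipartiteBelow (s := T)
    (t := (Finset.univ : Finset ι)) (fun (ε : ι → ℤˣ) (ℓ : ι) => Tope a (flip ε ℓ))
  have hL : ∑ ε ∈ T, (Finset.bipartiteAbove (fun (ε : ι → ℤˣ) (ℓ : ι) => Tope a (flip ε ℓ))
      Finset.univ ε).card = T.card * 3 := by
    rw [Finset.sum_const_nat]
    intro ε hε
    have h1 := ((hTm ε).1 hε).2
    unfold sz at h1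
    rw [← h1, ← Set.ncard_coe_finset]
    congr 1
    ext ℓ
    simp only [Finset.coe_bipartiteAbove, edgeSet, Set.mem_ofPred_eq, Finset.mem_univ, true_and]
  have hR : Fintype.card ι * 6 ≤ ∑ ℓ : ι, (Finset.bipartiteBelow
      (fun (ε : ι → ℤˣ) (ℓ : ι) => Tope a (flip ε ℓ)) T ℓ).card := by
    rw [← smul_eq_mul, ← Finset.card_univ]
    apply Finset.card_nsmul_le_sum
    intro ℓ _
    obtain ⟨S, hS⟩ : ∃ S : Finset (ι → ℤˣ), S = T.filter
        fun ε => Tope a (flip ε ℓ) ∧ ε ℓ = 1 := ⟨_, rfl⟩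
    have hSm : ∀ ε, ε ∈ S ↔ Tope a ε ∧ sz a ε = 3 ∧ Tope a (flip ε ℓ) ∧ ε ℓ = 1 := by
      intro ε
      rw [hS, Finset.mem_filter, hTm, and_assoc]
    have h3 := Levi_three ha hn ℓ S hSm
    have hd : Disjoint S (S.image fun ε => -ε) := by
      rw [Finset.disjoint_left]
      intro ε h1 h2
      obtain ⟨η, h4, h5⟩ := Finset.mem_image.1 h2
      have h6 := ((hSm ε).1 h1).2.2.2
      have h7 := ((hSm η).1 h4).2.2.2
      rw [← h5, Pi.neg_apply, h7] at h6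
      exact absurd h6 (by decide)
    have hc : (S ∪ S.image fun ε => -ε).card = S.card + S.card := by
      rw [Finset.card_union_of_disjoint hd, Finset.card_image_of_injective _ neg_injective]
    have hsub : (S ∪ S.image fun ε => -ε) ⊆ Finset.bipartiteBelow
        (fun (ε : ι → ℤˣ) (ℓ : ι) => Tope a (flip ε ℓ)) T ℓ := by
      intro ε hε
      rw [Finset.mem_bipartiteBelow]
      rcases Finset.mem_union.1 hε with h1 | h1
      · obtain ⟨e1, e2, e3, -⟩ := (hSm ε).1 h1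
        exact ⟨(hTm ε).2 ⟨e1, e2⟩, e3⟩
      · obtain ⟨η, h4, h5⟩ := Finset.mem_image.1 h1
        obtain ⟨e1, e2, e3, -⟩ := (hSm η).1 h4
        rw [← h5]
        refine ⟨(hTm _).2 ⟨(tope_neg a η).2 e1, by rw [sz_neg, e2]⟩, ?_⟩
        rw [flip_neg]
        exact (tope_neg a _).2 e3
    have h8 := Finset.card_le_card hsub
    rw [hc] at h8
    omega
  rw [hL] at hdc
  rw [← hdc] at hR
  rw [hcnt]
  omega

end Levi

end Pool.Agent.H.MP_b7f8b0_co.helper73
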