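import Pool.Agent.H.MP_b7f8b0_co.helper73.Defs2
import Pool.Agent.H.MP_b7f8b0_co.helper73.Comp
import Pool.Agent.H.MP_b7f8b0_co.helper73.Beam
import Pool.Agent.H.MP_b7f8b0_co.helper73.Levi

/-! A very large face has an edge on a line with two inseparable partners (MP_b7f8b0_co). -/

set_option autoImplicit false
open Matrix

namespace Pool.Agent.H.MP_b7f8b0_co.helper73

private theorem Interior_sum (K : Multiset ℕ) (n : ℕ) :
    ∑ k ∈ Finset.Icc 5 n, k * (2 * K.count k) ≤ 2 * K.sum := by
  have h1 : K.sum = ∑ k ∈ K.toFinset, K.count k * k := by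
    have := Finset.sum_multiset_map_count K (fun k : ℕ => k)
    simpa using this
  calc ∑ k ∈ Finset.Icc 5 n, k * (2 * K.count k)
      = ∑ k ∈ (Finset.Icc 5 n).filter (fun k => k ∈ K.toFinset), k * (2 * K.count k) := by
        rw [Finset.sum_filter]
        refine Finset.sum_congr rfl fun k _ => ?_
        split_ifs with h
        · rfl
        · rw [Multiset.mem_toFinset] at h
          rw [Multiset.count_eq_zero_of_notMem h, mul_zero, mul_zero]
    _ ≤ ∑ k ∈ K.toFinset, k * (2 * K.count k) := by
        refine Finset.sum_le_sum_of_subset fun k hk => ?_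
        exact (Finset.mem_filter.1 hk).2
    _ = 2 * K.sum := by
        rw [h1, Finset.mul_sum]
        exact Finset.sum_congr rfl fun k _ => by ring

private theorem Interior_pp {K : Multiset ℕ} (hK : ∀ k ∈ K, 5 ≤ k) :
    pp K + 4 * K.card = 4 + K.sum := by
  have key : ∀ K : Multiset ℕ, (∀ k ∈ K, 5 ≤ k) →
      (K.map (fun k => k - 4)).sum + 4 * K.card = K.sum := by
    intro K
    induction K using Multiset.induction with
    | empty => intro _; simp
    | cons a s ih =>
      intro h
      have h1 := ih fun k hk => h k (Multiset.mem_cons_of_mem hk)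
      have h2 := h a (Multiset.mem_cons_self a s)
      rw [Multiset.map_cons, Multiset.sum_cons, Multiset.sum_cons, Multiset.card_cons]
      omega
  have h1 := key K hK
  unfold pp
  omega

section Interior
variable {ι : Type} [DecidableEq ι] [Fintype ι]

/-- a face with at least `4r - 3` edges has an edge on a line with two partners -/
theorem exists_interior {a : ι → V3} {n P : ℕ} {K : Multiset ℕ} (h : Cfg n P K a)
    (hK : ∀ k ∈ K, 5 ≤ k) (hP : P = pp K) (hn : 5 ≤ n) (hr : 1 ≤ K.card) {F : ι → ℤˣ}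
    (hF : Tope a F) (hs : 4 * K.card - 3 ≤ sz a F) :
    ∃ x y z, y ≠ z ∧ Insep a x y ∧ Insep a x z ∧ Tope a (flip F x) := by
  obtain ⟨ha, hc, h3, hk⟩ := h
  have hb := beam ha (by omega)
  have hl := levi ha (by omega)
  have hf := few_ends ha (by omega)
  have h1 : (∑ k ∈ Finset.Icc 5 (Fintype.card ι), k * cnt a k) ≤ 2 * K.sum := by
    refine le_trans (le_of_eq ?_) (Interior_sum K (Fintype.card ι))
    refine Finset.sum_congr rfl fun k hk' => ?_
    rw [hk k (Finset.mem_Icc.1 hk').1]
  have h2 := Interior_pp hK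
  rw [← hP] at h2
  have h4 : {x : ι | ¬ ∃ y z, y ≠ z ∧ Insep a x y ∧ Insep a x z}.ncard < (edgeSet a F).ncard := by
    have h5 : (edgeSet a F).ncard = sz a F := rfl
    rw [h5]
    omega
  obtain ⟨x, hx, hx'⟩ := Set.exists_mem_notMem_of_ncard_lt_ncard h4 (Set.toFinite _)
  have h6 : ∃ y z, y ≠ z ∧ Insep a x y ∧ Insep a x z := by
    by_contra hcon
    exact hx' hcon
  obtain ⟨y, z, hyz, hy, hz⟩ := h6
  exact ⟨x, y, z, hyz, hy, hz, hx⟩

end Interior

end Pool.Agent.H.MP_b7f8b0_co.helper73
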