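import Pool.Agent.H.MP_b7f8b0_co.helper73.TopeEdge
import Pool.Agent.H.MP_b7f8b0_co.helper73.Tri

/-! Faces in the small lune of an inseparable pair. -/

set_option autoImplicit false
open Matrix

namespace Pool.Agent.H.MP_b7f8b0_co.helper73

section Lune2
variable {ι : Type} [DecidableEq ι] [Fintype ι]

theorem Lune2_key {a : ι → V3} (ha : Simple a) (hn : 3 ≤ Fintype.card ι) {x y : ι} (hxy : x ≠ y)
    {s : ℝ} (h : InsepSgn a x y s) {ε : ι → ℤˣ} (hε : Tope a ε)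
    (hl : ((ε x : ℤ) : ℝ) * ((ε y : ℤ) : ℝ) = -s) {i : ι} (hi : Tope a (flip ε i)) (hix : i ≠ x)
    (hiy : i ≠ y) : nb a ε i = {x, y} := by
  have hsub : nb a ε i ⊆ {x, y} := by
    intro j hj
    by_contra hjn
    rw [Set.mem_insert_iff, Set.mem_singleton_iff, not_or] at hjn
    obtain ⟨v, hv1, hv2, hv3⟩ := corner_point hj.1.symm hε hi hj.2.1 hj.2.2
    have hx := hv3 x (Ne.symm hix) (Ne.symm hjn.1)
    have hy := hv3 y (Ne.symm hiy) (Ne.symm hjn.2)
    have hv0 : v ≠ 0 := by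
      rintro rfl
      simp at hx
    have h1 := h i j hj.1.symm hix hiy hjn.1 hjn.2 v hv0 hv1 hv2
    have h2 := mul_pos hx hy
    have h3 : ((ε x : ℤ) : ℝ) * (a x ⬝ᵥ v) * (((ε y : ℤ) : ℝ) * (a y ⬝ᵥ v)) =
        -(s * ((a x ⬝ᵥ v) * (a y ⬝ᵥ v))) := by
      linear_combination ((a x ⬝ᵥ v) * (a y ⬝ᵥ v)) * hl
    linarith
  apply Set.eq_of_subset_of_ncard_le hsub
  rw [nb_ncard ha hn hε hi, Set.ncard_pair hxy]

/-- a face in the small lune of `x`, `y` has an edge on `x` and one on `y` -/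
theorem lune_edge {a : ι → V3} (ha : Simple a) (hn : 3 ≤ Fintype.card ι) {x y : ι} (hxy : x ≠ y)
    {s : ℝ} (hs : s = 1 ∨ s = -1) (h : InsepSgn a x y s) {ε : ι → ℤˣ} (hε : Tope a ε)
    (hl : ((ε x : ℤ) : ℝ) * ((ε y : ℤ) : ℝ) = -s) : Tope a (flip ε x) ∧ Tope a (flip ε y) := by
  have _ := hs
  have h3 := three_le_sz' ha hn hε
  obtain ⟨i, hi, hin⟩ : ∃ i ∈ edgeSet a ε, i ∉ ({x, y} : Set ι) := by
    by_contra hcon
    push Not at hcon
    have h1 : (edgeSet a ε).ncard ≤ ({x, y} : Set ι).ncard := Set.ncard_le_ncard hcon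
    rw [Set.ncard_pair hxy] at h1
    unfold sz at h3
    omega
  rw [Set.mem_insert_iff, Set.mem_singleton_iff, not_or] at hin
  have hnb := Lune2_key ha hn hxy h hε hl hi hin.1 hin.2
  have hx : x ∈ nb a ε i := by
    rw [hnb]
    exact Set.mem_insert x _
  have hy : y ∈ nb a ε i := by
    rw [hnb]
    exact Set.mem_insert_of_mem x rfl
  exact ⟨hx.2.1, hy.2.1⟩

/-- a face in the small lune of `x`, `y` with the corner `x ∩ y` is a triangle -/
theorem lune_corner {a : ι → V3} (ha : Simple a) (hn : 3 ≤ Fintype.card ι) {x y : ι} (hxy : x ≠ y)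
    {s : ℝ} (hs : s = 1 ∨ s = -1) (h : InsepSgn a x y s) {ε : ι → ℤˣ} (hε : Tope a ε)
    (hl : ((ε x : ℤ) : ℝ) * ((ε y : ℤ) : ℝ) = -s) (hc : Tope a (flip (flip ε x) y)) :
    sz a ε = 3 := by
  obtain ⟨hx, hy⟩ := lune_edge ha hn hxy hs h hε hl
  have hyx : y ∈ nb a ε x := ⟨hxy.symm, hy, hc⟩
  have hsub : edgeSet a ε ⊆ insert x (nb a ε x) := by
    intro m hm
    by_cases hmx : m = x
    · rw [hmx]
      exact Set.mem_insert x _
    · refine Set.mem_insert_of_mem x ?_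
      by_cases hmy : m = y
      · rw [hmy]
        exact hyx
      · refine nb_symm hm ?_
        rw [Lune2_key ha hn hxy h hε hl hm hmx hmy]
        exact Set.mem_insert x _
  have h1 : sz a ε ≤ (insert x (nb a ε x)).ncard := Set.ncard_le_ncard hsub
  rw [(Tri_insert ha hn hε hx).2] at h1
  exact le_antisymm h1 (three_le_sz ha hn hε hx)

end Lune2

end Pool.Agent.H.MP_b7f8b0_co.helper73
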