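import Pool.Agent.H.MP_b7f8b0_co.helper73.InsepFacts
import Pool.Agent.H.MP_b7f8b0_co.helper73.Lune2

set_option autoImplicit false
open Matrix

namespace Pool.Agent.H.MP_b7f8b0_co.helper73

section LocTri
variable {ι : Type} [DecidableEq ι] [Fintype ι]

theorem LocTri_neg (u : ℤˣ) : (((-u : ℤˣ) : ℤ) : ℝ) = -((u : ℤ) : ℝ) := by
  push_cast
  ring

theorem LocTri_cases (u v : ℤˣ) {s : ℝ} (hs : s = 1 ∨ s = -1) :
    ((u : ℤ) : ℝ) * ((v : ℤ) : ℝ) = s ∨ ((u : ℤ) : ℝ) * ((v : ℤ) : ℝ) = -s := by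
  rcases Int.units_eq_one_or u with h | h <;> rcases Int.units_eq_one_or v with h' | h' <;>
    rcases hs with hs | hs <;> subst h <;> subst h' <;> subst hs <;> norm_num

/-- a large face at `x` is in the big lune, so the face across `x` is a triangle and the next ones are
quadrangles -/
theorem LocTri_quad {a : ι → V3} (ha : Simple a) (hn : 4 ≤ Fintype.card ι) {x y z : ι}
    (hxy : x ≠ y) (hxz : x ≠ z) (hyz : y ≠ z) {t : ℝ} (ht : t = 1 ∨ t = -1)
    (h2 : InsepSgn a x z t) {T : ι → ℤˣ} (hT : Tope a T) (h3 : sz a T = 3)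
    (hl : ((T x : ℤ) : ℝ) * ((T z : ℤ) : ℝ) = -t) (hy : Tope a (flip T y)) :
    sz a (flip T y) = 4 := by
  have hn3 : 3 ≤ Fintype.card ι := by omega
  have e1 : sz a (flip T y) ≤ 4 := by
    apply lune_small ha hn3 hxz ht h2 hy
    rw [flip_ne _ hxy, flip_ne _ hyz.symm, hl]
  have e2 : 3 ≤ sz a (flip T y) := by
    apply three_le_sz ha hn3 (i := y) hy
    rwa [flip_flip]
  have e3 := no_adj_tri ha hn hT h3 hy
  omega

/-- across a line `x` with two partners `y`, `z` a large face has a triangle with edges `x, y, z`, whose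
other neighbours are quadrangles -/
theorem loc_tri {a : ι → V3} (ha : Simple a) (hn : 4 ≤ Fintype.card ι) {x y z : ι}
    (h1 : Insep a x y) (h2 : Insep a x z) (hyz : y ≠ z) {F : ι → ℤˣ} (hF : Tope a F)
    (h5 : 5 ≤ sz a F) (hx : Tope a (flip F x)) :
    sz a (flip F x) = 3 ∧ Tope a (flip (flip F x) y) ∧ sz a (flip (flip F x) y) = 4 ∧
    Tope a (flip (flip F x) z) ∧ sz a (flip (flip F x) z) = 4 ∧ Tope a (flip F y) ∧
    Tope a (flip F z) := by
  have hn3 : 3 ≤ Fintype.card ι := by omega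
  have hnb := interior_nb ha hn3 h1 h2 hyz hF h5 hx
  obtain ⟨hxy, s, hs, g1⟩ := h1
  obtain ⟨hxz, t, ht, g2⟩ := h2
  have hy : y ∈ nb a F x := by rw [hnb]; simp
  have hz : z ∈ nb a F x := by rw [hnb]; simp
  obtain ⟨-, y1, y2⟩ := hy
  obtain ⟨-, z1, z2⟩ := hz
  have e1 : ((F x : ℤ) : ℝ) * ((F y : ℤ) : ℝ) = s := by
    rcases LocTri_cases (F x) (F y) hs with h | h
    · exact h
    · exact absurd (lune_small ha hn3 hxy hs g1 hF h) (by omega)
  have e2 : ((F x : ℤ) : ℝ) * ((F z : ℤ) : ℝ) = t := by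
    rcases LocTri_cases (F x) (F z) ht with h | h
    · exact h
    · exact absurd (lune_small ha hn3 hxz ht g2 hF h) (by omega)
  have f1 : (((flip F x) x : ℤ) : ℝ) * (((flip F x) y : ℤ) : ℝ) = -s := by
    rw [flip_same, flip_ne _ hxy.symm, LocTri_neg, neg_mul, e1]
  have f2 : (((flip F x) x : ℤ) : ℝ) * (((flip F x) z : ℤ) : ℝ) = -t := by
    rw [flip_same, flip_ne _ hxz.symm, LocTri_neg, neg_mul, e2]
  have hT3 : sz a (flip F x) = 3 := by
    apply lune_corner ha hn3 hxy hs g1 hx f1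
    rwa [flip_flip]
  exact ⟨hT3, y2, LocTri_quad ha hn hxy hxz hyz ht g2 hx hT3 f2 y2, z2,
    LocTri_quad ha hn hxz hxy hyz.symm hs g1 hx hT3 f1 z2, y1, z1⟩

/-- one of the two faces of the big lune at `x ∩ y` is a quadrangle if `x` has a second partner -/
theorem corner_quad {a : ι → V3} (ha : Simple a) (hn : 4 ≤ Fintype.card ι) {x y z : ι}
    (h1 : Insep a x y) (h2 : Insep a x z) (hyz : y ≠ z) {G : ι → ℤˣ} (hG : Tope a G)
    (h3 : Tope a (flip G x)) (h4 : Tope a (flip G y)) (h5 : Tope a (flip (flip G x) y))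
    (h6 : 4 ≤ sz a G) : sz a G = 4 ∨ sz a (flip (flip G x) y) = 4 := by
  have hn3 : 3 ≤ Fintype.card ι := by omega
  obtain ⟨hxy, s, hs, g1⟩ := h1
  obtain ⟨hxz, t, ht, g2⟩ := h2
  have e1 : ((G x : ℤ) : ℝ) * ((G y : ℤ) : ℝ) = s := by
    rcases LocTri_cases (G x) (G y) hs with h | h
    · exact h
    · have := lune_corner ha hn3 hxy hs g1 hG h h5
      omega
  rcases LocTri_cases (G x) (G z) ht with h | h
  · right
    have f1 : (((flip G x) x : ℤ) : ℝ) * (((flip G x) y : ℤ) : ℝ) = -s := by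
      rw [flip_same, flip_ne _ hxy.symm, LocTri_neg, neg_mul, e1]
    have f2 : (((flip G x) x : ℤ) : ℝ) * (((flip G x) z : ℤ) : ℝ) = -t := by
      rw [flip_same, flip_ne _ hxz.symm, LocTri_neg, neg_mul, h]
    have hT3 : sz a (flip G x) = 3 := by
      apply lune_corner ha hn3 hxy hs g1 h3 f1
      rwa [flip_flip]
    exact LocTri_quad ha hn hxy hxz hyz ht g2 h3 hT3 f2 h5
  · left
    have := lune_small ha hn3 hxz ht g2 hG h
    omega

end LocTri

end Pool.Agent.H.MP_b7f8b0_co.helper73
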