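import Pool.Agent.H.MP_b7f8b0_co.helper73.Defs2

set_option autoImplicit false
open Matrix

namespace Pool.Agent.H.MP_b7f8b0_co.helper73

theorem sg_grow {n P x u v : ℕ} {K : Multiset ℕ} (h : SG n P x u v K) (hx : 4 ≤ x) :
    SG (n + 1) (P + 1) (x + 1) u v K := by
  obtain ⟨ι, _, _, a, hc, hn, X, U, l, q, c1, c2, c3, c4, d1, e1, e2⟩ := h
  obtain ⟨a', f1, f2, f3, f4, f5⟩ := Chain_step (P' := P + 1)
    (Chain_cfg_congr hc (Chain_count_junk (y := 3) (by omega))) hn c1 c2
    (by rw [if_neg (by omega), if_pos rfl])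
  have g1 := f2 _ _ c3 e1
  have g2 := f2 _ _ c4 e2
  rw [← Chain_flip_ext d1] at g2
  refine ⟨Option ι, inferInstance, inferInstance, a', ?_, by omega, ext l X, ext l U, some l,
    some q, f3, f5, g1, g2, by simpa using d1, Chain_away_ext e1, ?_⟩
  · exact Chain_cfg_congr f1 fun k hk => (Chain_count_junk (y := 3 + 1) (by omega) k hk).symm
  · rw [Chain_flip_ext d1]
    exact Chain_away_ext e2

theorem sg_iter {n P x u v : ℕ} {K : Multiset ℕ} (h : SG n P x u v K) (hx : 4 ≤ x) (j : ℕ) :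
    SG (n + j) (P + j) (x + j) u v K := by
  induction j with
  | zero => exact h
  | succ j ih => exact sg_grow ih (hx.trans (Nat.le_add_right x j))

/-- from a state with a quadrangle next to a large face to `QAdj` -/
theorem sg_qadj {n P x v M e : ℕ} {K : Multiset ℕ} (h : SG n P x 4 v K) (hv : M ≤ v)
    (hP : P = pp (x ::ₘ K)) (he : n + e = pp (x ::ₘ K)) : QAdj (x ::ₘ K) e M := by
  obtain ⟨ι, i1, i2, a, hc, hn, X, U, l, q, c1, c2, c3, c4, d1, e1, e2⟩ := h
  exact ⟨ι, i1, i2, a, n, he, hP ▸ hc, U, q, c3, c4.1, by rw [c4.2]; exact hv⟩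

end Pool.Agent.H.MP_b7f8b0_co.helper73
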