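import Pool.Agent.H.MP_b7f8b0_co.helper73.Defs2
import Pool.Agent.H.MP_b7f8b0_co.helper73.SGrow
import Pool.Agent.H.MP_b7f8b0_co.helper73.Interior
import Pool.Agent.H.MP_b7f8b0_co.helper73.LocTri

set_option autoImplicit false
open Matrix

namespace Pool.Agent.H.MP_b7f8b0_co.helper73

private theorem G1_away {ι : Type} [DecidableEq ι] (F : ι → ℤˣ) {x y r : ι} (hxy : x ≠ y)
    (hrx : r ≠ x) (hry : r ≠ y) : Chain_Away (flip (flip F x) y) y F := by
  unfold Chain_Away
  rw [Chain_flip_flip]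
  refine ⟨Chain_ne_of x ?_, Chain_ne_neg_of r ?_, Chain_ne_of x ?_, Chain_ne_neg_of y ?_⟩
  · rw [Chain_flip_ne _ hxy, Chain_flip_same, neg_neg]
  · rw [Chain_flip_ne _ hry, Chain_flip_ne _ hrx]
  · rw [Chain_flip_same, neg_neg]
  · rw [Chain_flip_ne _ hxy.symm]

private theorem G1_third {ι : Type} [DecidableEq ι] [Fintype ι] (hn : 5 ≤ Fintype.card ι)
    (x y : ι) : ∃ r : ι, r ≠ x ∧ r ≠ y := by
  have h : 0 < ((Finset.univ.erase x).erase y).card := by
    have h1 : (Finset.univ.erase x).card = Fintype.card ι - 1 := by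
      rw [Finset.card_erase_of_mem (Finset.mem_univ _), Finset.card_univ]
    have h2 := Finset.pred_card_le_card_erase (s := Finset.univ.erase x) (a := y)
    omega
  obtain ⟨r, hr⟩ := Finset.card_pos.1 h
  have h1 := Finset.mem_erase.1 hr
  exact ⟨r, (Finset.mem_erase.1 h1.2).1, h1.1⟩

/-- one more large face, the same `e` -/
theorem g1 {μ : Multiset ℕ} {R e : ℕ} (hμ : ∀ j ∈ μ, 5 ≤ j) (hR : 1 ≤ R) (h : EE μ R e) :
    GG μ (R + 1) e := by
  classical
  intro M
  obtain ⟨ν, hν1, hν2, n, hn, hrlz⟩ := h (max M (max 5 (4 * (μ.card + R))))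
  obtain ⟨ι, i1, i2, a, hc⟩ := hrlz
  obtain ⟨v, hv⟩ := Multiset.card_pos_iff_exists_mem.1 (show 0 < ν.card by omega)
  have hvM := hν2 v hv
  have hv1 : M ≤ v := (le_max_left _ _).trans hvM
  have hv2 : 5 ≤ v := ((le_max_left _ _).trans (le_max_right _ _)).trans hvM
  have hv3 : 4 * (μ.card + R) ≤ v := ((le_max_right _ _).trans (le_max_right _ _)).trans hvM
  have hK : ∀ k ∈ μ + ν, 5 ≤ k := by
    intro k hk
    rcases Multiset.mem_add.1 hk with h1 | h1
    · exact hμ k h1
    · exact ((le_max_left _ _).trans (le_max_right _ _)).trans (hν2 k h1)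
  have hcard : (μ + ν).card = μ.card + R := by rw [Multiset.card_add, hν1]
  -- the face F
  have hcnt : cnt a v ≠ 0 := by
    rw [hc.2.2.2 v hv2]
    have h1 : 0 < (μ + ν).count v :=
      Multiset.count_pos.2 (Multiset.mem_add.2 (Or.inr hv))
    omega
  obtain ⟨F, hF, hFv⟩ : ∃ F : ι → ℤˣ, Tope a F ∧ sz a F = v := by
    by_contra hno
    push Not at hno
    apply hcnt
    have h1 : {ε : ι → ℤˣ | Tope a ε ∧ sz a ε = v} = ∅ := by
      ext ε
      simp only [Set.mem_ofPred_eq, Set.mem_empty_iff_false, iff_false, not_and]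
      exact fun h2 => hno ε h2
    rw [cnt, h1, Set.ncard_empty]
  have hn5 : 5 ≤ Fintype.card ι := by
    have h1 : sz a F ≤ Fintype.card ι := by
      rw [sz, ← Nat.card_eq_fintype_card, ← Set.ncard_univ]
      exact Set.ncard_le_ncard (Set.subset_univ _) (Set.toFinite _)
    omega
  have hn5' : 5 ≤ n := by
    have := hc.2.1
    omega
  obtain ⟨x, y, z, hyz, hxy, hxz, hFx⟩ := exists_interior hc hK rfl hn5' (by omega) hF
    (by rw [hcard, hFv]; omega)
  obtain ⟨t1, t2, t3, t4, t5, t6, t7⟩ := loc_tri hc.1 (by omega) hxy hxz hyz hF (by omega) hFx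
  obtain ⟨r, hrx, hry⟩ := G1_third hn5 x y
  have hne : x ≠ y := hxy.1
  have hQT : flip (flip (flip F x) y) y = flip F x := Chain_flip_flip _ _
  obtain ⟨a', f1, f2, f3, f4, f5⟩ := Chain_step (x := 4) (y := 3) (P' := pp (μ + ν) + 1)
    (K := μ + ν) (X := flip (flip F x) y) (l := y)
    (Chain_cfg_congr hc fun k hk => by
      simp only [Multiset.count_cons]
      rw [if_neg (show ¬ k = 3 by omega), if_neg (show ¬ k = 4 by omega)]
      omega) (by omega) ⟨t2, t3⟩ (by rw [hQT]; exact ⟨hFx, t1⟩)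
    (by rw [if_neg (by omega), if_pos rfl])
  have hA := G1_away F hne hrx hry
  have g1 := f2 _ _ ⟨hF, hFv⟩ hA
  have hside := Chain_away_side (X := flip (flip F x) y) hry
  rw [hQT] at f4 hside
  have hflip : flip (ext y (flip F x)) (some x) = ext y F := by
    rw [Chain_flip_ext hne, Chain_flip_flip]
  have hSG : SG (n + 1) (pp (μ + ν) + 1) 5 4 v (μ + ν) := by
    refine ⟨Option ι, inferInstance, inferInstance, a', ?_, by omega, ext y (flip (flip F x) y),
      ext y (flip F x), some y, some x, f3, f5, f4, ?_, by simpa using hne, hside, ?_⟩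
    · refine Chain_cfg_congr f1 fun k hk => ?_
      simp only [Multiset.count_cons]
      rw [if_neg (show ¬ k = 3 + 1 by omega)]
      simp only [show (4 : ℕ) + 1 = 5 from rfl]
      omega
    · rw [hflip]
      exact g1
    · rw [hflip]
      exact Chain_away_ext hA
  have hSG2 := sg_iter hSG (by omega) M
  have hpp : pp ((5 + M) ::ₘ (μ + ν)) = pp (μ + ν) + 1 + M := by
    simp only [pp, Multiset.map_cons, Multiset.sum_cons]
    omega
  have hQ := sg_qadj (M := M) (e := e) hSG2 hv1 (by rw [hpp]) (by rw [hpp]; omega)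
  refine ⟨(5 + M) ::ₘ ν, by rw [Multiset.card_cons, hν1], ?_, ?_⟩
  · intro k hk
    rcases Multiset.mem_cons.1 hk with h1 | h1
    · omega
    · exact (le_max_left _ _).trans (hν2 k h1)
  · rw [Multiset.add_cons]
    exact hQ

end Pool.Agent.H.MP_b7f8b0_co.helper73
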