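import Pool.Agent.H.MP_b7f8b0_co.helper73.Defs2
import Pool.Agent.H.MP_b7f8b0_co.helper73.SGrow

set_option autoImplicit false
open Matrix

namespace Pool.Agent.H.MP_b7f8b0_co.helper73

section G2Basic
variable {ι : Type} [DecidableEq ι] [Fintype ι]

/-- a face with at least five edges is counted -/
theorem G2_mem {a : ι → V3} {n P : ℕ} {K : Multiset ℕ} (h : Cfg n P K a) {ε : ι → ℤˣ}
    (hε : Tope a ε) (h5 : 5 ≤ sz a ε) : sz a ε ∈ K := by
  have h1 := h.2.2.2 _ h5
  have h2 : 0 < cnt a (sz a ε) := by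
    unfold cnt
    rw [Set.ncard_pos (Set.toFinite _)]
    exact ⟨ε, hε, rfl⟩
  rw [← Multiset.count_pos]
  omega

theorem G2_card {a : ι → V3} {ε : ι → ℤˣ} : sz a ε ≤ Fintype.card ι := by
  unfold sz
  rw [← Nat.card_eq_fintype_card, ← Set.ncard_univ]
  exact Set.ncard_le_ncard (Set.subset_univ _) (Set.toFinite _)

end G2Basic

/-- the two doubling steps -/
theorem G2_step {ι : Type} [DecidableEq ι] [Fintype ι] {a : ι → V3} {n P : ℕ} {K : Multiset ℕ}
    {U : ι → ℤˣ} {x : ι} (hn : 4 ≤ n) (h : Cfg n P (sz a (flip U x) ::ₘ K) a)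
    (hU : Chain_F a U 4) (hV : Tope a (flip U x)) (h5 : 5 ≤ sz a (flip U x)) :
    SG (n + 2) (P + 3) 6 4 (sz a (flip U x) + 1) ((sz a (flip U x) + 1) ::ₘ K) := by
  set v := sz a (flip U x) with hv
  have hcard : 4 ≤ Fintype.card ι := by rw [h.2.1]; exact hn
  obtain ⟨r, hr, -⟩ := Chain_card hcard x x x
  obtain ⟨a1, b1, b2, b3, b4, b5⟩ := Chain_step (x := 4) (y := v) (P' := P + 2) (K := K)
    (Chain_cfg_congr h fun k hk => Chain_count_junk' (by omega) k hk) hn hU ⟨hV, hv.symm⟩
    (by rw [if_neg (by omega), if_neg (by omega)])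
  have hA1 : Chain_Away (ext x U) (some x) (ext x (flip U x)) := Chain_away_side hr
  obtain ⟨a2, c1, c2, c3, c4, c5⟩ := Chain_step (x := 5) (y := 3) (P' := P + 3)
    (K := (v + 1) ::ₘ K) (X := ext x U) (l := some x)
    (Chain_cfg_congr b1 fun k hk => by
      simp only [Multiset.count_cons]
      split_ifs <;> omega) (by omega) b3 b5
    (by rw [if_neg (by omega), if_pos rfl])
  have hV2 := c2 _ _ b4 hA1
  have hA2 := Chain_away_ext hA1
  have hA3 : Chain_Away (ext (some x) (ext x U)) (some (some x))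
      (ext (some x) (flip (ext x U) (some x))) :=
    Chain_away_side (r := (none : Option ι)) (by simp)
  have hflip : flip (ext (some x) (flip (ext x U) (some x))) (some none) =
      ext (some x) (ext x (flip U x)) := by
    rw [Chain_flip_ext (by simp), Chain_flip_flip_ext]
  refine ⟨Option (Option ι), inferInstance, inferInstance, a2, ?_, by omega,
    ext (some x) (ext x U), ext (some x) (flip (ext x U) (some x)), some (some x), some none,
    c3, c5, c4, ?_, by simp, hA3, ?_⟩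
  · refine Chain_cfg_congr c1 fun k hk => ?_
    simp only [Multiset.count_cons]
    split_ifs <;> omega
  · rw [hflip]
    exact hV2
  · rw [hflip]
    exact hA2

theorem G2_pp_cons (k : ℕ) (K : Multiset ℕ) : pp (k ::ₘ K) = (k - 4) + pp K := by
  unfold pp
  rw [Multiset.map_cons, Multiset.sum_cons]
  omega

/-- one more large face, `e + 1` -/
theorem g2 {μ : Multiset ℕ} {R e : ℕ} (hμ : ∀ j ∈ μ, 5 ≤ j) (h : GG μ R e) :
    GG μ (R + 1) (e + 1) := by
  intro M
  obtain ⟨ν, hνc, hνM, ι, i1, i2, a, n, hne, hcfg, U, x, hU, hV, hMv⟩ := h (M + 5 + μ.sum + 1)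
  have h5 : 5 ≤ sz a (flip U x) := by omega
  have hmem := G2_mem hcfg hV h5
  have hnot : sz a (flip U x) ∉ μ := by
    intro hm
    have := Multiset.single_le_sum (fun _ _ => Nat.zero_le _) _ hm
    omega
  have hmν : sz a (flip U x) ∈ ν := by
    rcases Multiset.mem_add.1 hmem with hm | hm
    · exact absurd hm hnot
    · exact hm
  obtain ⟨ν1, rfl⟩ := Multiset.exists_cons_of_mem hmν
  have hn4 : 4 ≤ n := by
    have h1 := G2_card (a := a) (ε := U)
    rw [hU.2, hcfg.2.1] at h1
    exact h1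
  rw [Multiset.add_cons] at hcfg hne
  have hSG := G2_step hn4 hcfg hU hV h5
  rw [G2_pp_cons] at hne
  rw [G2_pp_cons] at hSG
  set v := sz a (flip U x) with hv
  have hSG2 := sg_iter hSG (by omega) M
  have hpp : v - 4 + pp (μ + ν1) + 3 + M = pp ((6 + M) ::ₘ (v + 1) ::ₘ (μ + ν1)) := by
    rw [G2_pp_cons, G2_pp_cons]
    omega
  have hQ := sg_qadj (M := M) (e := e + 1) hSG2 (by omega) hpp (by rw [← hpp]; omega)
  refine ⟨(6 + M) ::ₘ (v + 1) ::ₘ ν1, ?_, ?_, ?_⟩
  · rw [Multiset.card_cons] at hνc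
    rw [Multiset.card_cons, Multiset.card_cons]
    omega
  · intro k hk
    rw [Multiset.mem_cons, Multiset.mem_cons] at hk
    rcases hk with rfl | rfl | hk
    · omega
    · omega
    · have := hνM k (Multiset.mem_cons_of_mem hk)
      omega
  · rw [Multiset.add_cons, Multiset.add_cons]
    exact hQ

theorem gg_ee {μ : Multiset ℕ} {R e : ℕ} (h : GG μ R e) : EE μ R e := by
  intro M
  obtain ⟨ν, hνc, hνM, ι, i1, i2, a, n, hne, hcfg, -⟩ := h M
  exact ⟨ν, hνc, hνM, n, hne, ι, i1, i2, a, hcfg⟩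

end Pool.Agent.H.MP_b7f8b0_co.helper73
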