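import Pool.Agent.H.MP_b7f8b0_co.helper73.Stab

/-!
Only the sizes below `4r - 3` matter.
-/

set_option autoImplicit false
open Matrix

namespace Pool.Agent.H.MP_b7f8b0_co.helper73

/-- one entry can be changed -/
theorem Stab2_one {K : Multiset ℕ} {e k k' : ℕ} (hK : ∀ j ∈ K, 5 ≤ j) (hk5 : 5 ≤ k)
    (hk : 4 * (K.card + 1) - 3 ≤ k) (hk5' : 5 ≤ k') (hk' : 4 * (K.card + 1) - 3 ≤ k')
    (h : RR (k ::ₘ K) e) : RR (k' ::ₘ K) e := by
  have up : ∀ a, 5 ≤ a → 4 * (K.card + 1) - 3 ≤ a → ∀ d, RR (a ::ₘ K) e →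
      RR ((a + d) ::ₘ K) e := by
    intro a ha1 ha2 d
    induction d with
    | zero => exact fun h => h
    | succ d ih => exact fun h => stab_up (k := a + d) hK (by omega) (by omega) (ih h)
  have down : ∀ a, 5 ≤ a → 4 * (K.card + 1) - 3 ≤ a → ∀ d, RR ((a + d) ::ₘ K) e →
      RR (a ::ₘ K) e := by
    intro a ha1 ha2 d
    induction d with
    | zero => exact fun h => h
    | succ d ih => exact fun h => ih (stab_down (k := a + d) hK (by omega) (by omega) h)
  rcases le_total k k' with hle | hle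
  · obtain ⟨d, rfl⟩ := Nat.exists_eq_add_of_le hle
    exact up k hk5 hk d h
  · obtain ⟨d, rfl⟩ := Nat.exists_eq_add_of_le hle
    exact down k' hk5' hk' d h

/-- only the entries below `4r - 3` matter -/
theorem stab {μ ν ν' : Multiset ℕ} {e : ℕ} (hμ : ∀ j ∈ μ, 5 ≤ j) (hc : ν.card = ν'.card)
    (hν : ∀ k ∈ ν, 5 ≤ k ∧ 4 * (μ.card + ν.card) - 3 ≤ k)
    (hν' : ∀ k ∈ ν', 5 ≤ k ∧ 4 * (μ.card + ν.card) - 3 ≤ k) (h : RR (μ + ν) e) :
    RR (μ + ν') e := by
  induction ν using Multiset.induction generalizing μ ν' with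
  | empty =>
    rw [Multiset.card_zero] at hc
    rw [Multiset.card_eq_zero.mp hc.symm]
    exact h
  | cons k ν ih =>
    rw [Multiset.card_cons] at hc hν hν'
    have hpos : 0 < ν'.card := by omega
    obtain ⟨k', hk'⟩ := Multiset.card_pos_iff_exists_mem.mp hpos
    obtain ⟨ν'', rfl⟩ := Multiset.exists_cons_of_mem hk'
    rw [Multiset.card_cons] at hc
    have hkk := hν k (Multiset.mem_cons_self _ _)
    have hkk' := hν' k' (Multiset.mem_cons_self _ _)
    have h1 : RR (k ::ₘ (μ + ν)) e := by
      rw [← Multiset.add_cons]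
      exact h
    have hc1 : (μ + ν).card = μ.card + ν.card := Multiset.card_add _ _
    have h2 : RR (k' ::ₘ (μ + ν)) e := by
      refine Stab2_one ?_ hkk.1 ?_ hkk'.1 ?_ h1
      · intro j hj
        rcases Multiset.mem_add.mp hj with hj | hj
        · exact hμ j hj
        · exact (hν j (Multiset.mem_cons_of_mem hj)).1
      · rw [hc1]
        have := hkk.2
        omega
      · rw [hc1]
        have := hkk'.2
        omega
    have h3 : RR ((k' ::ₘ μ) + ν'') e := by
      refine ih (μ := k' ::ₘ μ) (ν' := ν'') ?_ (by omega) ?_ ?_ ?_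
      · intro j hj
        rcases Multiset.mem_cons.mp hj with hj | hj
        · rw [hj]
          exact hkk'.1
        · exact hμ j hj
      · intro j hj
        rw [Multiset.card_cons]
        have := hν j (Multiset.mem_cons_of_mem hj)
        omega
      · intro j hj
        rw [Multiset.card_cons]
        have := hν' j (Multiset.mem_cons_of_mem hj)
        omega
      · rw [Multiset.cons_add]
        exact h2
    rw [Multiset.add_cons, ← Multiset.cons_add]
    exact h3

/-- `EE` can be tested on one multiset -/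
theorem ee_iff {μ ν : Multiset ℕ} {e : ℕ} (hμ : ∀ j ∈ μ, 5 ≤ j)
    (hν : ∀ k ∈ ν, 5 ≤ k ∧ 4 * (μ.card + ν.card) - 3 ≤ k) :
    RR (μ + ν) e ↔ EE μ ν.card e := by
  constructor
  · intro h M
    refine ⟨Multiset.replicate ν.card (M + 5 + 4 * (μ.card + ν.card)),
      Multiset.card_replicate _ _, ?_, ?_⟩
    · intro k hk
      rw [Multiset.eq_of_mem_replicate hk]
      omega
    · refine stab hμ (Multiset.card_replicate _ _).symm hν ?_ h
      intro k hk
      rw [Multiset.eq_of_mem_replicate hk]
      omega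
  · intro h
    obtain ⟨ν0, hc, hν0, h0⟩ := h (5 + 4 * (μ.card + ν.card))
    refine stab hμ hc ?_ ?_ h0
    · intro k hk
      have := hν0 k hk
      rw [hc]
      omega
    · intro k hk
      have := hν k hk
      rw [hc]
      omega

end Pool.Agent.H.MP_b7f8b0_co.helper73
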