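import Mathlib

set_option autoImplicit false
open Matrix

namespace Pool.Agent.H.MP_b7f8b0_co.helper73

/-- vectors of `R^3`; a line of the projective plane is given by a nonzero vector `a i`, it consists of
the points `x` with `a i ⬝ᵥ x = 0` -/
abbrev V3 := Fin 3 → ℝ

section nodec
variable {ι : Type}

/-- the sign vector `ε` is realised: an open face (up to the antipodal map) -/
def Tope (a : ι → V3) (ε : ι → ℤˣ) : Prop :=
  ∃ x : Fin 3 → ℝ, ∀ i, 0 < ((ε i : ℤ) : ℝ) * dotProduct (a i) x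

/-- simple arrangement -/
def Simple (a : ι → V3) : Prop :=
  ∀ i j l : ι, i ≠ j → j ≠ l → i ≠ l → LinearIndependent ℝ ![a i, a j, a l]

/-- the lines `x`, `y` are inseparable with sign `s`: no crossing point of two other lines lies in the
lune where the product of the signs is `-s` -/
def InsepSgn (a : ι → V3) (x y : ι) (s : ℝ) : Prop :=
  ∀ m m' : ι, m ≠ m' → m ≠ x → m ≠ y → m' ≠ x → m' ≠ y →
    ∀ v : V3, v ≠ 0 → a m ⬝ᵥ v = 0 → a m' ⬝ᵥ v = 0 → 0 < s * ((a x ⬝ᵥ v) * (a y ⬝ᵥ v))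

def Insep (a : ι → V3) (x y : ι) : Prop :=
  x ≠ y ∧ ∃ s : ℝ, (s = 1 ∨ s = -1) ∧ InsepSgn a x y s

theorem insepSgn_symm {a : ι → V3} {x y : ι} {s : ℝ} (h : InsepSgn a x y s) : InsepSgn a y x s := by
  intro m m' h1 h2 h3 h4 h5 v hv h6 h7
  have := h m m' h1 h3 h2 h5 h4 v hv h6 h7
  rwa [mul_comm (a y ⬝ᵥ v)]

/-- the inseparability graph -/
def insepGraph (a : ι → V3) : SimpleGraph ι where
  Adj x y := Insep a x y
  symm := ⟨by
    rintro x y ⟨h, s, hs, h1⟩
    exact ⟨h.symm, s, hs, insepSgn_symm h1⟩⟩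
  loopless := ⟨fun x h => h.1 rfl⟩

/-- the sign vector `ε` extended by a new line (index `none`) that follows the line `ℓ` -/
def ext (ℓ : ι) (ε : ι → ℤˣ) : Option ι → ℤˣ := fun o => o.elim (ε ℓ) ε

end nodec

section defs
variable {ι : Type} [DecidableEq ι]

/-- cross the line `i` -/
def flip (ε : ι → ℤˣ) (i : ι) : ι → ℤˣ := Function.update ε i (-ε i)

/-- the lines that carry an edge of the face `ε` -/
def edgeSet (a : ι → V3) (ε : ι → ℤˣ) : Set ι := {i | Tope a (flip ε i)}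

/-- the number of edges of the face `ε` -/
noncomputable def sz (a : ι → V3) (ε : ι → ℤˣ) : ℕ := (edgeSet a ε).ncard

/-- twice the number of `k`-gons -/
noncomputable def cnt (a : ι → V3) (k : ℕ) : ℕ := {ε : ι → ℤˣ | Tope a ε ∧ sz a ε = k}.ncard

/-- the two lines next to the edge `i` of the face `ε` -/
def nb (a : ι → V3) (ε : ι → ℤˣ) (i : ι) : Set ι :=
  {j | j ≠ i ∧ Tope a (flip ε j) ∧ Tope a (flip (flip ε i) j)}

/-- `n` lines, `P` triangles, and for `k ≥ 5` exactly `K.count k` `k`-gons (the entries `≤ 4` of `K` do not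
matter) -/
def Cfg [Fintype ι] (n P : ℕ) (K : Multiset ℕ) (a : ι → V3) : Prop :=
  Simple a ∧ Fintype.card ι = n ∧ cnt a 3 = 2 * P ∧ ∀ k, 5 ≤ k → cnt a k = 2 * K.count k

end defs

/-- some simple arrangement of `n` lines has `P` triangles and for `k ≥ 5` exactly `K.count k` `k`-gons -/
def Rlz (n P : ℕ) (K : Multiset ℕ) : Prop :=
  ∃ (ι : Type) (_ : Fintype ι) (_ : DecidableEq ι) (a : ι → V3), Cfg n P K a

end Pool.Agent.H.MP_b7f8b0_co.helper73
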