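import Pool.Agent.H.MP_b7f8b0_co.helper73.Defs2
import Pool.Agent.H.MP_b7f8b0_co.helper73.ChainP
import Pool.Agent.H.MP_b7f8b0_co.helper73.Upper
import Pool.Agent.H.MP_b7f8b0_co.helper73.Stab2
import Pool.Agent.H.MP_b7f8b0_co.helper73.G1
import Pool.Agent.H.MP_b7f8b0_co.helper73.G2

set_option autoImplicit false
open Matrix

namespace Pool.Agent.H.MP_b7f8b0_co.helper73

/-- the value `e = R + D - 2` with `R` further large faces -/
def Almost_GD (μ : Multiset ℕ) (D R : ℕ) : Prop := ∃ e, e + 2 = R + D ∧ GG μ R e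

theorem Almost_GD_succ {μ : Multiset ℕ} (hμ : ∀ j ∈ μ, 5 ≤ j) {D R : ℕ} (h : Almost_GD μ D R) :
    Almost_GD μ D (R + 1) := by
  obtain ⟨e, he, h1⟩ := h
  exact ⟨e + 1, by omega, g2 hμ h1⟩

theorem Almost_GD_mono {μ : Multiset ℕ} (hμ : ∀ j ∈ μ, 5 ≤ j) {D R R' : ℕ} (hRR : R ≤ R')
    (h : Almost_GD μ D R) : Almost_GD μ D R' := by
  induction R', hRR using Nat.le_induction with
  | base => exact h
  | succ R' _ ih => exact Almost_GD_succ hμ ih

/-- the exceptional values -/
theorem Almost_set {μ : Multiset ℕ} (hμ : ∀ j ∈ μ, 5 ≤ j) (D0 D1 : ℕ) :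
    ∃ B : Finset ℕ, B.card ≤ D1 - D0 ∧ ∀ R, R ∉ B → ∀ D, D0 + 1 ≤ D → D ≤ D1 →
      Almost_GD μ D (R + 1) → Almost_GD μ D R := by
  classical
  have h1 : ∀ D : ℕ, ∃ R0 : ℕ, ∀ R, Almost_GD μ D (R + 1) → ¬ Almost_GD μ D R → R = R0 := by
    intro D
    by_cases h : ∃ R0, Almost_GD μ D (R0 + 1) ∧ ¬ Almost_GD μ D R0
    · obtain ⟨R0, h2, h3⟩ := h
      refine ⟨R0, fun R h4 h5 => ?_⟩
      rcases lt_trichotomy R R0 with h6 | h6 | h6
      · exact absurd (Almost_GD_mono hμ (show R + 1 ≤ R0 by omega) h4) h3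
      · exact h6
      · exact absurd (Almost_GD_mono hμ (show R0 + 1 ≤ R by omega) h2) h5
    · refine ⟨0, fun R h4 h5 => absurd ⟨R, h4, h5⟩ h⟩
  choose f hf using h1
  refine ⟨(Finset.Icc (D0 + 1) D1).image f, ?_, ?_⟩
  · refine Finset.card_image_le.trans ?_
    rw [Nat.card_Icc]
    omega
  · intro R hR D h2 h3 h4
    by_contra h5
    apply hR
    rw [Finset.mem_image]
    exact ⟨D, Finset.mem_Icc.2 ⟨h2, h3⟩, (hf D R h4 h5).symm⟩

/-- For every multiset `μ` of `t ≥ 1` faces: for all but at most `2t - 1 - min (t, t6 + 2)` values `R ≥ 1`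
the set of `e` is downward closed for `μ` together with any `R` faces with at least `4(t+R)-3` edges -/
theorem almost {μ : Multiset ℕ} (hμ : ∀ j ∈ μ, 5 ≤ j) (ht : 1 ≤ μ.card) :
    ∃ B : Finset ℕ, B.card ≤ 2 * μ.card - 1 - min μ.card ((μ.filter (fun k => 6 ≤ k)).card + 2) ∧
      ∀ R, 1 ≤ R → R ∉ B → ∀ ν : Multiset ℕ, ν.card = R → (∀ k ∈ ν, 4 * (μ.card + R) - 3 ≤ k) →
        ∀ e e' : ℕ, e' ≤ e → RR (μ + ν) e → RR (μ + ν) e' := by
  obtain ⟨D0, hD0⟩ : ∃ D0, D0 = min μ.card ((μ.filter (fun k => 6 ≤ k)).card + 2) := ⟨_, rfl⟩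
  rw [← hD0]
  have hD1 : D0 ≤ μ.card := by rw [hD0]; exact min_le_left _ _
  have hD2 : D0 ≤ (μ.filter (fun k => 6 ≤ k)).card + 2 := by rw [hD0]; exact min_le_right _ _
  obtain ⟨B, hB1, hB2⟩ := Almost_set hμ D0 (2 * μ.card - 1)
  refine ⟨B, hB1, ?_⟩
  intro R hR hRB ν hν hk e e' hee h
  have hν5 : ∀ k ∈ ν, 5 ≤ k := by
    intro k hk'
    have := hk k hk'
    omega
  have hK : ∀ k ∈ μ + ν, 5 ≤ k := by
    intro k hk'
    rcases Multiset.mem_add.1 hk' with h1 | h1
    · exact hμ k h1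
    · exact hν5 k h1
  have hcard : (μ + ν).card = μ.card + R := by rw [Multiset.card_add, hν]
  have hstep : ∀ e, RR (μ + ν) (e + 1) → RR (μ + ν) e := by
    intro e h
    obtain ⟨n, hn, hrl⟩ := h
    -- the upper bound
    have hup : e + 3 ≤ 2 * μ.card + R := by
      obtain ⟨ι, i1, i2, a, ha⟩ := hrl
      have h1 := upper ha hK rfl (by omega)
      have h2 : R ≤ ((μ + ν).filter (fun k => 2 * (μ + ν).card - 1 ≤ k)).card := by
        rw [Multiset.filter_add, Multiset.card_add]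
        have h3 : ν.filter (fun k => 2 * (μ + ν).card - 1 ≤ k) = ν := by
          rw [Multiset.filter_eq_self]
          intro k hk'
          have := hk k hk'
          omega
        rw [h3, hν]
        omega
      omega
    have hle : e ≤ pp (μ + ν) := by omega
    by_cases hc : e + 2 ≤ R + D0
    · rcases Nat.eq_zero_or_pos e with he | he
      · subst he
        exact ⟨pp (μ + ν), rfl, eberhard (μ + ν) hK⟩
      · have h1 : Rlz (pp (μ + ν) - e) (pp (μ + ν)) (μ + ν) := by
          refine chain' (μ + ν) hK e he (by omega) ?_ ?_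
          · obtain ⟨g, hg⟩ := Multiset.card_pos_iff_exists_mem.1 (show 0 < ν.card by omega)
            refine ⟨g, Multiset.mem_add.2 (Or.inr hg), ?_⟩
            have := hk g hg
            omega
          · right
            rw [Multiset.filter_add, Multiset.card_add]
            have h3 : ν.filter (fun k => 6 ≤ k) = ν := by
              rw [Multiset.filter_eq_self]
              intro k hk'
              have := hk k hk'
              omega
            rw [h3, hν]
            omega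
        exact ⟨pp (μ + ν) - e, by omega, h1⟩
    · have hν' : ∀ k ∈ ν, 5 ≤ k ∧ 4 * (μ.card + ν.card) - 3 ≤ k := by
        intro k hk'
        rw [hν]
        exact ⟨hν5 k hk', hk k hk'⟩
      have h1 : EE μ R (e + 1) := by
        have := (ee_iff hμ hν').1 ⟨n, hn, hrl⟩
        rwa [hν] at this
      have h2 : Almost_GD μ (e + 2 - R) (R + 1) := ⟨e + 1, by omega, g1 hμ hR h1⟩
      obtain ⟨e1, he1, h3⟩ := hB2 R hRB (e + 2 - R) (by omega) (by omega) h2
      have he2 : e1 = e := by omega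
      subst he2
      refine (ee_iff hμ hν').2 ?_
      rw [hν]
      exact gg_ee h3
  obtain ⟨j, rfl⟩ := Nat.exists_eq_add_of_le hee
  induction j with
  | zero => exact h
  | succ j ih => exact ih (by omega) (hstep _ h)

end Pool.Agent.H.MP_b7f8b0_co.helper73
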