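import Pool.Agent.H.MP_b7f8b0_co.helper73.IntTool

set_option autoImplicit false
open Matrix

namespace Pool.Agent.H.MP_b7f8b0_co.helper73

/-- the rows -/
def Base6_A : Fin 6 → Fin 3 → ℤ :=
  ![![1, 0, 0], ![0, 1, 0], ![0, 0, 1], ![1, 1, 1], ![-1, 2, 1], ![2, -1, 1]]

/-- a point in each face -/
def Base6_T : List (Fin 3 → ℤ) :=
  [
    ![-1, -1, -1], ![1, -1, -4], ![-1, 1, -4], ![1, 1, -3], ![-2, -2, 1], ![2, 2, -3],
    ![-4, -1, -1], ![-1, 1, -1], ![1, 4, -6], ![-2, -1, 1], ![-3, 1, 1], ![-1, 3, -1], ![1, 2, -1],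
    ![-4, -1, 6], ![-1, 1, 1], ![1, 4, 1], ![-1, -4, -1], ![1, -1, -1], ![4, 1, -6], ![-1, -2, 1],
    ![1, -3, 1], ![3, -1, -1], ![2, 1, -1], ![-1, -4, 6], ![1, -1, 1], ![4, 1, 1], ![-2, -2, 3],
    ![2, 2, -1], ![-1, -1, 3], ![1, -1, 4], ![-1, 1, 4], ![1, 1, 1]]

/-- relations -/
def Base6_R : List (Fin 6 → ℤ) :=
  [
    ![1, 1, 1, -1, 0, 0], ![-1, -1, -1, 1, 0, 0], ![-1, 2, 1, 0, -1, 0], ![1, -2, -1, 0, 1, 0],
    ![2, -1, 1, 0, 0, -1], ![-2, 1, -1, 0, 0, 1], ![3, 0, 0, -3, 2, 1], ![-3, 0, 0, 3, -2, -1],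
    ![1, -2, 0, 1, 0, -1], ![-1, 2, 0, -1, 0, 1], ![-3, 0, -3, 0, 1, 2], ![3, 0, 3, 0, -1, -2]]

theorem Base6_ok : IntTool_ok Base6_A 17874991687296419871 Base6_T Base6_R = true := by
  decide +kernel

theorem Base6_simp : IntTool_simp Base6_A = true := by
  decide +kernel

/-- six lines, six pentagons (next to the triangles across the marked edges), ten triangles -/
theorem base_six : Marked 6 6 10 (fun _ => 5) 0 := by
  refine IntTool_marked Base6_A 17874991687296419871 Base6_T Base6_R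
    ![36, 33, 45, 0, 60, 20] ![0, 1, 2, 5, 3, 4] Base6_ok Base6_simp (by norm_num)
    (by decide +kernel) (by decide +kernel) ?_ ?_
  · intro k hk6 hk5
    have hk : k = 5 ∨ k = 6 := by omega
    rcases hk with rfl | rfl <;> decide +kernel
  · intro k hk
    simp at hk
    omega

end Pool.Agent.H.MP_b7f8b0_co.helper73
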