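import Pool.Agent.H.MP_b7f8b0_co.helper73.Defs2

/-! # Seven lines, six pentagons, ten triangles -/

set_option autoImplicit false
open Matrix

namespace Pool.Agent.H.MP_b7f8b0_co.helper73

/-! ### sign vectors as numbers -/

/-- the sign vector with the code `k` -/
def Base7_s (n k : ℕ) (i : Fin n) : ℤˣ := if k.testBit i then 1 else -1

theorem Base7_s_inj {n k k' : ℕ} (hk : k < 2 ^ n) (hk' : k' < 2 ^ n)
    (h : Base7_s n k = Base7_s n k') : k = k' := by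
  refine Nat.eq_of_testBit_eq fun i => ?_
  by_cases hi : i < n
  · have h1 := congrFun h ⟨i, hi⟩
    simp only [Base7_s] at h1
    cases h2 : k.testBit i <;> cases h3 : k'.testBit i <;> simp [h2, h3] at h1 ⊢
  · rw [not_lt] at hi
    rw [Nat.testBit_lt_two_pow (lt_of_lt_of_le hk (Nat.pow_le_pow_right two_pos hi)),
      Nat.testBit_lt_two_pow (lt_of_lt_of_le hk' (Nat.pow_le_pow_right two_pos hi))]

theorem Base7_s_surj {n : ℕ} (ε : Fin n → ℤˣ) : ∃ k, k < 2 ^ n ∧ Base7_s n k = ε := by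
  have h1 : Function.Injective (fun k : Fin (2 ^ n) => Base7_s n k) := by
    intro k k' h
    exact Fin.ext (Base7_s_inj k.2 k'.2 h)
  have h2 : Function.Bijective (fun k : Fin (2 ^ n) => Base7_s n k) := by
    rw [Fintype.bijective_iff_injective_and_card]
    refine ⟨h1, ?_⟩
    rw [Fintype.card_fin, Fintype.card_fun, Fintype.card_fin]
    rfl
  obtain ⟨k, hk⟩ := h2.2 ε
  exact ⟨k, k.2, hk⟩

theorem Base7_flip {n : ℕ} (k : ℕ) (i : Fin n) :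
    flip (Base7_s n k) i = Base7_s n (k ^^^ 2 ^ (i : ℕ)) := by
  funext j
  by_cases hj : j = i
  · subst hj
    rw [Chain_flip_same]
    simp only [Base7_s, Nat.testBit_xor, Nat.testBit_two_pow_self]
    cases k.testBit j <;> simp
  · rw [Chain_flip_ne _ hj]
    have h1 : (i : ℕ) ≠ (j : ℕ) := fun h => hj (Fin.ext h.symm)
    simp only [Base7_s, Nat.testBit_xor, Nat.testBit_two_pow, h1, decide_false, Bool.xor_false]

theorem Base7_lt {n k : ℕ} (hk : k < 2 ^ n) (i : Fin n) : k ^^^ 2 ^ (i : ℕ) < 2 ^ n :=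
  Nat.xor_lt_two_pow hk (Nat.pow_lt_pow_right one_lt_two i.2)

/-! ### certificates -/

/-- the real vectors of an integer arrangement -/
def Base7_v {n : ℕ} (A : Fin n → Fin 3 → ℤ) : Fin n → V3 := fun i j => (A i j : ℝ)

theorem Base7_pos {n : ℕ} (A : Fin n → Fin 3 → ℤ) (ε : Fin n → ℤˣ) (p : Fin 3 → ℤ)
    (h : ∀ i, 0 < (ε i : ℤ) * (A i 0 * p 0 + A i 1 * p 1 + A i 2 * p 2)) :
    Tope (Base7_v A) ε := by
  refine ⟨fun j => (p j : ℝ), fun i => ?_⟩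
  have h2 : (0 : ℝ) < (((ε i : ℤ) * (A i 0 * p 0 + A i 1 * p 1 + A i 2 * p 2) : ℤ) : ℝ) := by
    exact_mod_cast h i
  rw [dotProduct, Fin.sum_univ_three]
  push_cast at h2
  exact h2

theorem Base7_neg {n : ℕ} (A : Fin n → Fin 3 → ℤ) (ε : Fin n → ℤˣ) (c : Fin n → ℤ)
    (hc : ∀ i, 0 ≤ c i) (hp : ∃ i, 0 < c i)
    (h0 : ∀ j : Fin 3, ∑ i, c i * ((ε i : ℤ) * A i j) = 0) : ¬ Tope (Base7_v A) ε := by
  rintro ⟨x, hx⟩
  obtain ⟨i0, hi0⟩ := hp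
  have h1 : 0 < ∑ i, (c i : ℝ) * (((ε i : ℤ) : ℝ) * dotProduct (Base7_v A i) x) := by
    refine Finset.sum_pos' (fun i _ => ?_) ⟨i0, Finset.mem_univ _, ?_⟩
    · exact mul_nonneg (by exact_mod_cast hc i) (hx i).le
    · exact mul_pos (by exact_mod_cast hi0) (hx i0)
  have h2 : ∑ i, (c i : ℝ) * (((ε i : ℤ) : ℝ) * dotProduct (Base7_v A i) x) =
      ∑ j : Fin 3, x j * ((∑ i, c i * ((ε i : ℤ) * A i j) : ℤ) : ℝ) := by
    simp only [Int.cast_sum, Finset.mul_sum, dotProduct]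
    rw [Finset.sum_comm]
    refine Finset.sum_congr rfl fun j _ => Finset.sum_congr rfl fun i _ => ?_
    simp only [Base7_v]
    push_cast
    ring
  rw [h2] at h1
  simp only [h0, Int.cast_zero, mul_zero, Finset.sum_const_zero] at h1
  exact lt_irrefl _ h1

theorem Base7_simple {n : ℕ} (A : Fin n → Fin 3 → ℤ)
    (h : ∀ i j l : Fin n, i ≠ j → j ≠ l → i ≠ l →
      A i 0 * A j 1 * A l 2 - A i 0 * A j 2 * A l 1 - A i 1 * A j 0 * A l 2 +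
        A i 1 * A j 2 * A l 0 + A i 2 * A j 0 * A l 1 - A i 2 * A j 1 * A l 0 ≠ 0) :
    Simple (Base7_v A) := by
  intro i j l h1 h2 h3
  have key : (Matrix.of ![Base7_v A i, Base7_v A j, Base7_v A l]).det ≠ 0 := by
    rw [Matrix.det_fin_three]
    have h4 := h i j l h1 h2 h3
    have h5 : ((A i 0 * A j 1 * A l 2 - A i 0 * A j 2 * A l 1 - A i 1 * A j 0 * A l 2 +
        A i 1 * A j 2 * A l 0 + A i 2 * A j 0 * A l 1 - A i 2 * A j 1 * A l 0 : ℤ) : ℝ) ≠ 0 := by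
      exact_mod_cast h4
    push_cast at h5
    exact h5
  exact Matrix.linearIndependent_rows_of_det_ne_zero key

/-! ### counting faces -/

/-- the number of edges, computed -/
def Base7_sz (n : ℕ) (T : ℕ → Bool) (k : ℕ) : ℕ :=
  ((Finset.univ : Finset (Fin n)).filter (fun i : Fin n => T (k ^^^ 2 ^ (i : ℕ)) = true)).card

theorem Base7_sz_eq {n : ℕ} {a : Fin n → V3} {T : ℕ → Bool}
    (hT : ∀ k, k < 2 ^ n → (Tope a (Base7_s n k) ↔ T k = true)) {k : ℕ} (hk : k < 2 ^ n) :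
    sz a (Base7_s n k) = Base7_sz n T k := by
  rw [sz, Base7_sz, ← Set.ncard_coe_finset]
  congr 1
  ext i
  simp only [edgeSet, Set.mem_ofPred_eq, Finset.coe_filter, Finset.mem_univ, true_and]
  rw [Base7_flip, hT _ (Base7_lt hk i)]

theorem Base7_cnt_eq {n : ℕ} {a : Fin n → V3} {T : ℕ → Bool}
    (hT : ∀ k, k < 2 ^ n → (Tope a (Base7_s n k) ↔ T k = true)) (m : ℕ) :
    cnt a m = ((Finset.range (2 ^ n)).filter (fun k => T k = true ∧ Base7_sz n T k = m)).card := by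
  have h1 : {ε : Fin n → ℤˣ | Tope a ε ∧ sz a ε = m} = (Base7_s n) ''
      (((Finset.range (2 ^ n)).filter (fun k => T k = true ∧ Base7_sz n T k = m) : Finset ℕ) :
        Set ℕ) := by
    ext ε
    simp only [Set.mem_ofPred_eq, Set.mem_image, Finset.coe_filter, Finset.mem_range]
    constructor
    · rintro ⟨h1, h2⟩
      obtain ⟨k, hk, rfl⟩ := Base7_s_surj ε
      exact ⟨k, ⟨hk, (hT k hk).1 h1, by rw [← Base7_sz_eq hT hk]; exact h2⟩, rfl⟩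
    · rintro ⟨k, ⟨hk, h1, h2⟩, rfl⟩
      exact ⟨(hT k hk).2 h1, by rw [Base7_sz_eq hT hk]; exact h2⟩
  rw [cnt, h1, Set.InjOn.ncard_image, Set.ncard_coe_finset]
  intro k hk k' hk' h
  rw [Finset.mem_coe, Finset.mem_filter, Finset.mem_range] at hk hk'
  exact Base7_s_inj hk.1 hk'.1 h

theorem Base7_face {n : ℕ} {a : Fin n → V3} {T : ℕ → Bool}
    (hT : ∀ k, k < 2 ^ n → (Tope a (Base7_s n k) ↔ T k = true)) {k m : ℕ} (hk : k < 2 ^ n)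
    (h1 : T k = true) (h2 : Base7_sz n T k = m) : Chain_F a (Base7_s n k) m :=
  ⟨(hT k hk).2 h1, by rw [Base7_sz_eq hT hk]; exact h2⟩

/-! ### the arrangement -/

/-- the seven lines -/
def Base7_A : Fin 7 → Fin 3 → ℤ :=
  ![![1, 0, 0], ![0, 1, 0], ![0, 0, 1], ![1, 1, 1], ![-3, -2, -1], ![-1, 1, 2], ![-2, 1, -1]]

/-- certificates: a point of the face (three entries) or a nonnegative dependence (seven entries) -/
def Base7_tab : List (List ℤ) :=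
[
  [2, 1, 0, 1, 1, 0, 0],
  [2, -2, -1],
  [2, 1, 1, 0, 0, 0, 1],
  [4, 1, -6],
  [2, 1, 0, 1, 1, 0, 0],
  [4, -6, 1],
  [1, 1, 2, 0, 0, 1, 0],
  [1, 1, 1, 1, 0, 0, 0],
  [1, 1, 1, 1, 0, 0, 0],
  [3, -1, -1],
  [2, 1, 1, 0, 0, 0, 1],
  [2, 1, -1],
  [2, 0, 1, 1, 0, 1, 0],
  [2, -1, 1],
  [1, 1, 2, 0, 0, 1, 0],
  [4, 1, 1],
  [-1, -4, -1],
  [1, -2, -1],
  [2, 1, 1, 0, 0, 0, 1],
  [1, 3, 0, 0, 1, 0, 1],
  [-1, -4, 1],
  [1, -3, 1],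
  [1, 1, 2, 0, 0, 1, 0],
  [1, 1, 1, 1, 0, 0, 0],
  [1, 1, 1, 1, 0, 0, 0],
  [1, 0, 1, 2, 1, 0, 0],
  [2, 1, 1, 0, 0, 0, 1],
  [2, 1, 0, 1, 1, 0, 0],
  [2, 0, 1, 1, 0, 1, 0],
  [5, -12, 8],
  [1, 1, 2, 0, 0, 1, 0],
  [2, 1, 0, 1, 1, 0, 0],
  [2, 1, 0, 1, 1, 0, 0],
  [1, 1, 2, 0, 0, 1, 0],
  [2, 1, 1, 0, 0, 0, 1],
  [2, 0, 1, 1, 0, 1, 0],
  [2, 1, 0, 1, 1, 0, 0],
  [1, 0, 0, 3, 1, 1, 0],
  [1, 2, 0, 1, 0, 0, 1],
  [1, 1, 1, 1, 0, 0, 0],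
  [1, 1, 1, 1, 0, 0, 0],
  [1, 1, 2, 0, 0, 1, 0],
  [2, 1, 1, 0, 0, 0, 1],
  [5, 8, -1],
  [-1, -1, 6],
  [1, -1, 2],
  [-1, 1, 4],
  [1, 1, 1],
  [1, 0, 3, 0, 0, 1, 1],
  [1, 1, 2, 0, 0, 1, 0],
  [2, 1, 1, 0, 0, 0, 1],
  [2, 0, 1, 1, 0, 1, 0],
  [-1, -2, 1],
  [1, -6, 4],
  [1, 2, 0, 1, 0, 0, 1],
  [1, 1, 1, 1, 0, 0, 0],
  [1, 1, 1, 1, 0, 0, 0],
  [1, 1, 2, 0, 0, 1, 0],
  [2, 1, 1, 0, 0, 0, 1],
  [2, 1, 0, 1, 1, 0, 0],
  [-1, -1, 3],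
  [1, -4, 4],
  [-5, 1, 12],
  [2, 1, 0, 1, 1, 0, 0],
  [2, 1, 0, 1, 1, 0, 0],
  [5, -1, -12],
  [-1, 4, -4],
  [1, 1, -3],
  [2, 1, 0, 1, 1, 0, 0],
  [2, 1, 1, 0, 0, 0, 1],
  [1, 1, 2, 0, 0, 1, 0],
  [1, 1, 1, 1, 0, 0, 0],
  [1, 1, 1, 1, 0, 0, 0],
  [1, 2, 0, 1, 0, 0, 1],
  [-1, 6, -4],
  [1, 2, -1],
  [2, 0, 1, 1, 0, 1, 0],
  [2, 1, 1, 0, 0, 0, 1],
  [1, 1, 2, 0, 0, 1, 0],
  [1, 0, 3, 0, 0, 1, 1],
  [-1, -1, -1],
  [1, -1, -4],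
  [-1, 1, -2],
  [1, 1, -6],
  [-5, -8, 1],
  [2, 1, 1, 0, 0, 0, 1],
  [1, 1, 2, 0, 0, 1, 0],
  [1, 1, 1, 1, 0, 0, 0],
  [1, 1, 1, 1, 0, 0, 0],
  [1, 2, 0, 1, 0, 0, 1],
  [1, 0, 0, 3, 1, 1, 0],
  [2, 1, 0, 1, 1, 0, 0],
  [2, 0, 1, 1, 0, 1, 0],
  [2, 1, 1, 0, 0, 0, 1],
  [1, 1, 2, 0, 0, 1, 0],
  [2, 1, 0, 1, 1, 0, 0],
  [2, 1, 0, 1, 1, 0, 0],
  [1, 1, 2, 0, 0, 1, 0],
  [-5, 12, -8],
  [2, 0, 1, 1, 0, 1, 0],
  [2, 1, 0, 1, 1, 0, 0],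
  [2, 1, 1, 0, 0, 0, 1],
  [1, 0, 1, 2, 1, 0, 0],
  [1, 1, 1, 1, 0, 0, 0],
  [1, 1, 1, 1, 0, 0, 0],
  [1, 1, 2, 0, 0, 1, 0],
  [-1, 3, -1],
  [1, 4, -1],
  [1, 3, 0, 0, 1, 0, 1],
  [2, 1, 1, 0, 0, 0, 1],
  [-1, 1, 2],
  [1, 4, 1],
  [-4, -1, -1],
  [1, 1, 2, 0, 0, 1, 0],
  [-2, 1, -1],
  [2, 0, 1, 1, 0, 1, 0],
  [-2, -1, 1],
  [2, 1, 1, 0, 0, 0, 1],
  [-3, 1, 1],
  [1, 1, 1, 1, 0, 0, 0],
  [1, 1, 1, 1, 0, 0, 0],
  [1, 1, 2, 0, 0, 1, 0],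
  [-4, 6, -1],
  [2, 1, 0, 1, 1, 0, 0],
  [-4, -1, 6],
  [2, 1, 1, 0, 0, 0, 1],
  [-2, 1, 2],
  [2, 1, 0, 1, 1, 0, 0]]

/-- the row of the table -/
def Base7_row (k : ℕ) : List ℤ := Base7_tab.getD k []

/-- the sign vectors which are realised -/
def Base7_T (k : ℕ) : Bool := (Base7_row k).length == 3

theorem Base7_check1 : ∀ k < 128, Base7_T k = true → ∀ i : Fin 7,
    0 < (Base7_s 7 k i : ℤ) * (Base7_A i 0 * (Base7_row k).getD 0 0 +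
      Base7_A i 1 * (Base7_row k).getD 1 0 + Base7_A i 2 * (Base7_row k).getD 2 0) := by
  decide +kernel

theorem Base7_check2 : ∀ k < 128, Base7_T k = false →
    (∀ i : Fin 7, 0 ≤ (Base7_row k).getD i 0) ∧ (∃ i : Fin 7, 0 < (Base7_row k).getD i 0) ∧
      ∀ j : Fin 3, ∑ i : Fin 7, (Base7_row k).getD i 0 * ((Base7_s 7 k i : ℤ) * Base7_A i j) = 0 := by
  decide +kernel

theorem Base7_tope : ∀ k, k < 2 ^ 7 → (Tope (Base7_v Base7_A) (Base7_s 7 k) ↔ Base7_T k = true) := by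
  intro k hk
  have hk' : k < 128 := hk
  constructor
  · intro h
    by_contra hT
    rw [Bool.not_eq_true] at hT
    obtain ⟨h1, h2, h3⟩ := Base7_check2 k hk' hT
    exact Base7_neg Base7_A _ (fun i : Fin 7 => (Base7_row k).getD i 0) h1 h2 h3 h
  · intro hT
    exact Base7_pos Base7_A _ (fun j : Fin 3 => (Base7_row k).getD j 0) (Base7_check1 k hk' hT)

theorem Base7_cnt3 : cnt (Base7_v Base7_A) 3 = 20 := by
  rw [Base7_cnt_eq Base7_tope]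
  decide +kernel

theorem Base7_cnt5 : cnt (Base7_v Base7_A) 5 = 12 := by
  rw [Base7_cnt_eq Base7_tope]
  decide +kernel

theorem Base7_cnt6 (m : ℕ) (hm : 6 ≤ m) : cnt (Base7_v Base7_A) m = 0 := by
  rw [Base7_cnt_eq Base7_tope, Finset.card_eq_zero, Finset.filter_eq_empty_iff]
  rintro k hk ⟨h1, h2⟩
  rw [Finset.mem_range] at hk
  have h3 : ∀ k < 128, Base7_T k = true → Base7_sz 7 Base7_T k < 6 := by decide +kernel
  have h4 := h3 k hk h1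
  omega

/-- the codes of the marked faces -/
def Base7_F : Fin 6 → ℕ := ![47, 116, 1, 67, 13, 21]

/-- the marked lines -/
def Base7_l : Fin 6 → Fin 7 := ![2, 1, 6, 4, 3, 5]

theorem base_seven : Marked 6 7 10 (fun _ => 5) 0 := by
  refine ⟨Fin 7, inferInstance, inferInstance, Base7_v Base7_A, ?_, by norm_num,
    fun j => Base7_s 7 (Base7_F j), Base7_l, by decide +kernel, ?_, ?_, ?_⟩
  · refine ⟨Base7_simple _ (by decide +kernel), by simp, by rw [Base7_cnt3], fun k hk => ?_⟩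
    have h1 : (Multiset.map (fun _ : Fin 6 => 5) Finset.univ.val + 0) = Multiset.replicate 6 5 := by
      decide +kernel
    rw [h1, Multiset.count_replicate]
    by_cases h5 : k = 5
    · rw [h5, Base7_cnt5, if_pos rfl]
    · rw [Base7_cnt6 k (by omega), if_neg (fun h => h5 h.symm)]
  · intro j
    have h1 : ∀ j : Fin 6, Base7_F j < 2 ^ 7 ∧ Base7_T (Base7_F j) = true ∧
        Base7_sz 7 Base7_T (Base7_F j) = 5 := by decide +kernel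
    obtain ⟨h2, h3, h4⟩ := h1 j
    exact Base7_face Base7_tope h2 h3 h4
  · intro j
    have h1 : ∀ j : Fin 6, Base7_F j ^^^ 2 ^ (Base7_l j : ℕ) < 2 ^ 7 ∧
        Base7_T (Base7_F j ^^^ 2 ^ (Base7_l j : ℕ)) = true ∧
        Base7_sz 7 Base7_T (Base7_F j ^^^ 2 ^ (Base7_l j : ℕ)) = 3 := by decide +kernel
    obtain ⟨h2, h3, h4⟩ := h1 j
    show Chain_F _ (flip (Base7_s 7 (Base7_F j)) (Base7_l j)) 3
    rw [Base7_flip]
    exact Base7_face Base7_tope h2 h3 h4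
  · unfold Chain_Away
    decide +kernel

end Pool.Agent.H.MP_b7f8b0_co.helper73
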