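import Pool.Agent.H.MP_b7f8b0_co.helper73.IntTool

set_option autoImplicit false
open Matrix

namespace Pool.Agent.H.MP_b7f8b0_co.helper73

/-! ### module BaseC1: seven lines, faces 6, 5, 5, 5 -/

/-- the rows -/
def BaseC1_A : Fin 7 → Fin 3 → ℤ :=
  ![![1, 0, 0], ![0, 1, 0], ![0, 0, 1], ![1, 1, 1], ![-2, 1, -3], ![1, -1, 2], ![-3, -1, 1]]

/-- a point in each face -/
def BaseC1_T : List (Fin 3 → ℤ) :=
  [
    ![8, -3, -6], ![6, -1, -4], ![3, 2, -1], ![-1, 8, 4], ![1, 4, 1], ![-1, -1, -5],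
    ![1, -1, -2], ![-1, 2, -2], ![1, 1, -3], ![8, -1, -6], ![-1, 3, -1], ![1, 1, -1],
    ![-1, 5, 1], ![1, 6, 1], ![1, -2, -1], ![2, -4, 1], ![3, -1, -1], ![4, 1, -1], ![1, -1, 1],
    ![-1, 10, 6], ![1, 1, 1], ![2, -7, -4], ![-2, 7, 4], ![-1, -1, -1], ![1, -10, -6],
    ![-1, 1, -1], ![-4, -1, 1], ![-3, 1, 1], ![-2, 4, -1], ![-1, 2, 1], ![-1, -6, -1],
    ![1, -5, -1], ![-1, -1, 1], ![1, -3, 1], ![-8, 1, 6], ![-1, -1, 3], ![1, -2, 2], ![-1, 1, 2],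
    ![1, 1, 5], ![-1, -4, -1], ![1, -8, -4], ![-3, -2, 1], ![-6, 1, 4], ![-8, 3, 6]]

/-- relations -/
def BaseC1_R : List (Fin 7 → ℤ) :=
  [
    ![1, 1, 1, -1, 0, 0, 0], ![-1, -1, -1, 1, 0, 0, 0], ![-2, 1, -3, 0, -1, 0, 0],
    ![2, -1, 3, 0, 1, 0, 0], ![-3, -1, 1, 0, 0, 0, -1], ![3, 1, -1, 0, 0, 0, 1],
    ![0, 3, 0, 0, 7, 11, -1], ![0, -3, 0, 0, -7, -11, 1], ![7, 0, 0, 1, 1, 0, 2],
    ![-7, 0, 0, -1, -1, 0, -2], ![1, -1, 2, 0, 0, -1, 0], ![-1, 1, -2, 0, 0, 1, 0],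
    ![1, 4, 0, -3, -1, 0, 0], ![-1, -4, 0, 3, 1, 0, 0], ![-7, -1, 0, 0, 0, 1, -2],
    ![7, 1, 0, 0, 0, -1, 2], ![2, 0, -2, 1, 0, 0, 1], ![-2, 0, 2, -1, 0, 0, -1],
    ![1, 0, 0, 1, 3, 4, 0], ![-1, 0, 0, -1, -3, -4, 0]]

theorem BaseC1_ok : IntTool_ok BaseC1_A 85506429280187031545925915105068829186 BaseC1_T BaseC1_R = true := by
  decide +kernel

theorem BaseC1_simp : IntTool_simp BaseC1_A = true := by
  decide +kernel

/-- seven lines with the large faces `6, 5, 5, 5` and nine triangles; the hexagon and a quadrangle are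
marked -/
theorem base_C1 : Marked 2 7 9 ![6, 4] {5, 5, 5} := by
  have hK : ∀ k, (Multiset.map (![6, 4] : Fin 2 → ℕ) Finset.univ.val + {5, 5, 5}).count k =
      (6 ::ₘ 4 ::ₘ 5 ::ₘ 5 ::ₘ 5 ::ₘ (0 : Multiset ℕ)).count k := fun k => rfl
  refine IntTool_marked BaseC1_A 85506429280187031545925915105068829186 BaseC1_T BaseC1_R
    ![17, 116] ![0, 5] BaseC1_ok BaseC1_simp (by norm_num)
    (by decide +kernel) (by decide +kernel) ?_ ?_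
  · intro k hk6 hk5
    rw [hK]
    have hk : k = 5 ∨ k = 6 ∨ k = 7 := by omega
    rcases hk with rfl | rfl | rfl <;> decide +kernel
  · intro k hk
    have h2 : k ∈ (6 ::ₘ 4 ::ₘ 5 ::ₘ 5 ::ₘ 5 ::ₘ (0 : Multiset ℕ)) := hk
    simp only [Multiset.mem_cons, Multiset.notMem_zero, or_false] at h2
    omega

end Pool.Agent.H.MP_b7f8b0_co.helper73
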