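import Pool.Agent.H.MP_b7f8b0_co.helper73.Defs2

set_option autoImplicit false
open Matrix

namespace Pool.Agent.H.MP_b7f8b0_co.helper73

/-! ### doubling with information on the new quadrangles -/

section
variable {ι : Type} [DecidableEq ι] [Fintype ι]

theorem BaseC2_doubling {a : ι → V3} (ha : Simple a) (hn : 4 ≤ Fintype.card ι) (ℓ : ι)
    {ε0 : ι → ℤˣ} (h0 : Tope a ε0) (h1 : Tope a (flip ε0 ℓ)) :
    ∃ a' : Option ι → V3, Simple a' ∧
      (∀ ε, Tope a' (ext ℓ ε) ↔ Tope a ε) ∧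
      (∀ ε, Tope a ε → ε ≠ ε0 → ε ≠ -ε0 → ε ≠ flip ε0 ℓ → ε ≠ -(flip ε0 ℓ) →
        sz a' (ext ℓ ε) = sz a ε) ∧
      sz a' (ext ℓ ε0) = sz a ε0 + 1 ∧
      sz a' (ext ℓ (flip ε0 ℓ)) = sz a (flip ε0 ℓ) + 1 ∧
      (cnt a' 3 + (if sz a ε0 = 3 then 2 else 0) + (if sz a (flip ε0 ℓ) = 3 then 2 else 0)
        = cnt a 3 + 4) ∧
      (∀ k, 5 ≤ k → cnt a' k + (if sz a ε0 = k then 2 else 0) + (if sz a (flip ε0 ℓ) = k then 2 else 0)
        = cnt a k + (if sz a ε0 + 1 = k then 2 else 0) + (if sz a (flip ε0 ℓ) + 1 = k then 2 else 0)) ∧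
      (∀ ε, Tope a ε → Tope a (flip ε ℓ) → ε ≠ ε0 → ε ≠ -ε0 → ε ≠ flip ε0 ℓ →
        ε ≠ -(flip ε0 ℓ) → ∃ o : Option ι, Tope a' (flip (ext ℓ ε) o) ∧
          sz a' (flip (ext ℓ ε) o) = 4) := by
  obtain ⟨a', x0, w, hS, ha', hx1, hx2, hx3, hun, hT⟩ := dbl_exists ha (by omega) ℓ h0 h1
  have D : Dbl2Data a ℓ ε0 a' x0 w := by
    refine ⟨⟨hx1, hx3⟩, hx2, hun, fun η => ?_⟩
    rw [hT η]
    unfold Dbl2Seg Dbl2On
    simp only [and_assoc]
  obtain ⟨b2, b3, b4, b5, -, -, -, -, b10, b11⟩ :=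
    dbl_core ha hn ℓ h0 h1 a' hS ha' x0 w hx1 hx2 hx3 hun hT
  refine ⟨a', hS, b2, b3, b4, b5, b10, b11, ?_⟩
  intro ε hε hε' h2 h3 h4 h5
  have hord : ¬ Dbl2Spec ε0 ℓ ε := by
    rw [dbl2_spec_iff]
    rintro (h | h | h | h)
    exacts [h2 h, h3 h, h4 h, h5 h]
  have hord' : ¬ Dbl2Spec ε0 ℓ (flip ε ℓ) := by
    intro h
    apply hord
    rcases h with h | h
    · left
      intro k hk
      rw [← h k hk, flip_ne ε hk]
    · right
      intro k hk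
      rw [← h k hk, flip_ne ε hk]
  rcases (D.seg_ord ha hn hord hε (ε ℓ)).1 hε' with ⟨h6, -⟩ | ⟨-, h6⟩
  · have g1 : Tope a' (flip (ext ℓ ε) (some ℓ)) := (D.ext_old ε).2 h6
    have g3 : flip (ext ℓ ε) (some ℓ) none = -flip (ext ℓ ε) (some ℓ) (some ℓ) := by
      rw [flip_same, dbl2_flip_none, neg_neg]
      rfl
    refine ⟨some ℓ, g1, (D.second_sz ha hn g3 ((D.second g3).1 g1)).2 ?_⟩
    rw [dbl2_flip_some]
    exact hord'
  · have g2 : Tope a' (flip (ext ℓ ε) none) := (D.ext_new ε).2 h6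
    have g4 : flip (ext ℓ ε) none none = -flip (ext ℓ ε) none (some ℓ) := by
      rw [flip_same, flip_ne _ (by simp)]
      rfl
    refine ⟨none, g2, (D.second_sz ha hn g4 ((D.second g4).1 g2)).2 ?_⟩
    rw [dbl2_none_some]
    exact hord

/-- one doubling step; next to every other face with an edge on `l` there is a new quadrangle -/
theorem BaseC2_step {a : ι → V3} {n P x y : ℕ} {K : Multiset ℕ}
    (h : Cfg n P (x ::ₘ y ::ₘ K) a) (hn : 4 ≤ n) {X : ι → ℤˣ} {l : ι} (hX : Chain_F a X x)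
    (hY : Chain_F a (flip X l) y) {P' : ℕ}
    (hP : P' + (if x = 3 then 1 else 0) + (if y = 3 then 1 else 0) = P + 2) :
    ∃ a' : Option ι → V3, Cfg (n + 1) P' ((x + 1) ::ₘ (y + 1) ::ₘ K) a' ∧
      (∀ m k, Chain_F a m k → Chain_Away X l m → Chain_F a' (ext l m) k) ∧
      Chain_F a' (ext l X) (x + 1) ∧ Chain_F a' (ext l (flip X l)) (y + 1) ∧
      (∀ m, Tope a m → Tope a (flip m l) → Chain_Away X l m →
        ∃ o, Chain_F a' (flip (ext l m) o) 4) := by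
  obtain ⟨hs, hc, h3, hk⟩ := h
  obtain ⟨a', b1, b2, b3, b4, b5, b10, b11, b12⟩ :=
    BaseC2_doubling hs (by rw [hc]; exact hn) l hX.1 hY.1
  rw [hX.2, hY.2] at b10
  refine ⟨a', ⟨b1, by rw [Fintype.card_option, hc], ?_, fun k hk5 => ?_⟩, fun m k hm hA => ?_,
    ⟨(b2 X).2 hX.1, by rw [b4, hX.2]⟩, ⟨(b2 _).2 hY.1, by rw [b5, hY.2]⟩,
    fun m hm hm' hA => b12 m hm hm' hA.1 hA.2.1 hA.2.2.1 hA.2.2.2⟩
  · split_ifs at b10 hP <;> omega
  · have h1 := b11 k hk5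
    rw [hX.2, hY.2, hk k hk5] at h1
    simp only [Multiset.count_cons] at h1 ⊢
    have e1 : (k = x) = (x = k) := propext eq_comm
    have e2 : (k = y) = (y = k) := propext eq_comm
    have e3 : (k = x + 1) = (x + 1 = k) := propext eq_comm
    have e4 : (k = y + 1) = (y + 1 = k) := propext eq_comm
    simp only [e1, e2] at h1
    simp only [e3, e4]
    split_ifs at h1 ⊢ <;> omega
  · exact ⟨(b2 m).2 hm.1, by rw [b3 m hm.1 hA.1 hA.2.1 hA.2.2.1 hA.2.2.2, hm.2]⟩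

end

/-! ### five lines -/

/-- integer coordinates of the five lines -/
def BaseC2_A : Fin 5 → Fin 3 → ℤ := ![![1, 0, 0], ![0, 1, 0], ![0, 0, 1], ![1, 1, 1], ![-1, 2, 1]]

/-- the arrangement of five lines -/
def BaseC2_a : Fin 5 → V3 := ![![1, 0, 0], ![0, 1, 0], ![0, 0, 1], ![1, 1, 1], ![-1, 2, 1]]

theorem BaseC2_a_simple : Simple BaseC2_a := by
  intro i j l h1 h2 h3
  have key : (Matrix.of ![BaseC2_a i, BaseC2_a j, BaseC2_a l]).det ≠ 0 := by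
    rw [Matrix.det_fin_three]
    fin_cases i <;> fin_cases j <;> fin_cases l <;> simp [BaseC2_a] at h1 h2 h3 ⊢ <;> norm_num
  exact Matrix.linearIndependent_rows_of_det_ne_zero key

/-- the sign vectors which are not realised -/
def BaseC2_bad (ε : Fin 5 → ℤˣ) : Prop :=
  (ε 0 = 1 ∧ ε 1 = 1 ∧ ε 2 = 1 ∧ ε 3 = -1) ∨ (ε 0 = -1 ∧ ε 1 = 1 ∧ ε 2 = 1 ∧ ε 4 = -1) ∨
  (ε 0 = 1 ∧ ε 1 = -1 ∧ ε 3 = -1 ∧ ε 4 = 1) ∨ (ε 0 = 1 ∧ ε 2 = 1 ∧ ε 3 = -1 ∧ ε 4 = 1) ∨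
  (ε 1 = 1 ∧ ε 2 = 1 ∧ ε 3 = -1 ∧ ε 4 = -1)

instance (ε : Fin 5 → ℤˣ) : Decidable (BaseC2_bad ε) := by
  unfold BaseC2_bad
  infer_instance

/-- the realised sign vectors -/
def BaseC2_tp (ε : Fin 5 → ℤˣ) : Prop := ¬ BaseC2_bad ε ∧ ¬ BaseC2_bad (-ε)

instance (ε : Fin 5 → ℤˣ) : Decidable (BaseC2_tp ε) := by
  unfold BaseC2_tp
  infer_instance

theorem BaseC2_not_bad {ε : Fin 5 → ℤˣ} (h : Tope BaseC2_a ε) : ¬ BaseC2_bad ε := by
  obtain ⟨x, hx⟩ := h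
  have h0 := hx 0
  have h1 := hx 1
  have h2 := hx 2
  have h3 := hx 3
  have h4 := hx 4
  simp [BaseC2_a, dotProduct, Fin.sum_univ_three] at h0 h1 h2 h3 h4
  rintro (⟨e1, e2, e3, e4⟩ | ⟨e1, e2, e3, e4⟩ | ⟨e1, e2, e3, e4⟩ | ⟨e1, e2, e3, e4⟩ |
    ⟨e1, e2, e3, e4⟩)
  · simp [e1, e2, e3, e4] at h0 h1 h2 h3
    linarith
  · simp [e1, e2, e3, e4] at h0 h1 h2 h4
    linarith
  · simp [e1, e2, e3, e4] at h0 h1 h3 h4
    linarith
  · simp [e1, e2, e3, e4] at h0 h2 h3 h4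
    linarith
  · simp [e1, e2, e3, e4] at h1 h2 h3 h4
    linarith

/-- points of the faces -/
def BaseC2_pts : List (ℤ × ℤ × ℤ) :=
  [(1, -1, -1), (3, -1, -1), (1, -3, 1), (1, -1, 1), (1, -1, 4), (1, 1, -3), (1, 4, -6),
    (2, 1, -2), (1, 2, -2), (4, 1, 1), (1, 1, 1), (-1, 1, 1), (-3, 1, 1), (-1, 3, -1), (-1, 1, -1),
    (-1, 1, -4), (-1, -1, 3), (-1, -4, 6), (-2, -1, 2), (-1, -2, 2), (-4, -1, -1), (-1, -1, -1)]

theorem BaseC2_point : ∀ ε : Fin 5 → ℤˣ, BaseC2_tp ε → ∃ x ∈ BaseC2_pts,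
    ∀ i, 0 < (ε i : ℤ) * (BaseC2_A i 0 * x.1 + BaseC2_A i 1 * x.2.1 + BaseC2_A i 2 * x.2.2) := by
  decide +kernel

theorem BaseC2_tope_iff (ε : Fin 5 → ℤˣ) : Tope BaseC2_a ε ↔ BaseC2_tp ε := by
  constructor
  · intro h
    exact ⟨BaseC2_not_bad h, BaseC2_not_bad ((tope_neg _ _).2 h)⟩
  · intro h
    obtain ⟨x, -, hx⟩ := BaseC2_point ε h
    refine ⟨![(x.1 : ℝ), (x.2.1 : ℝ), (x.2.2 : ℝ)], fun i => ?_⟩
    have h1 : dotProduct (BaseC2_a i) ![(x.1 : ℝ), (x.2.1 : ℝ), (x.2.2 : ℝ)] =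
        ((BaseC2_A i 0 * x.1 + BaseC2_A i 1 * x.2.1 + BaseC2_A i 2 * x.2.2 : ℤ) : ℝ) := by
      fin_cases i <;> simp [BaseC2_a, BaseC2_A, dotProduct, Fin.sum_univ_three]
    rw [h1]
    exact_mod_cast hx i

theorem BaseC2_sz (ε : Fin 5 → ℤˣ) :
    sz BaseC2_a ε = ((Finset.univ : Finset (Fin 5)).filter (fun i => BaseC2_tp (flip ε i))).card := by
  rw [sz, ← Set.ncard_coe_finset]
  congr 1
  ext i
  simp [edgeSet, BaseC2_tope_iff]

theorem BaseC2_cnt (k : ℕ) : cnt BaseC2_a k = ((Finset.univ : Finset (Fin 5 → ℤˣ)).filter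
    (fun ε => BaseC2_tp ε ∧
      ((Finset.univ : Finset (Fin 5)).filter (fun i => BaseC2_tp (flip ε i))).card = k)).card := by
  rw [cnt, ← Set.ncard_coe_finset]
  congr 1
  ext ε
  simp [BaseC2_tope_iff, BaseC2_sz]

theorem BaseC2_cnt3 : cnt BaseC2_a 3 = 10 := by
  rw [BaseC2_cnt]
  decide +kernel

theorem BaseC2_cnt5 : cnt BaseC2_a 5 = 2 := by
  rw [BaseC2_cnt]
  decide +kernel

theorem BaseC2_cfg : Cfg 5 5 {5} BaseC2_a := by
  refine ⟨BaseC2_a_simple, by simp, by rw [BaseC2_cnt3], fun k hk => ?_⟩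
  rcases Nat.eq_or_lt_of_le hk with h | h
  · rw [← h, BaseC2_cnt5]
    simp
  · have h1 : ({5} : Multiset ℕ).count k = 0 := by
      rw [Multiset.count_singleton, if_neg (by omega)]
    rw [h1, mul_zero, BaseC2_cnt, Finset.card_eq_zero, Finset.filter_eq_empty_iff]
    rintro ε - ⟨-, h2⟩
    have := Finset.card_filter_le (Finset.univ : Finset (Fin 5)) (fun i => BaseC2_tp (flip ε i))
    simp only [Finset.card_univ, Fintype.card_fin] at this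
    omega

theorem BaseC2_face (ε : Fin 5 → ℤˣ) (k : ℕ) (h : BaseC2_tp ε ∧
    ((Finset.univ : Finset (Fin 5)).filter (fun i => BaseC2_tp (flip ε i))).card = k) :
    Chain_F BaseC2_a ε k := ⟨(BaseC2_tope_iff ε).2 h.1, by rw [BaseC2_sz, h.2]⟩

/-- the first quadrangle, adjacent to `flip BaseC2_X 1` -/
def BaseC2_X : Fin 5 → ℤˣ := ![1, -1, -1, -1, -1]
/-- another quadrangle, adjacent to `flip BaseC2_Y 4` -/
def BaseC2_Y : Fin 5 → ℤˣ := ![1, 1, -1, 1, -1]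
/-- a triangle, adjacent to a quadrangle at the line `4` -/
def BaseC2_T : Fin 5 → ℤˣ := ![1, 1, 1, 1, -1]

theorem base_C2 : Marked 1 7 9 ![4] {5, 5, 5, 5, 5} := by
  have hX : Chain_F BaseC2_a BaseC2_X 4 := BaseC2_face _ _ (by decide +kernel)
  have hX' : Chain_F BaseC2_a (flip BaseC2_X 1) 4 := BaseC2_face _ _ (by decide +kernel)
  have hY : Chain_F BaseC2_a BaseC2_Y 4 := BaseC2_face _ _ (by decide +kernel)
  have hY' : Chain_F BaseC2_a (flip BaseC2_Y 4) 4 := BaseC2_face _ _ (by decide +kernel)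
  have hT : Chain_F BaseC2_a BaseC2_T 3 := BaseC2_face _ _ (by decide +kernel)
  have hT' : Chain_F BaseC2_a (flip BaseC2_T 4) 4 := BaseC2_face _ _ (by decide +kernel)
  have aY : Chain_Away BaseC2_X 1 BaseC2_Y := by unfold Chain_Away; decide +kernel
  have aY' : Chain_Away BaseC2_X 1 (flip BaseC2_Y 4) := by unfold Chain_Away; decide +kernel
  have aT : Chain_Away BaseC2_X 1 BaseC2_T := by unfold Chain_Away; decide +kernel
  have aT' : Chain_Away BaseC2_X 1 (flip BaseC2_T 4) := by unfold Chain_Away; decide +kernel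
  have h41 : (4 : Fin 5) ≠ 1 := by decide
  obtain ⟨a1, f1, f2, f3, f4, f5⟩ := Chain_step (P' := 7) (K := {5})
    (Chain_cfg_congr (K' := 4 ::ₘ 4 ::ₘ {5}) BaseC2_cfg fun k hk => by
      rw [Chain_count_junk' (by omega) k hk, Chain_count_junk' (by omega) k hk])
    (by omega) hX hX' (by simp)
  have gY := f2 _ _ hY aY
  have gY' := f2 _ _ hY' aY'
  have gT := f2 _ _ hT aT
  have gT' := f2 _ _ hT' aT'
  rw [← Chain_flip_ext h41] at gY' gT'
  have bT : Chain_Away (ext (1 : Fin 5) BaseC2_Y) (some 4) (ext 1 BaseC2_T) := by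
    unfold Chain_Away
    decide +kernel
  obtain ⟨a2, p1, p2, p3, p4, p5⟩ := BaseC2_step (P' := 9) (K := {5, 5, 5})
    (Chain_cfg_congr (K' := 4 ::ₘ 4 ::ₘ {5, 5, 5}) f1 fun k hk => by
      rw [Chain_count_junk' (by omega) k hk, Chain_count_junk' (by omega) k hk]
      rfl)
    (by omega) gY gY' (by simp)
  have qT := p2 _ _ gT bT
  obtain ⟨o, ho⟩ := p5 _ gT.1 gT'.1 bT
  refine ⟨Option (Option (Fin 5)), inferInstance, inferInstance, a2, ?_, by omega,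
    fun _ => flip (ext (some 4) (ext 1 BaseC2_T)) o, fun _ => o, ?_, ?_, ?_, ?_⟩
  · refine Chain_cfg_congr p1 fun k hk => ?_
    have e1 : Multiset.map (![4] : Fin 1 → ℕ) Finset.univ.val + {5, 5, 5, 5, 5} =
        4 ::ₘ {5, 5, 5, 5, 5} := by decide +kernel
    rw [e1, Chain_count_junk' (by omega) k hk]
    rfl
  · intro i j _
    exact Subsingleton.elim i j
  · intro j
    have : (![4] : Fin 1 → ℕ) j = 4 := by fin_cases j; rfl
    rw [this]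
    exact ho
  · intro j
    show Chain_F a2 (flip (flip (ext (some 4) (ext 1 BaseC2_T)) o) o) 3
    rw [Chain_flip_flip]
    exact qT
  · intro i j hij
    exact absurd (Subsingleton.elim i j) hij

end Pool.Agent.H.MP_b7f8b0_co.helper73
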