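import Pool.Agent.H.MP_b7f8b0_co.helper73.Defs

set_option autoImplicit false
open Matrix

namespace Pool.Agent.H.MP_b7f8b0_co.helper73

section BasicAux

/-- Finitely many strict inequalities are stable. -/
private theorem Basic_small {κ : Type} [Finite κ] (A B : κ → ℝ) (P : κ → Prop)
    (h : ∀ k, P k → 0 < A k) : ∃ τ : ℝ, 0 < τ ∧ ∀ k, P k → 0 < A k + τ * B k := by
  have h1 : ∀ᶠ τ in nhdsWithin (0 : ℝ) (Set.Ioi 0), ∀ k, P k → 0 < A k + τ * B k := by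
    rw [Filter.eventually_all]
    intro k
    by_cases hk : P k
    · have h2 : Filter.Tendsto (fun τ : ℝ => A k + τ * B k) (nhds 0) (nhds (A k + 0 * B k)) :=
        (continuous_const.add (continuous_id.mul continuous_const)).tendsto 0
      rw [zero_mul, add_zero] at h2
      have h3 := h2.eventually (lt_mem_nhds (h k hk))
      exact (h3.filter_mono nhdsWithin_le_nhds).mono fun τ hτ _ => hτ
    · exact Filter.Eventually.of_forall fun τ h4 => absurd h4 hk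
  obtain ⟨τ, h2, h3⟩ := (h1.and self_mem_nhdsWithin).exists
  exact ⟨τ, h3, h2⟩

private theorem Basic_unit_sq (u : ℤˣ) : ((u : ℤ) : ℝ) * ((u : ℤ) : ℝ) = 1 := by
  rcases Int.units_eq_one_or u with h | h <;> simp [h]

private theorem Basic_unit_ne (u : ℤˣ) : ((u : ℤ) : ℝ) ≠ 0 := by
  intro h
  have := Basic_unit_sq u
  rw [h, zero_mul] at this
  exact zero_ne_one this

private theorem Basic_self_pos {v : V3} (hv : v ≠ 0) : 0 < v ⬝ᵥ v := by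
  have h0 : 0 ≤ v ⬝ᵥ v := by
    rw [dotProduct]
    exact Finset.sum_nonneg fun j _ => mul_self_nonneg _
  refine lt_of_le_of_ne h0 fun h => hv ?_
  exact dotProduct_self_eq_zero.1 h.symm

private theorem Basic_gram {x y : V3} (h : LinearIndependent ℝ ![x, y]) (s t : ℝ) :
    ∃ u : V3, x ⬝ᵥ u = s ∧ y ⬝ᵥ u = t := by
  obtain ⟨A, hA⟩ : ∃ A : ℝ, A = x ⬝ᵥ x := ⟨_, rfl⟩
  obtain ⟨B, hB⟩ : ∃ B : ℝ, B = x ⬝ᵥ y := ⟨_, rfl⟩
  obtain ⟨C, hC⟩ : ∃ C : ℝ, C = y ⬝ᵥ y := ⟨_, rfl⟩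
  have hB' : y ⬝ᵥ x = B := by rw [dotProduct_comm, hB]
  have hy : y ≠ 0 := h.ne_zero 1
  have hC0 : 0 < C := by
    rw [hC]
    exact Basic_self_pos hy
  have hD : A * C - B * B ≠ 0 := by
    intro h0
    have h1 : (C • x - B • y) ⬝ᵥ (C • x - B • y) = 0 := by
      rw [sub_dotProduct, dotProduct_sub, dotProduct_sub]
      simp only [smul_dotProduct, dotProduct_smul, smul_eq_mul]
      rw [← hA, ← hC, hB', ← hB]
      linear_combination C * h0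
    have h2 : C • x - B • y = 0 := dotProduct_self_eq_zero.1 h1
    rw [LinearIndependent.pair_iff] at h
    have h3 := (h C (-B) (by rw [neg_smul, ← sub_eq_add_neg, h2])).1
    exact hC0.ne' h3
  refine ⟨((C * s - B * t) / (A * C - B * B)) • x + ((A * t - B * s) / (A * C - B * B)) • y,
    ?_, ?_⟩
  · rw [dotProduct_add, dotProduct_smul, dotProduct_smul, smul_eq_mul, smul_eq_mul, ← hA, ← hB,
      div_mul_eq_mul_div, div_mul_eq_mul_div, ← add_div, div_eq_iff hD]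
    ring
  · rw [dotProduct_add, dotProduct_smul, dotProduct_smul, smul_eq_mul, smul_eq_mul, hB', ← hC,
      div_mul_eq_mul_div, div_mul_eq_mul_div, ← add_div, div_eq_iff hD]
    ring

end BasicAux

section Basic
variable {ι : Type} [DecidableEq ι]

theorem flip_same (ε : ι → ℤˣ) (i : ι) : flip ε i i = -ε i := by simp [flip]
theorem flip_ne (ε : ι → ℤˣ) {i j : ι} (h : j ≠ i) : flip ε i j = ε j := by simp [flip, h]
theorem flip_flip (ε : ι → ℤˣ) (i : ι) : flip (flip ε i) i = ε := by simp [flip]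
theorem flip_comm (ε : ι → ℤˣ) (i j : ι) : flip (flip ε i) j = flip (flip ε j) i := by
  by_cases h : i = j
  · rw [h]
  · funext k
    by_cases hi : k = i
    · subst hi
      rw [flip_ne _ h, flip_same, flip_same, flip_ne _ h]
    · by_cases hj : k = j
      · subst hj
        rw [flip_same, flip_ne _ hi, flip_ne _ hi, flip_same]
      · rw [flip_ne _ hj, flip_ne _ hi, flip_ne _ hi, flip_ne _ hj]
theorem flip_neg (ε : ι → ℤˣ) (i : ι) : flip (-ε) i = -(flip ε i) := by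
  funext k
  rw [Pi.neg_apply]
  by_cases hi : k = i
  · subst hi
    rw [flip_same, flip_same, Pi.neg_apply]
  · rw [flip_ne _ hi, flip_ne _ hi, Pi.neg_apply]
theorem flip_inj {ε ε' : ι → ℤˣ} {i : ι} (h : flip ε i = flip ε' i) : ε = ε' := by
  rw [← flip_flip ε i, h, flip_flip]
theorem flip_ne_self (ε : ι → ℤˣ) (i : ι) : flip ε i ≠ ε := by
  intro h
  have h1 := congrFun h i
  rw [flip_same] at h1
  exact neg_units_ne_self _ h1
theorem flip_eq_flip {ε : ι → ℤˣ} {i j : ι} (h : flip ε i = flip ε j) : i = j := by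
  by_contra hij
  have h1 := congrFun h i
  rw [flip_same, flip_ne _ hij] at h1
  exact neg_units_ne_self _ h1
theorem tope_neg (a : ι → V3) (ε : ι → ℤˣ) : Tope a (-ε) ↔ Tope a ε := by
  have key : ∀ ε : ι → ℤˣ, Tope a ε → Tope a (-ε) := by
    rintro ε ⟨x, hx⟩
    refine ⟨-x, fun i => ?_⟩
    have h1 := hx i
    rw [Pi.neg_apply, Units.val_neg, dotProduct_neg]
    push_cast
    linarith
  refine ⟨fun h => ?_, key ε⟩
  have := key _ h
  rwa [neg_neg] at this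
theorem edgeSet_neg (a : ι → V3) (ε : ι → ℤˣ) : edgeSet a (-ε) = edgeSet a ε := by
  ext i
  show Tope a (flip (-ε) i) ↔ Tope a (flip ε i)
  rw [flip_neg, tope_neg]
theorem sz_neg (a : ι → V3) (ε : ι → ℤˣ) : sz a (-ε) = sz a ε := by
  rw [sz, sz, edgeSet_neg]
theorem nb_neg (a : ι → V3) (ε : ι → ℤˣ) (i : ι) : nb a (-ε) i = nb a ε i := by
  ext j
  show (j ≠ i ∧ Tope a (flip (-ε) j) ∧ Tope a (flip (flip (-ε) i) j)) ↔
    (j ≠ i ∧ Tope a (flip ε j) ∧ Tope a (flip (flip ε i) j))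
  rw [flip_neg, flip_neg, flip_neg, tope_neg, tope_neg]

/-- general position: three distinct lines have no common point -/
theorem gp3 {a : ι → V3} (ha : Simple a) {i j k : ι} (h1 : i ≠ j) (h2 : j ≠ k) (h3 : i ≠ k) {v : V3}
    (hi : a i ⬝ᵥ v = 0) (hj : a j ⬝ᵥ v = 0) (hk : a k ⬝ᵥ v = 0) : v = 0 := by
  have h := ha i j k h1 h2 h3
  have h4 : IsUnit (Matrix.of ![a i, a j, a k]) :=
    (Matrix.linearIndependent_rows_iff_isUnit (A := Matrix.of ![a i, a j, a k])).1 h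
  rw [Matrix.isUnit_iff_isUnit_det, isUnit_iff_ne_zero] at h4
  refine Matrix.eq_zero_of_mulVec_eq_zero h4 ?_
  funext l
  fin_cases l
  · exact hi
  · exact hj
  · exact hk
/-- two lines meet -/
theorem exists_vertex (a : ι → V3) (i j : ι) : ∃ v : V3, v ≠ 0 ∧ a i ⬝ᵥ v = 0 ∧ a j ⬝ᵥ v = 0 := by
  have h1 : (Matrix.of ![a i, a j, (0 : V3)]).det = 0 := by
    refine Matrix.det_eq_zero_of_row_eq_zero 2 fun l => ?_
    simp
  obtain ⟨v, hv, h2⟩ := Matrix.exists_mulVec_eq_zero_iff.2 h1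
  exact ⟨v, hv, congrFun h2 0, congrFun h2 1⟩
/-- the meeting point is unique (`k` is any third line) -/
theorem vertex_unique {a : ι → V3} (ha : Simple a) {i j k : ι} (h1 : i ≠ j) (h2 : j ≠ k) (h3 : i ≠ k)
    {v w : V3} (hv : v ≠ 0) (hi : a i ⬝ᵥ v = 0) (hj : a j ⬝ᵥ v = 0) (hi' : a i ⬝ᵥ w = 0)
    (hj' : a j ⬝ᵥ w = 0) : ∃ c : ℝ, w = c • v := by
  have hk : a k ⬝ᵥ v ≠ 0 := fun h => hv (gp3 ha h1 h2 h3 hi hj h)
  refine ⟨(a k ⬝ᵥ w) / (a k ⬝ᵥ v), ?_⟩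
  rw [← sub_eq_zero]
  refine gp3 ha h1 h2 h3 ?_ ?_ ?_
  · rw [dotProduct_sub, dotProduct_smul, hi, hi', smul_zero, sub_zero]
  · rw [dotProduct_sub, dotProduct_smul, hj, hj', smul_zero, sub_zero]
  · rw [dotProduct_sub, dotProduct_smul, smul_eq_mul, div_mul_cancel₀ _ hk, sub_self]
/-- a point on the edge `i` of the face `ε` -/
theorem edge_point {a : ι → V3} {ε : ι → ℤˣ} {i : ι} (h : Tope a ε) (hi : Tope a (flip ε i)) :
    ∃ p : V3, a i ⬝ᵥ p = 0 ∧ ∀ k, k ≠ i → 0 < ((ε k : ℤ) : ℝ) * (a k ⬝ᵥ p) := by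
  obtain ⟨x, hx⟩ := h
  obtain ⟨x', hx'⟩ := hi
  have h1 := hx i
  have h2 := hx' i
  rw [flip_same, Units.val_neg] at h2
  push_cast at h2
  refine ⟨(-(((ε i : ℤ) : ℝ) * (a i ⬝ᵥ x'))) • x + (((ε i : ℤ) : ℝ) * (a i ⬝ᵥ x)) • x', ?_, ?_⟩
  · rw [dotProduct_add, dotProduct_smul, dotProduct_smul, smul_eq_mul, smul_eq_mul]
    ring
  · intro k hk
    have h3 := hx k
    have h4 := hx' k
    rw [flip_ne _ hk] at h4
    rw [dotProduct_add, dotProduct_smul, dotProduct_smul, smul_eq_mul, smul_eq_mul]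
    have h5 : ((ε k : ℤ) : ℝ) * (-(((ε i : ℤ) : ℝ) * (a i ⬝ᵥ x')) * (a k ⬝ᵥ x) +
        ((ε i : ℤ) : ℝ) * (a i ⬝ᵥ x) * (a k ⬝ᵥ x')) =
        (-((ε i : ℤ) : ℝ) * (a i ⬝ᵥ x')) * (((ε k : ℤ) : ℝ) * (a k ⬝ᵥ x)) +
        (((ε i : ℤ) : ℝ) * (a i ⬝ᵥ x)) * (((ε k : ℤ) : ℝ) * (a k ⬝ᵥ x')) := by ring
    rw [h5]
    exact add_pos (mul_pos h2 h3) (mul_pos h1 h4)
/-- the corner of the face `ε` between the edges `i` and `j` -/
theorem corner_point {a : ι → V3} {ε : ι → ℤˣ} {i j : ι} (hij : i ≠ j) (h : Tope a ε)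
    (hi : Tope a (flip ε i)) (hj : Tope a (flip ε j)) (h2 : Tope a (flip (flip ε i) j)) :
    ∃ v : V3, a i ⬝ᵥ v = 0 ∧ a j ⬝ᵥ v = 0 ∧ ∀ k, k ≠ i → k ≠ j → 0 < ((ε k : ℤ) : ℝ) * (a k ⬝ᵥ v) := by
  obtain ⟨p, hp0, hp⟩ := edge_point h hi
  rw [flip_comm] at h2
  obtain ⟨q, hq0, hq⟩ := edge_point hj h2
  have h3 := hp j hij.symm
  have h4 := hq j hij.symm
  rw [flip_same, Units.val_neg] at h4
  push_cast at h4
  refine ⟨(-(((ε j : ℤ) : ℝ) * (a j ⬝ᵥ q))) • p + (((ε j : ℤ) : ℝ) * (a j ⬝ᵥ p)) • q, ?_, ?_, ?_⟩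
  · rw [dotProduct_add, dotProduct_smul, dotProduct_smul, hp0, hq0, smul_zero, smul_zero, add_zero]
  · rw [dotProduct_add, dotProduct_smul, dotProduct_smul, smul_eq_mul, smul_eq_mul]
    ring
  · intro k hk hk'
    have h5 := hp k hk
    have h6 := hq k hk
    rw [flip_ne _ hk'] at h6
    rw [dotProduct_add, dotProduct_smul, dotProduct_smul, smul_eq_mul, smul_eq_mul]
    have h7 : ((ε k : ℤ) : ℝ) * (-(((ε j : ℤ) : ℝ) * (a j ⬝ᵥ q)) * (a k ⬝ᵥ p) +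
        ((ε j : ℤ) : ℝ) * (a j ⬝ᵥ p) * (a k ⬝ᵥ q)) =
        (-((ε j : ℤ) : ℝ) * (a j ⬝ᵥ q)) * (((ε k : ℤ) : ℝ) * (a k ⬝ᵥ p)) +
        (((ε j : ℤ) : ℝ) * (a j ⬝ᵥ p)) * (((ε k : ℤ) : ℝ) * (a k ⬝ᵥ q)) := by ring
    rw [h7]
    exact add_pos (mul_pos h4 h5) (mul_pos h3 h6)
/-- converse of `edge_point` -/
theorem tope_of_edge_point [Finite ι] {a : ι → V3} {ε η : ι → ℤˣ} {i : ι} (hi : a i ≠ 0) {p : V3}
    (h0 : a i ⬝ᵥ p = 0) (hp : ∀ k, k ≠ i → 0 < ((ε k : ℤ) : ℝ) * (a k ⬝ᵥ p))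
    (hη : ∀ k, k ≠ i → η k = ε k) : Tope a η := by
  obtain ⟨τ, hτ, h1⟩ := Basic_small (fun k => ((ε k : ℤ) : ℝ) * (a k ⬝ᵥ p))
    (fun k => ((ε k : ℤ) : ℝ) * (((η i : ℤ) : ℝ) * (a k ⬝ᵥ a i))) (fun k => k ≠ i) hp
  refine ⟨p + (τ * ((η i : ℤ) : ℝ)) • a i, fun k => ?_⟩
  rw [dotProduct_add, dotProduct_smul, smul_eq_mul]
  by_cases hk : k = i
  · subst hk
    rw [h0, zero_add]
    have h2 := Basic_unit_sq (η k)
    have h3 : ((η k : ℤ) : ℝ) * (τ * ((η k : ℤ) : ℝ) * (a k ⬝ᵥ a k)) =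
        (((η k : ℤ) : ℝ) * ((η k : ℤ) : ℝ)) * (τ * (a k ⬝ᵥ a k)) := by ring
    rw [h3, h2, one_mul]
    exact mul_pos hτ (Basic_self_pos hi)
  · rw [hη k hk]
    have h2 := h1 k hk
    have h3 : ((ε k : ℤ) : ℝ) * (a k ⬝ᵥ p + τ * ((η i : ℤ) : ℝ) * (a k ⬝ᵥ a i)) =
        ((ε k : ℤ) : ℝ) * (a k ⬝ᵥ p) + τ * (((ε k : ℤ) : ℝ) * (((η i : ℤ) : ℝ) * (a k ⬝ᵥ a i))) := by
      ring
    rw [h3]
    exact h2
/-- converse of `corner_point` -/
theorem tope_of_corner_point [Finite ι] {a : ι → V3} {ε η : ι → ℤˣ} {i j : ι}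
    (hij : LinearIndependent ℝ ![a i, a j]) {v : V3} (h0 : a i ⬝ᵥ v = 0) (h1 : a j ⬝ᵥ v = 0)
    (hv : ∀ k, k ≠ i → k ≠ j → 0 < ((ε k : ℤ) : ℝ) * (a k ⬝ᵥ v))
    (hη : ∀ k, k ≠ i → k ≠ j → η k = ε k) : Tope a η := by
  obtain ⟨u, hui, huj⟩ := Basic_gram hij ((η i : ℤ) : ℝ) ((η j : ℤ) : ℝ)
  obtain ⟨τ, hτ, h2⟩ := Basic_small (fun k => ((ε k : ℤ) : ℝ) * (a k ⬝ᵥ v))
    (fun k => ((ε k : ℤ) : ℝ) * (a k ⬝ᵥ u)) (fun k => k ≠ i ∧ k ≠ j) fun k hk => hv k hk.1 hk.2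
  refine ⟨v + τ • u, fun k => ?_⟩
  rw [dotProduct_add, dotProduct_smul, smul_eq_mul]
  by_cases hk : k = i
  · subst hk
    rw [h0, zero_add, hui]
    have h3 := Basic_unit_sq (η k)
    nlinarith
  · by_cases hk' : k = j
    · subst hk'
      rw [h1, zero_add, huj]
      have h3 := Basic_unit_sq (η k)
      nlinarith
    · rw [hη k hk hk']
      have h4 := h2 k ⟨hk, hk'⟩
      have h5 : ((ε k : ℤ) : ℝ) * (a k ⬝ᵥ v + τ * (a k ⬝ᵥ u)) =
          ((ε k : ℤ) : ℝ) * (a k ⬝ᵥ v) + τ * (((ε k : ℤ) : ℝ) * (a k ⬝ᵥ u)) := by ring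
      rw [h5]
      exact h4

private theorem Basic_third [Fintype ι] (hn : 3 ≤ Fintype.card ι) (i j : ι) :
    ∃ k, k ≠ i ∧ k ≠ j := by
  by_contra hcon
  push Not at hcon
  have h1 : (Finset.univ : Finset ι) ⊆ {i, j} := by
    intro k _
    rw [Finset.mem_insert, Finset.mem_singleton]
    by_cases h : k = i
    · exact Or.inl h
    · exact Or.inr (hcon k h)
  have h2 := Finset.card_le_card h1
  have h3 := Finset.card_le_two (a := i) (b := j)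
  rw [Finset.card_univ] at h2
  omega

theorem simple_pair [Fintype ι] {a : ι → V3} (ha : Simple a) (hn : 3 ≤ Fintype.card ι) {i j : ι}
    (h : i ≠ j) : LinearIndependent ℝ ![a i, a j] := by
  obtain ⟨k, hk, hk'⟩ := Basic_third hn i j
  have h1 := ha i j k h hk'.symm hk.symm
  have h2 : Function.Injective (![0, 1] : Fin 2 → Fin 3) := by decide
  have h3 := h1.comp _ h2
  have h4 : (![a i, a j, a k] : Fin 3 → V3) ∘ (![0, 1] : Fin 2 → Fin 3) = ![a i, a j] := by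
    funext l
    fin_cases l <;> rfl
  rwa [h4] at h3
theorem simple_ne_zero [Fintype ι] {a : ι → V3} (ha : Simple a) (hn : 3 ≤ Fintype.card ι) (i : ι) :
    a i ≠ 0 := by
  obtain ⟨j, hj, -⟩ := Basic_third hn i i
  exact (simple_pair ha hn hj.symm).ne_zero 0
end Basic

end Pool.Agent.H.MP_b7f8b0_co.helper73
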