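import Pool.Agent.H.MP_b7f8b0_co.helper73.Dbl2

set_option autoImplicit false
open Matrix

namespace Pool.Agent.H.MP_b7f8b0_co.helper73

section ChainBasic
variable {ι : Type} [DecidableEq ι]

theorem Chain_flip_same (ε : ι → ℤˣ) (i : ι) : flip ε i i = -ε i := by simp [flip]
theorem Chain_flip_ne (ε : ι → ℤˣ) {i j : ι} (h : j ≠ i) : flip ε i j = ε j := by simp [flip, h]
theorem Chain_flip_apply (ε : ι → ℤˣ) (i j : ι) :
    flip ε i j = if j = i then -ε i else ε j := by
  by_cases h : j = i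
  · rw [if_pos h, h, Chain_flip_same]
  · rw [if_neg h, Chain_flip_ne ε h]
theorem Chain_flip_flip (ε : ι → ℤˣ) (i : ι) : flip (flip ε i) i = ε := by simp [flip]

theorem Chain_flip_ext {l j : ι} (h : j ≠ l) (ε : ι → ℤˣ) :
    flip (ext l ε) (some j) = ext l (flip ε j) := by
  funext o
  cases o with
  | none =>
    rw [Chain_flip_ne _ (by simp)]
    show ε l = flip ε j l
    rw [Chain_flip_ne _ h.symm]
  | some i =>
    by_cases hi : i = j
    · subst hi
      rw [Chain_flip_same]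
      show -ε i = flip ε i i
      rw [Chain_flip_same]
    · rw [Chain_flip_ne _ (by simpa using hi)]
      show ε i = flip ε j i
      rw [Chain_flip_ne _ hi]

theorem Chain_flip_flip_ext (l : ι) (ε : ι → ℤˣ) :
    flip (flip (ext l ε) (some l)) none = ext l (flip ε l) := by
  funext o
  cases o with
  | none =>
    rw [Chain_flip_same, Chain_flip_ne _ (by simp)]
    show -ε l = flip ε l l
    rw [Chain_flip_same]
  | some i =>
    rw [Chain_flip_ne _ (by simp)]
    by_cases hi : i = l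
    · subst hi
      rw [Chain_flip_same]
      show -ε i = flip ε i i
      rw [Chain_flip_same]
    · rw [Chain_flip_ne _ (by simpa using hi)]
      show ε i = flip ε l i
      rw [Chain_flip_ne _ hi]

theorem Chain_flip_ext_none (l : ι) (ε : ι → ℤˣ) :
    flip (ext l (flip ε l)) none = flip (ext l ε) (some l) := by
  rw [← Chain_flip_flip_ext, Chain_flip_flip]

omit [DecidableEq ι] in
theorem Chain_ext_inj {l : ι} {ε ε' : ι → ℤˣ} (h : ext l ε = ext l ε') : ε = ε' := by
  funext i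
  exact congrFun h (some i)

omit [DecidableEq ι] in
theorem Chain_ext_neg (l : ι) (ε : ι → ℤˣ) : ext l (-ε) = -ext l ε := by
  funext o
  cases o <;> rfl

theorem Chain_unit_ne (u : ℤˣ) : u ≠ -u := by
  rcases Int.units_eq_one_or u with h | h <;> subst h <;> decide

/-- an extended sign vector is not one of the two new triangles -/
theorem Chain_second (l : ι) (m X : ι → ℤˣ) : ext l m ≠ flip (ext l X) (some l) ∧
    ext l m ≠ -flip (ext l X) (some l) := by
  constructor
  · intro h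
    have h1 := congrFun h (some l)
    have h2 := congrFun h none
    rw [Chain_flip_same] at h1
    rw [Chain_flip_ne _ (by simp)] at h2
    have h3 : m l = -X l := h1
    have h4 : m l = X l := h2
    exact Chain_unit_ne (X l) (h4.symm.trans h3)
  · intro h
    have h1 := congrFun h (some l)
    have h2 := congrFun h none
    rw [Pi.neg_apply, Chain_flip_same, neg_neg] at h1
    rw [Pi.neg_apply, Chain_flip_ne _ (by simp)] at h2
    have h3 : m l = X l := h1
    have h4 : m l = -X l := h2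
    exact Chain_unit_ne (X l) (h3.symm.trans h4)

/-- `m` is not one of the faces next to the edge `l` of `X` (up to sign) -/
def Chain_Away (X : ι → ℤˣ) (l : ι) (m : ι → ℤˣ) : Prop :=
  m ≠ X ∧ m ≠ -X ∧ m ≠ flip X l ∧ m ≠ -(flip X l)

theorem Chain_away_ext {X : ι → ℤˣ} {l : ι} {m : ι → ℤˣ} (h : Chain_Away X l m) :
    Chain_Away (ext l X) (some l) (ext l m) := by
  obtain ⟨h1, h2, h3, h4⟩ := h
  refine ⟨fun h => h1 (Chain_ext_inj h), fun h => h2 (Chain_ext_inj (l := l) ?_),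
    (Chain_second l m X).1, (Chain_second l m X).2⟩
  rw [Chain_ext_neg]
  exact h

theorem Chain_away_ext' {X : ι → ℤˣ} {l : ι} {m : ι → ℤˣ} (h : Chain_Away X l m) :
    Chain_Away (ext l (flip X l)) none (ext l m) := by
  obtain ⟨h1, h2, h3, h4⟩ := h
  refine ⟨fun h => h3 (Chain_ext_inj h), fun h => h4 (Chain_ext_inj (l := l) ?_), ?_, ?_⟩
  · rw [Chain_ext_neg]
    exact h
  · rw [Chain_flip_ext_none]
    exact (Chain_second l m X).1
  · rw [Chain_flip_ext_none]
    exact (Chain_second l m X).2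

/-- the face next to the growing face stays away -/
theorem Chain_away_side {X : ι → ℤˣ} {l r : ι} (hr : r ≠ l) :
    Chain_Away (ext l X) (some l) (ext l (flip X l)) := by
  refine ⟨fun h => ?_, fun h => ?_, (Chain_second l _ X).1, (Chain_second l _ X).2⟩
  · have h1 := congrFun (Chain_ext_inj h) l
    rw [Chain_flip_same] at h1
    exact Chain_unit_ne _ h1.symm
  · rw [← Chain_ext_neg] at h
    have h1 := congrFun (Chain_ext_inj h) r
    rw [Chain_flip_ne _ hr] at h1
    exact Chain_unit_ne _ h1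

/-- `ε` is a face with `k` edges -/
def Chain_F (a : ι → V3) (ε : ι → ℤˣ) (k : ℕ) : Prop := Tope a ε ∧ sz a ε = k

theorem Chain_cfg_congr [Fintype ι] {a : ι → V3} {n P : ℕ} {K K' : Multiset ℕ} (h : Cfg n P K a)
    (hK : ∀ k, 5 ≤ k → K'.count k = K.count k) : Cfg n P K' a :=
  ⟨h.1, h.2.1, h.2.2.1, fun k hk => by rw [h.2.2.2 k hk, hK k hk]⟩

/-- one doubling step -/
theorem Chain_step [Fintype ι] {a : ι → V3} {n P x y : ℕ} {K : Multiset ℕ}
    (h : Cfg n P (x ::ₘ y ::ₘ K) a) (hn : 4 ≤ n) {X : ι → ℤˣ} {l : ι} (hX : Chain_F a X x)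
    (hY : Chain_F a (flip X l) y) {P' : ℕ}
    (hP : P' + (if x = 3 then 1 else 0) + (if y = 3 then 1 else 0) = P + 2) :
    ∃ a' : Option ι → V3, Cfg (n + 1) P' ((x + 1) ::ₘ (y + 1) ::ₘ K) a' ∧
      (∀ m k, Chain_F a m k → Chain_Away X l m → Chain_F a' (ext l m) k) ∧
      Chain_F a' (ext l X) (x + 1) ∧ Chain_F a' (ext l (flip X l)) (y + 1) ∧
      Chain_F a' (flip (ext l X) (some l)) 3 := by
  obtain ⟨hs, hc, h3, hk⟩ := h
  obtain ⟨a', b1, b2, b3, b4, b5, b6, b7, b8, b9, b10, b11⟩ :=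
    doubling hs (by rw [hc]; exact hn) l hX.1 hY.1
  rw [hX.2, hY.2] at b10
  refine ⟨a', ⟨b1, by rw [Fintype.card_option, hc], ?_, fun k hk5 => ?_⟩, fun m k hm hA => ?_,
    ⟨(b2 X).2 hX.1, by rw [b4, hX.2]⟩, ⟨(b2 _).2 hY.1, by rw [b5, hY.2]⟩, b6, b7⟩
  · split_ifs at b10 hP <;> omega
  · have h1 := b11 k hk5
    rw [hX.2, hY.2, hk k hk5] at h1
    simp only [Multiset.count_cons] at h1 ⊢
    have e1 : (k = x) = (x = k) := propext eq_comm
    have e2 : (k = y) = (y = k) := propext eq_comm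
    have e3 : (k = x + 1) = (x + 1 = k) := propext eq_comm
    have e4 : (k = y + 1) = (y + 1 = k) := propext eq_comm
    simp only [e1, e2] at h1
    simp only [e3, e4]
    split_ifs at h1 ⊢ <;> omega
  · exact ⟨(b2 m).2 hm.1, by rw [b3 m hm.1 hA.1 hA.2.1 hA.2.2.1 hA.2.2.2, hm.2]⟩

end ChainBasic

/-! ### growing one face next to a triangle, with marks `T` -/

/-- the state while the faces of `R` are made -/
def Chain_S0 (n P x : ℕ) (K : Multiset ℕ) : Prop :=
  ∃ (ι : Type) (_ : Fintype ι) (_ : DecidableEq ι) (a : ι → V3), Cfg n P (x ::ₘ K) a ∧ 4 ≤ n ∧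
    ∃ (X T : ι → ℤˣ) (l p q z : ι), Chain_F a X x ∧ Chain_F a (flip X l) 3 ∧ Chain_F a T 3 ∧
      Chain_F a (flip T p) 4 ∧ Chain_F a (flip T q) 4 ∧ Chain_F a (flip (flip T q) z) 3 ∧
      p ≠ q ∧ p ≠ z ∧ q ≠ z ∧ p ≠ l ∧ q ≠ l ∧ z ≠ l ∧ Chain_Away X l T ∧
      Chain_Away X l (flip T p) ∧ Chain_Away X l (flip T q) ∧ Chain_Away X l (flip (flip T q) z)

theorem Chain_count_junk {x y : ℕ} {K : Multiset ℕ} (hy : y ≤ 4) (k : ℕ) (hk : 5 ≤ k) :
    (x ::ₘ y ::ₘ K).count k = (x ::ₘ K).count k := by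
  simp only [Multiset.count_cons]
  rw [if_neg (show ¬ k = y by omega), add_zero]

theorem Chain_count_junk' {y : ℕ} {K : Multiset ℕ} (hy : y ≤ 4) (k : ℕ) (hk : 5 ≤ k) :
    (y ::ₘ K).count k = K.count k := by
  simp only [Multiset.count_cons]
  rw [if_neg (show ¬ k = y by omega), add_zero]

theorem Chain_S0_grow {n P x : ℕ} {K : Multiset ℕ} (h : Chain_S0 n P x K) (hx : 4 ≤ x) :
    Chain_S0 (n + 1) (P + 1) (x + 1) K ∧ Chain_S0 (n + 1) (P + 1) 4 ((x + 1) ::ₘ K) := by
  obtain ⟨ι, _, _, a, hc, hn, X, T, l, p, q, z, c1, c2, c3, c4, c5, c6, d1, d2, d3, d4, d5, d6,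
    e1, e2, e3, e4⟩ := h
  obtain ⟨a', f1, f2, f3, f4, f5⟩ := Chain_step (P' := P + 1)
    (Chain_cfg_congr hc (Chain_count_junk (y := 3) (by omega))) hn c1 c2
    (by rw [if_neg (by omega), if_pos rfl])
  have g1 := f2 _ _ c3 e1
  have g2 := f2 _ _ c4 e2
  have g3 := f2 _ _ c5 e3
  have g4 := f2 _ _ c6 e4
  rw [← Chain_flip_ext d4] at g2
  rw [← Chain_flip_ext d5] at g3
  rw [← Chain_flip_ext d6, ← Chain_flip_ext d5] at g4
  constructor
  · refine ⟨Option ι, inferInstance, inferInstance, a', ?_, by omega, ext l X, ext l T, some l,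
      some p, some q, some z, f3, f5, g1, g2, g3, g4, by simpa using d1, by simpa using d2,
      by simpa using d3, by simpa using d4, by simpa using d5, by simpa using d6,
      Chain_away_ext e1, ?_, ?_, ?_⟩
    · exact Chain_cfg_congr f1 fun k hk => (Chain_count_junk (y := 3 + 1) (by omega) k hk).symm
    · rw [Chain_flip_ext d4]
      exact Chain_away_ext e2
    · rw [Chain_flip_ext d5]
      exact Chain_away_ext e3
    · rw [Chain_flip_ext d5, Chain_flip_ext d6]
      exact Chain_away_ext e4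
  · refine ⟨Option ι, inferInstance, inferInstance, a', ?_, by omega, ext l (flip X l), ext l T,
      none, some p, some q, some z, f4, ?_, g1, g2, g3, g4, by simpa using d1, by simpa using d2,
      by simpa using d3, by simp, by simp, by simp, Chain_away_ext' e1, ?_, ?_, ?_⟩
    · refine Chain_cfg_congr f1 fun k hk => ?_
      rw [Multiset.cons_swap]
    · rw [Chain_flip_ext_none]
      exact f5
    · rw [Chain_flip_ext d4]
      exact Chain_away_ext' e2
    · rw [Chain_flip_ext d5]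
      exact Chain_away_ext' e3
    · rw [Chain_flip_ext d5, Chain_flip_ext d6]
      exact Chain_away_ext' e4

theorem Chain_S0_iter {n P x : ℕ} {K : Multiset ℕ} (h : Chain_S0 n P x K) (hx : 4 ≤ x) (j : ℕ) :
    Chain_S0 (n + j) (P + j) (x + j) K := by
  induction j with
  | zero => exact h
  | succ j ih => exact (Chain_S0_grow ih (by omega)).1

/-! ### the start: four lines -/

/-- the arrangement of four lines -/
def Chain_a : Fin 4 → V3 := ![![1, 0, 0], ![0, 1, 0], ![0, 0, 1], ![1, 1, 1]]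

theorem Chain_a_simple : Simple Chain_a := by
  intro i j l h1 h2 h3
  have key : (Matrix.of ![Chain_a i, Chain_a j, Chain_a l]).det ≠ 0 := by
    rw [Matrix.det_fin_three]
    fin_cases i <;> fin_cases j <;> fin_cases l <;> simp [Chain_a] at h1 h2 h3 ⊢
  exact Matrix.linearIndependent_rows_of_det_ne_zero key

/-- the realised sign vectors of the four lines -/
def Chain_tp (ε : Fin 4 → ℤˣ) : Prop := ε 0 = ε 3 ∨ ε 1 = ε 3 ∨ ε 2 = ε 3

instance (ε : Fin 4 → ℤˣ) : Decidable (Chain_tp ε) := by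
  unfold Chain_tp
  infer_instance

theorem Chain_tope_iff (ε : Fin 4 → ℤˣ) : Tope Chain_a ε ↔ Chain_tp ε := by
  constructor
  · rintro ⟨x, hx⟩
    have h0 := hx 0
    have h1 := hx 1
    have h2 := hx 2
    have h3 := hx 3
    simp [Chain_a, dotProduct, Fin.sum_univ_three] at h0 h1 h2 h3
    unfold Chain_tp
    rcases Int.units_eq_one_or (ε 0) with e0 | e0 <;> rcases Int.units_eq_one_or (ε 1) with e1 | e1 <;>
      rcases Int.units_eq_one_or (ε 2) with e2 | e2 <;>
      rcases Int.units_eq_one_or (ε 3) with e3 | e3 <;> rw [e0] at h0 <;> rw [e1] at h1 <;>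
      rw [e2] at h2 <;> rw [e3] at h3 <;> simp [e0, e1, e2, e3] at h0 h1 h2 h3 ⊢ <;> linarith
  · intro h
    unfold Chain_tp at h
    refine ⟨fun i => if i = 0 then ((ε 0 : ℤ) : ℝ) * (if ε 0 = ε 3 then 3 else 1) else
      if i = 1 then ((ε 1 : ℤ) : ℝ) * (if ε 1 = ε 3 then 3 else 1) else
      ((ε 2 : ℤ) : ℝ) * (if ε 2 = ε 3 then 3 else 1), fun i => ?_⟩
    rcases Int.units_eq_one_or (ε 0) with e0 | e0 <;> rcases Int.units_eq_one_or (ε 1) with e1 | e1 <;>
      rcases Int.units_eq_one_or (ε 2) with e2 | e2 <;>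
      rcases Int.units_eq_one_or (ε 3) with e3 | e3 <;> rw [e0, e1, e2, e3] at h <;>
      fin_cases i <;> simp [Chain_a, dotProduct, Fin.sum_univ_three, e0, e1, e2, e3] at h ⊢ <;> norm_num

theorem Chain_sz (ε : Fin 4 → ℤˣ) :
    sz Chain_a ε = ((Finset.univ : Finset (Fin 4)).filter (fun i => Chain_tp (flip ε i))).card := by
  rw [sz, ← Set.ncard_coe_finset]
  congr 1
  ext i
  simp [edgeSet, Chain_tope_iff]

theorem Chain_cnt (k : ℕ) : cnt Chain_a k = ((Finset.univ : Finset (Fin 4 → ℤˣ)).filter (fun ε =>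
    Chain_tp ε ∧ ((Finset.univ : Finset (Fin 4)).filter (fun i => Chain_tp (flip ε i))).card = k)).card := by
  rw [cnt, ← Set.ncard_coe_finset]
  congr 1
  ext ε
  simp [Chain_tope_iff, Chain_sz]

theorem Chain_cnt3 : cnt Chain_a 3 = 8 := by
  rw [Chain_cnt]
  decide +kernel

theorem Chain_cfg0 : Cfg 4 4 0 Chain_a := by
  refine ⟨Chain_a_simple, by simp, by rw [Chain_cnt3], fun k hk => ?_⟩
  rw [Chain_cnt, Multiset.count_zero, mul_zero, Finset.card_eq_zero, Finset.filter_eq_empty_iff]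
  rintro ε - ⟨-, h⟩
  have := Finset.card_filter_le (Finset.univ : Finset (Fin 4)) (fun i => Chain_tp (flip ε i))
  simp only [Finset.card_univ, Fintype.card_fin] at this
  omega

theorem Chain_face0 (ε : Fin 4 → ℤˣ) (k : ℕ) (h : Chain_tp ε ∧
    ((Finset.univ : Finset (Fin 4)).filter (fun i => Chain_tp (flip ε i))).card = k) :
    Chain_F Chain_a ε k := ⟨(Chain_tope_iff ε).2 h.1, by rw [Chain_sz, h.2]⟩

/-- the first state -/
theorem Chain_S0_start : Chain_S0 4 4 4 0 := by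
  refine ⟨Fin 4, inferInstance, inferInstance, Chain_a, ?_, le_rfl, ![1, 1, -1, 1],
    ![1, 1, 1, 1], 3, 0, 1, 2, Chain_face0 _ _ (by decide +kernel),
    Chain_face0 _ _ (by decide +kernel), Chain_face0 _ _ (by decide +kernel),
    Chain_face0 _ _ (by decide +kernel), Chain_face0 _ _ (by decide +kernel),
    Chain_face0 _ _ (by decide +kernel), by decide, by decide, by decide, by decide, by decide,
    by decide, ?_, ?_, ?_, ?_⟩
  · exact Chain_cfg_congr Chain_cfg0 (Chain_count_junk' le_rfl)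
  all_goals
    unfold Chain_Away
    decide +kernel

/-- all faces of `R` -/
theorem Chain_S0_all (R : Multiset ℕ) (hR : ∀ k ∈ R, 5 ≤ k) :
    Chain_S0 (4 + (R.map (fun k => k - 4)).sum) (4 + (R.map (fun k => k - 4)).sum) 4 R := by
  induction R using Multiset.induction with
  | empty => exact Chain_S0_start
  | cons k R ih =>
    have h1 := ih fun j hj => hR j (Multiset.mem_cons_of_mem hj)
    have hk : 5 ≤ k := hR k (Multiset.mem_cons_self k R)
    have h2 := (Chain_S0_grow (Chain_S0_iter h1 le_rfl (k - 5)) (by omega)).2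
    rw [Multiset.map_cons, Multiset.sum_cons]
    have e1 : 4 + (R.map (fun k => k - 4)).sum + (k - 5) + 1 =
        4 + (k - 4 + (R.map (fun k => k - 4)).sum) := by omega
    have e2 : 4 + (k - 5) + 1 = k := by omega
    rw [e1, e2] at h2
    exact h2

/-- Eberhard: `n = P` -/
theorem eberhard (R : Multiset ℕ) (hR : ∀ k ∈ R, 5 ≤ k) :
    Rlz (4 + (R.map (fun k => k - 4)).sum) (4 + (R.map (fun k => k - 4)).sum) R := by
  obtain ⟨ι, i1, i2, a, hc, -⟩ := Chain_S0_all R hR
  exact ⟨ι, i1, i2, a, Chain_cfg_congr hc fun k hk => (Chain_count_junk' le_rfl k hk).symm⟩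

/-! ### the chain -/

/-- the state at the beginning of a round: `T` is a triangle, `X = flip T p`, `G = flip T q`, and
`flip G z` is a triangle -/
def Chain_SC (n P x g : ℕ) (K : Multiset ℕ) : Prop :=
  ∃ (ι : Type) (_ : Fintype ι) (_ : DecidableEq ι) (a : ι → V3), Cfg n P (x ::ₘ g ::ₘ K) a ∧
    4 ≤ n ∧ ∃ (T : ι → ℤˣ) (p q z : ι), Chain_F a T 3 ∧ Chain_F a (flip T p) x ∧
      Chain_F a (flip T q) g ∧ Chain_F a (flip (flip T q) z) 3 ∧ p ≠ q ∧ p ≠ z ∧ q ≠ z

/-- the state while `X` grows: `X` next to a triangle, `Q` a quadrangle, `G = flip Q q`, and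
`flip G z` is a triangle -/
def Chain_SA (n P x g : ℕ) (K : Multiset ℕ) : Prop :=
  ∃ (ι : Type) (_ : Fintype ι) (_ : DecidableEq ι) (a : ι → V3), Cfg n P (x ::ₘ g ::ₘ K) a ∧
    4 ≤ n ∧ ∃ (X Q : ι → ℤˣ) (l q z : ι), Chain_F a X x ∧ Chain_F a (flip X l) 3 ∧
      Chain_F a Q 4 ∧ Chain_F a (flip Q q) g ∧ Chain_F a (flip (flip Q q) z) 3 ∧
      q ≠ z ∧ q ≠ l ∧ z ≠ l ∧ Chain_Away X l Q ∧ Chain_Away X l (flip Q q) ∧
      Chain_Away X l (flip (flip Q q) z)

/-- the state while `G` grows at the end -/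
def Chain_SD (n P x g : ℕ) (K : Multiset ℕ) : Prop :=
  ∃ (ι : Type) (_ : Fintype ι) (_ : DecidableEq ι) (a : ι → V3), Cfg n P (g ::ₘ x ::ₘ K) a ∧
    4 ≤ n ∧ ∃ (G X : ι → ℤˣ) (z p : ι), Chain_F a G g ∧ Chain_F a (flip G z) 3 ∧
      Chain_F a X x ∧ Chain_F a (flip X p) 3 ∧ p ≠ z ∧ Chain_Away G z X ∧
      Chain_Away G z (flip X p)

/-- the state while `X` grows at the end -/
def Chain_SE (n P x : ℕ) (K : Multiset ℕ) : Prop :=
  ∃ (ι : Type) (_ : Fintype ι) (_ : DecidableEq ι) (a : ι → V3), Cfg n P (x ::ₘ K) a ∧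
    4 ≤ n ∧ ∃ (X : ι → ℤˣ) (p : ι), Chain_F a X x ∧ Chain_F a (flip X p) 3

theorem Chain_card {ι : Type} [Fintype ι] [DecidableEq ι] (hn : 4 ≤ Fintype.card ι) (p q z : ι) :
    ∃ r : ι, r ≠ p ∧ r ≠ q ∧ r ≠ z := by
  by_contra h
  push Not at h
  have h1 : (Finset.univ : Finset ι) ⊆ {p, q, z} := by
    intro r _
    by_cases h2 : r = p
    · simp [h2]
    · by_cases h3 : r = q
      · simp [h3]
      · simp [h r h2 h3]
  have h2 := Finset.card_le_card h1
  have h3 : ({p, q, z} : Finset ι).card ≤ 3 := Finset.card_le_three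
  rw [Finset.card_univ] at h2
  omega

/-- two sign vectors that differ at one place and agree at another one -/
theorem Chain_ne_of {ι : Type} {ε ε' : ι → ℤˣ} (i : ι) (h : ε i = -ε' i) : ε ≠ ε' := by
  intro h1
  rw [h1] at h
  exact Chain_unit_ne _ h

theorem Chain_ne_neg_of {ι : Type} {ε ε' : ι → ℤˣ} (i : ι) (h : ε i = ε' i) : ε ≠ -ε' := by
  intro h1
  rw [h1, Pi.neg_apply] at h
  exact Chain_unit_ne _ h.symm

theorem Chain_cfg_card {ι : Type} [Fintype ι] [DecidableEq ι] {a : ι → V3} {n P : ℕ}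
    {K : Multiset ℕ} (h : Cfg n P K a) (hn : 4 ≤ n) : 4 ≤ Fintype.card ι := by
  rw [h.2.1]
  exact hn

theorem Chain_SC_of_S0 {n P : ℕ} {K : Multiset ℕ} (h : Chain_S0 n P 4 K) :
    Chain_SC n P 4 4 K := by
  obtain ⟨ι, i1, i2, a, hc, hn, X, T, l, p, q, z, c1, c2, c3, c4, c5, c6, d1, d2, d3, -⟩ := h
  exact ⟨ι, i1, i2, a, Chain_cfg_congr hc (Chain_count_junk le_rfl), hn, T, p, q, z, c3, c4, c5, c6,
    d1, d2, d3⟩

/-- the first growth of `X` in a round -/
theorem Chain_SA_of_SC {n P x g : ℕ} {K : Multiset ℕ} (h : Chain_SC n P x g K) (hx : 4 ≤ x) :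
    Chain_SA (n + 1) (P + 1) (x + 1) g K := by
  obtain ⟨ι, _, _, a, hc, hn, T, p, q, z, c1, c2, c3, c4, d1, d2, d3⟩ := h
  have hTX : flip (flip T p) p = T := Chain_flip_flip T p
  obtain ⟨r, r1, r2, r3⟩ := Chain_card (Chain_cfg_card hc hn) p q z
  have c1' : Chain_F a (flip (flip T p) p) 3 := by rwa [hTX]
  obtain ⟨a', f1, f2, f3, f4, f5⟩ := Chain_step (x := x) (y := 3) (P' := P + 1) (K := g ::ₘ K)
    (Chain_cfg_congr hc fun k hk => by
      simp only [Multiset.count_cons]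
      rw [if_neg (show ¬ k = 3 by omega)]
      omega) hn c2 c1' (by rw [if_neg (by omega), if_pos rfl])
  have hG : Chain_Away (flip T p) p (flip T q) := by
    unfold Chain_Away
    rw [hTX]
    refine ⟨Chain_ne_of q ?_, Chain_ne_neg_of r ?_, Chain_ne_of q ?_, Chain_ne_neg_of r ?_⟩ <;>
      simp [Chain_flip_apply, d1.symm, r1, r2]
  have hZ : Chain_Away (flip T p) p (flip (flip T q) z) := by
    unfold Chain_Away
    rw [hTX]
    refine ⟨Chain_ne_of q ?_, Chain_ne_neg_of r ?_, Chain_ne_of q ?_, Chain_ne_neg_of r ?_⟩ <;>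
      simp [Chain_flip_apply, d1.symm, d3, r1, r2, r3]
  have hQ := Chain_away_side (X := flip T p) r1
  rw [hTX] at hQ f4
  have g3 := f2 _ _ c3 hG
  have g4 := f2 _ _ c4 hZ
  rw [← Chain_flip_ext d1.symm] at g3
  rw [← Chain_flip_ext d2.symm, ← Chain_flip_ext d1.symm] at g4
  refine ⟨Option ι, inferInstance, inferInstance, a', ?_, by omega, ext p (flip T p), ext p T,
    some p, some q, some z, f3, f5, f4, g3, g4, by simpa using d3, by simpa using d1.symm,
    by simpa using d2.symm, hQ, ?_, ?_⟩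
  · refine Chain_cfg_congr f1 fun k hk => ?_
    simp only [Multiset.count_cons]
    rw [if_neg (show ¬ k = 3 + 1 by omega)]
    omega
  · rw [Chain_flip_ext d1.symm]
    exact Chain_away_ext hG
  · rw [Chain_flip_ext d1.symm, Chain_flip_ext d2.symm]
    exact Chain_away_ext hZ

theorem Chain_SA_grow {n P x g : ℕ} {K : Multiset ℕ} (h : Chain_SA n P x g K) (hx : 4 ≤ x) :
    Chain_SA (n + 1) (P + 1) (x + 1) g K := by
  obtain ⟨ι, _, _, a, hc, hn, X, Q, l, q, z, c1, c2, c3, c4, c5, d1, d2, d3, e1, e2, e3⟩ := h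
  obtain ⟨a', f1, f2, f3, f4, f5⟩ := Chain_step (x := x) (y := 3) (P' := P + 1) (K := g ::ₘ K)
    (Chain_cfg_congr hc fun k hk => by
      simp only [Multiset.count_cons]
      rw [if_neg (show ¬ k = 3 by omega)]
      omega) hn c1 c2 (by rw [if_neg (by omega), if_pos rfl])
  have g3 := f2 _ _ c3 e1
  have g4 := f2 _ _ c4 e2
  have g5 := f2 _ _ c5 e3
  rw [← Chain_flip_ext d2] at g4
  rw [← Chain_flip_ext d3, ← Chain_flip_ext d2] at g5
  refine ⟨Option ι, inferInstance, inferInstance, a', ?_, by omega, ext l X, ext l Q, some l,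
    some q, some z, f3, f5, g3, g4, g5, by simpa using d1, by simpa using d2, by simpa using d3,
    Chain_away_ext e1, ?_, ?_⟩
  · refine Chain_cfg_congr f1 fun k hk => ?_
    simp only [Multiset.count_cons]
    rw [if_neg (show ¬ k = 3 + 1 by omega)]
    omega
  · rw [Chain_flip_ext d2]
    exact Chain_away_ext e2
  · rw [Chain_flip_ext d2, Chain_flip_ext d3]
    exact Chain_away_ext e3

theorem Chain_SA_iter {n P x g : ℕ} {K : Multiset ℕ} (h : Chain_SA n P x g K) (hx : 4 ≤ x)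
    (j : ℕ) : Chain_SA (n + j) (P + j) (x + j) g K := by
  induction j with
  | zero => exact h
  | succ j ih => exact Chain_SA_grow ih (hx.trans (Nat.le_add_right _ _))

/-- the end of a round -/
theorem Chain_SC_of_SA {n P x g : ℕ} {K : Multiset ℕ} (h : Chain_SA n P x g K) (hg : 4 ≤ g) :
    Chain_SC (n + 1) (P + 2) 5 (g + 1) (x ::ₘ K) := by
  obtain ⟨ι, _, _, a, hc, hn, X, Q, l, q, z, c1, c2, c3, c4, c5, d1, d2, d3, e1, e2, e3⟩ := h
  obtain ⟨r, r1, r2, -⟩ := Chain_card (Chain_cfg_card hc hn) q z z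
  obtain ⟨a', f1, f2, f3, f4, f5⟩ := Chain_step (x := 4) (y := g) (P' := P + 2) (K := x ::ₘ K)
    (Chain_cfg_congr hc fun k hk => by
      simp only [Multiset.count_cons]
      rw [if_neg (show ¬ k = 4 by omega)]
      omega) hn c3 c4 (by rw [if_neg (by omega), if_neg (by omega)])
  have hZ : Chain_Away Q q (flip (flip Q q) z) := by
    refine ⟨Chain_ne_of z ?_, Chain_ne_neg_of r ?_, Chain_ne_of z ?_, Chain_ne_neg_of r ?_⟩ <;>
      simp [Chain_flip_apply, d1.symm, r1, r2]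
  have g5 := f2 _ _ c5 hZ
  rw [← Chain_flip_ext d1.symm] at g5
  refine ⟨Option ι, inferInstance, inferInstance, a', f1, by omega, flip (ext q Q) (some q),
    some q, none, some z, f5, ?_, ?_, ?_, by simp, by simpa using d1, by simp⟩
  · rw [Chain_flip_flip]
    exact f3
  · rw [Chain_flip_flip_ext]
    exact f4
  · rw [Chain_flip_flip_ext]
    exact g5

theorem Chain_SD_of_SC {n P x g : ℕ} {K : Multiset ℕ} (h : Chain_SC n P x g K) :
    Chain_SD n P x g K := by
  obtain ⟨ι, _, _, a, hc, hn, T, p, q, z, c1, c2, c3, c4, d1, d2, d3⟩ := h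
  have hTX : flip (flip T p) p = T := Chain_flip_flip T p
  obtain ⟨r, r1, r2, r3⟩ := Chain_card (Chain_cfg_card hc hn) p q z
  refine ⟨ι, inferInstance, inferInstance, a, ?_, hn, flip T q, flip T p, z, p, c3, c4, c2,
    by rwa [hTX], d2, ?_, ?_⟩
  · rw [Multiset.cons_swap]
    exact hc
  · refine ⟨Chain_ne_of p ?_, Chain_ne_neg_of r ?_, Chain_ne_of p ?_, Chain_ne_neg_of r ?_⟩ <;>
      simp [Chain_flip_apply, d1, d2, r1, r2, r3]
  · rw [hTX]
    refine ⟨Chain_ne_of q ?_, Chain_ne_neg_of r ?_, Chain_ne_of q ?_, Chain_ne_neg_of r ?_⟩ <;>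
      simp [Chain_flip_apply, d3, r2, r3]

theorem Chain_SD_grow {n P x g : ℕ} {K : Multiset ℕ} (h : Chain_SD n P x g K) (hg : 4 ≤ g) :
    Chain_SD (n + 1) (P + 1) x (g + 1) K := by
  obtain ⟨ι, _, _, a, hc, hn, G, X, z, p, c1, c2, c3, c4, d1, e1, e2⟩ := h
  obtain ⟨a', f1, f2, f3, f4, f5⟩ := Chain_step (x := g) (y := 3) (P' := P + 1) (K := x ::ₘ K)
    (Chain_cfg_congr hc fun k hk => by
      simp only [Multiset.count_cons]
      rw [if_neg (show ¬ k = 3 by omega)]
      omega) hn c1 c2 (by rw [if_neg (by omega), if_pos rfl])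
  have g3 := f2 _ _ c3 e1
  have g4 := f2 _ _ c4 e2
  rw [← Chain_flip_ext d1] at g4
  refine ⟨Option ι, inferInstance, inferInstance, a', ?_, by omega, ext z G, ext z X, some z,
    some p, f3, f5, g3, g4, by simpa using d1, Chain_away_ext e1, ?_⟩
  · refine Chain_cfg_congr f1 fun k hk => ?_
    simp only [Multiset.count_cons]
    rw [if_neg (show ¬ k = 3 + 1 by omega)]
    omega
  · rw [Chain_flip_ext d1]
    exact Chain_away_ext e2

theorem Chain_SD_iter {n P x g : ℕ} {K : Multiset ℕ} (h : Chain_SD n P x g K) (hg : 4 ≤ g)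
    (j : ℕ) : Chain_SD (n + j) (P + j) x (g + j) K := by
  induction j with
  | zero => exact h
  | succ j ih => exact Chain_SD_grow ih (hg.trans (Nat.le_add_right _ _))

theorem Chain_SE_of_SD {n P x g : ℕ} {K : Multiset ℕ} (h : Chain_SD n P x g K) :
    Chain_SE n P x (g ::ₘ K) := by
  obtain ⟨ι, _, _, a, hc, hn, G, X, z, p, c1, c2, c3, c4, -⟩ := h
  refine ⟨ι, inferInstance, inferInstance, a, ?_, hn, X, p, c3, c4⟩
  rw [Multiset.cons_swap]
  exact hc

theorem Chain_SE_grow {n P x : ℕ} {K : Multiset ℕ} (h : Chain_SE n P x K) (hx : 4 ≤ x) :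
    Chain_SE (n + 1) (P + 1) (x + 1) K := by
  obtain ⟨ι, _, _, a, hc, hn, X, p, c1, c2⟩ := h
  obtain ⟨a', f1, f2, f3, f4, f5⟩ := Chain_step (P' := P + 1)
    (Chain_cfg_congr hc (Chain_count_junk (y := 3) (by omega))) hn c1 c2
    (by rw [if_neg (by omega), if_pos rfl])
  exact ⟨Option ι, inferInstance, inferInstance, a',
    Chain_cfg_congr f1 fun k hk => (Chain_count_junk (y := 3 + 1) (by omega) k hk).symm,
    by omega, ext p X, some p, f3, f5⟩

theorem Chain_SE_iter {n P x : ℕ} {K : Multiset ℕ} (h : Chain_SE n P x K) (hx : 4 ≤ x) (j : ℕ) :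
    Chain_SE (n + j) (P + j) (x + j) K := by
  induction j with
  | zero => exact h
  | succ j ih => exact Chain_SE_grow ih (hx.trans (Nat.le_add_right _ _))

/-- the rounds -/
theorem Chain_rounds (xs : List ℕ) : ∀ (n P x g : ℕ) (K : Multiset ℕ), Chain_SA n P x g K →
    4 ≤ g → (∀ k ∈ xs, 6 ≤ k) →
    Chain_SC (n + 1 + (xs.map (fun k => k - 4)).sum)
      (P + 2 + (xs.map (fun k => k - 4)).sum + xs.length) 5 (g + 1 + xs.length)
      (x ::ₘ ((xs : Multiset ℕ) + K)) := by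
  induction xs with
  | nil =>
    intro n P x g K h hg _
    simpa using Chain_SC_of_SA h hg
  | cons k xs ih =>
    intro n P x g K h hg hk
    have hk6 : 6 ≤ k := hk k List.mem_cons_self
    have h1 := Chain_SA_iter (Chain_SA_of_SC (Chain_SC_of_SA h hg) (by omega)) (by omega) (k - 6)
    have e1 : 5 + 1 + (k - 6) = k := by omega
    rw [e1] at h1
    have h2 := ih _ _ _ _ _ h1 (by omega) fun j hj => hk j (List.mem_cons_of_mem k hj)
    have e2 : n + 1 + 1 + (k - 6) + 1 + (xs.map (fun k => k - 4)).sum =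
        n + 1 + ((k :: xs).map (fun k => k - 4)).sum := by
      rw [List.map_cons, List.sum_cons]
      omega
    have e3 : P + 2 + 1 + (k - 6) + 2 + (xs.map (fun k => k - 4)).sum + xs.length =
        P + 2 + ((k :: xs).map (fun k => k - 4)).sum + (k :: xs).length := by
      rw [List.map_cons, List.sum_cons, List.length_cons]
      omega
    have e4 : g + 1 + 1 + xs.length = g + 1 + (k :: xs).length := by
      rw [List.length_cons]
      omega
    have e5 : k ::ₘ ((xs : Multiset ℕ) + x ::ₘ K) = x ::ₘ (((k :: xs : List ℕ) : Multiset ℕ) + K) := by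
      rw [← Multiset.cons_coe, Multiset.cons_add, Multiset.add_cons, Multiset.cons_swap]
    rw [e2, e3, e4, e5] at h2
    exact h2

/-- `n = P - e` -/
theorem chain (R : Multiset ℕ) (hR : ∀ k ∈ R, 5 ≤ k) (x0 y g : ℕ) (h0 : 5 ≤ x0) (hy : 5 ≤ y)
    (xs : List ℕ) (hxs : ∀ k ∈ xs, 6 ≤ k) (hg : xs.length + 5 ≤ g) :
    Rlz (4 + ((x0 ::ₘ y ::ₘ g ::ₘ ((xs : Multiset ℕ) + R)).map (fun k => k - 4)).sum - (xs.length + 1))
      (4 + ((x0 ::ₘ y ::ₘ g ::ₘ ((xs : Multiset ℕ) + R)).map (fun k => k - 4)).sum)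
      (x0 ::ₘ y ::ₘ g ::ₘ ((xs : Multiset ℕ) + R)) := by
  have h1 := Chain_SA_iter (Chain_SA_of_SC (Chain_SC_of_S0 (Chain_S0_all R hR)) le_rfl) (by omega)
    (x0 - 5)
  have e1 : 4 + 1 + (x0 - 5) = x0 := by omega
  rw [e1] at h1
  have h2 := Chain_SD_iter (Chain_SD_of_SC (Chain_rounds xs _ _ _ _ _ h1 le_rfl hxs)) (by omega)
    (g - (xs.length + 5))
  have e2 : 4 + 1 + xs.length + (g - (xs.length + 5)) = g := by omega
  rw [e2] at h2
  have h3 := Chain_SE_iter (Chain_SE_of_SD h2) (by omega) (y - 5)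
  have e3 : 5 + (y - 5) = y := by omega
  rw [e3] at h3
  obtain ⟨ι, i1, i2, a, hc, -⟩ := h3
  refine ⟨ι, i1, i2, a, ?_⟩
  have e4 : (((x0 ::ₘ y ::ₘ g ::ₘ ((xs : Multiset ℕ) + R)).map (fun k => k - 4)).sum) =
      (x0 - 4) + ((y - 4) + ((g - 4) + ((xs.map (fun k => k - 4)).sum +
        (R.map (fun k => k - 4)).sum))) := by
    simp [Multiset.map_cons, Multiset.sum_cons, Multiset.map_add, Multiset.sum_add]
  have e5 : x0 ::ₘ y ::ₘ g ::ₘ ((xs : Multiset ℕ) + R) =
      y ::ₘ g ::ₘ x0 ::ₘ ((xs : Multiset ℕ) + R) := by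
    rw [Multiset.cons_swap x0 y, Multiset.cons_swap x0 g]
  rw [e4, e5]
  convert hc using 1
  all_goals omega

end Pool.Agent.H.MP_b7f8b0_co.helper73
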