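import Pool.Agent.H.MP_b7f8b0_co.helper73.Defs

set_option autoImplicit false
open Matrix Filter Topology

namespace Pool.Agent.H.MP_b7f8b0_co.helper73

section Dbl1
variable {ι : Type}

private theorem dbl1_cont (p : V3) : Continuous (fun x : V3 => p ⬝ᵥ x) := by
  unfold dotProduct
  fun_prop

private theorem dbl1_sgn (u : ℤˣ) : ((u : ℤ) : ℝ) = 1 ∨ ((u : ℤ) : ℝ) = -1 := by
  rcases Int.units_eq_one_or u with h | h <;> simp [h]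

private theorem dbl1_indep (x y z : V3) :
    LinearIndependent ℝ ![x, y, z] ↔ x ⬝ᵥ (y ⨯₃ z) ≠ 0 := by
  rw [triple_product_eq_det]
  have h := Matrix.linearIndependent_rows_iff_isUnit (K := ℝ) (A := Matrix.of ![x, y, z])
  rw [Matrix.isUnit_iff_isUnit_det, isUnit_iff_ne_zero] at h
  exact h

private theorem dbl1_zero {x y z v : V3} (h : LinearIndependent ℝ ![x, y, z])
    (h1 : x ⬝ᵥ v = 0) (h2 : y ⬝ᵥ v = 0) (h3 : z ⬝ᵥ v = 0) : v = 0 := by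
  rw [dbl1_indep, triple_product_eq_det] at h
  apply Matrix.eq_zero_of_mulVec_eq_zero h
  ext i
  fin_cases i
  · exact h1
  · exact h2
  · exact h3

private theorem dbl1_two [Fintype ι] [DecidableEq ι] (hn : 3 ≤ Fintype.card ι) (ℓ : ι) :
    ∃ j k : ι, j ≠ ℓ ∧ k ≠ ℓ ∧ j ≠ k := by
  have h : 1 < (Finset.univ.erase ℓ).card := by
    rw [Finset.card_erase_of_mem (Finset.mem_univ _), Finset.card_univ]
    omega
  obtain ⟨j, hj, k, hk, hjk⟩ := Finset.one_lt_card.1 h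
  exact ⟨j, k, Finset.ne_of_mem_erase hj, Finset.ne_of_mem_erase hk, hjk⟩

private theorem dbl1_edge [DecidableEq ι] {a : ι → V3} {ε : ι → ℤˣ} {i : ι} (h : Tope a ε)
    (hi : Tope a (flip ε i)) :
    ∃ p : V3, a i ⬝ᵥ p = 0 ∧ ∀ k, k ≠ i → 0 < ((ε k : ℤ) : ℝ) * (a k ⬝ᵥ p) := by
  obtain ⟨x, hx⟩ := h
  obtain ⟨x', hx'⟩ := hi
  have h1 := hx i
  have h2 : 0 < -(((ε i : ℤ) : ℝ) * (a i ⬝ᵥ x')) := by
    have := hx' i
    simp only [flip, Function.update_self] at this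
    push_cast at this
    linarith
  set A : ℝ := ((ε i : ℤ) : ℝ) * (a i ⬝ᵥ x) with hA
  set B : ℝ := -(((ε i : ℤ) : ℝ) * (a i ⬝ᵥ x')) with hB
  refine ⟨B • x + A • x', ?_, ?_⟩
  · rw [dotProduct_add, dotProduct_smul, dotProduct_smul, smul_eq_mul, smul_eq_mul, hA, hB]
    ring
  · intro k hk
    have h3 := hx k
    have h4 : 0 < ((ε k : ℤ) : ℝ) * (a k ⬝ᵥ x') := by
      have := hx' k
      simp only [flip, Function.update_of_ne hk] at this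
      exact this
    rw [dotProduct_add, dotProduct_smul, dotProduct_smul, smul_eq_mul, smul_eq_mul]
    have h5 : ((ε k : ℤ) : ℝ) * (B * (a k ⬝ᵥ x) + A * (a k ⬝ᵥ x')) =
        B * (((ε k : ℤ) : ℝ) * (a k ⬝ᵥ x)) + A * (((ε k : ℤ) : ℝ) * (a k ⬝ᵥ x')) := by ring
    rw [h5]
    exact add_pos (mul_pos h2 h3) (mul_pos h1 h4)

/-- the points of the line `p` orthogonal to `p × q` are multiples of `q` -/
private theorem dbl1_span {p q y : V3} (hp : p ≠ 0) (hq : q ≠ 0) (hpq : p ⬝ᵥ q = 0)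
    (h1 : p ⬝ᵥ y = 0) (h2 : (p ⨯₃ q) ⬝ᵥ y = 0) : ∃ c : ℝ, y = c • q := by
  have hpp : p ⬝ᵥ p ≠ 0 := fun h => hp (dotProduct_self_eq_zero.1 h)
  have hqq : q ⬝ᵥ q ≠ 0 := fun h => hq (dotProduct_self_eq_zero.1 h)
  refine ⟨(q ⬝ᵥ y) / (q ⬝ᵥ q), ?_⟩
  have key : ∀ i, (p ⬝ᵥ p * (q ⬝ᵥ q) - (p ⬝ᵥ q) ^ 2) * y i =
      (q ⬝ᵥ q * (p ⬝ᵥ y) - (p ⬝ᵥ q) * (q ⬝ᵥ y)) * p i +
        (p ⬝ᵥ p * (q ⬝ᵥ y) - (p ⬝ᵥ q) * (p ⬝ᵥ y)) * q i +
          ((p ⨯₃ q) ⬝ᵥ y) * (p ⨯₃ q) i := by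
    intro i
    fin_cases i <;>
    · simp only [cross_apply, dotProduct, Fin.sum_univ_three, Matrix.cons_val_zero,
        Matrix.cons_val_one, Matrix.cons_val, Fin.zero_eta, Fin.mk_one, Fin.reduceFinMk]
      ring
  ext i
  have h := key i
  rw [hpq, h1, h2] at h
  simp only [Pi.smul_apply, smul_eq_mul]
  have h3 : (p ⬝ᵥ p) * (q ⬝ᵥ q * y i - (q ⬝ᵥ y) * q i) = 0 := by linarith
  rcases mul_eq_zero.1 h3 with h4 | h4
  · exact absurd h4 hpp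
  · field_simp
    linarith

/-- openness: strict inequalities persist on a short segment -/
private theorem dbl1_open [Finite ι] (S : ι → Prop) (c : ι → ℝ) (b : ι → V3) (x u : V3)
    (h : ∀ k, S k → 0 < c k * (b k ⬝ᵥ x)) :
    ∃ t : ℝ, 0 < t ∧ ∀ k, S k → 0 < c k * (b k ⬝ᵥ (x + t • u)) := by
  have h1 : ∀ k, ∀ᶠ t : ℝ in 𝓝[>] 0, S k → 0 < c k * (b k ⬝ᵥ (x + t • u)) := by
    intro k
    by_cases hk : S k
    · have hc : Continuous (fun t : ℝ => c k * (b k ⬝ᵥ (x + t • u))) := by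
        have := (dbl1_cont (b k))
        fun_prop
      have h2 : ∀ᶠ t : ℝ in 𝓝 0, 0 < c k * (b k ⬝ᵥ (x + t • u)) := by
        refine (hc.tendsto 0).eventually (lt_mem_nhds ?_)
        simpa using h k hk
      exact (h2.filter_mono nhdsWithin_le_nhds).mono fun t ht _ => ht
    · exact Eventually.of_forall fun t hk' => absurd hk' hk
  have h2 := (eventually_all.2 h1).and self_mem_nhdsWithin
  obtain ⟨t, ht, ht'⟩ := h2.exists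
  exact ⟨t, ht', ht⟩

private theorem dbl1_ww {p q : V3} (hp : p ≠ 0) (hq : q ≠ 0) (hpq : p ⬝ᵥ q = 0) :
    0 < (p ⨯₃ q) ⬝ᵥ (p ⨯₃ q) := by
  have hpp : 0 < p ⬝ᵥ p := lt_of_le_of_ne
    (Finset.sum_nonneg fun i _ => mul_self_nonneg (p i))
    (fun h => hp (dotProduct_self_eq_zero.1 h.symm))
  have hqq : 0 < q ⬝ᵥ q := lt_of_le_of_ne
    (Finset.sum_nonneg fun i _ => mul_self_nonneg (q i))
    (fun h => hq (dotProduct_self_eq_zero.1 h.symm))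
  rw [cross_dot_cross, hpq]
  have := mul_pos hpp hqq
  simpa using this

private theorem dbl1_sq (u : ℤˣ) : ((u : ℤ) : ℝ) * ((u : ℤ) : ℝ) = 1 := by
  rcases dbl1_sgn u with h | h <;> rw [h] <;> norm_num

/-- no point of the line `ℓ` in the closed cone: then the line `ℓ` stays away from it -/
private theorem dbl1_claim [Finite ι] {a : ι → V3} (ha : Simple a) (ℓ : ι) {ε0 : ι → ℤˣ}
    {x0 : V3} (hℓ : a ℓ ≠ 0) (hx0 : x0 ≠ 0) (h0 : a ℓ ⬝ᵥ x0 = 0)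
    (hp : ∀ k, k ≠ ℓ → 0 < ((ε0 k : ℤ) : ℝ) * (a k ⬝ᵥ x0)) (σ : ι → ℤˣ) (s : ℤˣ)
    (hno : ¬ ∃ y : V3, a ℓ ⬝ᵥ y = 0 ∧ (∀ k, k ≠ ℓ → 0 < ((σ k : ℤ) : ℝ) * (a k ⬝ᵥ y)) ∧
      0 < ((s : ℤ) : ℝ) * ((a ℓ ⨯₃ x0) ⬝ᵥ y))
    (x : V3) (hx : x ≠ 0) (h1 : ∀ k, k ≠ ℓ → 0 ≤ ((σ k : ℤ) : ℝ) * (a k ⬝ᵥ x))
    (h2 : 0 ≤ ((s : ℤ) : ℝ) * ((a ℓ ⨯₃ x0) ⬝ᵥ x)) : a ℓ ⬝ᵥ x ≠ 0 := by
  intro h3
  have hw := dbl1_ww hℓ hx0 h0
  set w : V3 := a ℓ ⨯₃ x0 with hwd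
  have haw : a ℓ ⬝ᵥ w = 0 := dot_self_cross _ _
  have hwx0 : w ⬝ᵥ x0 = 0 := by rw [dotProduct_comm]; exact dot_cross_self _ _
  have hne : ∀ u : ℤˣ, ((u : ℤ) : ℝ) ≠ 0 := fun u => by
    rcases dbl1_sgn u with h | h <;> rw [h] <;> norm_num
  by_cases hcase : ∃ k, k ≠ ℓ ∧ a k ⬝ᵥ x = 0
  · obtain ⟨k, hk, hkx⟩ := hcase
    have hother : ∀ k', (k' ≠ ℓ ∧ k' ≠ k) → 0 < ((σ k' : ℤ) : ℝ) * (a k' ⬝ᵥ x) := by
      rintro k' ⟨hk1, hk2⟩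
      refine lt_of_le_of_ne (h1 k' hk1) (fun h => ?_)
      have h4 : a k' ⬝ᵥ x = 0 := by
        rcases mul_eq_zero.1 h.symm with h5 | h5
        · exact absurd h5 (hne _)
        · exact h5
      exact hx (dbl1_zero (ha ℓ k k' hk.symm hk2.symm hk1.symm) h3 hkx h4)
    have hwx : w ⬝ᵥ x ≠ 0 := by
      intro h
      obtain ⟨c, hc⟩ := dbl1_span hℓ hx0 h0 h3 h
      have hc0 : c ≠ 0 := by
        rintro rfl
        exact hx (by rw [hc, zero_smul])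
      rw [hc, dotProduct_smul, smul_eq_mul] at hkx
      have h5 := hp k hk
      rcases mul_eq_zero.1 hkx with h6 | h6
      · exact hc0 h6
      · rw [h6, mul_zero] at h5
        exact lt_irrefl _ h5
    have hwx' : 0 < ((s : ℤ) : ℝ) * (w ⬝ᵥ x) :=
      lt_of_le_of_ne h2 (fun h => by
        rcases mul_eq_zero.1 h.symm with h5 | h5
        · exact hne _ h5
        · exact hwx h5)
    obtain ⟨t, ht, ht2⟩ := dbl1_open (fun k' => k' ≠ ℓ ∧ k' ≠ k) (fun k' => ((σ k' : ℤ) : ℝ)) a x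
      ((((σ k : ℤ) : ℝ) * ((ε0 k : ℤ) : ℝ)) • x0) hother
    refine hno ⟨x + t • ((((σ k : ℤ) : ℝ) * ((ε0 k : ℤ) : ℝ)) • x0), ?_, ?_, ?_⟩
    · rw [dotProduct_add, dotProduct_smul, dotProduct_smul, h3, h0]
      simp
    · intro k' hk'
      by_cases hkk : k' = k
      · subst hkk
        rw [dotProduct_add, dotProduct_smul, dotProduct_smul, hkx]
        simp only [smul_eq_mul, zero_add]
        have h5 : ((σ k' : ℤ) : ℝ) * (t * (((σ k' : ℤ) : ℝ) * ((ε0 k' : ℤ) : ℝ) * (a k' ⬝ᵥ x0))) =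
            (((σ k' : ℤ) : ℝ) * ((σ k' : ℤ) : ℝ)) * (t * (((ε0 k' : ℤ) : ℝ) * (a k' ⬝ᵥ x0))) := by
          ring
        rw [h5, dbl1_sq, one_mul]
        exact mul_pos ht (hp k' hk')
      · exact ht2 k' ⟨hk', hkk⟩
    · rw [dotProduct_add, dotProduct_smul, dotProduct_smul, hwx0]
      simpa using hwx'
  · push Not at hcase
    have hother : ∀ k', k' ≠ ℓ → 0 < ((σ k' : ℤ) : ℝ) * (a k' ⬝ᵥ x) := fun k' hk' =>
      lt_of_le_of_ne (h1 k' hk') (fun h => by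
        rcases mul_eq_zero.1 h.symm with h5 | h5
        · exact hne _ h5
        · exact hcase k' hk' h5)
    by_cases hwx : w ⬝ᵥ x = 0
    · obtain ⟨t, ht, ht2⟩ := dbl1_open (fun k' => k' ≠ ℓ) (fun k' => ((σ k' : ℤ) : ℝ)) a x
        (((s : ℤ) : ℝ) • w) hother
      refine hno ⟨x + t • (((s : ℤ) : ℝ) • w), ?_, ht2, ?_⟩
      · rw [dotProduct_add, dotProduct_smul, dotProduct_smul, h3, haw]
        simp
      · rw [dotProduct_add, dotProduct_smul, dotProduct_smul, hwx]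
        simp only [smul_eq_mul, zero_add]
        have h5 : ((s : ℤ) : ℝ) * (t * (((s : ℤ) : ℝ) * (w ⬝ᵥ w))) =
            (((s : ℤ) : ℝ) * ((s : ℤ) : ℝ)) * (t * (w ⬝ᵥ w)) := by ring
        rw [h5, dbl1_sq, one_mul]
        exact mul_pos ht hw
    · exact hno ⟨x, h3, hother, lt_of_le_of_ne h2 (fun h => by
        rcases mul_eq_zero.1 h.symm with h5 | h5
        · exact hne _ h5
        · exact hwx h5)⟩

/-- sign vectors without a point on `ℓ` are not realised for small `δ` -/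
private theorem dbl1_far [Finite ι] {a : ι → V3} (ha : Simple a) (ℓ : ι) {ε0 : ι → ℤˣ}
    {x0 : V3} (hℓ : a ℓ ≠ 0) (hx0 : x0 ≠ 0) (h0 : a ℓ ⬝ᵥ x0 = 0)
    (hp : ∀ k, k ≠ ℓ → 0 < ((ε0 k : ℤ) : ℝ) * (a k ⬝ᵥ x0)) (σ : ι → ℤˣ) (s : ℤˣ)
    (hs : s = - σ ℓ)
    (hno : ¬ ∃ y : V3, a ℓ ⬝ᵥ y = 0 ∧ (∀ k, k ≠ ℓ → 0 < ((σ k : ℤ) : ℝ) * (a k ⬝ᵥ y)) ∧
      0 < ((s : ℤ) : ℝ) * ((a ℓ ⨯₃ x0) ⬝ᵥ y)) :
    ∀ᶠ δ : ℝ in 𝓝[>] 0, ¬ ∃ x : V3, (∀ k, 0 < ((σ k : ℤ) : ℝ) * (a k ⬝ᵥ x)) ∧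
      0 < ((s : ℤ) : ℝ) * ((a ℓ + δ • (a ℓ ⨯₃ x0)) ⬝ᵥ x) := by
  have hclaim := dbl1_claim ha ℓ hℓ hx0 h0 hp σ s hno
  set w : V3 := a ℓ ⨯₃ x0 with hwd
  set K : Set V3 := Metric.sphere 0 1 ∩ ({x | ∀ k, k ≠ ℓ → 0 ≤ ((σ k : ℤ) : ℝ) * (a k ⬝ᵥ x)} ∩
    {x | 0 ≤ ((s : ℤ) : ℝ) * (w ⬝ᵥ x)}) with hK
  have hKc : IsCompact K := by
    refine (isCompact_sphere _ _).inter_right (IsClosed.inter ?_ ?_)
    · have : {x : V3 | ∀ k, k ≠ ℓ → 0 ≤ ((σ k : ℤ) : ℝ) * (a k ⬝ᵥ x)} =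
          ⋂ k, ⋂ (_ : k ≠ ℓ), {x : V3 | 0 ≤ ((σ k : ℤ) : ℝ) * (a k ⬝ᵥ x)} := by
        ext x
        simp
      rw [this]
      exact isClosed_iInter fun k => isClosed_iInter fun _ =>
        isClosed_le continuous_const (continuous_const.mul (dbl1_cont _))
    · exact isClosed_le continuous_const (continuous_const.mul (dbl1_cont _))
  have hfc : Continuous (fun x : V3 => |a ℓ ⬝ᵥ x| / (1 + |w ⬝ᵥ x|)) := by
    refine ((dbl1_cont _).abs).div (continuous_const.add (dbl1_cont _).abs) (fun x => ?_)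
    have := abs_nonneg (w ⬝ᵥ x)
    linarith
  obtain ⟨m, hm, hmK⟩ := hKc.exists_forall_le' hfc.continuousOn (a := 0) (fun x hx => by
    have hx1 : x ≠ 0 := by
      intro h
      have := hx.1
      rw [h] at this
      simp at this
    have h4 := hclaim x hx1 hx.2.1 hx.2.2
    have := abs_nonneg (w ⬝ᵥ x)
    exact div_pos (abs_pos.2 h4) (by linarith))
  have hev : ∀ᶠ δ : ℝ in 𝓝[>] 0, δ < m :=
    (eventually_lt_nhds hm).filter_mono nhdsWithin_le_nhds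
  filter_upwards [hev, self_mem_nhdsWithin] with δ hδm hδ0
  have hδ : 0 < δ := hδ0
  rintro ⟨x, hx, hx2⟩
  have hxl := hx ℓ
  have hs' : ((s : ℤ) : ℝ) = -((σ ℓ : ℤ) : ℝ) := by rw [hs]; push_cast; ring
  rw [add_dotProduct, smul_dotProduct, smul_eq_mul, mul_add, hs'] at hx2
  have h5 : 0 < ((s : ℤ) : ℝ) * (w ⬝ᵥ x) := by
    rw [hs']
    by_contra hcon
    push Not at hcon
    have : δ * (-((σ ℓ : ℤ) : ℝ) * (w ⬝ᵥ x)) ≤ 0 := mul_nonpos_of_nonneg_of_nonpos hδ.le hcon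
    linarith
  have hx0' : x ≠ 0 := by
    rintro rfl
    simp at hxl
  have hnx : 0 < ‖x‖ := norm_pos_iff.2 hx0'
  have habs1 : |a ℓ ⬝ᵥ x| = ((σ ℓ : ℤ) : ℝ) * (a ℓ ⬝ᵥ x) := by
    rcases dbl1_sgn (σ ℓ) with h | h
    · rw [h, one_mul] at hxl ⊢
      exact abs_of_pos hxl
    · rw [h] at hxl ⊢
      rw [abs_of_neg (by linarith)]
      ring
  have habs2 : |w ⬝ᵥ x| = ((s : ℤ) : ℝ) * (w ⬝ᵥ x) := by
    rcases dbl1_sgn s with h | h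
    · rw [h, one_mul] at h5 ⊢
      exact abs_of_pos h5
    · rw [h] at h5 ⊢
      rw [abs_of_neg (by linarith)]
      ring
  have hz : (‖x‖⁻¹ • x) ∈ K := by
    refine ⟨?_, ?_, ?_⟩
    · rw [mem_sphere_zero_iff_norm, norm_smul, norm_inv, norm_norm, inv_mul_cancel₀ hnx.ne']
    · intro k _
      rw [dotProduct_smul, smul_eq_mul]
      have := hx k
      have h6 := mul_pos (inv_pos.2 hnx) this
      calc (0 : ℝ) ≤ ‖x‖⁻¹ * (((σ k : ℤ) : ℝ) * (a k ⬝ᵥ x)) := h6.le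
        _ = _ := by ring
    · show 0 ≤ ((s : ℤ) : ℝ) * (w ⬝ᵥ (‖x‖⁻¹ • x))
      rw [dotProduct_smul, smul_eq_mul]
      have h6 := mul_pos (inv_pos.2 hnx) h5
      calc (0 : ℝ) ≤ ‖x‖⁻¹ * (((s : ℤ) : ℝ) * (w ⬝ᵥ x)) := h6.le
        _ = _ := by ring
  have h7 := hmK _ hz
  rw [dotProduct_smul, dotProduct_smul, smul_eq_mul, smul_eq_mul, abs_mul, abs_mul,
    abs_of_pos (inv_pos.2 hnx)] at h7
  have h8 : 0 < 1 + ‖x‖⁻¹ * |w ⬝ᵥ x| := by positivity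
  rw [le_div_iff₀ h8] at h7
  have h9 : m * (‖x‖⁻¹ * |w ⬝ᵥ x|) < ‖x‖⁻¹ * |a ℓ ⬝ᵥ x| := by linarith
  have h10 : m * |w ⬝ᵥ x| < |a ℓ ⬝ᵥ x| := by
    have h11 : ‖x‖⁻¹ * (m * |w ⬝ᵥ x|) < ‖x‖⁻¹ * |a ℓ ⬝ᵥ x| := by linarith
    exact lt_of_mul_lt_mul_left h11 (inv_pos.2 hnx).le
  have h12 : |a ℓ ⬝ᵥ x| < δ * |w ⬝ᵥ x| := by
    rw [habs1, habs2, hs']
    linarith
  have h13 : δ * |w ⬝ᵥ x| ≤ m * |w ⬝ᵥ x| := mul_le_mul_of_nonneg_right hδm.le (abs_nonneg _)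
  linarith

private theorem dbl1_perm {x y z : V3} (h : LinearIndependent ℝ ![x, y, z]) :
    LinearIndependent ℝ ![y, x, z] ∧ LinearIndependent ℝ ![y, z, x] := by
  rw [dbl1_indep] at h ⊢
  rw [dbl1_indep]
  have e1 : y ⬝ᵥ (x ⨯₃ z) = -(x ⬝ᵥ (y ⨯₃ z)) := by
    simp only [cross_apply, dotProduct, Fin.sum_univ_three, Matrix.cons_val_zero,
      Matrix.cons_val_one, Matrix.cons_val]
    ring
  have e2 : y ⬝ᵥ (z ⨯₃ x) = x ⬝ᵥ (y ⨯₃ z) := by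
    simp only [cross_apply, dotProduct, Fin.sum_univ_three, Matrix.cons_val_zero,
      Matrix.cons_val_one, Matrix.cons_val]
    ring
  exact ⟨by rw [e1]; exact neg_ne_zero.2 h, by rw [e2]; exact h⟩

variable [DecidableEq ι] [Fintype ι]

/-- a new line (index `none`) close to the line `ℓ`, crossing `ℓ` in the point `x0` of the edge between
the faces `ε0` and `flip ε0 ℓ` -/
theorem dbl_exists {a : ι → V3} (ha : Simple a) (hn : 3 ≤ Fintype.card ι) (ℓ : ι) {ε0 : ι → ℤˣ}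
    (h0 : Tope a ε0) (h1 : Tope a (flip ε0 ℓ)) :
    ∃ (a' : Option ι → V3) (x0 w : V3), Simple a' ∧ (∀ i, a' (some i) = a i) ∧
      a ℓ ⬝ᵥ x0 = 0 ∧ w ⬝ᵥ x0 = 0 ∧ (∀ k, k ≠ ℓ → 0 < ((ε0 k : ℤ) : ℝ) * (a k ⬝ᵥ x0)) ∧
      (∀ y : V3, a ℓ ⬝ᵥ y = 0 → w ⬝ᵥ y = 0 → ∃ c : ℝ, y = c • x0) ∧
      (∀ η : Option ι → ℤˣ, Tope a' η ↔
        (Tope a (fun i => η (some i)) ∧ η none = η (some ℓ)) ∨
        (η none = - η (some ℓ) ∧ ∃ y : V3, a ℓ ⬝ᵥ y = 0 ∧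
          (∀ k, k ≠ ℓ → 0 < ((η (some k) : ℤ) : ℝ) * (a k ⬝ᵥ y)) ∧
          0 < ((η none : ℤ) : ℝ) * (w ⬝ᵥ y))) := by
  obtain ⟨x0, hx0l, hp⟩ := dbl1_edge h0 h1
  obtain ⟨j0, k0, hj0, hk0, hjk0⟩ := dbl1_two hn ℓ
  have hℓ : a ℓ ≠ 0 := (ha ℓ j0 k0 hj0.symm hjk0 hk0.symm).ne_zero 0
  have hx0 : x0 ≠ 0 := by
    rintro rfl
    have := hp j0 hj0
    simp at this
  have hww := dbl1_ww hℓ hx0 hx0l
  set w : V3 := a ℓ ⨯₃ x0 with hwd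
  have haw : a ℓ ⬝ᵥ w = 0 := dot_self_cross _ _
  have hwa : w ⬝ᵥ a ℓ = 0 := by rw [dotProduct_comm]; exact haw
  have hwx0 : w ⬝ᵥ x0 = 0 := by rw [dotProduct_comm]; exact dot_cross_self _ _
  have hll : 0 < a ℓ ⬝ᵥ a ℓ := lt_of_le_of_ne
    (Finset.sum_nonneg fun i _ => mul_self_nonneg (a ℓ i))
    (fun h => hℓ (dotProduct_self_eq_zero.1 h.symm))
  -- the conditions on delta
  have cA : ∀ᶠ δ : ℝ in 𝓝[>] 0, ∀ i j : ι, i ≠ ℓ → j ≠ ℓ → i ≠ j →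
      (a ℓ + δ • w) ⬝ᵥ (a i ⨯₃ a j) ≠ 0 := by
    rw [eventually_all]
    intro i
    rw [eventually_all]
    intro j
    by_cases hij : i ≠ ℓ ∧ j ≠ ℓ ∧ i ≠ j
    · obtain ⟨hi, hj, hij'⟩ := hij
      have h2 := (dbl1_indep _ _ _).1 (ha ℓ i j hi.symm hij' hj.symm)
      have hc : Continuous (fun δ : ℝ => (a ℓ + δ • w) ⬝ᵥ (a i ⨯₃ a j)) := by
        simp only [add_dotProduct, smul_dotProduct, smul_eq_mul]
        fun_prop
      have h3 : ∀ᶠ δ : ℝ in 𝓝 0, (a ℓ + δ • w) ⬝ᵥ (a i ⨯₃ a j) ≠ 0 := by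
        refine hc.continuousAt.eventually_ne ?_
        simpa using h2
      exact (h3.filter_mono nhdsWithin_le_nhds).mono fun δ hδ _ _ _ => hδ
    · exact Eventually.of_forall fun δ hi hj hij' => absurd ⟨hi, hj, hij'⟩ hij
  have cB : ∀ᶠ δ : ℝ in 𝓝[>] 0, ∀ σ : ι → ℤˣ, Tope a σ →
      ∃ x : V3, (∀ k, 0 < ((σ k : ℤ) : ℝ) * (a k ⬝ᵥ x)) ∧
        0 < ((σ ℓ : ℤ) : ℝ) * ((a ℓ + δ • w) ⬝ᵥ x) := by
    rw [eventually_all]
    intro σ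
    by_cases hσ : Tope a σ
    · obtain ⟨x, hx⟩ := hσ
      have hc : Continuous (fun δ : ℝ => ((σ ℓ : ℤ) : ℝ) * ((a ℓ + δ • w) ⬝ᵥ x)) := by
        simp only [add_dotProduct, smul_dotProduct, smul_eq_mul]
        fun_prop
      have h3 : ∀ᶠ δ : ℝ in 𝓝 0, 0 < ((σ ℓ : ℤ) : ℝ) * ((a ℓ + δ • w) ⬝ᵥ x) := by
        refine (hc.tendsto 0).eventually (lt_mem_nhds ?_)
        simpa using hx ℓ
      exact (h3.filter_mono nhdsWithin_le_nhds).mono fun δ hδ _ => ⟨x, hx, hδ⟩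
    · exact Eventually.of_forall fun δ h => absurd h hσ
  have cC : ∀ᶠ δ : ℝ in 𝓝[>] 0, ∀ (σ : ι → ℤˣ),
      (¬ ∃ y : V3, a ℓ ⬝ᵥ y = 0 ∧ (∀ k, k ≠ ℓ → 0 < ((σ k : ℤ) : ℝ) * (a k ⬝ᵥ y)) ∧
        0 < (((- σ ℓ : ℤˣ) : ℤ) : ℝ) * (w ⬝ᵥ y)) →
      ¬ ∃ x : V3, (∀ k, 0 < ((σ k : ℤ) : ℝ) * (a k ⬝ᵥ x)) ∧
        0 < (((- σ ℓ : ℤˣ) : ℤ) : ℝ) * ((a ℓ + δ • w) ⬝ᵥ x) := by
    rw [eventually_all]
    intro σ
    by_cases hσ : ∃ y : V3, a ℓ ⬝ᵥ y = 0 ∧ (∀ k, k ≠ ℓ → 0 < ((σ k : ℤ) : ℝ) * (a k ⬝ᵥ y)) ∧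
        0 < (((- σ ℓ : ℤˣ) : ℤ) : ℝ) * (w ⬝ᵥ y)
    · exact Eventually.of_forall fun δ h => absurd hσ h
    · exact (dbl1_far ha ℓ hℓ hx0 hx0l hp σ (- σ ℓ) rfl hσ).mono fun δ hδ _ => hδ
  obtain ⟨δ, ⟨⟨hA, hB⟩, hC⟩, hδ'⟩ := (((cA.and cB).and cC).and self_mem_nhdsWithin).exists
  have hδ : 0 < δ := hδ'
  set b : V3 := a ℓ + δ • w with hb
  have hbl : ∀ j, j ≠ ℓ → LinearIndependent ℝ ![b, a ℓ, a j] := by
    intro j hj
    rw [dbl1_indep]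
    have e1 : b ⬝ᵥ (a ℓ ⨯₃ a j) = δ * ((a ℓ ⬝ᵥ a ℓ) * (a j ⬝ᵥ x0) - (a ℓ ⬝ᵥ x0) * (a ℓ ⬝ᵥ a j)) := by
      rw [hb, hwd]
      simp only [cross_apply, dotProduct, Fin.sum_univ_three, Matrix.cons_val_zero,
        Matrix.cons_val_one, Matrix.cons_val, Pi.add_apply, Pi.smul_apply, smul_eq_mul]
      ring
    rw [e1, hx0l, zero_mul, sub_zero]
    have h2 : a j ⬝ᵥ x0 ≠ 0 := by
      intro h
      have := hp j hj
      rw [h, mul_zero] at this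
      exact lt_irrefl _ this
    exact mul_ne_zero hδ.ne' (mul_ne_zero hll.ne' h2)
  have hbb : ∀ i j, i ≠ j → LinearIndependent ℝ ![b, a i, a j] := by
    intro i j hij
    by_cases hi : i = ℓ
    · subst hi
      exact hbl j hij.symm
    · by_cases hj : j = ℓ
      · subst hj
        have h4 := (dbl1_perm (hbl i hi)).2
        rw [dbl1_indep] at h4 ⊢
        have e1 : b ⬝ᵥ (a i ⨯₃ a j) = -(a j ⬝ᵥ (a i ⨯₃ b)) := by
          simp only [cross_apply, dotProduct, Fin.sum_univ_three, Matrix.cons_val_zero,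
            Matrix.cons_val_one, Matrix.cons_val]
          ring
        rw [e1]
        exact neg_ne_zero.2 h4
      · exact (dbl1_indep _ _ _).2 (hA i j hi hj hij)
  refine ⟨fun o => o.elim b a, x0, w, ?_, fun i => rfl, hx0l, hwx0, hp, ?_, ?_⟩
  · intro i j l hij hjl hil
    rcases i with _ | i <;> rcases j with _ | j <;> rcases l with _ | l
    · exact absurd rfl hij
    · exact absurd rfl hij
    · exact absurd rfl hil
    · exact hbb j l (fun h => hjl (by rw [h]))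
    · exact absurd rfl hjl
    · exact (dbl1_perm (hbb i l (fun h => hil (by rw [h])))).1
    · exact (dbl1_perm (hbb i j (fun h => hij (by rw [h])))).2
    · exact ha i j l (fun h => hij (by rw [h])) (fun h => hjl (by rw [h])) (fun h => hil (by rw [h]))
  · intro y hy1 hy2
    exact dbl1_span hℓ hx0 hx0l hy1 hy2
  · intro η
    constructor
    · rintro ⟨x, hx⟩
      have hσ : ∀ k, 0 < ((η (some k) : ℤ) : ℝ) * (a k ⬝ᵥ x) := fun k => hx (some k)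
      have hnone : 0 < ((η none : ℤ) : ℝ) * (b ⬝ᵥ x) := hx none
      by_cases hη : η none = η (some ℓ)
      · exact Or.inl ⟨⟨x, hσ⟩, hη⟩
      · have hη' : η none = - η (some ℓ) := by
          rcases Int.units_eq_one_or (η none) with h | h <;>
            rcases Int.units_eq_one_or (η (some ℓ)) with h' | h' <;> rw [h, h'] at hη ⊢ <;>
            simp at hη ⊢
        refine Or.inr ⟨hη', ?_⟩
        by_contra hcon
        rw [hη'] at hcon hnone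
        exact hC (fun i => η (some i)) hcon ⟨x, hσ, hnone⟩
    · rintro (⟨hT, hη⟩ | ⟨hη, y, hy0, hy, hyw⟩)
      · obtain ⟨x, hx, hx2⟩ := hB _ hT
        refine ⟨x, fun o => ?_⟩
        rcases o with _ | k
        · rw [hη]
          exact hx2
        · exact hx k
      · have hby : 0 < ((η none : ℤ) : ℝ) * (b ⬝ᵥ y) := by
          rw [hb, add_dotProduct, smul_dotProduct, smul_eq_mul, hy0, zero_add]
          have : ((η none : ℤ) : ℝ) * (δ * (w ⬝ᵥ y)) = δ * (((η none : ℤ) : ℝ) * (w ⬝ᵥ y)) := by ring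
          rw [this]
          exact mul_pos hδ hyw
        obtain ⟨t, ht, ht2⟩ := dbl1_open (ι := Option ι) (fun o => o ≠ some ℓ)
          (fun o => ((η o : ℤ) : ℝ)) (fun o => o.elim b a) y (((η (some ℓ) : ℤ) : ℝ) • a ℓ)
          (by
            intro o ho
            rcases o with _ | k
            · exact hby
            · exact hy k (fun h => ho (by rw [h])))
        refine ⟨y + t • (((η (some ℓ) : ℤ) : ℝ) • a ℓ), fun o => ?_⟩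
        by_cases ho : o = some ℓ
        · subst ho
          show 0 < ((η (some ℓ) : ℤ) : ℝ) * (a ℓ ⬝ᵥ (y + t • (((η (some ℓ) : ℤ) : ℝ) • a ℓ)))
          rw [dotProduct_add, dotProduct_smul, dotProduct_smul, hy0, zero_add, smul_eq_mul,
            smul_eq_mul]
          have h5 : ((η (some ℓ) : ℤ) : ℝ) * (t * (((η (some ℓ) : ℤ) : ℝ) * (a ℓ ⬝ᵥ a ℓ))) =
              (((η (some ℓ) : ℤ) : ℝ) * ((η (some ℓ) : ℤ) : ℝ)) * (t * (a ℓ ⬝ᵥ a ℓ)) := by ring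
          rw [h5, dbl1_sq, one_mul]
          exact mul_pos ht hll
        · exact ht2 o ho

end Dbl1

end Pool.Agent.H.MP_b7f8b0_co.helper73
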