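import Pool.Agent.H.MP_b7f8b0_co.helper73.Basic
import Pool.Agent.H.MP_b7f8b0_co.helper73.TwoNbr
import Pool.Agent.H.MP_b7f8b0_co.helper73.Dbl1

set_option autoImplicit false
open Matrix Filter
open scoped Topology

namespace Pool.Agent.H.MP_b7f8b0_co.helper73

section Dbl2aux
variable {ι : Type}

/-- a point of the line `ℓ` with the signs `σ` off `ℓ` -/
def Dbl2On (a : ι → V3) (ℓ : ι) (σ : ι → ℤˣ) (y : V3) : Prop :=
  a ℓ ⬝ᵥ y = 0 ∧ ∀ k, k ≠ ℓ → 0 < ((σ k : ℤ) : ℝ) * (a k ⬝ᵥ y)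

/-- the segment with the signs `σ` on the line `ℓ` has a point on the side `b` of `w` -/
def Dbl2Seg (a : ι → V3) (ℓ : ι) (w : V3) (σ : ι → ℤˣ) (b : ℤˣ) : Prop :=
  ∃ y : V3, Dbl2On a ℓ σ y ∧ 0 < ((b : ℤ) : ℝ) * (w ⬝ᵥ y)

theorem dbl2_unit_real (u : ℤˣ) : ((u : ℤ) : ℝ) = 1 ∨ ((u : ℤ) : ℝ) = -1 := by
  rcases Int.units_eq_one_or u with h | h
  · left; rw [h]; norm_num
  · right; rw [h]; norm_num

theorem dbl2_neg_real (u : ℤˣ) : (((-u : ℤˣ) : ℤ) : ℝ) = -((u : ℤ) : ℝ) := by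
  push_cast
  rfl

theorem dbl2_eq_or_neg (u v : ℤˣ) : u = v ∨ u = -v := by
  by_cases h : u = v
  · exact Or.inl h
  · exact Or.inr (Int.units_ne_iff_eq_neg.1 h)

theorem dbl2_ne_neg (u : ℤˣ) : u ≠ -u := by
  rcases Int.units_eq_one_or u with h | h <;> rw [h] <;> decide

theorem dbl2_small [Finite ι] (P : ι → Prop) (f g : ι → ℝ) (h : ∀ k, P k → 0 < f k) :
    ∃ τ : ℝ, 0 < τ ∧ ∀ k, P k → 0 < f k + τ * g k := by
  have h1 : ∀ k, ∀ᶠ τ in 𝓝[>] (0 : ℝ), P k → 0 < f k + τ * g k := by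
    intro k
    by_cases hk : P k
    · have hc : Continuous fun τ : ℝ => f k + τ * g k := by fun_prop
      have h2 : Tendsto (fun τ : ℝ => f k + τ * g k) (𝓝[>] 0) (𝓝 (f k + 0 * g k)) :=
        (hc.tendsto 0).mono_left nhdsWithin_le_nhds
      rw [zero_mul, add_zero] at h2
      exact (h2.eventually (lt_mem_nhds (h k hk))).mono fun τ hτ _ => hτ
    · exact Eventually.of_forall fun τ h => absurd h hk
  obtain ⟨τ, h2, h3⟩ := ((eventually_all.2 h1).and self_mem_nhdsWithin).exists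
  exact ⟨τ, h3, h2⟩

theorem Dbl2On.congr {a : ι → V3} {ℓ : ι} {σ σ' : ι → ℤˣ} {y : V3} (h : Dbl2On a ℓ σ y)
    (hσ : ∀ k, k ≠ ℓ → σ' k = σ k) : Dbl2On a ℓ σ' y :=
  ⟨h.1, fun k hk => by rw [hσ k hk]; exact h.2 k hk⟩

theorem Dbl2Seg.congr {a : ι → V3} {ℓ : ι} {w : V3} {σ σ' : ι → ℤˣ} {b : ℤˣ}
    (h : Dbl2Seg a ℓ w σ b) (hσ : ∀ k, k ≠ ℓ → σ' k = σ k) : Dbl2Seg a ℓ w σ' b := by
  obtain ⟨y, h1, h2⟩ := h
  exact ⟨y, h1.congr hσ, h2⟩

theorem dbl2Seg_congr {a : ι → V3} {ℓ : ι} {w : V3} {σ σ' : ι → ℤˣ} {b : ℤˣ}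
    (hσ : ∀ k, k ≠ ℓ → σ' k = σ k) : Dbl2Seg a ℓ w σ' b ↔ Dbl2Seg a ℓ w σ b :=
  ⟨fun h => h.congr fun k hk => (hσ k hk).symm, fun h => h.congr hσ⟩

theorem Dbl2On.comb {a : ι → V3} {ℓ : ι} {σ : ι → ℤˣ} {y y' : V3} (h : Dbl2On a ℓ σ y)
    (h' : Dbl2On a ℓ σ y') {s t : ℝ} (hs : 0 < s) (ht : 0 < t) :
    Dbl2On a ℓ σ (s • y + t • y') := by
  refine ⟨?_, fun k hk => ?_⟩
  · rw [dotProduct_add, dotProduct_smul, dotProduct_smul, h.1, h'.1]
    simp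
  · rw [dotProduct_add, dotProduct_smul, dotProduct_smul, smul_eq_mul, smul_eq_mul]
    have h1 := mul_pos hs (h.2 k hk)
    have h2 := mul_pos ht (h'.2 k hk)
    linarith

theorem Dbl2On.neg {a : ι → V3} {ℓ : ι} {σ : ι → ℤˣ} {y : V3} (h : Dbl2On a ℓ σ y) :
    Dbl2On a ℓ (-σ) (-y) := by
  refine ⟨?_, fun k hk => ?_⟩
  · rw [dotProduct_neg, h.1, neg_zero]
  · rw [Pi.neg_apply, dbl2_neg_real, dotProduct_neg, neg_mul_neg]
    exact h.2 k hk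

/-- the properties of the new line -/
structure Dbl2Data (a : ι → V3) (ℓ : ι) (ε0 : ι → ℤˣ) (a' : Option ι → V3) (x0 w : V3) :
    Prop where
  hx : Dbl2On a ℓ ε0 x0
  hwx : w ⬝ᵥ x0 = 0
  huniq : ∀ y : V3, a ℓ ⬝ᵥ y = 0 → w ⬝ᵥ y = 0 → ∃ c : ℝ, y = c • x0
  hT : ∀ η : Option ι → ℤˣ, Tope a' η ↔ (Tope a (fun i => η (some i)) ∧ η none = η (some ℓ)) ∨
    (η none = - η (some ℓ) ∧ Dbl2Seg a ℓ w (fun i => η (some i)) (η none))

/-- the special sign vectors: on the segment of the point `x0` -/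
def Dbl2Spec (ε0 : ι → ℤˣ) (ℓ : ι) (σ : ι → ℤˣ) : Prop :=
  (∀ k, k ≠ ℓ → σ k = ε0 k) ∨ ∀ k, k ≠ ℓ → σ k = -ε0 k

variable {a : ι → V3} {ℓ : ι} {ε0 : ι → ℤˣ} {a' : Option ι → V3} {x0 w : V3}

theorem Dbl2Data.spec_of_zero (D : Dbl2Data a ℓ ε0 a' x0 w) {σ : ι → ℤˣ} {y : V3}
    (h : Dbl2On a ℓ σ y) (hw : w ⬝ᵥ y = 0) : Dbl2Spec ε0 ℓ σ := by
  obtain ⟨c, rfl⟩ := D.huniq y h.1 hw
  have key : ∀ k, k ≠ ℓ → 0 < c * (((σ k : ℤ) : ℝ) * (a k ⬝ᵥ x0)) := by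
    intro k hk
    have h1 := h.2 k hk
    rw [dotProduct_smul, smul_eq_mul] at h1
    linarith
  rcases lt_trichotomy c 0 with hc | hc | hc
  · right
    intro k hk
    rcases dbl2_eq_or_neg (σ k) (ε0 k) with h1 | h1
    · exfalso
      have h2 := key k hk
      have h3 := D.hx.2 k hk
      rw [h1] at h2
      exact absurd (mul_neg_of_neg_of_pos hc h3) (not_lt.2 h2.le)
    · exact h1
  · left
    intro k hk
    exfalso
    have h2 := key k hk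
    rw [hc, zero_mul] at h2
    exact lt_irrefl _ h2
  · left
    intro k hk
    rcases dbl2_eq_or_neg (σ k) (ε0 k) with h1 | h1
    · exact h1
    · exfalso
      have h2 := key k hk
      have h3 := mul_pos hc (D.hx.2 k hk)
      rw [h1, dbl2_neg_real] at h2
      linarith

theorem Dbl2Data.same_side (D : Dbl2Data a ℓ ε0 a' x0 w) {σ : ι → ℤˣ} (hσ : ¬ Dbl2Spec ε0 ℓ σ)
    {y y' : V3} (h : Dbl2On a ℓ σ y) (h' : Dbl2On a ℓ σ y') :
    0 < (w ⬝ᵥ y) * (w ⬝ᵥ y') := by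
  have h1 : w ⬝ᵥ y ≠ 0 := fun h0 => hσ (D.spec_of_zero h h0)
  have h2 : w ⬝ᵥ y' ≠ 0 := fun h0 => hσ (D.spec_of_zero h' h0)
  by_contra hneg
  have h3 : (w ⬝ᵥ y) * (w ⬝ᵥ y') < 0 := lt_of_le_of_ne (not_lt.1 hneg) (mul_ne_zero h1 h2)
  refine hσ (D.spec_of_zero (h.comb h' (abs_pos.2 h2) (abs_pos.2 h1)) ?_)
  rw [dotProduct_add, dotProduct_smul, dotProduct_smul, smul_eq_mul, smul_eq_mul]
  rcases mul_neg_iff.1 h3 with ⟨h4, h5⟩ | ⟨h4, h5⟩
  · rw [abs_of_neg h5, abs_of_pos h4]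
    ring
  · rw [abs_of_pos h5, abs_of_neg h4]
    ring

theorem Dbl2Data.first (D : Dbl2Data a ℓ ε0 a' x0 w) {η : Option ι → ℤˣ}
    (h : η none = η (some ℓ)) : Tope a' η ↔ Tope a (fun i => η (some i)) := by
  rw [D.hT]
  constructor
  · rintro (h1 | h1)
    · exact h1.1
    · exact absurd (h.symm.trans h1.1) (dbl2_ne_neg _)
  · intro h1
    exact Or.inl ⟨h1, h⟩

theorem Dbl2Data.second (D : Dbl2Data a ℓ ε0 a' x0 w) {η : Option ι → ℤˣ}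
    (h : η none = -η (some ℓ)) :
    Tope a' η ↔ Dbl2Seg a ℓ w (fun i => η (some i)) (η none) := by
  rw [D.hT]
  constructor
  · rintro (h1 | h1)
    · exact absurd (h1.2.symm.trans h) (dbl2_ne_neg _)
    · exact h1.2
  · intro h1
    exact Or.inr ⟨h, h1⟩

theorem Dbl2Data.ext_iff (D : Dbl2Data a ℓ ε0 a' x0 w) (ε : ι → ℤˣ) :
    Tope a' (ext ℓ ε) ↔ Tope a ε := D.first (η := ext ℓ ε) rfl

/-- corner of the face `σ` between `ℓ` and `j` -/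
def Dbl2Cor (a : ι → V3) (ℓ j : ι) (σ : ι → ℤˣ) (v : V3) : Prop :=
  a ℓ ⬝ᵥ v = 0 ∧ a j ⬝ᵥ v = 0 ∧ ∀ k, k ≠ ℓ → k ≠ j → 0 < ((σ k : ℤ) : ℝ) * (a k ⬝ᵥ v)

theorem Dbl2Data.w_ne (D : Dbl2Data a ℓ ε0 a' x0 w) {j : ι} (hj : j ≠ ℓ) {v : V3} (hv : v ≠ 0)
    (h0 : a ℓ ⬝ᵥ v = 0) (h1 : a j ⬝ᵥ v = 0) : w ⬝ᵥ v ≠ 0 := by
  intro hw
  obtain ⟨c, rfl⟩ := D.huniq v h0 hw
  rw [dotProduct_smul, smul_eq_mul] at h1
  have h2 := D.hx.2 j hj
  rcases mul_eq_zero.1 h1 with h3 | h3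
  · exact hv (by rw [h3, zero_smul])
  · rw [h3, mul_zero] at h2
    exact lt_irrefl _ h2

theorem Dbl2Cor.ne_zero {j : ι} {σ : ι → ℤˣ} {v : V3} (h : Dbl2Cor a ℓ j σ v) {k : ι}
    (hk : k ≠ ℓ) (hkj : k ≠ j) : v ≠ 0 := by
  rintro rfl
  have h1 := h.2.2 k hk hkj
  rw [dotProduct_zero, mul_zero] at h1
  exact lt_irrefl _ h1

end Dbl2aux

section Dbl2
variable {ι : Type} [DecidableEq ι] [Fintype ι]
variable {a : ι → V3} {ℓ : ι} {ε0 : ι → ℤˣ} {a' : Option ι → V3} {x0 w : V3}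

theorem dbl2_third (hn : 4 ≤ Fintype.card ι) (i j k : ι) : ∃ l, l ≠ i ∧ l ≠ j ∧ l ≠ k := by
  by_contra hcon
  push Not at hcon
  have h1 : (Finset.univ : Finset ι) ⊆ {i, j, k} := by
    intro l _
    by_cases h1 : l = i
    · simp [h1]
    · by_cases h2 : l = j
      · simp [h2]
      · simp [hcon l h1 h2]
  have h2 := Finset.card_le_card h1
  rw [Finset.card_univ] at h2
  have h3 := Finset.card_le_three (a := i) (b := j) (c := k)
  omega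

theorem Dbl2On.topes (ha : Simple a) (hn : 4 ≤ Fintype.card ι) {σ : ι → ℤˣ} {y : V3}
    (h : Dbl2On a ℓ σ y) : Tope a σ ∧ Tope a (flip σ ℓ) := by
  have h0 := simple_ne_zero ha (by omega) ℓ
  exact ⟨tope_of_edge_point h0 h.1 h.2 fun k hk => rfl,
    tope_of_edge_point h0 h.1 h.2 fun k hk => flip_ne σ hk⟩

theorem dbl2_on_of_topes {σ : ι → ℤˣ} (h : Tope a σ) (h' : Tope a (flip σ ℓ)) :
    ∃ y, Dbl2On a ℓ σ y := by
  obtain ⟨p, h1, h2⟩ := edge_point h h'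
  exact ⟨p, h1, h2⟩

theorem Dbl2Data.seg_spec (D : Dbl2Data a ℓ ε0 a' x0 w) (hn : 4 ≤ Fintype.card ι)
    {σ : ι → ℤˣ} (hσ : Dbl2Spec ε0 ℓ σ) (b : ℤˣ) : Dbl2Seg a ℓ w σ b := by
  obtain ⟨x1, hx1, hw1⟩ : ∃ x1, Dbl2On a ℓ σ x1 ∧ w ⬝ᵥ x1 = 0 := by
    rcases hσ with h | h
    · exact ⟨x0, D.hx.congr h, D.hwx⟩
    · refine ⟨-x0, D.hx.neg.congr h, ?_⟩
      rw [dotProduct_neg, D.hwx, neg_zero]
  obtain ⟨j, hj, -, -⟩ := dbl2_third hn ℓ ℓ ℓ
  obtain ⟨v, hv, hv1, hv2⟩ := exists_vertex a ℓ j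
  have hwv := D.w_ne hj hv hv1 hv2
  -- a vector `u` on the line `ℓ` with `0 < b * (w u)`
  obtain ⟨u, hu1, hu2⟩ : ∃ u : V3, a ℓ ⬝ᵥ u = 0 ∧ 0 < ((b : ℤ) : ℝ) * (w ⬝ᵥ u) := by
    have hb : ((b : ℤ) : ℝ) * (w ⬝ᵥ v) ≠ 0 := by
      refine mul_ne_zero ?_ hwv
      rcases dbl2_unit_real b with h | h <;> rw [h] <;> norm_num
    rcases lt_or_gt_of_ne hb with h | h
    · refine ⟨-v, by rw [dotProduct_neg, hv1, neg_zero], ?_⟩
      rw [dotProduct_neg]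
      linarith
    · exact ⟨v, hv1, h⟩
  obtain ⟨τ, hτ, h1⟩ := dbl2_small (fun k => k ≠ ℓ) (fun k => ((σ k : ℤ) : ℝ) * (a k ⬝ᵥ x1))
    (fun k => ((σ k : ℤ) : ℝ) * (a k ⬝ᵥ u)) hx1.2
  refine ⟨x1 + τ • u, ⟨?_, fun k hk => ?_⟩, ?_⟩
  · rw [dotProduct_add, dotProduct_smul, hx1.1, hu1]
    simp
  · rw [dotProduct_add, dotProduct_smul, smul_eq_mul]
    have h2 := h1 k hk
    linarith
  · rw [dotProduct_add, dotProduct_smul, smul_eq_mul, hw1]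
    have h2 := mul_pos hτ hu2
    linarith

theorem Dbl2Data.seg_ord (D : Dbl2Data a ℓ ε0 a' x0 w) (ha : Simple a)
    (hn : 4 ≤ Fintype.card ι) {σ : ι → ℤˣ} (hσ : ¬ Dbl2Spec ε0 ℓ σ) (h : Tope a σ) (b : ℤˣ) :
    (Tope a (flip σ ℓ) → (Dbl2Seg a ℓ w σ b ∧ ¬ Dbl2Seg a ℓ w σ (-b)) ∨
      (¬ Dbl2Seg a ℓ w σ b ∧ Dbl2Seg a ℓ w σ (-b))) ∧
    (¬ Tope a (flip σ ℓ) → ¬ Dbl2Seg a ℓ w σ b ∧ ¬ Dbl2Seg a ℓ w σ (-b)) := by
  constructor
  · intro h1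
    obtain ⟨y, hy⟩ := dbl2_on_of_topes h h1
    have hw : w ⬝ᵥ y ≠ 0 := fun h0 => hσ (D.spec_of_zero hy h0)
    have hb : ((b : ℤ) : ℝ) * (w ⬝ᵥ y) ≠ 0 := by
      refine mul_ne_zero ?_ hw
      rcases dbl2_unit_real b with h | h <;> rw [h] <;> norm_num
    have hbb : ((b : ℤ) : ℝ) * ((b : ℤ) : ℝ) = 1 := by
      rcases dbl2_unit_real b with h | h <;> rw [h] <;> norm_num
    rcases lt_or_gt_of_ne hb with h2 | h2
    · right
      refine ⟨?_, y, hy, by rw [dbl2_neg_real]; linarith⟩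
      rintro ⟨z, hz, hz1⟩
      have h3 := D.same_side hσ hy hz
      have h4 := mul_neg_of_neg_of_pos h2 hz1
      have h5 : ((b : ℤ) : ℝ) * (w ⬝ᵥ y) * (((b : ℤ) : ℝ) * (w ⬝ᵥ z)) =
        (w ⬝ᵥ y) * (w ⬝ᵥ z) := by
        calc _ = (((b : ℤ) : ℝ) * ((b : ℤ) : ℝ)) * ((w ⬝ᵥ y) * (w ⬝ᵥ z)) := by ring
          _ = _ := by rw [hbb, one_mul]
      rw [h5] at h4
      exact absurd h4 (not_lt.2 h3.le)
    · left
      refine ⟨⟨y, hy, h2⟩, ?_⟩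
      rintro ⟨z, hz, hz1⟩
      rw [dbl2_neg_real] at hz1
      have h3 := D.same_side hσ hy hz
      have h4 := mul_pos h2 hz1
      have h5 : ((b : ℤ) : ℝ) * (w ⬝ᵥ y) * (-((b : ℤ) : ℝ) * (w ⬝ᵥ z)) =
        -((w ⬝ᵥ y) * (w ⬝ᵥ z)) := by
        calc _ = -((((b : ℤ) : ℝ) * ((b : ℤ) : ℝ)) * ((w ⬝ᵥ y) * (w ⬝ᵥ z))) := by ring
          _ = _ := by rw [hbb, one_mul]
      rw [h5] at h4
      linarith
  · intro h1
    exact ⟨fun ⟨z, hz, _⟩ => h1 (hz.topes ha hn).2, fun ⟨z, hz, _⟩ => h1 (hz.topes ha hn).2⟩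

theorem dbl2_sq (b : ℤˣ) : ((b : ℤ) : ℝ) * ((b : ℤ) : ℝ) = 1 := by
  rcases dbl2_unit_real b with h | h <;> rw [h] <;> norm_num

theorem dbl2_ne_zero (b : ℤˣ) : ((b : ℤ) : ℝ) ≠ 0 := by
  rcases dbl2_unit_real b with h | h <;> rw [h] <;> norm_num

theorem Dbl2Seg.nb (ha : Simple a) (hn : 4 ≤ Fintype.card ι) {σ : ι → ℤˣ} {b : ℤˣ} {j : ι}
    (hj : j ≠ ℓ) (h : Dbl2Seg a ℓ w σ b) (h' : Dbl2Seg a ℓ w (flip σ j) b) :
    j ∈ nb a σ ℓ ∧ ∃ v, Dbl2Cor a ℓ j σ v ∧ 0 < ((b : ℤ) : ℝ) * (w ⬝ᵥ v) := by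
  obtain ⟨y, hy, hyb⟩ := h
  obtain ⟨z, hz, hzb⟩ := h'
  refine ⟨⟨hj, (hz.topes ha hn).1, ?_⟩, ?_⟩
  · rw [flip_comm]
    exact (hz.topes ha hn).2
  · have hA := hy.2 j hj
    have hB := hz.2 j hj
    rw [flip_same, dbl2_neg_real] at hB
    refine ⟨(-((σ j : ℤ) : ℝ) * (a j ⬝ᵥ z)) • y + (((σ j : ℤ) : ℝ) * (a j ⬝ᵥ y)) • z,
      ⟨?_, ?_, ?_⟩, ?_⟩
    · rw [dotProduct_add, dotProduct_smul, dotProduct_smul, hy.1, hz.1]
      simp
    · rw [dotProduct_add, dotProduct_smul, dotProduct_smul, smul_eq_mul, smul_eq_mul]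
      ring
    · intro k hk hkj
      rw [dotProduct_add, dotProduct_smul, dotProduct_smul, smul_eq_mul, smul_eq_mul]
      have h1 := hy.2 k hk
      have h2 := hz.2 k hk
      rw [flip_ne σ hkj] at h2
      have h3 := mul_pos hB h1
      have h4 := mul_pos hA h2
      linarith
    · rw [dotProduct_add, dotProduct_smul, dotProduct_smul, smul_eq_mul, smul_eq_mul]
      have h3 := mul_pos hB hyb
      have h4 := mul_pos hA hzb
      linarith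

theorem dbl2_seg_of_cor {σ : ι → ℤˣ} {b : ℤˣ} {j : ι} (hj : j ≠ ℓ) {y v : V3}
    (hy : Dbl2On a ℓ σ y) (hv : Dbl2Cor a ℓ j σ v) (hb : 0 < ((b : ℤ) : ℝ) * (w ⬝ᵥ v)) :
    Dbl2Seg a ℓ w (flip σ j) b := by
  obtain ⟨τ, hτ, h1⟩ := dbl2_small (ι := Option ι)
    (fun o => o.elim True fun k => k ≠ ℓ ∧ k ≠ j)
    (fun o => o.elim (((b : ℤ) : ℝ) * (w ⬝ᵥ v)) fun k => ((σ k : ℤ) : ℝ) * (a k ⬝ᵥ v))
    (fun o => o.elim (-(((b : ℤ) : ℝ) * (w ⬝ᵥ y))) fun k => -(((σ k : ℤ) : ℝ) * (a k ⬝ᵥ y)))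
    (by
      rintro (_ | k) hk
      · exact hb
      · exact hv.2.2 k hk.1 hk.2)
  refine ⟨v + (-τ) • y, ⟨?_, fun k hk => ?_⟩, ?_⟩
  · rw [dotProduct_add, dotProduct_smul, hv.1, hy.1]
    simp
  · rw [dotProduct_add, dotProduct_smul, smul_eq_mul]
    by_cases hkj : k = j
    · subst hkj
      rw [flip_same, dbl2_neg_real, hv.2.1]
      have h2 := mul_pos hτ (hy.2 k hk)
      linarith
    · rw [flip_ne σ hkj]
      have h2 : 0 < ((σ k : ℤ) : ℝ) * (a k ⬝ᵥ v) + τ * -(((σ k : ℤ) : ℝ) * (a k ⬝ᵥ y)) :=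
        h1 (some k) ⟨hk, hkj⟩
      linarith
  · rw [dotProduct_add, dotProduct_smul, smul_eq_mul]
    have h2 : 0 < ((b : ℤ) : ℝ) * (w ⬝ᵥ v) + τ * -(((b : ℤ) : ℝ) * (w ⬝ᵥ y)) := h1 none trivial
    linarith

theorem Dbl2Data.cor_ord (D : Dbl2Data a ℓ ε0 a' x0 w) (hn : 4 ≤ Fintype.card ι)
    {σ : ι → ℤˣ} (hσ : ¬ Dbl2Spec ε0 ℓ σ) {b : ℤˣ} {j : ι} (hj : j ≠ ℓ) {y v : V3}
    (hy : Dbl2On a ℓ σ y) (hb : 0 < ((b : ℤ) : ℝ) * (w ⬝ᵥ y)) (hv : Dbl2Cor a ℓ j σ v) :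
    0 < ((b : ℤ) : ℝ) * (w ⬝ᵥ v) := by
  obtain ⟨k, hk1, hk2, -⟩ := dbl2_third hn ℓ j j
  have h0 : ((b : ℤ) : ℝ) * (w ⬝ᵥ v) ≠ 0 :=
    mul_ne_zero (dbl2_ne_zero b) (D.w_ne hj (hv.ne_zero hk1 hk2) hv.1 hv.2.1)
  by_contra hcon
  have h1 : ((b : ℤ) : ℝ) * (w ⬝ᵥ v) < 0 := lt_of_le_of_ne (not_lt.1 hcon) h0
  set B := ((b : ℤ) : ℝ) * (w ⬝ᵥ v) with hB
  set A := ((b : ℤ) : ℝ) * (w ⬝ᵥ y) with hA
  set τ := -B / (2 * A) with hτ
  have hτp : 0 < τ := div_pos (neg_pos.2 h1) (by linarith)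
  have hy' : Dbl2On a ℓ σ (v + τ • y) := by
    refine ⟨?_, fun k hk => ?_⟩
    · rw [dotProduct_add, dotProduct_smul, hv.1, hy.1]
      simp
    · rw [dotProduct_add, dotProduct_smul, smul_eq_mul]
      have h2 := mul_pos hτp (hy.2 k hk)
      by_cases hkj : k = j
      · subst hkj
        rw [hv.2.1]
        linarith
      · have h3 := hv.2.2 k hk hkj
        linarith
  have h2 := D.same_side hσ hy hy'
  have h3 : ((b : ℤ) : ℝ) * (w ⬝ᵥ (v + τ • y)) = B / 2 := by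
    rw [dotProduct_add, dotProduct_smul, smul_eq_mul]
    have h4 : ((b : ℤ) : ℝ) * (w ⬝ᵥ v + τ * (w ⬝ᵥ y)) = B + τ * A := by
      rw [hB, hA]
      ring
    rw [h4, hτ]
    field_simp
    ring
  have h5 : A * (((b : ℤ) : ℝ) * (w ⬝ᵥ (v + τ • y))) = (w ⬝ᵥ y) * (w ⬝ᵥ (v + τ • y)) := by
    calc _ = (((b : ℤ) : ℝ) * ((b : ℤ) : ℝ)) * ((w ⬝ᵥ y) * (w ⬝ᵥ (v + τ • y))) := by
          rw [hA]
          ring
      _ = _ := by rw [dbl2_sq, one_mul]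
  rw [← h5, h3] at h2
  nlinarith

theorem Dbl2Data.spec_point (D : Dbl2Data a ℓ ε0 a' x0 w) {σ : ι → ℤˣ}
    (hσ : Dbl2Spec ε0 ℓ σ) : ∃ x1, Dbl2On a ℓ σ x1 ∧ w ⬝ᵥ x1 = 0 := by
  rcases hσ with h | h
  · exact ⟨x0, D.hx.congr h, D.hwx⟩
  · refine ⟨-x0, D.hx.neg.congr h, ?_⟩
    rw [dotProduct_neg, D.hwx, neg_zero]

theorem Dbl2Data.cor_opp (D : Dbl2Data a ℓ ε0 a' x0 w) (ha : Simple a)
    (hn : 4 ≤ Fintype.card ι) {σ : ι → ℤˣ} (hσ : Dbl2Spec ε0 ℓ σ) {j1 j2 : ι} (h1 : j1 ≠ ℓ)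
    (h2 : j2 ≠ ℓ) (h12 : j1 ≠ j2) {v1 v2 : V3} (hv1 : Dbl2Cor a ℓ j1 σ v1)
    (hv2 : Dbl2Cor a ℓ j2 σ v2) : (w ⬝ᵥ v1) * (w ⬝ᵥ v2) < 0 := by
  obtain ⟨x1, hx1, hw1⟩ := D.spec_point hσ
  obtain ⟨k, hk1, hk2, -⟩ := dbl2_third hn ℓ j1 j1
  have hv1z : v1 ≠ 0 := hv1.ne_zero hk1 hk2
  have hA := hx1.2 j1 h1
  have hB := hv2.2.2 j1 h1 h12
  have hBne : a j1 ⬝ᵥ v2 ≠ 0 := by
    intro h
    rw [h, mul_zero] at hB
    exact lt_irrefl _ hB
  set β := (a j1 ⬝ᵥ x1) / (a j1 ⬝ᵥ v2) with hβ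
  have hβ' : β * (a j1 ⬝ᵥ v2) = a j1 ⬝ᵥ x1 := div_mul_cancel₀ _ hBne
  have hβp : 0 < β := by
    by_contra hcon
    have h3 : β * (((σ j1 : ℤ) : ℝ) * (a j1 ⬝ᵥ v2)) ≤ 0 :=
      mul_nonpos_of_nonpos_of_nonneg (not_lt.1 hcon) hB.le
    rw [← hβ'] at hA
    linarith
  obtain ⟨c, hc⟩ := vertex_unique ha h1.symm hk2.symm hk1.symm hv1z hv1.1 hv1.2.1
    (w := x1 + (-β) • v2) (by
      rw [dotProduct_add, dotProduct_smul, hx1.1, hv2.1]
      simp) (by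
      rw [dotProduct_add, dotProduct_smul, smul_eq_mul, ← hβ']
      ring)
  have hx : x1 = c • v1 + β • v2 := by
    rw [← hc, neg_smul, neg_add_cancel_right]
  have hcp : 0 < c := by
    by_contra hcon
    have h3 := hx1.2 j2 h2
    have h4 := hv1.2.2 j2 h2 h12.symm
    rw [hx, dotProduct_add, dotProduct_smul, dotProduct_smul, hv2.2.1, smul_eq_mul, smul_zero,
      add_zero] at h3
    have h5 : c * (((σ j2 : ℤ) : ℝ) * (a j2 ⬝ᵥ v1)) ≤ 0 :=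
      mul_nonpos_of_nonpos_of_nonneg (not_lt.1 hcon) h4.le
    linarith
  rw [hx, dotProduct_add, dotProduct_smul, dotProduct_smul, smul_eq_mul, smul_eq_mul] at hw1
  have hw1z := D.w_ne h1 hv1z hv1.1 hv1.2.1
  have h3 : 0 < (w ⬝ᵥ v1) * (w ⬝ᵥ v1) := mul_self_pos.2 hw1z
  have h4 : β * ((w ⬝ᵥ v1) * (w ⬝ᵥ v2)) = -(c * ((w ⬝ᵥ v1) * (w ⬝ᵥ v1))) := by
    have h5 : β * (w ⬝ᵥ v2) = -(c * (w ⬝ᵥ v1)) := by linarith
    calc β * ((w ⬝ᵥ v1) * (w ⬝ᵥ v2)) = (w ⬝ᵥ v1) * (β * (w ⬝ᵥ v2)) := by ring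
      _ = _ := by rw [h5]; ring
  have h5 : β * ((w ⬝ᵥ v1) * (w ⬝ᵥ v2)) < 0 := by
    rw [h4]
    exact neg_neg_of_pos (mul_pos hcp h3)
  by_contra hcon
  exact absurd h5 (not_lt.2 (mul_nonneg hβp.le (not_lt.1 hcon)))

/-- the edges of a face between `ℓ` and the new line, off these two lines -/
def Dbl2M (a : ι → V3) (ℓ : ι) (w : V3) (σ : ι → ℤˣ) (b : ℤˣ) : Set ι :=
  {j | j ≠ ℓ ∧ Dbl2Seg a ℓ w (flip σ j) b}

theorem Dbl2Data.M_ord (D : Dbl2Data a ℓ ε0 a' x0 w) (ha : Simple a)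
    (hn : 4 ≤ Fintype.card ι) {σ : ι → ℤˣ} (hσ : ¬ Dbl2Spec ε0 ℓ σ) {b : ℤˣ}
    (h : Dbl2Seg a ℓ w σ b) : (Dbl2M a ℓ w σ b).ncard = 2 := by
  obtain ⟨y, hy, hyb⟩ := id h
  have ht := hy.topes ha hn
  rw [← nb_ncard ha (by omega) ht.1 ht.2]
  congr 1
  ext j
  constructor
  · rintro ⟨hj, h1⟩
    exact (h.nb ha hn hj h1).1
  · intro hj
    obtain ⟨v, hv1, hv2, hv3⟩ := corner_point hj.1.symm ht.1 ht.2 hj.2.1 hj.2.2
    exact ⟨hj.1, dbl2_seg_of_cor hj.1 hy ⟨hv1, hv2, hv3⟩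
      (D.cor_ord hn hσ hj.1 hy hyb ⟨hv1, hv2, hv3⟩)⟩

theorem Dbl2Data.M_spec (D : Dbl2Data a ℓ ε0 a' x0 w) (ha : Simple a)
    (hn : 4 ≤ Fintype.card ι) {σ : ι → ℤˣ} (hσ : Dbl2Spec ε0 ℓ σ) {b : ℤˣ} :
    (Dbl2M a ℓ w σ b).ncard = 1 := by
  have h := D.seg_spec hn hσ b
  obtain ⟨y, hy, hyb⟩ := id h
  have ht := hy.topes ha hn
  obtain ⟨j1, j2, h12, hnb⟩ := Set.ncard_eq_two.1 (nb_ncard ha (by omega) ht.1 ht.2)
  have hj1 : j1 ∈ nb a σ ℓ := by rw [hnb]; exact Or.inl rfl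
  have hj2 : j2 ∈ nb a σ ℓ := by rw [hnb]; exact Or.inr rfl
  obtain ⟨v1, p1, p2, p3⟩ := corner_point hj1.1.symm ht.1 ht.2 hj1.2.1 hj1.2.2
  obtain ⟨v2, q1, q2, q3⟩ := corner_point hj2.1.symm ht.1 ht.2 hj2.2.1 hj2.2.2
  have hopp := D.cor_opp ha hn hσ hj1.1 hj2.1 h12 ⟨p1, p2, p3⟩ ⟨q1, q2, q3⟩
  -- the corner on the wrong side gives no neighbour
  have wrong : ∀ (j : ι) (v : V3), j ≠ ℓ → Dbl2Cor a ℓ j σ v →
      ((b : ℤ) : ℝ) * (w ⬝ᵥ v) < 0 → ¬ Dbl2Seg a ℓ w (flip σ j) b := by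
    intro j v hj hv hneg h1
    obtain ⟨-, u, hu, hub⟩ := h.nb ha hn hj h1
    obtain ⟨k, hk1, hk2, -⟩ := dbl2_third hn ℓ j j
    obtain ⟨c, rfl⟩ := vertex_unique ha hj.symm hk2.symm hk1.symm (hv.ne_zero hk1 hk2) hv.1
      hv.2.1 hu.1 hu.2.1
    have h2 := hv.2.2 k hk1 hk2
    have h3 := hu.2.2 k hk1 hk2
    rw [dotProduct_smul, smul_eq_mul] at h3 hub
    have h4 : 0 < c * (((σ k : ℤ) : ℝ) * (a k ⬝ᵥ v)) := by linarith
    have h5 : 0 < c * (((b : ℤ) : ℝ) * (w ⬝ᵥ v)) := by linarith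
    have hc := pos_of_mul_pos_left h4 h2.le
    exact absurd (mul_neg_of_pos_of_neg hc hneg) (not_lt.2 h5.le)
  have hM : ∀ j, j ∈ Dbl2M a ℓ w σ b → j = j1 ∨ j = j2 := by
    rintro j ⟨hj, h1⟩
    have h2 := (h.nb ha hn hj h1).1
    rw [hnb] at h2
    exact h2
  have hprod : (((b : ℤ) : ℝ) * (w ⬝ᵥ v1)) * (((b : ℤ) : ℝ) * (w ⬝ᵥ v2)) < 0 := by
    have : (((b : ℤ) : ℝ) * (w ⬝ᵥ v1)) * (((b : ℤ) : ℝ) * (w ⬝ᵥ v2)) =
        (((b : ℤ) : ℝ) * ((b : ℤ) : ℝ)) * ((w ⬝ᵥ v1) * (w ⬝ᵥ v2)) := by ring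
    rw [this, dbl2_sq, one_mul]
    exact hopp
  rcases mul_neg_iff.1 hprod with ⟨r1, r2⟩ | ⟨r1, r2⟩
  · have : Dbl2M a ℓ w σ b = {j1} := by
      ext j
      rw [Set.mem_singleton_iff]
      constructor
      · intro hj
        rcases hM j hj with h | h
        · exact h
        · rw [h] at hj
          exact absurd hj.2 (wrong j2 v2 hj2.1 ⟨q1, q2, q3⟩ r2)
      · rintro rfl
        exact ⟨hj1.1, dbl2_seg_of_cor hj1.1 hy ⟨p1, p2, p3⟩ r1⟩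
    rw [this, Set.ncard_singleton]
  · have : Dbl2M a ℓ w σ b = {j2} := by
      ext j
      rw [Set.mem_singleton_iff]
      constructor
      · intro hj
        rcases hM j hj with h | h
        · rw [h] at hj
          exact absurd hj.2 (wrong j1 v1 hj1.1 ⟨p1, p2, p3⟩ r1)
        · exact h
      · rintro rfl
        exact ⟨hj2.1, dbl2_seg_of_cor hj2.1 hy ⟨q1, q2, q3⟩ r2⟩
    rw [this, Set.ncard_singleton]

theorem dbl2_flip_none (η : Option ι → ℤˣ) (j : ι) : flip η (some j) none = η none :=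
  flip_ne η (by simp)

theorem dbl2_flip_some (η : Option ι → ℤˣ) (j : ι) :
    (fun i => flip η (some j) (some i)) = flip (fun i => η (some i)) j := by
  funext i
  by_cases h : i = j
  · subst h
    rw [flip_same, flip_same]
  · rw [flip_ne _ h, flip_ne _ (by simpa using h)]

theorem dbl2_none_some (η : Option ι → ℤˣ) :
    (fun i => flip η none (some i)) = fun i => η (some i) := by
  funext i
  exact flip_ne η (by simp)

theorem Dbl2Data.sz_second (D : Dbl2Data a ℓ ε0 a' x0 w) (ha : Simple a)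
    (hn : 4 ≤ Fintype.card ι) {η : Option ι → ℤˣ} (h : η none = -η (some ℓ))
    (hs : Dbl2Seg a ℓ w (fun i => η (some i)) (η none)) :
    sz a' η = 2 + (Dbl2M a ℓ w (fun i => η (some i)) (η none)).ncard := by
  obtain ⟨y, hy, hyb⟩ := id hs
  have ht := hy.topes ha hn
  have key : edgeSet a' η =
      insert none (insert (some ℓ) (some '' (Dbl2M a ℓ w (fun i => η (some i)) (η none)))) := by
    ext o
    rcases o with _ | j
    · constructor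
      · intro _
        exact Set.mem_insert _ _
      · intro _
        show Tope a' (flip η none)
        rw [D.first (by rw [flip_same, flip_ne η (by simp), h, neg_neg]), dbl2_none_some]
        exact ht.1
    · by_cases hj : j = ℓ
      · subst hj
        constructor
        · intro _
          exact Set.mem_insert_of_mem _ (Set.mem_insert _ _)
        · intro _
          show Tope a' (flip η (some j))
          rw [D.first (by rw [flip_same, dbl2_flip_none, h]), dbl2_flip_some]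
          exact ht.2
      · have h1 : Tope a' (flip η (some j)) ↔
            Dbl2Seg a ℓ w (flip (fun i => η (some i)) j) (η none) := by
          rw [D.second (by rw [dbl2_flip_none, flip_ne η (by simpa using Ne.symm hj), h]),
            dbl2_flip_some, dbl2_flip_none]
        constructor
        · intro h2
          exact Set.mem_insert_of_mem _ (Set.mem_insert_of_mem _ ⟨j, ⟨hj, h1.1 h2⟩, rfl⟩)
        · intro h2
          rcases h2 with h2 | h2 | ⟨j', h2, h3⟩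
          · exact absurd h2 (by simp)
          · exact absurd (Option.some.inj h2) hj
          · obtain rfl := Option.some.inj h3
            exact h1.2 h2.2
  unfold sz
  rw [key, Set.ncard_insert_of_notMem, Set.ncard_insert_of_notMem,
    Set.ncard_image_of_injective _ (Option.some_injective _)]
  · ring
  · rintro ⟨j, h1, h2⟩
    exact h1.1 (Option.some.inj h2)
  · rintro (h1 | ⟨j, -, h1⟩)
    · exact absurd h1 (by simp)
    · exact absurd h1 (by simp)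

theorem dbl2_ext_flip (ε : ι → ℤˣ) {j : ι} (hj : j ≠ ℓ) :
    flip (ext ℓ ε) (some j) = ext ℓ (flip ε j) := by
  funext o
  rcases o with _ | i
  · rw [dbl2_flip_none]
    exact (flip_ne ε (Ne.symm hj)).symm
  · exact congrFun (dbl2_flip_some (ext ℓ ε) j) i

/-- flip of an old face at the old line `ℓ` -/
theorem Dbl2Data.ext_old (D : Dbl2Data a ℓ ε0 a' x0 w) (ε : ι → ℤˣ) :
    Tope a' (flip (ext ℓ ε) (some ℓ)) ↔ Dbl2Seg a ℓ w ε (ε ℓ) := by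
  rw [D.second (by rw [flip_same, dbl2_flip_none, neg_neg]; rfl), dbl2_flip_some, dbl2_flip_none]
  exact dbl2Seg_congr fun k hk => flip_ne ε hk

/-- flip of an old face at the new line -/
theorem Dbl2Data.ext_new (D : Dbl2Data a ℓ ε0 a' x0 w) (ε : ι → ℤˣ) :
    Tope a' (flip (ext ℓ ε) none) ↔ Dbl2Seg a ℓ w ε (-ε ℓ) := by
  rw [D.second (by rw [flip_same, flip_ne _ (by simp)]; rfl), dbl2_none_some, flip_same]
  rfl

theorem Dbl2Data.mem_some (D : Dbl2Data a ℓ ε0 a' x0 w) (ε : ι → ℤˣ) {j : ι} (hj : j ≠ ℓ) :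
    some j ∈ edgeSet a' (ext ℓ ε) ↔ j ∈ edgeSet a ε := by
  show Tope a' (flip (ext ℓ ε) (some j)) ↔ Tope a (flip ε j)
  rw [dbl2_ext_flip ε hj, D.ext_iff]

theorem Dbl2Data.sz_spec (D : Dbl2Data a ℓ ε0 a' x0 w) (ha : Simple a)
    (hn : 4 ≤ Fintype.card ι) {ε : ι → ℤˣ} (hσ : Dbl2Spec ε0 ℓ ε) :
    sz a' (ext ℓ ε) = sz a ε + 1 := by
  have key : edgeSet a' (ext ℓ ε) = insert none (some '' edgeSet a ε) := by
    ext o
    rcases o with _ | j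
    · exact ⟨fun _ => Set.mem_insert _ _, fun _ => (D.ext_new ε).2 (D.seg_spec hn hσ _)⟩
    · have h1 : some j ∈ edgeSet a' (ext ℓ ε) ↔ j ∈ edgeSet a ε := by
        by_cases hj : j = ℓ
        · subst hj
          refine ⟨fun _ => ?_, fun _ => (D.ext_old ε).2 (D.seg_spec hn hσ _)⟩
          obtain ⟨y, hy, -⟩ := D.seg_spec hn hσ 1
          exact (hy.topes ha hn).2
        · exact D.mem_some ε hj
      rw [h1]
      constructor
      · intro h2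
        exact Set.mem_insert_of_mem _ ⟨j, h2, rfl⟩
      · rintro (h2 | ⟨j', h2, h3⟩)
        · exact absurd h2 (by simp)
        · obtain rfl := Option.some.inj h3
          exact h2
  unfold sz
  rw [key, Set.ncard_insert_of_notMem, Set.ncard_image_of_injective _ (Option.some_injective _)]
  rintro ⟨j, -, h1⟩
  exact absurd h1 (by simp)

theorem Dbl2Data.sz_ord (D : Dbl2Data a ℓ ε0 a' x0 w) (ha : Simple a)
    (hn : 4 ≤ Fintype.card ι) {ε : ι → ℤˣ} (hσ : ¬ Dbl2Spec ε0 ℓ ε) (hε : Tope a ε) :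
    sz a' (ext ℓ ε) = sz a ε := by
  obtain ⟨h1, h2⟩ := D.seg_ord ha hn hσ hε (ε ℓ)
  -- the new line is not an edge and the old one is unchanged
  have case1 : ¬ Dbl2Seg a ℓ w ε (-ε ℓ) →
      (Dbl2Seg a ℓ w ε (ε ℓ) ↔ Tope a (flip ε ℓ)) → sz a' (ext ℓ ε) = sz a ε := by
    intro h3 h4
    have key : edgeSet a' (ext ℓ ε) = some '' edgeSet a ε := by
      ext o
      rcases o with _ | j
      · constructor
        · intro h5
          exact absurd ((D.ext_new ε).1 h5) h3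
        · rintro ⟨j, -, h5⟩
          exact absurd h5 (by simp)
      · have h5 : some j ∈ edgeSet a' (ext ℓ ε) ↔ j ∈ edgeSet a ε := by
          by_cases hj : j = ℓ
          · subst hj
            exact (D.ext_old ε).trans h4
          · exact D.mem_some ε hj
        rw [h5]
        constructor
        · intro h6
          exact ⟨j, h6, rfl⟩
        · rintro ⟨j', h6, h7⟩
          obtain rfl := Option.some.inj h7
          exact h6
    unfold sz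
    rw [key, Set.ncard_image_of_injective _ (Option.some_injective _)]
  by_cases hT : Tope a (flip ε ℓ)
  · rcases h1 hT with ⟨h3, h4⟩ | ⟨h3, h4⟩
    · exact case1 h4 ⟨fun _ => hT, fun _ => h3⟩
    · have key : edgeSet a' (ext ℓ ε) = insert none (some '' (edgeSet a ε \ {ℓ})) := by
        ext o
        rcases o with _ | j
        · exact ⟨fun _ => Set.mem_insert _ _, fun _ => (D.ext_new ε).2 h4⟩
        · have h5 : some j ∈ edgeSet a' (ext ℓ ε) ↔ j ∈ edgeSet a ε \ {ℓ} := by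
            by_cases hj : j = ℓ
            · subst hj
              constructor
              · intro h6
                exact absurd ((D.ext_old ε).1 h6) h3
              · intro h6
                exact absurd rfl h6.2
            · rw [D.mem_some ε hj]
              exact ⟨fun h6 => ⟨h6, hj⟩, fun h6 => h6.1⟩
          rw [h5]
          constructor
          · intro h6
            exact Set.mem_insert_of_mem _ ⟨j, h6, rfl⟩
          · rintro (h6 | ⟨j', h6, h7⟩)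
            · exact absurd h6 (by simp)
            · obtain rfl := Option.some.inj h7
              exact h6
      unfold sz
      rw [key, Set.ncard_insert_of_notMem,
        Set.ncard_image_of_injective _ (Option.some_injective _),
        Set.ncard_diff_singleton_add_one (show ℓ ∈ edgeSet a ε from hT)]
      rintro ⟨j, -, h6⟩
      exact absurd h6 (by simp)
  · obtain ⟨h3, h4⟩ := h2 hT
    exact case1 h4 ⟨fun h => absurd h h3, fun h => absurd h hT⟩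

theorem dbl2_spec_iff (σ : ι → ℤˣ) : Dbl2Spec ε0 ℓ σ ↔
    σ = ε0 ∨ σ = -ε0 ∨ σ = flip ε0 ℓ ∨ σ = -(flip ε0 ℓ) := by
  constructor
  · rintro (h | h)
    · rcases dbl2_eq_or_neg (σ ℓ) (ε0 ℓ) with h1 | h1
      · left
        funext k
        by_cases hk : k = ℓ
        · rw [hk, h1]
        · exact h k hk
      · right; right; left
        funext k
        by_cases hk : k = ℓ
        · rw [hk, h1, flip_same]
        · rw [h k hk, flip_ne _ hk]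
    · rcases dbl2_eq_or_neg (σ ℓ) (ε0 ℓ) with h1 | h1
      · right; right; right
        funext k
        rw [Pi.neg_apply]
        by_cases hk : k = ℓ
        · rw [hk, h1, flip_same, neg_neg]
        · rw [h k hk, flip_ne _ hk]
      · right; left
        funext k
        rw [Pi.neg_apply]
        by_cases hk : k = ℓ
        · rw [hk, h1]
        · exact h k hk
  · rintro (rfl | rfl | rfl | rfl)
    · exact Or.inl fun k _ => rfl
    · exact Or.inr fun k _ => rfl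
    · exact Or.inl fun k hk => flip_ne _ hk
    · exact Or.inr fun k hk => by rw [Pi.neg_apply, flip_ne _ hk]

/-- the number of special sign vectors of size `m` -/
theorem dbl2_spec_card (hn : 4 ≤ Fintype.card ι) (P : ℕ → Prop) [DecidablePred P] :
    {ε | Dbl2Spec ε0 ℓ ε ∧ P (sz a ε)}.ncard =
      (if P (sz a ε0) then 2 else 0) + (if P (sz a (flip ε0 ℓ)) then 2 else 0) := by
  obtain ⟨k, hk, -, -⟩ := dbl2_third hn ℓ ℓ ℓ
  have pair : ∀ ε1 : ι → ℤˣ, {ε | (ε = ε1 ∨ ε = -ε1) ∧ P (sz a ε)}.ncard =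
      if P (sz a ε1) then 2 else 0 := by
    intro ε1
    by_cases h : P (sz a ε1)
    · rw [if_pos h]
      have h1 : {ε | (ε = ε1 ∨ ε = -ε1) ∧ P (sz a ε)} = {ε1, -ε1} := by
        ext ε
        constructor
        · rintro ⟨h2, -⟩
          exact h2
        · rintro (rfl | h2)
          · exact ⟨Or.inl rfl, h⟩
          · obtain rfl := h2
            exact ⟨Or.inr rfl, by rw [sz_neg]; exact h⟩
      rw [h1, Set.ncard_pair]
      intro h2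
      exact dbl2_ne_neg (ε1 k) (congrFun h2 k)
    · rw [if_neg h]
      have h1 : {ε | (ε = ε1 ∨ ε = -ε1) ∧ P (sz a ε)} = ∅ := by
        ext ε
        constructor
        · rintro ⟨rfl | rfl, h2⟩
          · exact h h2
          · rw [sz_neg] at h2
            exact h h2
        · exact fun h2 => h2.elim
      rw [h1, Set.ncard_empty]
  rw [← pair ε0, ← pair (flip ε0 ℓ), ← Set.ncard_union_eq]
  · congr 1
    ext ε
    rw [Set.mem_union]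
    show (Dbl2Spec ε0 ℓ ε ∧ P (sz a ε)) ↔ ((ε = ε0 ∨ ε = -ε0) ∧ P (sz a ε)) ∨
      ((ε = flip ε0 ℓ ∨ ε = -(flip ε0 ℓ)) ∧ P (sz a ε))
    rw [dbl2_spec_iff]
    tauto
  · rw [Set.disjoint_left]
    rintro ε ⟨h1, -⟩ ⟨h2, -⟩
    -- compare at `k` and at `ℓ`
    have e1 : ε ℓ = ε0 ℓ * (ε k * ε0 k) := by
      rcases h1 with rfl | rfl
      · rw [Int.units_mul_self, mul_one]
      · rw [Pi.neg_apply, Pi.neg_apply, neg_mul, Int.units_mul_self, mul_neg, mul_one]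
    have e2 : ε ℓ = -(ε0 ℓ * (ε k * ε0 k)) := by
      rcases h2 with rfl | rfl
      · rw [flip_same, flip_ne _ hk, Int.units_mul_self, mul_one]
      · rw [Pi.neg_apply, Pi.neg_apply, flip_same, flip_ne _ hk, neg_mul, Int.units_mul_self,
          mul_neg, mul_one]
    exact dbl2_ne_neg _ (e1.symm.trans e2)

theorem Dbl2Data.cnt_eq (D : Dbl2Data a ℓ ε0 a' x0 w) (k : ℕ) :
    cnt a' k = {ε : ι → ℤˣ | Tope a ε ∧ sz a' (ext ℓ ε) = k}.ncard +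
      {η : Option ι → ℤˣ | (η none = -η (some ℓ) ∧
        Dbl2Seg a ℓ w (fun i => η (some i)) (η none)) ∧ sz a' η = k}.ncard := by
  have hinj : Function.Injective (ext ℓ : (ι → ℤˣ) → Option ι → ℤˣ) := by
    intro ε ε' h
    funext i
    exact congrFun h (some i)
  rw [← Set.ncard_image_of_injective _ hinj, ← Set.ncard_union_eq]
  · unfold cnt
    congr 1
    ext η
    constructor
    · rintro ⟨h1, h2⟩
      rcases (D.hT η).1 h1 with ⟨h3, h4⟩ | h3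
      · left
        have h5 : ext ℓ (fun i => η (some i)) = η := by
          funext o
          rcases o with _ | i
          · exact h4.symm
          · rfl
        refine ⟨fun i => η (some i), ⟨h3, ?_⟩, h5⟩
        rw [h5]
        exact h2
      · exact Or.inr ⟨h3, h2⟩
    · rintro (⟨ε, ⟨h1, h2⟩, rfl⟩ | ⟨h1, h2⟩)
      · exact ⟨(D.ext_iff ε).2 h1, h2⟩
      · exact ⟨(D.hT η).2 (Or.inr h1), h2⟩
  · rw [Set.disjoint_left]
    rintro η ⟨ε, -, rfl⟩ ⟨⟨h1, -⟩, -⟩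
    exact dbl2_ne_neg _ h1

theorem Dbl2Data.tope_of_spec (D : Dbl2Data a ℓ ε0 a' x0 w) (ha : Simple a)
    (hn : 4 ≤ Fintype.card ι) {σ : ι → ℤˣ} (hσ : Dbl2Spec ε0 ℓ σ) : Tope a σ := by
  obtain ⟨y, hy, -⟩ := D.seg_spec hn hσ 1
  exact (hy.topes ha hn).1

theorem Dbl2Data.cnt_first (D : Dbl2Data a ℓ ε0 a' x0 w) (ha : Simple a)
    (hn : 4 ≤ Fintype.card ι) (k : ℕ) :
    {ε : ι → ℤˣ | Tope a ε ∧ sz a' (ext ℓ ε) = k}.ncard +
      ((if sz a ε0 = k then 2 else 0) + (if sz a (flip ε0 ℓ) = k then 2 else 0)) =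
    cnt a k + ((if sz a ε0 + 1 = k then 2 else 0) + (if sz a (flip ε0 ℓ) + 1 = k then 2 else 0)) := by
  have e1 := dbl2_spec_card (a := a) (ℓ := ℓ) (ε0 := ε0) hn fun m => m = k
  have e2 := dbl2_spec_card (a := a) (ℓ := ℓ) (ε0 := ε0) hn fun m => m + 1 = k
  rw [← e1, ← e2]
  have e3 : {ε : ι → ℤˣ | Tope a ε ∧ sz a' (ext ℓ ε) = k} =
      {ε | (Tope a ε ∧ ¬ Dbl2Spec ε0 ℓ ε) ∧ sz a ε = k} ∪
        {ε | Dbl2Spec ε0 ℓ ε ∧ sz a ε + 1 = k} := by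
    ext ε
    constructor
    · rintro ⟨h1, h2⟩
      by_cases h : Dbl2Spec ε0 ℓ ε
      · right
        rw [D.sz_spec ha hn h] at h2
        exact ⟨h, h2⟩
      · left
        rw [D.sz_ord ha hn h h1] at h2
        exact ⟨⟨h1, h⟩, h2⟩
    · rintro (⟨⟨h1, h⟩, h2⟩ | ⟨h, h2⟩)
      · exact ⟨h1, by rw [D.sz_ord ha hn h h1]; exact h2⟩
      · exact ⟨D.tope_of_spec ha hn h, by rw [D.sz_spec ha hn h]; exact h2⟩
  have e4 : {ε : ι → ℤˣ | Tope a ε ∧ sz a ε = k} =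
      {ε | (Tope a ε ∧ ¬ Dbl2Spec ε0 ℓ ε) ∧ sz a ε = k} ∪
        {ε | Dbl2Spec ε0 ℓ ε ∧ sz a ε = k} := by
    ext ε
    constructor
    · rintro ⟨h1, h2⟩
      by_cases h : Dbl2Spec ε0 ℓ ε
      · exact Or.inr ⟨h, h2⟩
      · exact Or.inl ⟨⟨h1, h⟩, h2⟩
    · rintro (⟨⟨h1, h⟩, h2⟩ | ⟨h, h2⟩)
      · exact ⟨h1, h2⟩
      · exact ⟨D.tope_of_spec ha hn h, h2⟩
  have d1 : Disjoint {ε : ι → ℤˣ | (Tope a ε ∧ ¬ Dbl2Spec ε0 ℓ ε) ∧ sz a ε = k}
      {ε | Dbl2Spec ε0 ℓ ε ∧ sz a ε + 1 = k} := by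
    rw [Set.disjoint_left]
    rintro ε ⟨⟨-, h1⟩, -⟩ ⟨h2, -⟩
    exact h1 h2
  have d2 : Disjoint {ε : ι → ℤˣ | (Tope a ε ∧ ¬ Dbl2Spec ε0 ℓ ε) ∧ sz a ε = k}
      {ε | Dbl2Spec ε0 ℓ ε ∧ sz a ε = k} := by
    rw [Set.disjoint_left]
    rintro ε ⟨⟨-, h1⟩, -⟩ ⟨h2, -⟩
    exact h1 h2
  unfold cnt
  rw [e3, e4, Set.ncard_union_eq d1, Set.ncard_union_eq d2]
  ring

theorem Dbl2Data.second_sz (D : Dbl2Data a ℓ ε0 a' x0 w) (ha : Simple a)
    (hn : 4 ≤ Fintype.card ι) {η : Option ι → ℤˣ} (h : η none = -η (some ℓ))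
    (hs : Dbl2Seg a ℓ w (fun i => η (some i)) (η none)) :
    (Dbl2Spec ε0 ℓ (fun i => η (some i)) → sz a' η = 3) ∧
      (¬ Dbl2Spec ε0 ℓ (fun i => η (some i)) → sz a' η = 4) := by
  constructor
  · intro h1
    rw [D.sz_second ha hn h hs, D.M_spec ha hn h1]
  · intro h1
    rw [D.sz_second ha hn h hs, D.M_ord ha hn h1 hs]

theorem Dbl2Data.second_three (D : Dbl2Data a ℓ ε0 a' x0 w) (ha : Simple a)
    (hn : 4 ≤ Fintype.card ι) :
    {η : Option ι → ℤˣ | (η none = -η (some ℓ) ∧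
        Dbl2Seg a ℓ w (fun i => η (some i)) (η none)) ∧ sz a' η = 3}.ncard = 4 := by
  let f : ℤˣ × ℤˣ → Option ι → ℤˣ := fun p o => o.elim p.2 fun k => if k = ℓ then -p.2 else
    p.1 * ε0 k
  have hf1 : ∀ p, f p none = p.2 := fun p => rfl
  have hf2 : ∀ p, f p (some ℓ) = -p.2 := fun p => if_pos rfl
  have hf3 : ∀ p k, k ≠ ℓ → f p (some k) = p.1 * ε0 k := fun p k hk => if_neg hk
  obtain ⟨k, hk, -, -⟩ := dbl2_third hn ℓ ℓ ℓ
  have hinj : Function.Injective f := by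
    intro p q h
    have h1 := congrFun h none
    have h2 := congrFun h (some k)
    rw [hf1, hf1] at h1
    rw [hf3 p k hk, hf3 q k hk] at h2
    exact Prod.ext (mul_right_cancel h2) h1
  have key : {η : Option ι → ℤˣ | (η none = -η (some ℓ) ∧
        Dbl2Seg a ℓ w (fun i => η (some i)) (η none)) ∧ sz a' η = 3} = f '' Set.univ := by
    ext η
    constructor
    · rintro ⟨⟨h1, h2⟩, h3⟩
      have h4 : Dbl2Spec ε0 ℓ (fun i => η (some i)) := by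
        by_contra hcon
        rw [(D.second_sz ha hn h1 h2).2 hcon] at h3
        omega
      rcases h4 with h5 | h5
      · refine ⟨(1, η none), trivial, ?_⟩
        funext o
        rcases o with _ | j
        · rfl
        · by_cases hj : j = ℓ
          · rw [hj, hf2, h1, neg_neg]
          · rw [hf3 _ j hj, one_mul]
            exact (h5 j hj).symm
      · refine ⟨(-1, η none), trivial, ?_⟩
        funext o
        rcases o with _ | j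
        · rfl
        · by_cases hj : j = ℓ
          · rw [hj, hf2, h1, neg_neg]
          · rw [hf3 _ j hj, neg_one_mul]
            exact (h5 j hj).symm
    · rintro ⟨p, -, rfl⟩
      have h1 : f p none = -f p (some ℓ) := by rw [hf1, hf2, neg_neg]
      have h4 : Dbl2Spec ε0 ℓ (fun i => f p (some i)) := by
        rcases Int.units_eq_one_or p.1 with h5 | h5
        · left
          intro j hj
          show f p (some j) = ε0 j
          rw [hf3 p j hj, h5, one_mul]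
        · right
          intro j hj
          show f p (some j) = -ε0 j
          rw [hf3 p j hj, h5, neg_one_mul]
      have h2 := D.seg_spec hn h4 (f p none)
      exact ⟨⟨h1, h2⟩, (D.second_sz ha hn h1 h2).1 h4⟩
  rw [key, Set.ncard_image_of_injective _ hinj, Set.ncard_univ, Nat.card_eq_fintype_card,
    Fintype.card_prod, Fintype.card_units_int]

/-- the face counts after adding a line (index `none`) with the properties of `dbl_exists` -/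
theorem dbl_core {a : ι → V3} (ha : Simple a) (hn : 4 ≤ Fintype.card ι) (ℓ : ι) {ε0 : ι → ℤˣ}
    (h0 : Tope a ε0) (h1 : Tope a (flip ε0 ℓ)) (a' : Option ι → V3) (ha' : Simple a')
    (hs : ∀ i, a' (some i) = a i) (x0 w : V3) (hx : a ℓ ⬝ᵥ x0 = 0) (hw : w ⬝ᵥ x0 = 0)
    (hx0 : ∀ k, k ≠ ℓ → 0 < ((ε0 k : ℤ) : ℝ) * (a k ⬝ᵥ x0))
    (hz : ∀ y : V3, a ℓ ⬝ᵥ y = 0 → w ⬝ᵥ y = 0 → ∃ c : ℝ, y = c • x0)
    (hiff : ∀ η : Option ι → ℤˣ, Tope a' η ↔
        (Tope a (fun i => η (some i)) ∧ η none = η (some ℓ)) ∨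
        (η none = - η (some ℓ) ∧ ∃ y : V3, a ℓ ⬝ᵥ y = 0 ∧
          (∀ k, k ≠ ℓ → 0 < ((η (some k) : ℤ) : ℝ) * (a k ⬝ᵥ y)) ∧
          0 < ((η none : ℤ) : ℝ) * (w ⬝ᵥ y))) :
      (∀ ε, Tope a' (ext ℓ ε) ↔ Tope a ε) ∧
      (∀ ε, Tope a ε → ε ≠ ε0 → ε ≠ -ε0 → ε ≠ flip ε0 ℓ → ε ≠ -(flip ε0 ℓ) →
        sz a' (ext ℓ ε) = sz a ε) ∧
      sz a' (ext ℓ ε0) = sz a ε0 + 1 ∧
      sz a' (ext ℓ (flip ε0 ℓ)) = sz a (flip ε0 ℓ) + 1 ∧
      Tope a' (flip (ext ℓ ε0) (some ℓ)) ∧ sz a' (flip (ext ℓ ε0) (some ℓ)) = 3 ∧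
      Tope a' (flip (ext ℓ ε0) none) ∧ sz a' (flip (ext ℓ ε0) none) = 3 ∧
      (cnt a' 3 + (if sz a ε0 = 3 then 2 else 0) + (if sz a (flip ε0 ℓ) = 3 then 2 else 0)
        = cnt a 3 + 4) ∧
      (∀ k, 5 ≤ k → cnt a' k + (if sz a ε0 = k then 2 else 0) + (if sz a (flip ε0 ℓ) = k then 2 else 0)
        = cnt a k + (if sz a ε0 + 1 = k then 2 else 0) + (if sz a (flip ε0 ℓ) + 1 = k then 2 else 0)) := by
  have D : Dbl2Data a ℓ ε0 a' x0 w := by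
    refine ⟨⟨hx, hx0⟩, hw, hz, fun η => ?_⟩
    rw [hiff η]
    unfold Dbl2Seg Dbl2On
    simp only [and_assoc]
  have hs0 : Dbl2Spec ε0 ℓ ε0 := Or.inl fun _ _ => rfl
  have hs1 : Dbl2Spec ε0 ℓ (flip ε0 ℓ) := Or.inl fun k hk => flip_ne _ hk
  have g1 : Tope a' (flip (ext ℓ ε0) (some ℓ)) := (D.ext_old ε0).2 (D.seg_spec hn hs0 _)
  have g2 : Tope a' (flip (ext ℓ ε0) none) := (D.ext_new ε0).2 (D.seg_spec hn hs0 _)
  have g3 : flip (ext ℓ ε0) (some ℓ) none = -flip (ext ℓ ε0) (some ℓ) (some ℓ) := by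
    rw [flip_same, dbl2_flip_none, neg_neg]
    rfl
  have g4 : flip (ext ℓ ε0) none none = -flip (ext ℓ ε0) none (some ℓ) := by
    rw [flip_same, flip_ne _ (by simp)]
    rfl
  have t1 : 3 ≤ sz a ε0 ∧ 3 ≤ sz a (flip ε0 ℓ) := by
    have key : ∀ ε : ι → ℤˣ, Tope a ε → Tope a (flip ε ℓ) → 3 ≤ sz a ε := by
      intro ε h2 h3
      have h4 : insert ℓ (nb a ε ℓ) ⊆ edgeSet a ε := by
        rintro j (rfl | hj)
        · exact h3
        · exact hj.2.1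
      have h5 := Set.ncard_le_ncard h4
      rw [Set.ncard_insert_of_notMem (fun h => h.1 rfl), nb_ncard ha (by omega) h2 h3] at h5
      exact h5
    exact ⟨key ε0 h0 h1, key _ h1 (by rw [flip_flip]; exact h0)⟩
  refine ⟨D.ext_iff, ?_, D.sz_spec ha hn hs0, D.sz_spec ha hn hs1, g1, ?_, g2, ?_, ?_, ?_⟩
  · intro ε h2 h3 h4 h5 h6
    refine D.sz_ord ha hn ?_ h2
    rw [dbl2_spec_iff]
    rintro (h | h | h | h)
    exacts [h3 h, h4 h, h5 h, h6 h]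
  · refine (D.second_sz ha hn g3 ((D.second g3).1 g1)).1 ?_
    rw [dbl2_flip_some]
    exact hs1
  · refine (D.second_sz ha hn g4 ((D.second g4).1 g2)).1 ?_
    rw [dbl2_none_some]
    exact hs0
  · have e1 := D.cnt_eq 3
    have e2 := D.cnt_first ha hn 3
    rw [D.second_three ha hn] at e1
    rw [if_neg (show ¬ sz a ε0 + 1 = 3 by omega),
      if_neg (show ¬ sz a (flip ε0 ℓ) + 1 = 3 by omega)] at e2
    omega
  · intro k hk
    have e1 := D.cnt_eq k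
    have e2 := D.cnt_first ha hn k
    have e3 : {η : Option ι → ℤˣ | (η none = -η (some ℓ) ∧
        Dbl2Seg a ℓ w (fun i => η (some i)) (η none)) ∧ sz a' η = k} = ∅ := by
      ext η
      constructor
      · rintro ⟨⟨h2, h3⟩, h4⟩
        have h5 := D.second_sz ha hn h2 h3
        by_cases h6 : Dbl2Spec ε0 ℓ (fun i => η (some i))
        · rw [h5.1 h6] at h4
          omega
        · rw [h5.2 h6] at h4
          omega
      · exact fun h => h.elim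
    rw [e3, Set.ncard_empty] at e1
    omega

/-- the face counts after doubling the line `ℓ` at the edge between `ε0` and `flip ε0 ℓ` -/
theorem doubling {a : ι → V3} (ha : Simple a) (hn : 4 ≤ Fintype.card ι) (ℓ : ι) {ε0 : ι → ℤˣ}
    (h0 : Tope a ε0) (h1 : Tope a (flip ε0 ℓ)) :
    ∃ a' : Option ι → V3, Simple a' ∧
      (∀ ε, Tope a' (ext ℓ ε) ↔ Tope a ε) ∧
      (∀ ε, Tope a ε → ε ≠ ε0 → ε ≠ -ε0 → ε ≠ flip ε0 ℓ → ε ≠ -(flip ε0 ℓ) →
        sz a' (ext ℓ ε) = sz a ε) ∧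
      sz a' (ext ℓ ε0) = sz a ε0 + 1 ∧
      sz a' (ext ℓ (flip ε0 ℓ)) = sz a (flip ε0 ℓ) + 1 ∧
      Tope a' (flip (ext ℓ ε0) (some ℓ)) ∧ sz a' (flip (ext ℓ ε0) (some ℓ)) = 3 ∧
      Tope a' (flip (ext ℓ ε0) none) ∧ sz a' (flip (ext ℓ ε0) none) = 3 ∧
      (cnt a' 3 + (if sz a ε0 = 3 then 2 else 0) + (if sz a (flip ε0 ℓ) = 3 then 2 else 0)
        = cnt a 3 + 4) ∧
      (∀ k, 5 ≤ k → cnt a' k + (if sz a ε0 = k then 2 else 0) + (if sz a (flip ε0 ℓ) = k then 2 else 0)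
        = cnt a k + (if sz a ε0 + 1 = k then 2 else 0) + (if sz a (flip ε0 ℓ) + 1 = k then 2 else 0)) := by
  obtain ⟨a', x0, w, hS, ha', hx1, hx2, hx3, hun, hT⟩ := dbl_exists ha (by omega) ℓ h0 h1
  exact ⟨a', hS, dbl_core ha hn ℓ h0 h1 a' hS ha' x0 w hx1 hx2 hx3 hun hT⟩

end Dbl2

end Pool.Agent.H.MP_b7f8b0_co.helper73
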