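import Pool.Agent.H.MP_b7f8b0_co.helper73.Chain

set_option autoImplicit false
open Matrix

namespace Pool.Agent.H.MP_b7f8b0_co.helper73

/-- the arrangement without the line `x` -/
def del {ι : Type} (b : ι → V3) (x : ι) : {i : ι // i ≠ x} → V3 := fun i => b i.1

/-- the number of triangles as a function of the multiset of the faces with at least five edges -/
def pp (K : Multiset ℕ) : ℕ := 4 + (K.map (fun k => k - 4)).sum

/-- the large faces `K` are realised with `p3 - e` lines -/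
def RR (K : Multiset ℕ) (e : ℕ) : Prop := ∃ n, n + e = pp K ∧ Rlz n (pp K) K

/-- an arrangement with the large faces `K` and `pp K - e` lines in which a quadrangle is adjacent to a
face with at least `M` edges -/
def QAdj (K : Multiset ℕ) (e M : ℕ) : Prop :=
  ∃ (ι : Type) (_ : Fintype ι) (_ : DecidableEq ι) (a : ι → V3) (n : ℕ), n + e = pp K ∧
    Cfg n (pp K) K a ∧ ∃ (U : ι → ℤˣ) (x : ι), Chain_F a U 4 ∧ Tope a (flip U x) ∧ M ≤ sz a (flip U x)

/-- `μ` together with `R` arbitrarily large faces -/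
def EE (μ : Multiset ℕ) (R e : ℕ) : Prop :=
  ∀ M : ℕ, ∃ ν : Multiset ℕ, ν.card = R ∧ (∀ k ∈ ν, M ≤ k) ∧ RR (μ + ν) e

/-- the same, with a quadrangle next to an arbitrarily large face -/
def GG (μ : Multiset ℕ) (R e : ℕ) : Prop :=
  ∀ M : ℕ, ∃ ν : Multiset ℕ, ν.card = R ∧ (∀ k ∈ ν, M ≤ k) ∧ QAdj (μ + ν) e M

/-- `m` faces `F j` with `f j` edges, next to the different triangles `flip (F j) (l j)`, with different
lines `l j`; `K` are the other large faces -/
def Marked (m n P : ℕ) (f : Fin m → ℕ) (K : Multiset ℕ) : Prop :=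
  ∃ (ι : Type) (_ : Fintype ι) (_ : DecidableEq ι) (a : ι → V3),
    Cfg n P (Multiset.map f Finset.univ.val + K) a ∧ 4 ≤ n ∧
    ∃ (F : Fin m → ι → ℤˣ) (l : Fin m → ι), Function.Injective l ∧
      (∀ j, Chain_F a (F j) (f j)) ∧ (∀ j, Chain_F a (flip (F j) (l j)) 3) ∧
      ∀ i j, i ≠ j → Chain_Away (F i) (l i) (F j) ∧ Chain_Away (F i) (l i) (flip (F j) (l j))

/-- `X` (with `x` edges) next to a triangle, and a pair of adjacent faces `U` (`u` edges), `flip U q` (`v`
edges) away from them -/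
def SG (n P x u v : ℕ) (K : Multiset ℕ) : Prop :=
  ∃ (ι : Type) (_ : Fintype ι) (_ : DecidableEq ι) (a : ι → V3), Cfg n P (x ::ₘ K) a ∧ 4 ≤ n ∧
    ∃ (X U : ι → ℤˣ) (l q : ι), Chain_F a X x ∧ Chain_F a (flip X l) 3 ∧ Chain_F a U u ∧
      Chain_F a (flip U q) v ∧ q ≠ l ∧ Chain_Away X l U ∧ Chain_Away X l (flip U q)

end Pool.Agent.H.MP_b7f8b0_co.helper73
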