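import Pool.Agent.H.MP_b7f8b0_co.helper73.Defs2
import Pool.Agent.H.MP_b7f8b0_co.helper73.Basic
import Pool.Agent.H.MP_b7f8b0_co.helper73.Lune2

set_option autoImplicit false
open Matrix

namespace Pool.Agent.H.MP_b7f8b0_co.helper73

section DelData
variable {ι : Type} [DecidableEq ι] [Fintype ι]

/-- the line `none` is the double of the line `ℓ`: the hypotheses of `dbl_core` -/
theorem del_data {b : Option ι → V3} (hb : Simple b) (hn : 3 ≤ Fintype.card ι) {ℓ : ι}
    (h : InsepSgn b none (some ℓ) 1) :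
    ∃ (ε0 : ι → ℤˣ) (x0 : V3), Tope (fun i => b (some i)) ε0 ∧
      Tope (fun i => b (some i)) (flip ε0 ℓ) ∧ b (some ℓ) ⬝ᵥ x0 = 0 ∧ b none ⬝ᵥ x0 = 0 ∧
      (∀ k, k ≠ ℓ → 0 < ((ε0 k : ℤ) : ℝ) * (b (some k) ⬝ᵥ x0)) ∧
      (∀ y : V3, b (some ℓ) ⬝ᵥ y = 0 → b none ⬝ᵥ y = 0 → ∃ c : ℝ, y = c • x0) ∧
      (∀ η : Option ι → ℤˣ, Tope b η ↔
        (Tope (fun i => b (some i)) (fun i => η (some i)) ∧ η none = η (some ℓ)) ∨
        (η none = - η (some ℓ) ∧ ∃ y : V3, b (some ℓ) ⬝ᵥ y = 0 ∧
          (∀ k, k ≠ ℓ → 0 < ((η (some k) : ℤ) : ℝ) * (b (some k) ⬝ᵥ y)) ∧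
          0 < ((η none : ℤ) : ℝ) * (b none ⬝ᵥ y))) := by
  classical
  have hn' : 3 ≤ Fintype.card (Option ι) := by
    rw [Fintype.card_option]
    omega
  have ha : Simple (fun i : ι => b (some i)) := fun i j l h1 h2 h3 =>
    hb (some i) (some j) (some l) (fun e => h1 (Option.some_injective _ e))
      (fun e => h2 (Option.some_injective _ e)) (fun e => h3 (Option.some_injective _ e))
  have hnl : (none : Option ι) ≠ some ℓ := by simp
  obtain ⟨x0, hx0, hx1, hx2⟩ := exists_vertex b none (some ℓ)
  have hk0 : ∀ k, k ≠ ℓ → b (some k) ⬝ᵥ x0 ≠ 0 := fun k hk h0 =>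
    hx0 (gp3 hb hnl (fun e => hk (Option.some_injective _ e).symm) (by simp) hx1 hx2 h0)
  obtain ⟨ε0, hε0⟩ : ∃ ε0 : ι → ℤˣ, ∀ k, k ≠ ℓ → 0 < ((ε0 k : ℤ) : ℝ) * (b (some k) ⬝ᵥ x0) := by
    refine ⟨fun k => if 0 < b (some k) ⬝ᵥ x0 then 1 else -1, fun k hk => ?_⟩
    by_cases hp : 0 < b (some k) ⬝ᵥ x0
    · simp only [if_pos hp]
      simpa using hp
    · simp only [if_neg hp]
      have h1 := lt_of_le_of_ne (not_lt.1 hp) (hk0 k hk)
      push_cast
      linarith
  have hne : (fun i : ι => b (some i)) ℓ ≠ 0 := simple_ne_zero ha hn ℓ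
  refine ⟨ε0, x0, ?_, ?_, hx2, hx1, hε0, ?_, ?_⟩
  · exact tope_of_edge_point (a := fun i : ι => b (some i)) (ε := ε0) hne hx2 hε0
      fun k _ => rfl
  · exact tope_of_edge_point (a := fun i : ι => b (some i)) (ε := ε0) hne hx2 hε0
      fun k hk => flip_ne _ hk
  · intro y hy1 hy2
    obtain ⟨k, hk⟩ := Fintype.exists_ne_of_one_lt_card (by omega : 1 < Fintype.card ι) ℓ
    exact vertex_unique hb hnl (fun e => hk (Option.some_injective _ e).symm) (by simp)
      (k := some k) hx0 hx1 hx2 hy2 hy1
  · intro η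
    have hunit : η none = η (some ℓ) ∨ η none = -η (some ℓ) := by
      rcases Int.units_eq_one_or (η none) with h1 | h1 <;>
        rcases Int.units_eq_one_or (η (some ℓ)) with h2 | h2 <;> simp [h1, h2]
    have hsq : ((η (some ℓ) : ℤ) : ℝ) * ((η (some ℓ) : ℤ) : ℝ) = 1 := by
      rcases Int.units_eq_one_or (η (some ℓ)) with h2 | h2 <;> simp [h2]
    constructor
    · intro hT
      rcases hunit with h1 | h1
      · left
        obtain ⟨x, hx⟩ := hT
        exact ⟨⟨x, fun i => hx (some i)⟩, h1⟩
      · right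
        have hl : ((η none : ℤ) : ℝ) * ((η (some ℓ) : ℤ) : ℝ) = -1 := by
          rw [h1, Units.val_neg]
          push_cast
          linarith
        obtain ⟨-, h3⟩ := lune_edge hb hn' hnl (Or.inl rfl) h hT hl
        obtain ⟨p, hp0, hp⟩ := edge_point hT h3
        exact ⟨h1, p, hp0, fun k hk => hp (some k) fun e => hk (Option.some_injective _ e),
          hp none hnl⟩
    · rintro (⟨⟨x, hx⟩, h1⟩ | ⟨h1, y, hy0, hy, hy'⟩)
      · rcases lt_trichotomy (((η none : ℤ) : ℝ) * (b none ⬝ᵥ x)) 0 with h2 | h2 | h2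
        · -- the flipped vector is a face in the small lune
          have hT : Tope b (flip η none) := by
            refine ⟨x, fun k => ?_⟩
            rcases k with _ | k
            · rw [flip_same, Units.val_neg]
              push_cast
              linarith
            · rw [flip_ne _ (by simp)]
              exact hx k
          have hl : ((flip η none none : ℤ) : ℝ) * ((flip η none (some ℓ) : ℤ) : ℝ) = -1 := by
            rw [flip_same, flip_ne _ (by simp), h1, Units.val_neg]
            push_cast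
            linarith
          have h3 := (lune_edge hb hn' hnl (Or.inl rfl) h hT hl).1
          rwa [flip_flip] at h3
        · have h3 : b none ⬝ᵥ x = 0 := by
            rcases mul_eq_zero.1 h2 with h4 | h4
            · exfalso
              rcases Int.units_eq_one_or (η none) with h5 | h5 <;> simp [h5] at h4
            · exact h4
          refine tope_of_edge_point (a := b) (ε := η) (i := none) (simple_ne_zero hb hn' none) h3
            (fun k hk => ?_) fun k _ => rfl
          rcases k with _ | k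
          · exact absurd rfl hk
          · exact hx k
        · refine ⟨x, fun k => ?_⟩
          rcases k with _ | k
          · exact h2
          · exact hx k
      · refine tope_of_edge_point (a := b) (ε := η) (i := some ℓ)
          (simple_ne_zero hb hn' (some ℓ)) hy0 (fun k hk => ?_) fun k _ => rfl
        rcases k with _ | k
        · exact hy'
        · exact hy k fun e => hk (by rw [e])

end DelData

end Pool.Agent.H.MP_b7f8b0_co.helper73
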