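import Pool.Agent.H.MP_b7f8b0_co.helper73.Defs2
import Pool.Agent.H.MP_b7f8b0_co.helper73.Tri
import Pool.Agent.H.MP_b7f8b0_co.helper73.Dbl2
import Pool.Agent.H.MP_b7f8b0_co.helper73.Lune2
import Pool.Agent.H.MP_b7f8b0_co.helper73.DelData

/-! Deleting a line which is inseparable from another line: the face counts. -/

set_option autoImplicit false
open Matrix

namespace Pool.Agent.H.MP_b7f8b0_co.helper73

section DelCountAux
variable {ι : Type} [DecidableEq ι]

/-- the arrangement with the line `x` as the line `none`, multiplied with `s` -/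
def DelCount_b (b : ι → V3) (x : ι) (s : ℝ) : Option {i : ι // i ≠ x} → V3 :=
  fun o => o.elim (s • b x) (fun i => b i.1)

/-- the sign vectors of `DelCount_b` -/
def DelCount_f (x : ι) (u : ℤˣ) (ε : ι → ℤˣ) : Option {i : ι // i ≠ x} → ℤˣ :=
  fun o => o.elim (u * ε x) (fun i => ε i.1)

omit [DecidableEq ι] in
theorem DelCount_key {b : ι → V3} {x : ι} {s : ℝ} {u : ℤˣ} (hu : ((u : ℤ) : ℝ) = s) (ε : ι → ℤˣ)
    (v : V3) : (((u * ε x : ℤˣ) : ℤ) : ℝ) * ((s • b x) ⬝ᵥ v) = ((ε x : ℤ) : ℝ) * (b x ⬝ᵥ v) := by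
  rw [← hu, smul_dotProduct, smul_eq_mul, Units.val_mul, Int.cast_mul]
  have h := dbl2_sq u
  linear_combination (((ε x : ℤ) : ℝ) * (b x ⬝ᵥ v)) * h

theorem DelCount_tope {b : ι → V3} {x : ι} {s : ℝ} {u : ℤˣ} (hu : ((u : ℤ) : ℝ) = s) (ε : ι → ℤˣ) :
    Tope (DelCount_b b x s) (DelCount_f x u ε) ↔ Tope b ε := by
  unfold Tope
  refine exists_congr fun v => ⟨fun h i => ?_, fun h o => ?_⟩
  · by_cases hi : i = x
    · subst hi
      have h1 : 0 < (((u * ε i : ℤˣ) : ℤ) : ℝ) * ((s • b i) ⬝ᵥ v) := h none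
      rwa [DelCount_key hu] at h1
    · exact h (some ⟨i, hi⟩)
  · rcases o with _ | i
    · show 0 < (((u * ε x : ℤˣ) : ℤ) : ℝ) * ((s • b x) ⬝ᵥ v)
      rw [DelCount_key hu]
      exact h x
    · exact h i.1

theorem DelCount_flip_x (x : ι) (u : ℤˣ) (ε : ι → ℤˣ) :
    DelCount_f x u (flip ε x) = flip (DelCount_f x u ε) none := by
  funext o
  rcases o with _ | i
  · rw [flip_same]
    show u * flip ε x x = -(u * ε x)
    rw [flip_same, mul_neg]
  · rw [flip_ne _ (by simp)]
    show flip ε x i.1 = ε i.1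
    rw [flip_ne _ i.2]

theorem DelCount_flip_i (x : ι) (u : ℤˣ) (ε : ι → ℤˣ) (i : {i : ι // i ≠ x}) :
    DelCount_f x u (flip ε i.1) = flip (DelCount_f x u ε) (some i) := by
  funext o
  rcases o with _ | j
  · rw [flip_ne _ (by simp)]
    show u * flip ε i.1 x = u * ε x
    rw [flip_ne _ i.2.symm]
  · by_cases hj : j = i
    · subst hj
      rw [flip_same]
      show flip ε j.1 j.1 = -ε j.1
      rw [flip_same]
    · rw [flip_ne _ (fun h => hj (Option.some_injective _ h))]
      show flip ε i.1 j.1 = ε j.1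
      rw [flip_ne _ (fun h => hj (Subtype.ext h))]

theorem DelCount_sz {b : ι → V3} {x : ι} {s : ℝ} {u : ℤˣ} (hu : ((u : ℤ) : ℝ) = s) (ε : ι → ℤˣ) :
    sz (DelCount_b b x s) (DelCount_f x u ε) = sz b ε := by
  unfold sz
  have hinj : Function.Injective (fun o : Option {i : ι // i ≠ x} => o.elim x Subtype.val) := by
    rintro (_ | i) (_ | j) h
    · rfl
    · exact absurd h.symm j.2
    · exact absurd h i.2
    · exact congrArg some (Subtype.ext h)
  have h : edgeSet b ε = (fun o : Option {i : ι // i ≠ x} => o.elim x Subtype.val) ''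
      edgeSet (DelCount_b b x s) (DelCount_f x u ε) := by
    ext i
    constructor
    · intro hi
      by_cases hix : i = x
      · subst hix
        refine ⟨none, ?_, rfl⟩
        show Tope _ _
        rw [← DelCount_flip_x, DelCount_tope hu]
        exact hi
      · refine ⟨some ⟨i, hix⟩, ?_, rfl⟩
        show Tope _ _
        rw [← DelCount_flip_i x u ε ⟨i, hix⟩, DelCount_tope hu]
        exact hi
    · rintro ⟨o, ho, rfl⟩
      rcases o with _ | i
      · have ho' : Tope (DelCount_b b x s) (flip (DelCount_f x u ε) none) := ho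
        rw [← DelCount_flip_x, DelCount_tope hu] at ho'
        exact ho'
      · have ho' : Tope (DelCount_b b x s) (flip (DelCount_f x u ε) (some i)) := ho
        rw [← DelCount_flip_i x u ε i, DelCount_tope hu] at ho'
        exact ho'
  rw [h, Set.ncard_image_of_injective _ hinj]

theorem DelCount_cnt {b : ι → V3} {x : ι} {s : ℝ} {u : ℤˣ} (hu : ((u : ℤ) : ℝ) = s) (k : ℕ) :
    cnt (DelCount_b b x s) k = cnt b k := by
  unfold cnt
  have hinj : Function.Injective (DelCount_f x u) := by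
    intro ε ε' h
    funext i
    by_cases hi : i = x
    · subst hi
      have h1 : u * ε i = u * ε' i := congrFun h none
      exact mul_left_cancel h1
    · exact congrFun h (some ⟨i, hi⟩)
  have h : {η : Option {i : ι // i ≠ x} → ℤˣ | Tope (DelCount_b b x s) η ∧
      sz (DelCount_b b x s) η = k} = DelCount_f x u '' {ε : ι → ℤˣ | Tope b ε ∧ sz b ε = k} := by
    ext η
    constructor
    · rintro ⟨h1, h2⟩
      obtain ⟨ε, hε⟩ : ∃ ε : ι → ℤˣ, DelCount_f x u ε = η := by
        refine ⟨fun i => if h : i = x then u * η none else η (some ⟨i, h⟩), ?_⟩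
        funext o
        rcases o with _ | i
        · show u * (if h : x = x then u * η none else η (some ⟨x, h⟩)) = η none
          rw [dif_pos rfl, ← mul_assoc, Int.units_mul_self, one_mul]
        · show (if h : i.1 = x then u * η none else η (some ⟨i.1, h⟩)) = η (some i)
          rw [dif_neg i.2]
      subst hε
      rw [DelCount_tope hu] at h1
      rw [DelCount_sz hu] at h2
      exact ⟨ε, ⟨h1, h2⟩, rfl⟩
    · rintro ⟨ε, ⟨h1, h2⟩, rfl⟩
      refine ⟨(DelCount_tope hu ε).2 h1, ?_⟩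
      rw [DelCount_sz hu]
      exact h2
  rw [h, Set.ncard_image_of_injective _ hinj]

theorem DelCount_simple {b : ι → V3} (hb : Simple b) (x : ι) {s : ℝ} (hs : s ≠ 0) :
    Simple (DelCount_b b x s) := by
  have hinj : Function.Injective (fun o : Option {i : ι // i ≠ x} => o.elim x Subtype.val) := by
    rintro (_ | i) (_ | j) h
    · rfl
    · exact absurd h.symm j.2
    · exact absurd h i.2
    · exact congrArg some (Subtype.ext h)
  obtain ⟨c, hc⟩ : ∃ c : Option {i : ι // i ≠ x} → ℝˣ, ∀ o, DelCount_b b x s o =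
      c o • b (o.elim x Subtype.val) := by
    refine ⟨fun o => o.elim (Units.mk0 s hs) (fun _ => 1), ?_⟩
    rintro (_ | i)
    · rfl
    · show b i.1 = (1 : ℝˣ) • b i.1
      rw [one_smul]
  intro i j l hij hjl hil
  have h1 := hb _ _ _ (fun h => hij (hinj h)) (fun h => hjl (hinj h)) (fun h => hil (hinj h))
  have h2 := h1.units_smul ![c i, c j, c l]
  have h3 : (![c i, c j, c l] • ![b (i.elim x Subtype.val), b (j.elim x Subtype.val),
      b (l.elim x Subtype.val)] : Fin 3 → V3) =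
      ![DelCount_b b x s i, DelCount_b b x s j, DelCount_b b x s l] := by
    rw [hc i, hc j, hc l]
    funext t
    fin_cases t <;> rfl
  rwa [h3] at h2

omit [DecidableEq ι] in
theorem DelCount_insep {b : ι → V3} {x y : ι} {s : ℝ} (hyx : y ≠ x) (h : InsepSgn b x y s) :
    InsepSgn (DelCount_b b x s) none (some ⟨y, hyx⟩) 1 := by
  intro m m' hmm hm hmy hm' hmy' v hv h1 h2
  rcases m with _ | i
  · exact absurd rfl hm
  rcases m' with _ | j
  · exact absurd rfl hm'
  have h3 := h i.1 j.1 (fun e => hmm (congrArg some (Subtype.ext e))) i.2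
    (fun e => hmy (congrArg some (Subtype.ext e))) j.2
    (fun e => hmy' (congrArg some (Subtype.ext e))) v hv h1 h2
  show 0 < 1 * (((s • b x) ⬝ᵥ v) * (b y ⬝ᵥ v))
  rw [smul_dotProduct, smul_eq_mul, one_mul, mul_assoc]
  exact h3

omit [DecidableEq ι] in
theorem DelCount_del_simple {b : ι → V3} (hb : Simple b) (x : ι) : Simple (del b x) := by
  intro i j l hij hjl hil
  exact hb i.1 j.1 l.1 (fun h => hij (Subtype.ext h)) (fun h => hjl (Subtype.ext h))
    (fun h => hil (Subtype.ext h))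

variable [Fintype ι]

theorem DelCount_card (x : ι) : Fintype.card {i : ι // i ≠ x} + 1 = Fintype.card ι := by
  rw [Fintype.card_subtype, Finset.filter_ne', Finset.card_erase_of_mem (Finset.mem_univ x),
    Finset.card_univ]
  have h : 0 < Fintype.card ι := Fintype.card_pos_iff.2 ⟨x⟩
  omega

theorem DelCount_unit {s : ℝ} (hs : s = 1 ∨ s = -1) : ∃ u : ℤˣ, ((u : ℤ) : ℝ) = s := by
  rcases hs with rfl | rfl
  · exact ⟨1, by norm_num⟩
  · exact ⟨-1, by norm_num⟩

end DelCountAux

section DelCount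
variable {ι : Type} [DecidableEq ι] [Fintype ι]

/-- a face with the corner `x ∩ y` in the big lune: it is not a triangle -/
theorem DelCount_four {b : ι → V3} (hb : Simple b) (hn : 4 ≤ Fintype.card ι) {x y : ι} (hxy : x ≠ y)
    {s : ℝ} (hs : s = 1 ∨ s = -1) (h : InsepSgn b x y s) {G : ι → ℤˣ} (hG : Tope b G)
    (h1 : Tope b (flip G x)) (h2 : Tope b (flip G y))
    (hl : ((G x : ℤ) : ℝ) * ((G y : ℤ) : ℝ) = s) : 4 ≤ sz b G := by
  have h3 : sz b (flip G x) = 3 := by
    refine lune_corner hb (by omega) hxy hs h h1 ?_ ?_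
    · rw [flip_same, flip_ne _ hxy.symm, dbl2_neg_real, neg_mul, hl]
    · rw [flip_flip]
      exact h2
  have h4 : sz b (flip (flip G x) x) ≠ 3 := no_adj_tri hb hn h1 h3 (by rw [flip_flip]; exact hG)
  rw [flip_flip] at h4
  have h5 := three_le_sz hb (by omega) hG h1
  omega

/-- a face with the corner `x ∩ y` in the big lune -/
theorem insep_corner {b : ι → V3} (hb : Simple b) (hn : 4 ≤ Fintype.card ι) {x y : ι}
    (h : Insep b x y) : ∃ G : ι → ℤˣ, Tope b G ∧ Tope b (flip G x) ∧ Tope b (flip G y) ∧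
      Tope b (flip (flip G x) y) ∧ 4 ≤ sz b G := by
  obtain ⟨hxy, s, hs, hI⟩ := h
  obtain ⟨u, hu⟩ := DelCount_unit hs
  obtain ⟨v, hv0, hxv, hyv⟩ := exists_vertex b x y
  have hne : ∀ k, k ≠ x → k ≠ y → b k ⬝ᵥ v ≠ 0 := fun k hk hk' h0 =>
    hv0 (gp3 hb hxy hk'.symm hk.symm hxv hyv h0)
  obtain ⟨σ, hσ⟩ : ∃ σ : ι → ℤˣ, ∀ k, k ≠ x → k ≠ y → 0 < ((σ k : ℤ) : ℝ) * (b k ⬝ᵥ v) := by
    have h1 : ∀ k, ∃ e : ℤˣ, k ≠ x → k ≠ y → 0 < ((e : ℤ) : ℝ) * (b k ⬝ᵥ v) := by
      intro k
      by_cases h2 : 0 < b k ⬝ᵥ v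
      · exact ⟨1, fun _ _ => by simpa using h2⟩
      · refine ⟨-1, fun hk hk' => ?_⟩
        have h3 := lt_of_le_of_ne (not_lt.1 h2) (hne k hk hk')
        simpa using h3
    choose σ hσ using h1
    exact ⟨σ, hσ⟩
  obtain ⟨G, hG⟩ : ∃ G : ι → ℤˣ, G = Function.update (Function.update σ x u) y 1 := ⟨_, rfl⟩
  have hGy : G y = 1 := by rw [hG, Function.update_self]
  have hGx : G x = u := by rw [hG, Function.update_of_ne hxy, Function.update_self]
  have hGk : ∀ k, k ≠ x → k ≠ y → G k = σ k := fun k hk hk' => by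
    rw [hG, Function.update_of_ne hk', Function.update_of_ne hk]
  have hLI := simple_pair hb (by omega) hxy
  have key : ∀ η : ι → ℤˣ, (∀ k, k ≠ x → k ≠ y → η k = G k) → Tope b η := by
    intro η hη
    refine tope_of_corner_point hLI hxv hyv hσ fun k hk hk' => ?_
    rw [hη k hk hk', hGk k hk hk']
  have t0 := key G fun _ _ _ => rfl
  have t1 := key (flip G x) fun k hk _ => flip_ne _ hk
  have t2 := key (flip G y) fun k _ hk => flip_ne _ hk
  have t3 := key (flip (flip G x) y) fun k hk hk' => by rw [flip_ne _ hk', flip_ne _ hk]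
  refine ⟨G, t0, t1, t2, t3, DelCount_four hb hn hxy hs hI t0 t1 t2 ?_⟩
  rw [hGx, hGy, hu]
  norm_num

/-- everything about the corner `x ∩ y` before and after deleting `x` -/
theorem DelCount_core {b : ι → V3} (hb : Simple b) (hn : 5 ≤ Fintype.card ι) {x y : ι}
    (h : Insep b x y) {G : ι → ℤˣ} (hG : Tope b G) (h1 : Tope b (flip G x))
    (h2 : Tope b (flip G y)) (h3 : Tope b (flip (flip G x) y)) (h4 : 4 ≤ sz b G) :
    ∃ p q : ℕ, sz b G = p + 1 ∧ sz b (flip (flip G x) y) = q + 1 ∧ 4 ≤ q + 1 ∧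
    Tope (del b x) (fun i => G i.1) ∧ sz (del b x) (fun i => G i.1) = p ∧
    Tope (del b x) (flip (fun i : {i : ι // i ≠ x} => G i.1) ⟨y, h.1.symm⟩) ∧
    sz (del b x) (flip (fun i : {i : ι // i ≠ x} => G i.1) ⟨y, h.1.symm⟩) = q ∧
    (cnt b 3 + (if p = 3 then 2 else 0) + (if q = 3 then 2 else 0) = cnt (del b x) 3 + 4) ∧
    (∀ k, 5 ≤ k → cnt b k + (if p = k then 2 else 0) + (if q = k then 2 else 0)
      = cnt (del b x) k + (if p + 1 = k then 2 else 0) + (if q + 1 = k then 2 else 0)) := by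
  obtain ⟨hxy, s, hs, hI⟩ := h
  obtain ⟨u, hu⟩ := DelCount_unit hs
  have hs0 : s ≠ 0 := by
    rcases hs with rfl | rfl <;> norm_num
  -- `G` is in the big lune
  have hl : ((G x : ℤ) : ℝ) * ((G y : ℤ) : ℝ) = s := by
    by_contra hne
    have h5 : ((G x : ℤ) : ℝ) * ((G y : ℤ) : ℝ) = -s := by
      rcases hs with rfl | rfl <;> rcases dbl2_unit_real (G x) with e1 | e1 <;>
        rcases dbl2_unit_real (G y) with e2 | e2 <;> rw [e1, e2] at hne <;> rw [e1, e2] <;>
        first
        | (norm_num; done)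
        | exact absurd (by norm_num) hne
    have h6 := lune_corner hb (by omega) hxy hs hI hG h5 h3
    omega
  have hux : u * G x = G y := by
    have h5 : (((u * G x : ℤˣ) : ℤ) : ℝ) = ((G y : ℤ) : ℝ) := by
      rw [Units.val_mul, Int.cast_mul, hu, ← hl]
      have h6 := dbl2_sq (G x)
      linear_combination ((G y : ℤ) : ℝ) * h6
    exact Units.ext (by exact_mod_cast h5)
  -- the other face
  have h7 : 4 ≤ sz b (flip (flip G x) y) := by
    refine DelCount_four hb (by omega) hxy hs hI h3 ?_ ?_ ?_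
    · rw [flip_comm, flip_flip]
      exact h2
    · rw [flip_flip]
      exact h1
    · rw [flip_same, flip_ne _ hxy, flip_same, flip_ne _ hxy.symm, dbl2_neg_real, dbl2_neg_real,
        neg_mul_neg, hl]
  have hyx : y ≠ x := hxy.symm
  obtain ⟨ℓ, hℓ⟩ : ∃ ℓ : {i : ι // i ≠ x}, ℓ = ⟨y, hyx⟩ := ⟨_, rfl⟩
  have hcard := DelCount_card x
  have hn' : 4 ≤ Fintype.card {i : ι // i ≠ x} := by omega
  have hS := DelCount_simple hb x hs0
  have hDI := DelCount_insep hyx hI
  rw [← hℓ] at hDI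
  obtain ⟨ε0, x0, d1, d2, d3, d4, d5, d6, d7⟩ := del_data hS (by omega) hDI
  obtain ⟨c1, c2, c3, c4, c5, c6, c7, c8, c9, c10⟩ := dbl_core (a := del b x)
    (DelCount_del_simple hb x) hn' ℓ d1 d2 (DelCount_b b x s) hS (fun _ => rfl) x0 (s • b x) d3 d4
    d5 d6 d7
  -- the faces as extensions
  obtain ⟨R, hR⟩ : ∃ R : {i : ι // i ≠ x} → ℤˣ, R = fun i => G i.1 := ⟨_, rfl⟩
  have hRl : R ℓ = G y := by rw [hR, hℓ]
  have e1 : DelCount_f x u G = ext ℓ R := by
    funext o
    rcases o with _ | i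
    · show u * G x = R ℓ
      rw [hux, hRl]
    · show G i.1 = R i
      rw [hR]
  have e2 : DelCount_f x u (flip (flip G x) y) = ext ℓ (flip R ℓ) := by
    funext o
    rcases o with _ | i
    · show u * flip (flip G x) y x = flip R ℓ ℓ
      rw [flip_ne _ hxy, flip_same, flip_same, mul_neg, hux, hRl]
    · show flip (flip G x) y i.1 = flip R ℓ i
      by_cases hi : i = ℓ
      · rw [hi, flip_same, hRl, hℓ]
        show flip (flip G x) y y = -G y
        rw [flip_same, flip_ne _ hyx]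
      · have hi' : i.1 ≠ y := fun h => hi (by rw [hℓ]; exact Subtype.ext h)
        rw [flip_ne _ hi, flip_ne _ hi', flip_ne _ i.2, hR]
  have f1 : sz (DelCount_b b x s) (ext ℓ R) = sz b G := by rw [← e1, DelCount_sz hu]
  have f2 : sz (DelCount_b b x s) (ext ℓ (flip R ℓ)) = sz b (flip (flip G x) y) := by
    rw [← e2, DelCount_sz hu]
  have f3 : Tope (del b x) R := by
    rw [← c1, ← e1, DelCount_tope hu]
    exact hG
  have f4 : Tope (del b x) (flip R ℓ) := by
    rw [← c1, ← e2, DelCount_tope hu]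
    exact h3
  -- the signs off `ℓ`
  have hspec : Dbl2Spec ε0 ℓ R := by
    obtain ⟨v, hv1, hv2, hv3⟩ := corner_point hxy hG h1 h2 h3
    obtain ⟨c, rfl⟩ := d6 v (by rw [hℓ]; exact hv2) (by
      show (s • b x) ⬝ᵥ v = 0
      rw [smul_dotProduct, hv1, smul_zero])
    have key : ∀ k : {i : ι // i ≠ x}, k ≠ ℓ → 0 < c * (((R k : ℤ) : ℝ) * (b k.1 ⬝ᵥ x0)) := by
      intro k hk
      have h8 := hv3 k.1 k.2 (fun h => hk (by rw [hℓ]; exact Subtype.ext h))
      rw [dotProduct_smul, smul_eq_mul] at h8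
      rw [hR]
      linarith
    have hk5 : ∀ k : {i : ι // i ≠ x}, k ≠ ℓ → 0 < ((ε0 k : ℤ) : ℝ) * (b k.1 ⬝ᵥ x0) := d5
    rcases lt_trichotomy c 0 with hc | hc | hc
    · right
      intro k hk
      rcases dbl2_eq_or_neg (R k) (ε0 k) with h8 | h8
      · exfalso
        have h9 := key k hk
        rw [h8] at h9
        exact absurd h9 (not_lt.2 (mul_neg_of_neg_of_pos hc (hk5 k hk)).le)
      · exact h8
    · left
      intro k hk
      exfalso
      have h9 := key k hk
      rw [hc, zero_mul] at h9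
      exact lt_irrefl _ h9
    · left
      intro k hk
      rcases dbl2_eq_or_neg (R k) (ε0 k) with h8 | h8
      · exact h8
      · exfalso
        have h9 := key k hk
        rw [h8, dbl2_neg_real] at h9
        have h10 := mul_pos hc (hk5 k hk)
        linarith
  have hcnt3 : cnt (DelCount_b b x s) 3 = cnt b 3 := DelCount_cnt hu 3
  have hcntk : ∀ k, cnt (DelCount_b b x s) k = cnt b k := DelCount_cnt hu
  rw [← hℓ, ← hR]
  rw [dbl2_spec_iff] at hspec
  refine ⟨sz (del b x) R, sz (del b x) (flip R ℓ), ?_, ?_, ?_, f3, rfl, f4, rfl, ?_, ?_⟩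
  · rw [← f1]
    rcases hspec with h8 | h8 | h8 | h8
    · rw [h8]; exact c3
    · rw [h8, Chain_ext_neg, sz_neg, sz_neg]; exact c3
    · rw [h8]; exact c4
    · rw [h8, Chain_ext_neg, sz_neg, sz_neg]; exact c4
  · rw [← f2]
    rcases hspec with h8 | h8 | h8 | h8
    · rw [h8]; exact c4
    · rw [h8, flip_neg, Chain_ext_neg, sz_neg, sz_neg]; exact c4
    · rw [h8, flip_flip]; exact c3
    · rw [h8, flip_neg, flip_flip, Chain_ext_neg, sz_neg, sz_neg]; exact c3
  · rw [← f2] at h7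
    rcases hspec with h8 | h8 | h8 | h8
    · rw [h8] at h7 ⊢; rw [← c4]; exact h7
    · rw [h8, flip_neg, Chain_ext_neg, sz_neg] at h7
      rw [h8, flip_neg, sz_neg, ← c4]; exact h7
    · rw [h8, flip_flip] at h7 ⊢; rw [← c3]; exact h7
    · rw [h8, flip_neg, flip_flip, Chain_ext_neg, sz_neg] at h7
      rw [h8, flip_neg, flip_flip, sz_neg, ← c3]; exact h7
  · rw [hcnt3] at c9
    rcases hspec with h8 | h8 | h8 | h8
    · rw [h8]; exact c9
    · rw [h8, flip_neg, sz_neg, sz_neg]; exact c9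
    · rw [h8, flip_flip]; omega
    · rw [h8, flip_neg, flip_flip, sz_neg, sz_neg]; omega
  · intro k hk
    have c11 := c10 k hk
    rw [hcntk] at c11
    rcases hspec with h8 | h8 | h8 | h8
    · rw [h8]; exact c11
    · rw [h8, flip_neg, sz_neg, sz_neg]; exact c11
    · rw [h8, flip_flip]; omega
    · rw [h8, flip_neg, flip_flip, sz_neg, sz_neg]; omega

/-- the face counts after deleting the line `x`, which is inseparable from the line `y` -/
theorem del_count {b : ι → V3} (hb : Simple b) (hn : 5 ≤ Fintype.card ι) {x y : ι}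
    (h : Insep b x y) {G : ι → ℤˣ} (hG : Tope b G) (h1 : Tope b (flip G x))
    (h2 : Tope b (flip G y)) (h3 : Tope b (flip (flip G x) y)) (h4 : 4 ≤ sz b G) :
    Simple (del b x) ∧ Fintype.card {i : ι // i ≠ x} + 1 = Fintype.card ι ∧
    4 ≤ sz b (flip (flip G x) y) ∧
    (cnt b 3 + (if sz b G = 4 then 2 else 0) + (if sz b (flip (flip G x) y) = 4 then 2 else 0)
      = cnt (del b x) 3 + 4) ∧
    (∀ k, 5 ≤ k → cnt b k + (if sz b G = k + 1 then 2 else 0)
        + (if sz b (flip (flip G x) y) = k + 1 then 2 else 0)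
      = cnt (del b x) k + (if sz b G = k then 2 else 0)
        + (if sz b (flip (flip G x) y) = k then 2 else 0)) := by
  obtain ⟨p, q, e1, e2, e3, -, -, -, -, e4, e5⟩ := DelCount_core hb hn h hG h1 h2 h3 h4
  refine ⟨DelCount_del_simple hb x, DelCount_card x, by omega, ?_, ?_⟩
  · rw [e1, e2]
    simpa only [Nat.reduceEqDiff] using e4
  · intro k hk
    rw [e1, e2]
    have := e5 k hk
    simpa only [Nat.add_right_cancel_iff] using this

/-- the two faces of the big lune at `x ∩ y`, before and after deleting `x` -/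
theorem del_faces {b : ι → V3} (hb : Simple b) (hn : 5 ≤ Fintype.card ι) {x y : ι}
    (h : Insep b x y) {G : ι → ℤˣ} (hG : Tope b G) (h1 : Tope b (flip G x))
    (h2 : Tope b (flip G y)) (h3 : Tope b (flip (flip G x) y)) (h4 : 4 ≤ sz b G) :
    Tope (del b x) (fun i => G i.1) ∧ sz (del b x) (fun i => G i.1) + 1 = sz b G ∧
    Tope (del b x) (flip (fun i : {i : ι // i ≠ x} => G i.1) ⟨y, h.1.symm⟩) ∧
    sz (del b x) (flip (fun i : {i : ι // i ≠ x} => G i.1) ⟨y, h.1.symm⟩) + 1
      = sz b (flip (flip G x) y) := by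
  obtain ⟨p, q, e1, e2, -, e3, e4, e5, e6, -, -⟩ := DelCount_core hb hn h hG h1 h2 h3 h4
  exact ⟨e3, by rw [e4, e1], e5, by rw [e6, e2]⟩

end DelCount

end Pool.Agent.H.MP_b7f8b0_co.helper73
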