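import Pool.Agent.H.MP_b7f8b0_co.helper73.Defs2
import Pool.Agent.H.MP_b7f8b0_co.helper73.InsepFacts

set_option autoImplicit false
open Matrix

namespace Pool.Agent.H.MP_b7f8b0_co.helper73

section DelInsep
variable {ι : Type} [DecidableEq ι] [Fintype ι]

theorem del_insep {b : ι → V3} {x y z : ι} (hy : y ≠ x) (hz : z ≠ x) (h : Insep b y z) :
    Insep (del b x) ⟨y, hy⟩ ⟨z, hz⟩ := by
  obtain ⟨hyz, s, hs, h⟩ := h
  refine ⟨fun e => hyz (congrArg Subtype.val e), s, hs, ?_⟩
  intro m m' h1 h2 h3 h4 h5 v hv h6 h7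
  have g1 : m.1 ≠ m'.1 := fun e => h1 (Subtype.ext e)
  have g2 : m.1 ≠ y := fun e => h2 (Subtype.ext e)
  have g3 : m.1 ≠ z := fun e => h3 (Subtype.ext e)
  have g4 : m'.1 ≠ y := fun e => h4 (Subtype.ext e)
  have g5 : m'.1 ≠ z := fun e => h5 (Subtype.ext e)
  exact h m.1 m'.1 g1 g2 g3 g4 g5 v hv h6 h7

/-- from the positivity of `s (p q)` and `t (p r)` to the positivity of `s t (q r)` -/
private theorem DelInsep_mul {s t p q r : ℝ} (h1 : 0 < s * (p * q)) (h2 : 0 < t * (p * r)) :
    0 < s * t * (q * r) := by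
  have hp : p ≠ 0 := by
    rintro rfl
    simp at h1
  have h3 : 0 < p ^ 2 := by positivity
  have h4 : 0 < (s * t * (q * r)) * p ^ 2 := by
    have := mul_pos h1 h2
    have e : s * (p * q) * (t * (p * r)) = (s * t * (q * r)) * p ^ 2 := by ring
    rwa [e] at this
  exact pos_of_mul_pos_left h4 h3.le

private theorem DelInsep_sgn {s t : ℝ} (hs : s = 1 ∨ s = -1) (ht : t = 1 ∨ t = -1) :
    s * t = 1 ∨ s * t = -1 := by
  rcases hs with rfl | rfl <;> rcases ht with rfl | rfl <;> norm_num

/-- two partners of the deleted line become inseparable -/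
theorem del_insep' {b : ι → V3} {x y z : ι} (hyz : y ≠ z) (h1 : Insep b x y) (h2 : Insep b x z) :
    Insep (del b x) ⟨y, h1.1.symm⟩ ⟨z, h2.1.symm⟩ := by
  obtain ⟨hxy, s, hs, h1⟩ := h1
  obtain ⟨hxz, t, ht, h2⟩ := h2
  refine ⟨fun e => hyz (congrArg Subtype.val e), s * t, DelInsep_sgn hs ht, ?_⟩
  intro m m' e1 e2 e3 e4 e5 v hv e6 e7
  have g1 : m.1 ≠ m'.1 := fun e => e1 (Subtype.ext e)
  have g2 : m.1 ≠ y := fun e => e2 (Subtype.ext e)
  have g3 : m.1 ≠ z := fun e => e3 (Subtype.ext e)
  have g4 : m'.1 ≠ y := fun e => e4 (Subtype.ext e)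
  have g5 : m'.1 ≠ z := fun e => e5 (Subtype.ext e)
  have k1 := h1 m.1 m'.1 g1 m.2 g2 m'.2 g4 v hv e6 e7
  have k2 := h2 m.1 m'.1 g1 m.2 g3 m'.2 g5 v hv e6 e7
  exact DelInsep_mul k1 k2

omit [DecidableEq ι] in
/-- three lines are not pairwise inseparable -/
theorem DelInsep_no_triple {b : ι → V3} (hb : Simple b) (hn : 5 ≤ Fintype.card ι) {x y z : ι}
    (h1 : Insep b x y) (h2 : Insep b x z) (h3 : Insep b y z) : False := by
  classical
  obtain ⟨hxy, s, hs, h1⟩ := h1
  obtain ⟨hxz, t, ht, h2⟩ := h2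
  obtain ⟨hyz, u, hu, h3⟩ := h3
  obtain ⟨m, hm⟩ : ∃ m : ι, m ∉ ({x, y, z} : Finset ι) := by
    by_contra hcon
    push Not at hcon
    have hc : Fintype.card ι ≤ ({x, y, z} : Finset ι).card := by
      rw [← Finset.card_univ]
      exact Finset.card_le_card (fun i _ => hcon i)
    have := Finset.card_le_three (a := x) (b := y) (c := z)
    omega
  obtain ⟨m', hm'⟩ : ∃ m' : ι, m' ∉ ({m, x, y, z} : Finset ι) := by
    by_contra hcon
    push Not at hcon
    have hc : Fintype.card ι ≤ ({m, x, y, z} : Finset ι).card := by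
      rw [← Finset.card_univ]
      exact Finset.card_le_card (fun i _ => hcon i)
    have := Finset.card_le_four (a := m) (b := x) (c := y) (d := z)
    omega
  simp only [Finset.mem_insert, Finset.mem_singleton, not_or] at hm hm'
  obtain ⟨hmx, hmy, hmz⟩ := hm
  obtain ⟨hmm, hmx', hmy', hmz'⟩ := hm'
  obtain ⟨v, hv0, hvx, hvm⟩ := exists_vertex b x m
  have k1 := insep_prod hb hxy hxz hyz hmx hmy hmz h1 h2 hv0 hvx hvm
  have k2 := h3 x m (Ne.symm hmx) hxy hxz hmy hmz v hv0 hvx hvm
  obtain ⟨w, hw0, hwm, hwm'⟩ := exists_vertex b m m'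
  have l1 := h1 m m' (Ne.symm hmm) hmx hmy hmx' hmy' w hw0 hwm hwm'
  have l2 := h2 m m' (Ne.symm hmm) hmx hmz hmx' hmz' w hw0 hwm hwm'
  have l3 := h3 m m' (Ne.symm hmm) hmy hmz hmy' hmz' w hw0 hwm hwm'
  have l4 := DelInsep_mul l1 l2
  -- `u = - s t` and `u = s t`
  have hst := DelInsep_sgn hs ht
  rcases hst with e | e <;> rcases hu with rfl | rfl <;> rw [e] at k1 l4 <;> linarith

/-- deleting a line with two partners loses at most one inseparable pair -/
theorem del_edges {b : ι → V3} (hb : Simple b) (hn : 5 ≤ Fintype.card ι) {x y z : ι} (hyz : y ≠ z)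
    (h1 : Insep b x y) (h2 : Insep b x z) :
    (insepGraph b).edgeSet.ncard ≤ (insepGraph (del b x)).edgeSet.ncard + 1 := by
  classical
  have hnew : s((⟨y, h1.1.symm⟩ : {i : ι // i ≠ x}), ⟨z, h2.1.symm⟩) ∈
      (insepGraph (del b x)).edgeSet := by
    rw [SimpleGraph.mem_edgeSet]
    exact del_insep' hyz h1 h2
  have hsub : (insepGraph b).edgeSet ⊆ ({s(x, y), s(x, z)} : Set (Sym2 ι)) ∪
      (Sym2.map Subtype.val) '' ((insepGraph (del b x)).edgeSet \
        {s((⟨y, h1.1.symm⟩ : {i : ι // i ≠ x}), ⟨z, h2.1.symm⟩)}) := by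
    intro e
    induction e using Sym2.ind with
    | _ p q =>
      intro he
      rw [SimpleGraph.mem_edgeSet] at he
      have he' : Insep b p q := he
      have key : ∀ w, Insep b x w → w = y ∨ w = z := by
        intro w hw
        by_contra hcon
        rw [not_or] at hcon
        exact insep_three hb hn h1 h2 hw hyz (Ne.symm hcon.1) (Ne.symm hcon.2)
      by_cases hp : p = x
      · subst hp
        left
        rcases key q he' with rfl | rfl <;> simp
      · by_cases hq : q = x
        · subst hq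
          left
          have hs : Insep b q p := (insepGraph b).symm.symm _ _ he
          rcases key p hs with rfl | rfl
          · rw [Sym2.eq_swap]; simp
          · rw [Sym2.eq_swap]; simp
        · right
          refine ⟨s(⟨p, hp⟩, ⟨q, hq⟩), ⟨?_, ?_⟩, rfl⟩
          · rw [SimpleGraph.mem_edgeSet]
            exact del_insep hp hq he'
          · intro hcon
            rw [Set.mem_singleton_iff, Sym2.eq_iff] at hcon
            rcases hcon with ⟨e1, e2⟩ | ⟨e1, e2⟩
            · have e1' : p = y := congrArg Subtype.val e1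
              have e2' : q = z := congrArg Subtype.val e2
              subst e1' e2'
              exact DelInsep_no_triple hb hn h1 h2 he'
            · have e1' : p = z := congrArg Subtype.val e1
              have e2' : q = y := congrArg Subtype.val e2
              subst e1' e2'
              exact DelInsep_no_triple hb hn h2 h1 he'
  have hfin : (insepGraph (del b x)).edgeSet.Finite := Set.toFinite _
  have c1 := Set.ncard_le_ncard hsub (Set.toFinite _)
  have c2 := Set.ncard_union_le ({s(x, y), s(x, z)} : Set (Sym2 ι))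
      ((Sym2.map Subtype.val) '' ((insepGraph (del b x)).edgeSet \
        {s((⟨y, h1.1.symm⟩ : {i : ι // i ≠ x}), ⟨z, h2.1.symm⟩)}))
  have c3 : ({s(x, y), s(x, z)} : Set (Sym2 ι)).ncard ≤ 2 := by
    refine (Set.ncard_insert_le _ _).trans ?_
    rw [Set.ncard_singleton]
  have c4 := Set.ncard_image_le (f := Sym2.map (Subtype.val : {i : ι // i ≠ x} → ι))
    (s := (insepGraph (del b x)).edgeSet \
        {s((⟨y, h1.1.symm⟩ : {i : ι // i ≠ x}), ⟨z, h2.1.symm⟩)}) (Set.toFinite _)
  have c5 := Set.ncard_sdiff_singleton_add_one hnew hfin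
  omega

end DelInsep

end Pool.Agent.H.MP_b7f8b0_co.helper73
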