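import Pool.Agent.H.MP_b7f8b0_co.helper73.Defs2

/-!
Explicit integer arrangements.  A sign vector of `n` lines is coded by a number `c < 2 ^ n`: the sign of the
line `i` is `+` if and only if the bit `i` of `c` is set.  The realised sign vectors are given by a number
`M` (the bit `c` of `M` is set if and only if the sign vector with the code `c` is realised).
-/

set_option autoImplicit false
open Matrix

namespace Pool.Agent.H.MP_b7f8b0_co.helper73

/-- the real arrangement with integer rows -/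
def IntTool_a {n : ℕ} (A : Fin n → Fin 3 → ℤ) : Fin n → V3 := fun i j => ((A i j : ℤ) : ℝ)

/-- the sign vector with the code `c` -/
def IntTool_sg (n c : ℕ) : Fin n → ℤˣ := fun i => if c.testBit i then 1 else -1

/-- the sign of the line `i` as an integer -/
def IntTool_s (c i : ℕ) : ℤ := if c.testBit i then 1 else -1

theorem IntTool_sg_cast (n c : ℕ) (i : Fin n) : ((IntTool_sg n c i : ℤˣ) : ℤ) = IntTool_s c i := by
  unfold IntTool_sg IntTool_s
  split_ifs <;> simp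

/-- the point `p` lies in the face with the code `c` -/
def IntTool_pt {n : ℕ} (A : Fin n → Fin 3 → ℤ) (c : ℕ) (p : Fin 3 → ℤ) : Bool :=
  decide (∀ i : Fin n, 0 < IntTool_s c i * (A i 0 * p 0 + A i 1 * p 1 + A i 2 * p 2))

/-- `r` is a nontrivial linear relation of the lines -/
def IntTool_isrel {n : ℕ} (A : Fin n → Fin 3 → ℤ) (r : Fin n → ℤ) : Bool :=
  decide ((∀ j : Fin 3, ∑ i, r i * A i j = 0) ∧ ∃ i, r i ≠ 0)

/-- the relation `r` excludes the sign vector with the code `c` -/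
def IntTool_ex {n : ℕ} (r : Fin n → ℤ) (c : ℕ) : Bool :=
  decide (∀ i : Fin n, 0 ≤ IntTool_s c i * r i)

/-- the certificate for the table `M`: points `T` and relations `R` -/
def IntTool_ok {n : ℕ} (A : Fin n → Fin 3 → ℤ) (M : ℕ) (T : List (Fin 3 → ℤ)) (R : List (Fin n → ℤ)) :
    Bool :=
  (R.all fun r => IntTool_isrel A r) &&
    (List.range (2 ^ n)).all fun c => if M.testBit c then T.any fun p => IntTool_pt A c p
      else R.any fun r => IntTool_ex r c

theorem IntTool_tope {n : ℕ} {A : Fin n → Fin 3 → ℤ} {M : ℕ} {T : List (Fin 3 → ℤ)}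
    {R : List (Fin n → ℤ)} (h : IntTool_ok A M T R = true) {c : ℕ} (hc : c < 2 ^ n) :
    Tope (IntTool_a A) (IntTool_sg n c) ↔ M.testBit c = true := by
  unfold IntTool_ok at h
  rw [Bool.and_eq_true, List.all_eq_true, List.all_eq_true] at h
  obtain ⟨hR, hC⟩ := h
  have h1 := hC c (List.mem_range.2 hc)
  by_cases hM : M.testBit c = true
  · rw [if_pos hM, List.any_eq_true] at h1
    obtain ⟨p, -, hp⟩ := h1
    unfold IntTool_pt at hp
    rw [decide_eq_true_eq] at hp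
    refine ⟨fun _ => hM, fun _ => ⟨fun j => ((p j : ℤ) : ℝ), fun i => ?_⟩⟩
    have h2 := hp i
    rw [IntTool_sg_cast]
    have h3 : IntTool_a A i ⬝ᵥ (fun j => ((p j : ℤ) : ℝ)) =
        ((A i 0 * p 0 + A i 1 * p 1 + A i 2 * p 2 : ℤ) : ℝ) := by
      simp only [dotProduct, Fin.sum_univ_three, IntTool_a]
      push_cast
      ring
    rw [h3]
    exact_mod_cast h2
  · rw [if_neg hM, List.any_eq_true] at h1
    obtain ⟨r, hr, hx⟩ := h1
    have h2 := hR r hr
    unfold IntTool_isrel at h2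
    unfold IntTool_ex at hx
    rw [decide_eq_true_eq] at h2 hx
    obtain ⟨h3, i0, hi0⟩ := h2
    refine ⟨fun ⟨x, hxx⟩ => ?_, fun h => absurd h hM⟩
    exfalso
    have h4 : ∑ i, ((r i : ℤ) : ℝ) * (IntTool_a A i ⬝ᵥ x) = 0 := by
      have e : ∀ i, ((r i : ℤ) : ℝ) * (IntTool_a A i ⬝ᵥ x) =
          ∑ j, ((r i * A i j : ℤ) : ℝ) * x j := by
        intro i
        simp only [dotProduct, IntTool_a, Finset.mul_sum]
        refine Finset.sum_congr rfl fun j _ => ?_
        push_cast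
        ring
      simp_rw [e]
      rw [Finset.sum_comm]
      refine Finset.sum_eq_zero fun j _ => ?_
      rw [← Finset.sum_mul, ← Int.cast_sum, h3 j, Int.cast_zero, zero_mul]
    have hs : ∀ i : Fin n, ((IntTool_s c i : ℤ) : ℝ) * ((IntTool_s c i : ℤ) : ℝ) = 1 := by
      intro i
      unfold IntTool_s
      split_ifs <;> norm_num
    have hx' : ∀ i : Fin n, 0 < ((IntTool_s c i : ℤ) : ℝ) * (IntTool_a A i ⬝ᵥ x) := by
      intro i
      have := hxx i
      rwa [IntTool_sg_cast] at this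
    have h5 : ∀ i : Fin n, ((r i : ℤ) : ℝ) * (IntTool_a A i ⬝ᵥ x) =
        (((IntTool_s c i : ℤ) : ℝ) * ((r i : ℤ) : ℝ)) *
          (((IntTool_s c i : ℤ) : ℝ) * (IntTool_a A i ⬝ᵥ x)) := by
      intro i
      calc ((r i : ℤ) : ℝ) * (IntTool_a A i ⬝ᵥ x)
          = (((IntTool_s c i : ℤ) : ℝ) * ((IntTool_s c i : ℤ) : ℝ)) *
            (((r i : ℤ) : ℝ) * (IntTool_a A i ⬝ᵥ x)) := by rw [hs i, one_mul]
        _ = _ := by ring
    have h6 : ∀ i : Fin n, 0 ≤ ((IntTool_s c i : ℤ) : ℝ) * ((r i : ℤ) : ℝ) := by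
      intro i
      exact_mod_cast hx i
    have h7 : 0 < ((IntTool_s c i0 : ℤ) : ℝ) * ((r i0 : ℤ) : ℝ) := by
      refine lt_of_le_of_ne (h6 i0) fun h => ?_
      have h8 : ((r i0 : ℤ) : ℝ) = ((IntTool_s c i0 : ℤ) : ℝ) *
          (((IntTool_s c i0 : ℤ) : ℝ) * ((r i0 : ℤ) : ℝ)) := by
        rw [← mul_assoc, hs i0, one_mul]
      rw [← h, mul_zero] at h8
      exact hi0 (by exact_mod_cast h8)
    have h9 : 0 < ∑ i, ((r i : ℤ) : ℝ) * (IntTool_a A i ⬝ᵥ x) := by
      refine Finset.sum_pos' (fun i _ => ?_) ⟨i0, Finset.mem_univ _, ?_⟩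
      · rw [h5 i]
        exact mul_nonneg (h6 i) (hx' i).le
      · rw [h5 i0]
        exact mul_pos h7 (hx' i0)
    exact absurd h4 h9.ne'

/-! ### codes -/

theorem IntTool_flip (n c : ℕ) (i : Fin n) :
    flip (IntTool_sg n c) i = IntTool_sg n (c ^^^ 2 ^ (i : ℕ)) := by
  funext j
  rw [Chain_flip_apply]
  unfold IntTool_sg
  rw [Nat.testBit_xor, Nat.testBit_two_pow]
  by_cases h : j = i
  · subst h
    rw [if_pos rfl]
    cases hb : c.testBit j <;> simp
  · have h1 : ¬ ((i : ℕ) = (j : ℕ)) := fun h' => h (Fin.ext h'.symm)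
    rw [if_neg h]
    simp [h1]

theorem IntTool_neg (n c : ℕ) : -(IntTool_sg n c) = IntTool_sg n (c ^^^ (2 ^ n - 1)) := by
  funext j
  rw [Pi.neg_apply]
  unfold IntTool_sg
  rw [Nat.testBit_xor, Nat.testBit_two_pow_sub_one]
  cases hb : c.testBit j <;> simp

theorem IntTool_xor_lt {n c d : ℕ} (hc : c < 2 ^ n) (hd : d < 2 ^ n) : c ^^^ d < 2 ^ n :=
  Nat.xor_lt_two_pow hc hd

theorem IntTool_flip_lt {n c : ℕ} (hc : c < 2 ^ n) (i : Fin n) : c ^^^ 2 ^ (i : ℕ) < 2 ^ n :=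
  IntTool_xor_lt hc (Nat.pow_lt_pow_right (by norm_num) i.2)

theorem IntTool_neg_lt {n c : ℕ} (hc : c < 2 ^ n) : c ^^^ (2 ^ n - 1) < 2 ^ n :=
  IntTool_xor_lt hc (Nat.sub_lt (by positivity) one_pos)

theorem IntTool_sg_inj {n c d : ℕ} (hc : c < 2 ^ n) (hd : d < 2 ^ n)
    (h : IntTool_sg n c = IntTool_sg n d) : c = d := by
  refine Nat.eq_of_testBit_eq fun i => ?_
  by_cases hi : i < n
  · have h1 := congrFun h ⟨i, hi⟩
    unfold IntTool_sg at h1
    simp only at h1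
    cases hb : c.testBit i <;> cases hb' : d.testBit i <;> simp [hb, hb'] at h1 ⊢
  · have hp : 2 ^ n ≤ 2 ^ i := Nat.pow_le_pow_right (by norm_num) (not_lt.1 hi)
    rw [Nat.testBit_lt_two_pow (lt_of_lt_of_le hc hp), Nat.testBit_lt_two_pow (lt_of_lt_of_le hd hp)]

theorem IntTool_sg_surj {n : ℕ} (ε : Fin n → ℤˣ) : ∃ c, c < 2 ^ n ∧ IntTool_sg n c = ε := by
  refine ⟨Nat.ofBits (fun i : Fin n => decide (ε i = 1)), Nat.ofBits_lt_two_pow _, ?_⟩
  funext i
  unfold IntTool_sg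
  rw [Nat.testBit_ofBits_lt _ _ i.2]
  rcases Int.units_eq_one_or (ε i) with e | e
  · simp [e]
  · simp [e]

/-- the number of edges of the face with the code `c` -/
def IntTool_deg (n M c : ℕ) : ℕ := ((List.range n).filter fun i => M.testBit (c ^^^ 2 ^ i)).length

/-- twice the number of `k`-gons -/
def IntTool_c (n M k : ℕ) : ℕ :=
  ((List.range (2 ^ n)).filter fun c => M.testBit c && (IntTool_deg n M c == k)).length

theorem IntTool_list {N : ℕ} (p : ℕ → Bool) :
    ((List.range N).filter p).length = ((Finset.range N).filter fun i => p i = true).card := by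
  rw [← List.toFinset_card_of_nodup (List.nodup_range.filter _)]
  congr 1
  ext i
  simp

theorem IntTool_sz {n : ℕ} {A : Fin n → Fin 3 → ℤ} {M : ℕ} {T : List (Fin 3 → ℤ)}
    {R : List (Fin n → ℤ)} (h : IntTool_ok A M T R = true) {c : ℕ} (hc : c < 2 ^ n) :
    sz (IntTool_a A) (IntTool_sg n c) = IntTool_deg n M c := by
  have e1 : edgeSet (IntTool_a A) (IntTool_sg n c) =
      {i : Fin n | M.testBit (c ^^^ 2 ^ (i : ℕ)) = true} := by
    ext i
    rw [edgeSet, Set.mem_setOf_eq, Set.mem_setOf_eq, IntTool_flip,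
      IntTool_tope h (IntTool_flip_lt hc i)]
  rw [sz, e1, IntTool_deg, IntTool_list, ← Set.ncard_image_of_injective _ Fin.val_injective,
    ← Set.ncard_coe_finset]
  congr 1
  ext i
  simp only [Set.mem_image, Set.mem_setOf_eq, Finset.coe_filter, Finset.mem_range]
  constructor
  · rintro ⟨x, hx, rfl⟩
    exact ⟨x.2, hx⟩
  · rintro ⟨h1, h2⟩
    exact ⟨⟨i, h1⟩, h2, rfl⟩

theorem IntTool_cnt {n : ℕ} {A : Fin n → Fin 3 → ℤ} {M : ℕ} {T : List (Fin 3 → ℤ)}
    {R : List (Fin n → ℤ)} (h : IntTool_ok A M T R = true) (k : ℕ) :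
    cnt (IntTool_a A) k = IntTool_c n M k := by
  have e1 : {ε : Fin n → ℤˣ | Tope (IntTool_a A) ε ∧ sz (IntTool_a A) ε = k} =
      IntTool_sg n '' {c : ℕ | c < 2 ^ n ∧ M.testBit c = true ∧ IntTool_deg n M c = k} := by
    ext ε
    simp only [Set.mem_image, Set.mem_setOf_eq]
    constructor
    · rintro ⟨h1, h2⟩
      obtain ⟨c, hc, rfl⟩ := IntTool_sg_surj ε
      rw [IntTool_sz h hc] at h2
      rw [IntTool_tope h hc] at h1
      exact ⟨c, ⟨hc, h1, h2⟩, rfl⟩
    · rintro ⟨c, ⟨hc, h1, h2⟩, rfl⟩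
      rw [IntTool_sz h hc, IntTool_tope h hc]
      exact ⟨h1, h2⟩
  rw [cnt, e1, Set.ncard_image_of_injOn, IntTool_c, IntTool_list, ← Set.ncard_coe_finset]
  · congr 1
    ext i
    simp
  · intro c hc d hd hcd
    exact IntTool_sg_inj hc.1 hd.1 hcd

/-- all triples of different rows are linearly independent -/
def IntTool_simp {n : ℕ} (A : Fin n → Fin 3 → ℤ) : Bool :=
  decide (∀ i j l : Fin n, i < j → j < l →
    A i 0 * (A j 1 * A l 2 - A j 2 * A l 1) - A i 1 * (A j 0 * A l 2 - A j 2 * A l 0) +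
      A i 2 * (A j 0 * A l 1 - A j 1 * A l 0) ≠ 0)

theorem IntTool_simple {n : ℕ} {A : Fin n → Fin 3 → ℤ} (h : IntTool_simp A = true) :
    Simple (IntTool_a A) := by
  unfold IntTool_simp at h
  rw [decide_eq_true_eq] at h
  have key : ∀ i j l : Fin n, i ≠ j → j ≠ l → i ≠ l →
      A i 0 * (A j 1 * A l 2 - A j 2 * A l 1) - A i 1 * (A j 0 * A l 2 - A j 2 * A l 0) +
      A i 2 * (A j 0 * A l 1 - A j 1 * A l 0) ≠ 0 := by
    intro i j l h1 h2 h3 h0
    rcases lt_or_gt_of_ne h1 with h1 | h1 <;> rcases lt_or_gt_of_ne h2 with h2 | h2 <;>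
      rcases lt_or_gt_of_ne h3 with h3 | h3
    · exact h i j l h1 h2 h0
    · exact absurd (h1.trans h2) h3.not_gt
    · exact h i l j h3 h2 (by linear_combination -h0)
    · exact h l i j h3 h1 (by linear_combination h0)
    · exact h j i l h1 h3 (by linear_combination -h0)
    · exact h j l i h2 h3 (by linear_combination h0)
    · exact absurd (h2.trans h1) h3.not_gt
    · exact h l j i h2 h1 (by linear_combination -h0)
  intro i j l h1 h2 h3
  refine Matrix.linearIndependent_rows_of_det_ne_zero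
    (A := Matrix.of ![IntTool_a A i, IntTool_a A j, IntTool_a A l]) ?_
  rw [Matrix.det_fin_three]
  intro h0
  refine key i j l h1 h2 h3 ?_
  have : ((A i 0 * (A j 1 * A l 2 - A j 2 * A l 1) - A i 1 * (A j 0 * A l 2 - A j 2 * A l 0) +
      A i 2 * (A j 0 * A l 1 - A j 1 * A l 0) : ℤ) : ℝ) = 0 := by
    push_cast
    simp only [Matrix.of_apply, Matrix.cons_val_zero, Matrix.cons_val_one, Matrix.cons_val,
      IntTool_a] at h0
    linear_combination h0
  exact_mod_cast this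

theorem IntTool_F {n : ℕ} {A : Fin n → Fin 3 → ℤ} {M : ℕ} {T : List (Fin 3 → ℤ)}
    {R : List (Fin n → ℤ)} (h : IntTool_ok A M T R = true) {c k : ℕ} (hc : c < 2 ^ n)
    (h1 : M.testBit c = true) (h2 : IntTool_deg n M c = k) :
    Chain_F (IntTool_a A) (IntTool_sg n c) k :=
  ⟨(IntTool_tope h hc).2 h1, by rw [IntTool_sz h hc, h2]⟩

/-- `Chain_Away` for codes -/
def IntTool_away (n c i d : ℕ) : Bool :=
  decide (d ≠ c ∧ d ≠ c ^^^ (2 ^ n - 1) ∧ d ≠ c ^^^ 2 ^ i ∧ d ≠ (c ^^^ 2 ^ i) ^^^ (2 ^ n - 1))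

theorem IntTool_away_iff {n c d : ℕ} (hc : c < 2 ^ n) (hd : d < 2 ^ n) (i : Fin n)
    (h : IntTool_away n c i d = true) : Chain_Away (IntTool_sg n c) i (IntTool_sg n d) := by
  unfold IntTool_away at h
  rw [decide_eq_true_eq] at h
  obtain ⟨h1, h2, h3, h4⟩ := h
  have hf := IntTool_flip_lt hc i
  refine ⟨fun h => h1 (IntTool_sg_inj hd hc h), fun h => ?_, fun h => ?_, fun h => ?_⟩
  · rw [IntTool_neg] at h
    exact h2 (IntTool_sg_inj hd (IntTool_neg_lt hc) h)
  · rw [IntTool_flip] at h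
    exact h3 (IntTool_sg_inj hd hf h)
  · rw [IntTool_flip, IntTool_neg] at h
    exact h4 (IntTool_sg_inj hd (IntTool_neg_lt hf) h)

theorem IntTool_cfg {n : ℕ} {A : Fin n → Fin 3 → ℤ} {M : ℕ} {T : List (Fin 3 → ℤ)}
    {R : List (Fin n → ℤ)} (h : IntTool_ok A M T R = true) (hs : IntTool_simp A = true) {P : ℕ}
    (K : Multiset ℕ) (h3 : IntTool_c n M 3 = 2 * P)
    (hk : ∀ k, k ≤ n → 5 ≤ k → IntTool_c n M k = 2 * K.count k)
    (hb : ∀ k ∈ K, k ≤ n) : Cfg n P K (IntTool_a A) := by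
  refine ⟨IntTool_simple hs, Fintype.card_fin n, by rw [IntTool_cnt h, h3], fun k hk5 => ?_⟩
  by_cases hkn : k ≤ n
  · rw [IntTool_cnt h, hk k hkn hk5]
  · rw [Multiset.count_eq_zero.2 fun hh => hkn (hb k hh), mul_zero, IntTool_cnt h, IntTool_c,
      List.length_eq_zero_iff, List.filter_eq_nil_iff]
    intro c _ hc
    rw [Bool.and_eq_true, beq_iff_eq] at hc
    have h5 : IntTool_deg n M c ≤ n := by
      unfold IntTool_deg
      exact (List.length_filter_le _ _).trans (by rw [List.length_range])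
    omega

/-- the codes `cF j` and the lines `l j` are marks with the sizes `f j` -/
def IntTool_marks {n m : ℕ} (M : ℕ) (cF : Fin m → ℕ) (l : Fin m → Fin n) (f : Fin m → ℕ) : Bool :=
  decide (∀ j, cF j < 2 ^ n ∧ M.testBit (cF j) = true ∧ IntTool_deg n M (cF j) = f j ∧
    M.testBit (cF j ^^^ 2 ^ ((l j : Fin n) : ℕ)) = true ∧
    IntTool_deg n M (cF j ^^^ 2 ^ ((l j : Fin n) : ℕ)) = 3) &&
  decide (∀ i j, i ≠ j → l i ≠ l j ∧ IntTool_away n (cF i) (l i) (cF j) = true ∧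
    IntTool_away n (cF i) (l i) (cF j ^^^ 2 ^ ((l j : Fin n) : ℕ)) = true)

/-- `Marked` for an explicit integer arrangement; all hypotheses are checked by `decide +kernel`
(except perhaps `hk`, `hb`) -/
theorem IntTool_marked {n m : ℕ} (A : Fin n → Fin 3 → ℤ) (M : ℕ) (T : List (Fin 3 → ℤ))
    (R : List (Fin n → ℤ)) (cF : Fin m → ℕ) (l : Fin m → Fin n) {P : ℕ} {f : Fin m → ℕ}
    {K : Multiset ℕ} (h : IntTool_ok A M T R = true) (hs : IntTool_simp A = true) (hn : 4 ≤ n)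
    (hm : IntTool_marks M cF l f = true) (h3 : IntTool_c n M 3 = 2 * P)
    (hk : ∀ k, k ≤ n → 5 ≤ k →
      IntTool_c n M k = 2 * (Multiset.map f Finset.univ.val + K).count k)
    (hb : ∀ k ∈ Multiset.map f Finset.univ.val + K, k ≤ n) : Marked m n P f K := by
  unfold IntTool_marks at hm
  rw [Bool.and_eq_true, decide_eq_true_eq, decide_eq_true_eq] at hm
  obtain ⟨hm1, hm2⟩ := hm
  have hf : ∀ j, cF j ^^^ 2 ^ ((l j : Fin n) : ℕ) < 2 ^ n := fun j => IntTool_flip_lt (hm1 j).1 _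
  refine ⟨Fin n, inferInstance, inferInstance, IntTool_a A, IntTool_cfg h hs _ h3 hk hb, hn,
    fun j => IntTool_sg n (cF j), l, fun i j hij => ?_, fun j => ?_, fun j => ?_, fun i j hij => ?_⟩
  · by_contra hne
    exact (hm2 i j hne).1 hij
  · exact IntTool_F h (hm1 j).1 (hm1 j).2.1 (hm1 j).2.2.1
  · rw [IntTool_flip]
    exact IntTool_F h (hf j) (hm1 j).2.2.2.1 (hm1 j).2.2.2.2
  · refine ⟨IntTool_away_iff (hm1 i).1 (hm1 j).1 _ (hm2 i j hij).2.1, ?_⟩
    rw [IntTool_flip]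
    exact IntTool_away_iff (hm1 i).1 (hf j) _ (hm2 i j hij).2.2

end Pool.Agent.H.MP_b7f8b0_co.helper73
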