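import Pool.Agent.H.MP_b7f8b0_co.helper73.Defs

set_option autoImplicit false
open Matrix

namespace Pool.Agent.H.MP_b7f8b0_co.helper73

private theorem Transport_tope {ι κ : Type} (e : κ ≃ ι) (a : ι → V3) (ε : ι → ℤˣ) :
    Tope (fun j => a (e j)) (fun j => ε (e j)) ↔ Tope a ε := by
  unfold Tope
  constructor
  · rintro ⟨x, hx⟩
    refine ⟨x, fun i => ?_⟩
    have h := hx (e.symm i)
    dsimp only at h
    rwa [Equiv.apply_symm_apply] at h
  · rintro ⟨x, hx⟩
    exact ⟨x, fun j => hx (e j)⟩

private theorem Transport_flip {ι κ : Type} [DecidableEq ι] [DecidableEq κ] (e : κ ≃ ι)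
    (ε : ι → ℤˣ) (j : κ) :
    flip (fun j => ε (e j)) j = fun k => flip ε (e j) (e k) := by
  funext k
  unfold flip
  by_cases h : k = j
  · rw [h, Function.update_self, Function.update_self]
  · have h' : e k ≠ e j := fun h2 => h (e.injective h2)
    rw [Function.update_of_ne h, Function.update_of_ne h']

private theorem Transport_sz {ι κ : Type} [DecidableEq ι] [DecidableEq κ] (e : κ ≃ ι)
    (a : ι → V3) (ε : ι → ℤˣ) :
    sz (fun j => a (e j)) (fun j => ε (e j)) = sz a ε := by
  unfold sz
  have h : edgeSet a ε = e '' edgeSet (fun j => a (e j)) (fun j => ε (e j)) := by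
    ext i
    unfold edgeSet
    constructor
    · intro hi
      refine ⟨e.symm i, ?_, Equiv.apply_symm_apply e i⟩
      show Tope (fun j => a (e j)) (flip (fun j => ε (e j)) (e.symm i))
      rw [Transport_flip, Equiv.apply_symm_apply, Transport_tope e a (flip ε i)]
      exact hi
    · rintro ⟨j, hj, rfl⟩
      have hj' : Tope (fun j => a (e j)) (flip (fun j => ε (e j)) j) := hj
      rw [Transport_flip, Transport_tope e a (flip ε (e j))] at hj'
      exact hj'
  rw [h, Set.ncard_image_of_injective _ e.injective]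

theorem cnt_equiv {ι κ : Type} [DecidableEq ι] [DecidableEq κ] (e : κ ≃ ι) (a : ι → V3) (k : ℕ) :
    cnt (fun j => a (e j)) k = cnt a k := by
  unfold cnt
  have hinj : Function.Injective (fun (ε : ι → ℤˣ) (j : κ) => ε (e j)) := by
    intro ε ε' h
    funext i
    have h1 := congrFun h (e.symm i)
    simpa using h1
  have h : {ε : κ → ℤˣ | Tope (fun j => a (e j)) ε ∧ sz (fun j => a (e j)) ε = k} =
      (fun (ε : ι → ℤˣ) (j : κ) => ε (e j)) '' {ε : ι → ℤˣ | Tope a ε ∧ sz a ε = k} := by
    ext η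
    constructor
    · rintro ⟨h1, h2⟩
      have hη : (fun j => (fun i => η (e.symm i)) (e j)) = η := by
        funext j
        simp
      refine ⟨fun i => η (e.symm i), ⟨?_, ?_⟩, hη⟩
      · rw [← Transport_tope e, hη]
        exact h1
      · rw [← Transport_sz e, hη]
        exact h2
    · rintro ⟨ε, ⟨h1, h2⟩, rfl⟩
      exact ⟨(Transport_tope e a ε).2 h1, by
        rw [← h2]
        exact Transport_sz e a ε⟩
  rw [h, Set.ncard_image_of_injective _ hinj]

theorem rlz_fin {n P : ℕ} {K : Multiset ℕ} (h : Rlz n P K) : ∃ a : Fin n → V3, Cfg n P K a := by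
  obtain ⟨ι, hι, hd, a, h1, h2, h3, h4⟩ := h
  obtain ⟨e⟩ : Nonempty (Fin n ≃ ι) := ⟨(Fintype.equivFinOfCardEq h2).symm⟩
  refine ⟨fun j => a (e j), ?_, Fintype.card_fin n, ?_, fun k hk => ?_⟩
  · intro i j l hij hjl hil
    exact h1 (e i) (e j) (e l) (fun h => hij (e.injective h)) (fun h => hjl (e.injective h))
      (fun h => hil (e.injective h))
  · rw [cnt_equiv e a 3]
    exact h3
  · rw [cnt_equiv e a k]
    exact h4 k hk

end Pool.Agent.H.MP_b7f8b0_co.helper73
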