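import Pool.Agent.H.MP_b7f8b0_co.helper73.ChainP
import Pool.Agent.H.MP_b7f8b0_co.helper73.Upper
import Pool.Agent.H.MP_b7f8b0_co.helper73.Levi
import Pool.Agent.H.MP_b7f8b0_co.helper73.Transport

set_option autoImplicit false
open Matrix

namespace Pool.Agent.H.MP_b7f8b0_co.helper73

/-- the multiset of the big faces of the sequence `p` -/
def bigs (N : ℕ) (p : ℕ → ℕ) : Multiset ℕ := ∑ k ∈ Finset.Icc 5 N, Multiset.replicate (p k) k

theorem count_bigs (N : ℕ) (p : ℕ → ℕ) (hN : ∀ k, N < k → p k = 0) {k : ℕ} (hk : 5 ≤ k) :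
    (bigs N p).count k = p k := by
  classical
  unfold bigs
  rw [Multiset.count_sum']
  simp only [Multiset.count_replicate]
  by_cases h : k ≤ N
  · rw [Finset.sum_eq_single k]
    · simp
    · intro b _ hb
      simp [hb]
    · intro h1
      exact absurd (Finset.mem_Icc.2 ⟨hk, h⟩) h1
  · rw [hN k (by omega)]
    apply Finset.sum_eq_zero
    intro b hb
    have := (Finset.mem_Icc.1 hb).2
    rw [if_neg (by omega)]

theorem mem_bigs {N : ℕ} {p : ℕ → ℕ} {k : ℕ} (h : k ∈ bigs N p) : 5 ≤ k ∧ k ≤ N := by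
  unfold bigs at h
  rw [Multiset.mem_sum] at h
  obtain ⟨i, hi, h1⟩ := h
  rw [Multiset.mem_replicate] at h1
  rw [h1.2]
  exact Finset.mem_Icc.1 hi

theorem card_bigs (N : ℕ) (p : ℕ → ℕ) : (bigs N p).card = ∑ k ∈ Finset.Icc 5 N, p k := by
  unfold bigs
  rw [Multiset.card_sum]
  simp

theorem sum_bigs (N : ℕ) (p : ℕ → ℕ) :
    ((bigs N p).map (fun k => k - 4)).sum = ∑ k ∈ Finset.Icc 5 N, (k - 4) * p k := by
  classical
  unfold bigs
  induction Finset.Icc 5 N using Finset.induction_on with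
  | empty => simp
  | insert k s hk ih =>
    rw [Finset.sum_insert hk, Finset.sum_insert hk, Multiset.map_add, Multiset.sum_add, ih]
    simp [mul_comm]

theorem card_filter_bigs (N : ℕ) (p : ℕ → ℕ) (q : ℕ → Prop) [DecidablePred q] :
    ((bigs N p).filter q).card = ∑ k ∈ (Finset.Icc 5 N).filter q, p k := by
  classical
  rw [Finset.sum_filter]
  unfold bigs
  induction Finset.Icc 5 N using Finset.induction_on with
  | empty => simp
  | insert k s hk ih =>
    rw [Finset.sum_insert hk, Finset.sum_insert hk, Multiset.filter_add, Multiset.card_add, ih]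
    congr 1
    by_cases h : q k
    · rw [if_pos h, Multiset.filter_eq_self.2]
      · simp
      · intro b hb
        rw [Multiset.eq_of_mem_replicate hb]; exact h
    · rw [if_neg h, Multiset.filter_eq_nil.2]
      · simp
      · intro b hb
        rw [Multiset.eq_of_mem_replicate hb]; exact h

/-- the set `N(s)` of the sequence `p` -/
def NN (p : ℕ → ℕ) : Set ℕ := {n : ℕ | ∃ a : Fin n → (Fin 3 → ℝ),
        (∀ i j l : Fin n, i ≠ j → j ≠ l → i ≠ l →
            LinearIndependent ℝ ![a i, a j, a l]) ∧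
        ∀ k : ℕ, 3 ≤ k → k ≠ 4 →
          {ε : Fin n → ℤˣ |
              (∃ x : Fin 3 → ℝ, ∀ i, 0 < ((ε i : ℤ) : ℝ) * dotProduct (a i) x) ∧
              {i : Fin n | ∃ x : Fin 3 → ℝ, ∀ j,
                  0 < (((Function.update ε i (-ε i)) j : ℤ) : ℝ) * dotProduct (a j) x}.ncard
                = k}.ncard = 2 * p k}

theorem cfg_of_mem {N : ℕ} {p : ℕ → ℕ} (hN : ∀ k, N < k → p k = 0) {n : ℕ} (h : n ∈ NN p) :
    ∃ a : Fin n → V3, Cfg n (p 3) (bigs N p) a := by
  obtain ⟨a, ha, h1⟩ := h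
  refine ⟨a, ha, by simp, h1 3 le_rfl (by norm_num), ?_⟩
  intro k hk
  rw [count_bigs N p hN hk]
  exact h1 k (by omega) (by omega)

theorem mem_of_rlz {N : ℕ} {p : ℕ → ℕ} (hN : ∀ k, N < k → p k = 0) {n : ℕ}
    (h : Rlz n (p 3) (bigs N p)) : n ∈ NN p := by
  obtain ⟨a, ha, _, h3, h5⟩ := rlz_fin h
  refine ⟨a, ha, ?_⟩
  intro k hk hk4
  rcases eq_or_lt_of_le hk with h6 | h6
  · rw [← h6]; exact h3
  · rw [← count_bigs N p hN (show 5 ≤ k by omega)]
    exact h5 k (by omega)

theorem three_le_of_mem {p : ℕ → ℕ} {n : ℕ} (h3 : 0 < p 3) (h : n ∈ NN p) : 3 ≤ n := by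
  obtain ⟨a, _, h1⟩ := h
  have h2 := h1 3 le_rfl (by norm_num)
  have h4 : {ε : Fin n → ℤˣ |
              (∃ x : Fin 3 → ℝ, ∀ i, 0 < ((ε i : ℤ) : ℝ) * dotProduct (a i) x) ∧
              {i : Fin n | ∃ x : Fin 3 → ℝ, ∀ j,
                  0 < (((Function.update ε i (-ε i)) j : ℤ) : ℝ) * dotProduct (a j) x}.ncard
                = 3}.Nonempty := by
    by_contra h5
    rw [Set.not_nonempty_iff_eq_empty.1 h5, Set.ncard_empty] at h2
    omega
  obtain ⟨ε, _, h5⟩ := h4
  have h6 := Set.ncard_le_ncard (Set.subset_univ {i : Fin n | ∃ x : Fin 3 → ℝ, ∀ j,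
                  0 < (((Function.update ε i (-ε i)) j : ℤ) : ℝ) * dotProduct (a j) x})
  rw [h5, Set.ncard_univ, Nat.card_eq_fintype_card, Fintype.card_fin] at h6
  exact h6

/-- all results of the first part about one sequence -/
theorem main (N : ℕ) (p : ℕ → ℕ) (hN : ∀ k, N < k → p k = 0)
    (hp : p 3 = 4 + ∑ k ∈ Finset.Icc 5 N, (k - 4) * p k) (r R : ℕ)
    (hr : r = ∑ k ∈ Finset.Icc 5 N, p k)
    (hR : R = ∑ k ∈ (Finset.Icc 5 N).filter (fun k => 2 * r - 1 ≤ k), p k) :
    (∀ n ∈ NN p, n ≤ p 3) ∧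
    (2 ≤ r → ∀ n ∈ NN p, p 3 + R + 2 ≤ n + 2 * r) ∧
    (p 3 ∈ NN p) ∧
    (∀ e, 1 ≤ e → e + 2 ≤ r → (∃ g, e + 4 ≤ g ∧ 5 ≤ g ∧ p g ≠ 0) →
      (e = 1 ∨ e ≤ ∑ k ∈ Finset.Icc 6 N, p k) → p 3 - e ∈ NN p) ∧
    (r = 1 → NN p = {p 3}) ∧
    (2 ≤ r → r ≤ R + 1 → ∃ m, p 3 + 1 ≤ m + r ∧ m + r ≤ p 3 + 2 ∧ (R = r → m + r = p 3 + 2) ∧
      NN p = Set.Icc m (p 3)) := by
  have hK : ∀ k ∈ bigs N p, 5 ≤ k := fun k hk => (mem_bigs hk).1
  have hcard : (bigs N p).card = r := by rw [card_bigs, hr]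
  have hsum : 4 + ((bigs N p).map (fun k => k - 4)).sum = p 3 := by rw [sum_bigs, hp]
  have hfil : ((bigs N p).filter (fun k => 2 * (bigs N p).card - 1 ≤ k)).card = R := by
    rw [card_filter_bigs, hcard, hR]
  have h1 : ∀ n ∈ NN p, n ≤ p 3 := by
    intro n hn
    by_cases h4 : 4 ≤ n
    · obtain ⟨a, ha, _, h3, _⟩ := cfg_of_mem hN hn
      have := levi ha (by simpa using h4)
      rw [h3] at this
      simp at this
      omega
    · omega
  have h2 : 2 ≤ r → ∀ n ∈ NN p, p 3 + R + 2 ≤ n + 2 * r := by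
    intro h2 n hn
    obtain ⟨a, ha⟩ := cfg_of_mem hN hn
    have := upper ha hK hsum.symm (by rw [hcard]; exact h2)
    rw [hfil, hcard] at this
    exact this
  have h3 : p 3 ∈ NN p := by
    apply mem_of_rlz hN
    have := eberhard (bigs N p) hK
    rwa [hsum] at this
  have h4 : ∀ e, 1 ≤ e → e + 2 ≤ r → (∃ g, e + 4 ≤ g ∧ 5 ≤ g ∧ p g ≠ 0) →
      (e = 1 ∨ e ≤ ∑ k ∈ Finset.Icc 6 N, p k) → p 3 - e ∈ NN p := by
    intro e he her hg h6
    apply mem_of_rlz hN
    have := chain' (bigs N p) hK e he (by rw [hcard]; exact her) ?_ ?_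
    · rwa [hsum] at this
    · obtain ⟨g, hg1, hg2, hg3⟩ := hg
      refine ⟨g, ?_, hg1⟩
      have h7 := count_bigs N p hN hg2
      exact Multiset.count_pos.1 (by rw [h7]; omega)
    · rw [card_filter_bigs]
      have h8 : (Finset.Icc 5 N).filter (fun k => 6 ≤ k) = Finset.Icc 6 N := by
        ext k
        simp only [Finset.mem_filter, Finset.mem_Icc]
        omega
      rw [h8]
      exact h6
  -- the range `1 ≤ e ≤ r - 2` if at least `r - 1` faces are large
  have h5 : r ≤ R + 1 → ∀ e, 1 ≤ e → e + 2 ≤ r → p 3 - e ∈ NN p := by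
    intro hrR e he her
    have hpos : 0 < R := by omega
    have h6 : ∃ k ∈ (Finset.Icc 5 N).filter (fun k => 2 * r - 1 ≤ k), p k ≠ 0 := by
      by_contra hcon
      push Not at hcon
      rw [hR, Finset.sum_eq_zero hcon] at hpos
      exact lt_irrefl _ hpos
    obtain ⟨g, hg1, hg2⟩ := h6
    rw [Finset.mem_filter, Finset.mem_Icc] at hg1
    apply h4 e he her ⟨g, by omega, hg1.1.1, hg2⟩
    by_cases he1 : e = 1
    · exact Or.inl he1
    · right
      have h7 : R ≤ ∑ k ∈ Finset.Icc 6 N, p k := by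
        rw [hR]
        apply Finset.sum_le_sum_of_subset
        intro k hk
        rw [Finset.mem_filter, Finset.mem_Icc] at hk
        rw [Finset.mem_Icc]
        omega
      omega
  have h0 : ∀ n ∈ NN p, 3 ≤ n := fun n hn => three_le_of_mem (by omega) hn
  have hone : r = 1 → ∀ n ∈ NN p, p 3 ≤ n := by
    intro h n hn
    obtain ⟨a, ha⟩ := cfg_of_mem hN hn
    exact upper_one ha hK hsum.symm (by rw [hcard]; exact h)
  have hzero : r = 0 → p 3 = 4 := by
    intro h
    have : bigs N p = 0 := Multiset.card_eq_zero.1 (by rw [hcard]; exact h)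
    rw [← hsum, this]
    simp
  refine ⟨h1, h2, h3, h4, ?_, ?_⟩
  · intro h
    ext n
    rw [Set.mem_singleton_iff]
    constructor
    · intro hn
      exact le_antisymm (h1 n hn) (hone h n hn)
    · rintro rfl
      exact h3
  · intro hr2 hrR
    have key : ∀ n, p 3 + 2 ≤ n + r → n ≤ p 3 → n ∈ NN p := by
      intro n hn1 hn2
      rcases eq_or_lt_of_le hn2 with h6 | h6
      · rw [h6]; exact h3
      · have h9 : p 3 - (p 3 - n) = n := by
          have := h0
          omega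
        rw [← h9]
        apply h5 hrR <;> omega
    by_cases hm : ∃ m ∈ NN p, m + r ≤ p 3 + 1
    · obtain ⟨m, hm1, hm2⟩ := hm
      have h7 := h2 hr2 m hm1
      have h8 := h1 m hm1
      refine ⟨m, by omega, by omega, fun h => by omega, ?_⟩
      ext n
      rw [Set.mem_Icc]
      constructor
      · intro hn
        have := h2 hr2 n hn
        exact ⟨by omega, h1 n hn⟩
      · rintro ⟨hn1, hn2⟩
        rcases eq_or_lt_of_le hn1 with h6 | h6
        · rw [← h6]; exact hm1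
        · exact key n (by omega) hn2
    · push Not at hm
      have h7 : r ≤ p 3 + 2 := by
        have h8 : ∑ k ∈ Finset.Icc 5 N, p k ≤ ∑ k ∈ Finset.Icc 5 N, (k - 4) * p k := by
          apply Finset.sum_le_sum
          intro k hk
          rw [Finset.mem_Icc] at hk
          exact Nat.le_mul_of_pos_left _ (by omega)
        omega
      refine ⟨p 3 + 2 - r, by omega, by omega, fun _ => by omega, ?_⟩
      ext n
      rw [Set.mem_Icc]
      constructor
      · intro hn
        have := hm n hn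
        exact ⟨by omega, h1 n hn⟩
      · rintro ⟨hn1, hn2⟩
        exact key n (by omega) hn2

end Pool.Agent.H.MP_b7f8b0_co.helper73
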