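import Pool.Agent.H.MP_b7f8b0_co.helper73.Six
import Pool.Agent.H.MP_b7f8b0_co.helper73.Almost
import Pool.Agent.H.MP_b7f8b0_co.helper73.Interval

set_option autoImplicit false
open Matrix

namespace Pool.Agent.H.MP_b7f8b0_co.helper73

theorem pp_bigs {N : ℕ} {p : ℕ → ℕ} (hp : p 3 = 4 + ∑ k ∈ Finset.Icc 5 N, (k - 4) * p k) :
    pp (bigs N p) = p 3 := by
  unfold pp
  rw [sum_bigs, hp]

theorem rr_iff {N : ℕ} {p : ℕ → ℕ} (hN : ∀ k, N < k → p k = 0)
    (hp : p 3 = 4 + ∑ k ∈ Finset.Icc 5 N, (k - 4) * p k) (e : ℕ) :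
    RR (bigs N p) e ↔ ∃ n ∈ NN p, n + e = p 3 := by
  constructor
  · rintro ⟨n, hn, h⟩
    rw [pp_bigs hp] at hn h
    exact ⟨n, mem_of_rlz hN h, hn⟩
  · rintro ⟨n, hn, h⟩
    refine ⟨n, by rw [pp_bigs hp, h], ?_⟩
    rw [pp_bigs hp]
    obtain ⟨a, ha⟩ := cfg_of_mem hN hn
    exact ⟨Fin n, inferInstance, inferInstance, a, ha⟩

theorem le_p3 {N : ℕ} {p : ℕ → ℕ} (hN : ∀ k, N < k → p k = 0)
    (hp : p 3 = 4 + ∑ k ∈ Finset.Icc 5 N, (k - 4) * p k) : ∀ n ∈ NN p, n ≤ p 3 :=
  (main N p hN hp _ _ rfl rfl).1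

/-- downward closed in `e` means interval -/
theorem ordConnected_of {N : ℕ} {p : ℕ → ℕ} (hN : ∀ k, N < k → p k = 0)
    (hp : p 3 = 4 + ∑ k ∈ Finset.Icc 5 N, (k - 4) * p k)
    (h : ∀ e e' : ℕ, e' ≤ e → RR (bigs N p) e → RR (bigs N p) e') : (NN p).OrdConnected := by
  constructor
  intro x hx y hy m hm
  have hx1 := le_p3 hN hp x hx
  have hy1 := le_p3 hN hp y hy
  have hm1 := hm.1
  have hm2 := hm.2
  have h1 : RR (bigs N p) (p 3 - x) := (rr_iff hN hp _).2 ⟨x, hx, by omega⟩
  have h2 := h _ (p 3 - m) (by omega) h1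
  obtain ⟨n, hn, h3⟩ := (rr_iff hN hp _).1 h2
  have h4 : n = m := by omega
  rw [← h4]; exact hn

/-- Q1 for at most six large faces -/
theorem main_six (N : ℕ) (p : ℕ → ℕ) (hN : ∀ k, N < k → p k = 0)
    (hp : p 3 = 4 + ∑ k ∈ Finset.Icc 5 N, (k - 4) * p k) (hr : ∑ k ∈ Finset.Icc 5 N, p k ≤ 6) :
    (NN p).OrdConnected := by
  have hK : ∀ k ∈ bigs N p, 5 ≤ k := fun k hk => (mem_bigs hk).1
  have hcard := card_bigs N p
  by_cases h4 : 4 ≤ ∑ k ∈ Finset.Icc 5 N, p k
  · apply ordConnected_of hN hp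
    intro e e' he h
    exact six hK (by rw [hcard]; exact hr) e e' he h (by rw [hcard]; exact h4)
  · obtain ⟨h1, _, h3, _, h5, h6⟩ := main N p hN hp _ _ rfl rfl
    generalize hr' : ∑ k ∈ Finset.Icc 5 N, p k = r at *
    have hR : r ≤ 3 → ∑ k ∈ (Finset.Icc 5 N).filter (fun k => 2 * r - 1 ≤ k), p k = r := by
      intro h
      rw [← hr']
      apply Finset.sum_congr _ (fun _ _ => rfl)
      rw [Finset.filter_eq_self]
      intro k hk
      rw [Finset.mem_Icc] at hk
      omega
    have : r = 0 ∨ r = 1 ∨ 2 ≤ r := by omega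
    rcases this with h | h | h
    · have h7 : bigs N p = 0 := Multiset.card_eq_zero.1 (by rw [hcard]; exact h)
      have h8 : p 3 = 4 := by
        rw [← pp_bigs hp, h7]
        rfl
      constructor
      intro x hx y hy m hm
      have hx3 := three_le_of_mem (by omega) hx
      have hy1 := h1 y hy
      have hm1 := hm.1
      have hm2 := hm.2
      have : m = x ∨ m = y := by omega
      rcases this with h9 | h9
      · rw [h9]; exact hx
      · rw [h9]; exact hy
    · rw [h5 h]
      exact Set.ordConnected_singleton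
    · obtain ⟨m, _, _, _, h9⟩ := h6 h (by rw [hR (by omega)]; omega)
      rw [h9]
      exact Set.ordConnected_Icc

theorem bigs_add (N : ℕ) (p q : ℕ → ℕ) : bigs N (fun k => p k + q k) = bigs N p + bigs N q := by
  unfold bigs
  rw [← Finset.sum_add_distrib]
  apply Finset.sum_congr rfl
  intro k _
  rw [Multiset.replicate_add]

theorem bigs_mono {N N' : ℕ} {p : ℕ → ℕ} (hN : ∀ k, N < k → p k = 0) (h : N ≤ N') :
    bigs N' p = bigs N p := by
  unfold bigs
  symm
  apply Finset.sum_subset (Finset.Icc_subset_Icc_right h)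
  intro k hk hk'
  rw [Finset.mem_Icc] at hk hk'
  rw [hN k (by omega)]
  rfl

theorem mem_bigs_ne {N : ℕ} {p : ℕ → ℕ} {k : ℕ} (h : k ∈ bigs N p) : p k ≠ 0 := by
  unfold bigs at h
  rw [Multiset.mem_sum] at h
  obtain ⟨i, hi, h1⟩ := h
  rw [Multiset.mem_replicate] at h1
  rw [h1.2]; exact h1.1

/-- almost all numbers of very large faces -/
theorem main_almost (N : ℕ) (q : ℕ → ℕ) (hN : ∀ k, N < k → q k = 0) (t t6 : ℕ)
    (ht : t = ∑ k ∈ Finset.Icc 5 N, q k) (ht6 : t6 = ∑ k ∈ Finset.Icc 6 N, q k) (h1 : 1 ≤ t) :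
    ∃ B : Finset ℕ, B.card ≤ 2 * t - 1 - min t (t6 + 2) ∧ ∀ R, 1 ≤ R → R ∉ B →
      ∀ (N' : ℕ) (v p : ℕ → ℕ), (∀ k, N' < k → v k = 0) → (∀ k, k < 4 * (t + R) - 3 → v k = 0) →
        R = ∑ k ∈ Finset.Icc 5 N', v k → (∀ k, 5 ≤ k → p k = q k + v k) →
        p 3 = 4 + ∑ k ∈ Finset.Icc 5 (max N N'), (k - 4) * p k → (NN p).OrdConnected := by
  have hcard : (bigs N q).card = t := by rw [card_bigs, ht]
  have hfil : ((bigs N q).filter (fun k => 6 ≤ k)).card = t6 := by
    rw [card_filter_bigs, ht6]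
    congr 1
    ext k
    simp only [Finset.mem_filter, Finset.mem_Icc]
    omega
  obtain ⟨B, hB, h2⟩ := almost (μ := bigs N q) (fun k hk => (mem_bigs hk).1) (by rw [hcard]; exact h1)
  rw [hcard, hfil] at hB
  refine ⟨B, hB, ?_⟩
  intro R hR hRB N' v p hv hv' hRv hpqv hp
  have hpN : ∀ k, max N N' < k → (fun k => if 5 ≤ k then p k else if k = 3 then p 3 else 0) k = 0 := by
    intro k hk
    rw [max_lt_iff] at hk
    by_cases h5 : 5 ≤ k
    · simp only [if_pos h5]
      rw [hpqv k h5, hN k hk.1, hv k hk.2]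
    · simp only [if_neg h5]
      by_cases h3 : k = 3
      · exfalso
        subst h3
        have e0 : ∑ k ∈ Finset.Icc 5 N, q k = 0 := by
          apply Finset.sum_eq_zero
          intro j hj
          rw [Finset.mem_Icc] at hj
          omega
        omega
      · rw [if_neg h3]
  have hbig : bigs (max N N') (fun k => if 5 ≤ k then p k else if k = 3 then p 3 else 0)
      = bigs N q + bigs N' v := by
    rw [← bigs_mono hN (le_max_left N N'), ← bigs_mono hv (le_max_right N N'), ← bigs_add]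
    unfold bigs
    apply Finset.sum_congr rfl
    intro k hk
    rw [Finset.mem_Icc] at hk
    simp only [if_pos hk.1]
    rw [hpqv k hk.1]
  have hNN : NN (fun k => if 5 ≤ k then p k else if k = 3 then p 3 else 0) = NN p := by
    ext n
    unfold NN
    constructor
    · rintro ⟨a, ha, h3⟩
      refine ⟨a, ha, fun k hk hk4 => ?_⟩
      have h4 := h3 k hk hk4
      by_cases h5 : 5 ≤ k
      · simp only [if_pos h5] at h4; exact h4
      · have h6 : k = 3 := by omega
        subst h6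
        simpa using h4
    · rintro ⟨a, ha, h3⟩
      refine ⟨a, ha, fun k hk hk4 => ?_⟩
      have h4 := h3 k hk hk4
      by_cases h5 : 5 ≤ k
      · simp only [if_pos h5]; exact h4
      · have h6 : k = 3 := by omega
        subst h6
        simpa using h4
  rw [← hNN]
  apply ordConnected_of hpN
  · show p 3 = _
    rw [hp]
    congr 1
    apply Finset.sum_congr rfl
    intro k hk
    rw [Finset.mem_Icc] at hk
    simp only [if_pos hk.1]
  · rw [hbig]
    intro e e' he h
    refine h2 R hR hRB (bigs N' v) (by rw [card_bigs, hRv]) ?_ e e' he h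
    intro k hk
    rw [hcard]
    by_contra hcon
    exact mem_bigs_ne hk (hv' k (by omega))

/-- only the sizes below `4r - 3` matter -/
theorem main_trunc (N N' : ℕ) (p p' : ℕ → ℕ) (hN : ∀ k, N < k → p k = 0)
    (hN' : ∀ k, N' < k → p' k = 0)
    (hp : p 3 = 4 + ∑ k ∈ Finset.Icc 5 N, (k - 4) * p k)
    (hp' : p' 3 = 4 + ∑ k ∈ Finset.Icc 5 N', (k - 4) * p' k) (r : ℕ)
    (hr : r = ∑ k ∈ Finset.Icc 5 N, p k) (hr' : r = ∑ k ∈ Finset.Icc 5 N', p' k)
    (h : ∀ k, 5 ≤ k → k < 4 * r - 3 → p k = p' k) (e : ℕ) :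
    (∃ n ∈ NN p, n + e = p 3) ↔ (∃ n ∈ NN p', n + e = p' 3) := by
  rw [← rr_iff hN hp, ← rr_iff hN' hp']
  have key : ∀ (M : ℕ) (f : ℕ → ℕ), bigs M f =
      (bigs M f).filter (fun k => k < 4 * r - 3) + (bigs M f).filter (fun k => ¬ k < 4 * r - 3) :=
    fun M f => (Multiset.filter_add_not _ _).symm
  have hmu : (bigs N p).filter (fun k => k < 4 * r - 3) = (bigs N' p').filter (fun k => k < 4 * r - 3) := by
    ext k
    rw [Multiset.count_filter, Multiset.count_filter]
    by_cases hk : k < 4 * r - 3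
    · rw [if_pos hk, if_pos hk]
      by_cases h5 : 5 ≤ k
      · rw [count_bigs N p hN h5, count_bigs N' p' hN' h5, h k h5 hk]
      · rw [Multiset.count_eq_zero.2, Multiset.count_eq_zero.2]
        · exact fun h6 => h5 (mem_bigs h6).1
        · exact fun h6 => h5 (mem_bigs h6).1
    · rw [if_neg hk, if_neg hk]
  have c1 : (bigs N p).card = r := by rw [card_bigs, hr]
  have c2 : (bigs N' p').card = r := by rw [card_bigs, hr']
  have c3 := congrArg Multiset.card (key N p)
  have c4 := congrArg Multiset.card (key N' p')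
  rw [Multiset.card_add] at c3 c4
  rw [hmu] at c3
  constructor
  · intro h1
    rw [key N p, hmu] at h1
    rw [key N' p']
    refine stab (fun j hj => (mem_bigs (Multiset.mem_of_mem_filter hj)).1) (by omega) ?_ ?_ h1
    · intro k hk
      rw [Multiset.mem_filter] at hk
      refine ⟨(mem_bigs hk.1).1, ?_⟩
      have : ((bigs N' p').filter (fun k => k < 4 * r - 3)).card
        + ((bigs N p).filter (fun k => ¬ k < 4 * r - 3)).card = r := by omega
      rw [this]
      omega
    · intro k hk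
      rw [Multiset.mem_filter] at hk
      refine ⟨(mem_bigs hk.1).1, ?_⟩
      have : ((bigs N' p').filter (fun k => k < 4 * r - 3)).card
        + ((bigs N p).filter (fun k => ¬ k < 4 * r - 3)).card = r := by omega
      rw [this]
      omega
  · intro h1
    rw [key N' p'] at h1
    rw [key N p, hmu]
    refine stab (fun j hj => (mem_bigs (Multiset.mem_of_mem_filter hj)).1) (by omega) ?_ ?_ h1
    · intro k hk
      rw [Multiset.mem_filter] at hk
      refine ⟨(mem_bigs hk.1).1, ?_⟩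
      have : ((bigs N' p').filter (fun k => k < 4 * r - 3)).card
        + ((bigs N' p').filter (fun k => ¬ k < 4 * r - 3)).card = r := by omega
      rw [this]
      omega
    · intro k hk
      rw [Multiset.mem_filter] at hk
      refine ⟨(mem_bigs hk.1).1, ?_⟩
      have : ((bigs N' p').filter (fun k => k < 4 * r - 3)).card
        + ((bigs N' p').filter (fun k => ¬ k < 4 * r - 3)).card = r := by omega
      rw [this]
      omega

end Pool.Agent.H.MP_b7f8b0_co.helper73
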