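import Pool.Agent.H.MP_b7f8b0_co.helper73.Defs2

/-! Growing many faces independently. -/

set_option autoImplicit false
open Matrix

namespace Pool.Agent.H.MP_b7f8b0_co.helper73

section away
variable {ι : Type} [DecidableEq ι]

private theorem Marked_away {L r : ι} (hr : r ≠ L) {X m : ι → ℤˣ} (h : Chain_Away X r m) :
    Chain_Away (ext L X) (some r) (ext L m) := by
  obtain ⟨h1, h2, h3, h4⟩ := h
  unfold Chain_Away
  rw [Chain_flip_ext hr, ← Chain_ext_neg, ← Chain_ext_neg]
  exact ⟨fun h => h1 (Chain_ext_inj h), fun h => h2 (Chain_ext_inj h),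
    fun h => h3 (Chain_ext_inj h), fun h => h4 (Chain_ext_inj h)⟩

private theorem Marked_away_tri {L r : ι} (hr : r ≠ L) (X Y : ι → ℤˣ) :
    Chain_Away (ext L Y) (some r) (flip (ext L X) (some L)) := by
  unfold Chain_Away
  rw [Chain_flip_ext hr, ← Chain_ext_neg, ← Chain_ext_neg]
  exact ⟨(Chain_second L _ X).1.symm, (Chain_second L _ X).1.symm,
    (Chain_second L _ X).1.symm, (Chain_second L _ X).1.symm⟩

/-- the new state after one doubling -/
private theorem Marked_core [Fintype ι] {m n P : ℕ} {f : Fin m → ℕ} {K' : Multiset ℕ}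
    {a' : Option ι → V3} {F : Fin m → ι → ℤˣ} {l : Fin m → ι} {j : Fin m} {v : ℕ}
    (hcfg : Cfg n P (Multiset.map (Function.update f j v) Finset.univ.val + K') a')
    (hn : 4 ≤ n) (hinj : Function.Injective l) (Gj : Option ι → ℤˣ) (lj : Option ι)
    (hlj : ∀ i, i ≠ j → some (l i) ≠ lj) (h1 : Chain_F a' Gj v) (h2 : Chain_F a' (flip Gj lj) 3)
    (h3 : ∀ i, i ≠ j → Chain_F a' (ext (l j) (F i)) (f i) ∧
      Chain_F a' (ext (l j) (flip (F i) (l i))) 3)
    (hA : ∀ i k, i ≠ k → Chain_Away (F i) (l i) (F k) ∧
      Chain_Away (F i) (l i) (flip (F k) (l k)))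
    (hA1 : ∀ k, k ≠ j → Chain_Away Gj lj (ext (l j) (F k)) ∧
      Chain_Away Gj lj (ext (l j) (flip (F k) (l k))))
    (hA2 : ∀ i, i ≠ j → Chain_Away (ext (l j) (F i)) (some (l i)) Gj ∧
      Chain_Away (ext (l j) (F i)) (some (l i)) (flip Gj lj)) :
    Marked m n P (Function.update f j v) K' := by
  refine ⟨Option ι, inferInstance, inferInstance, a', hcfg, hn,
    Function.update (fun i => ext (l j) (F i)) j Gj, Function.update (fun i => some (l i)) j lj,
    ?_, ?_, ?_, ?_⟩
  · intro i k hik
    by_cases hi : i = j
    · by_cases hk : k = j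
      · rw [hi, hk]
      · rw [hi, Function.update_self, Function.update_of_ne hk] at hik
        exact absurd hik.symm (hlj k hk)
    · by_cases hk : k = j
      · rw [hk, Function.update_self, Function.update_of_ne hi] at hik
        exact absurd hik (hlj i hi)
      · rw [Function.update_of_ne hi, Function.update_of_ne hk] at hik
        exact hinj (Option.some_injective _ hik)
  · intro i
    by_cases hi : i = j
    · rw [hi, Function.update_self, Function.update_self]
      exact h1
    · rw [Function.update_of_ne hi, Function.update_of_ne hi]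
      exact (h3 i hi).1
  · intro i
    by_cases hi : i = j
    · rw [hi, Function.update_self, Function.update_self]
      exact h2
    · rw [Function.update_of_ne hi, Function.update_of_ne hi,
        Chain_flip_ext (fun h => hi (hinj h))]
      exact (h3 i hi).2
  · intro i k hik
    by_cases hi : i = j
    · have hk : k ≠ j := fun h => hik (hi.trans h.symm)
      rw [hi, Function.update_self, Function.update_self, Function.update_of_ne hk,
        Function.update_of_ne hk, Chain_flip_ext (fun h => hk (hinj h))]
      exact hA1 k hk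
    · have hil : l i ≠ l j := fun h => hi (hinj h)
      by_cases hk : k = j
      · rw [hk, Function.update_self, Function.update_self, Function.update_of_ne hi,
          Function.update_of_ne hi]
        exact hA2 i hi
      · rw [Function.update_of_ne hi, Function.update_of_ne hi, Function.update_of_ne hk,
          Function.update_of_ne hk, Chain_flip_ext (fun h => hk (hinj h))]
        exact ⟨Marked_away hil (hA i k hik).1, Marked_away hil (hA i k hik).2⟩

end away

private theorem Marked_map {m : ℕ} (f : Fin m → ℕ) (j : Fin m) (v : ℕ) :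
    Multiset.map (Function.update f j v) Finset.univ.val =
      v ::ₘ Multiset.map f (Finset.univ.erase j).val := by
  have h1 : (Finset.univ : Finset (Fin m)).val = j ::ₘ (Finset.univ.erase j).val := by
    rw [← Finset.insert_val_of_notMem (Finset.notMem_erase j _),
      Finset.insert_erase (Finset.mem_univ j)]
  rw [h1, Multiset.map_cons, Function.update_self]
  congr 1
  refine Multiset.map_congr rfl fun i hi => ?_
  have h2 : i ∈ Finset.univ.erase j := hi
  exact Function.update_of_ne (Finset.ne_of_mem_erase h2) _ _

private theorem Marked_map' {m : ℕ} (f : Fin m → ℕ) (j : Fin m) :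
    Multiset.map f Finset.univ.val = f j ::ₘ Multiset.map f (Finset.univ.erase j).val := by
  have h := Marked_map f j (f j)
  rwa [Function.update_eq_self] at h

theorem marked_grow {m n P : ℕ} {f : Fin m → ℕ} {K : Multiset ℕ} (h : Marked m n P f K) (j : Fin m)
    (hj : 4 ≤ f j) : Marked m (n + 1) (P + 1) (Function.update f j (f j + 1)) K := by
  obtain ⟨ι, _, _, a, hc, hn, F, l, hinj, h1, h2, hA⟩ := h
  obtain ⟨a', f1, f2, f3, f4, f5⟩ := Chain_step (x := f j) (y := 3) (P' := P + 1)
    (K := Multiset.map f (Finset.univ.erase j).val + K)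
    (Chain_cfg_congr hc fun k hk => by
      rw [Marked_map' f j, Multiset.cons_add]
      exact Chain_count_junk (y := 3) (by omega) k hk) hn (h1 j) (h2 j)
    (by rw [if_neg (by omega), if_pos rfl])
  refine Marked_core (a' := a') (F := F) (l := l) ?_ (by omega) hinj (ext (l j) (F j))
    (some (l j)) (fun i hi h => hi (hinj (Option.some_injective _ h))) f3 f5
    (fun i hi => ⟨f2 _ _ (h1 i) (hA j i (Ne.symm hi)).1, f2 _ _ (h2 i) (hA j i (Ne.symm hi)).2⟩) hA
    (fun k hk => ⟨Chain_away_ext (hA j k (Ne.symm hk)).1,
      Chain_away_ext (hA j k (Ne.symm hk)).2⟩)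
    (fun i hi => ⟨Marked_away (fun h => hi (hinj h)) (hA i j hi).1,
      Marked_away_tri (fun h => hi (hinj h)) _ _⟩)
  refine Chain_cfg_congr f1 fun k hk => ?_
  rw [Marked_map, Multiset.cons_add]
  exact (Chain_count_junk (y := 3 + 1) (by omega) k hk).symm

/-- the face `F j` is finished, and the triangle next to it, now a quadrangle, takes its place -/
theorem marked_switch {m n P : ℕ} {f : Fin m → ℕ} {K : Multiset ℕ} (h : Marked m n P f K) (j : Fin m)
    (hj : 4 ≤ f j) : Marked m (n + 1) (P + 1) (Function.update f j 4) ((f j + 1) ::ₘ K) := by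
  obtain ⟨ι, _, _, a, hc, hn, F, l, hinj, h1, h2, hA⟩ := h
  obtain ⟨a', f1, f2, f3, f4, f5⟩ := Chain_step (x := f j) (y := 3) (P' := P + 1)
    (K := Multiset.map f (Finset.univ.erase j).val + K)
    (Chain_cfg_congr hc fun k hk => by
      rw [Marked_map' f j, Multiset.cons_add]
      exact Chain_count_junk (y := 3) (by omega) k hk) hn (h1 j) (h2 j)
    (by rw [if_neg (by omega), if_pos rfl])
  have f5' : Chain_F a' (flip (ext (l j) (flip (F j) (l j))) none) 3 := by
    rw [Chain_flip_ext_none]
    exact f5
  refine Marked_core (a' := a') (F := F) (l := l) ?_ (by omega) hinj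
    (ext (l j) (flip (F j) (l j))) none (fun i hi h => by simp at h) f4 f5'
    (fun i hi => ⟨f2 _ _ (h1 i) (hA j i (Ne.symm hi)).1, f2 _ _ (h2 i) (hA j i (Ne.symm hi)).2⟩) hA
    (fun k hk => ⟨Chain_away_ext' (hA j k (Ne.symm hk)).1,
      Chain_away_ext' (hA j k (Ne.symm hk)).2⟩)
    (fun i hi => ⟨Marked_away (fun h => hi (hinj h)) (hA i j hi).2, ?_⟩)
  · refine Chain_cfg_congr f1 fun k hk => ?_
    rw [Marked_map, Multiset.cons_add, Multiset.add_cons, Multiset.cons_swap]
  · rw [Chain_flip_ext_none]
    exact Marked_away_tri (fun h => hi (hinj h)) _ _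

private theorem Marked_iter {m n P : ℕ} {f : Fin m → ℕ} {K : Multiset ℕ} (h : Marked m n P f K)
    (j : Fin m) (hj : 4 ≤ f j) (t : ℕ) :
    Marked m (n + t) (P + t) (Function.update f j (f j + t)) K := by
  induction t with
  | zero =>
    rw [add_zero, add_zero, add_zero, Function.update_eq_self]
    exact h
  | succ t ih =>
    have h1 := marked_grow ih j (by rw [Function.update_self]; omega)
    rw [Function.update_self, Function.update_idem] at h1
    exact h1

/-- growing all marked faces -/
theorem marked_rlz {m n P : ℕ} {f g : Fin m → ℕ} {K : Multiset ℕ} (h : Marked m n P f K)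
    (hf : ∀ j, 4 ≤ f j) (hg : ∀ j, f j ≤ g j) :
    Rlz (n + ∑ j, (g j - f j)) (P + ∑ j, (g j - f j)) (Multiset.map g Finset.univ.val + K) := by
  obtain ⟨N, hN⟩ : ∃ N, ∑ j, (g j - f j) = N := ⟨_, rfl⟩
  rw [hN]
  induction N generalizing f n P with
  | zero =>
    have h1 : f = g := by
      funext j
      have h2 := (Finset.sum_eq_zero_iff.1 hN) j (Finset.mem_univ j)
      have h3 := hg j
      omega
    subst h1
    obtain ⟨ι, i1, i2, a, hc, -⟩ := h
    exact ⟨ι, i1, i2, a, hc⟩
  | succ N ih =>
    obtain ⟨j, hj⟩ : ∃ j, f j < g j := by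
      by_contra hcon
      push Not at hcon
      have h2 : ∑ j, (g j - f j) = 0 := Finset.sum_eq_zero fun j _ => by
        have := hcon j
        omega
      omega
    have h3 := ih (marked_grow h j (hf j)) (fun i => by
      by_cases hi : i = j
      · rw [hi, Function.update_self]
        have := hf j
        omega
      · rw [Function.update_of_ne hi]
        exact hf i) (fun i => by
      by_cases hi : i = j
      · rw [hi, Function.update_self]
        omega
      · rw [Function.update_of_ne hi]
        exact hg i) (by
      have h4 : ∀ i, g i - f i = (g i - Function.update f j (f j + 1) i) +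
          (if i = j then 1 else 0) := by
        intro i
        by_cases hi : i = j
        · rw [hi, Function.update_self, if_pos rfl]
          omega
        · rw [Function.update_of_ne hi, if_neg hi, add_zero]
      have h5 : ∑ i, (g i - f i) = ∑ i, (g i - Function.update f j (f j + 1) i) + 1 := by
        rw [Finset.sum_congr rfl fun i _ => h4 i, Finset.sum_add_distrib]
        simp
      omega)
    have e1 : n + 1 + N = n + (N + 1) := by omega
    have e2 : P + 1 + N = P + (N + 1) := by omega
    rwa [e1, e2] at h3

/-- arbitrary further faces, if a quadrangle is marked -/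
theorem marked_more {m n P : ℕ} {f : Fin m → ℕ} {K : Multiset ℕ} (h : Marked m n P f K)
    (hf : ∀ j, 4 ≤ f j) (j : Fin m) (hj : f j = 4) (R : Multiset ℕ) (hR : ∀ k ∈ R, 5 ≤ k) :
    Marked m (n + (R.map (fun k => k - 4)).sum) (P + (R.map (fun k => k - 4)).sum) f (K + R) := by
  induction R using Multiset.induction with
  | empty =>
    rw [Multiset.map_zero, Multiset.sum_zero, add_zero, add_zero, add_zero]
    exact h
  | cons k R ih =>
    have hk : 5 ≤ k := hR k (Multiset.mem_cons_self k R)
    have h1 := Marked_iter (ih fun i hi => hR i (Multiset.mem_cons_of_mem hi)) j (by omega) (k - 5)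
    have h2 := marked_switch h1 j (by rw [Function.update_self]; omega)
    rw [Function.update_self, Function.update_idem] at h2
    have e0 : Function.update f j 4 = f := by
      rw [← hj]
      exact Function.update_eq_self j f
    have e1 : f j + (k - 5) + 1 = k := by omega
    rw [e0, e1] at h2
    rw [Multiset.map_cons, Multiset.sum_cons, Multiset.add_cons]
    have e2 : n + (R.map (fun k => k - 4)).sum + (k - 5) + 1 =
        n + (k - 4 + (R.map (fun k => k - 4)).sum) := by omega
    have e3 : P + (R.map (fun k => k - 4)).sum + (k - 5) + 1 =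
        P + (k - 4 + (R.map (fun k => k - 4)).sum) := by omega
    rwa [e2, e3] at h2

end Pool.Agent.H.MP_b7f8b0_co.helper73
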