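import Pool.Agent.H.MP_b7f8b0_co.helper73.Defs2
import Pool.Agent.H.MP_b7f8b0_co.helper73.ChainP
import Pool.Agent.H.MP_b7f8b0_co.helper73.Marked
import Pool.Agent.H.MP_b7f8b0_co.helper73.BaseC1
import Pool.Agent.H.MP_b7f8b0_co.helper73.BaseC2
import Pool.Agent.H.MP_b7f8b0_co.helper73.Base6
import Pool.Agent.H.MP_b7f8b0_co.helper73.Base7

set_option autoImplicit false
open Matrix

namespace Pool.Agent.H.MP_b7f8b0_co.helper73

/-! ### module LowSmall -/

private theorem LowSmall_junk {n P : ℕ} {K K' : Multiset ℕ} (h : Rlz n P K)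
    (hK : ∀ k, 5 ≤ k → K'.count k = K.count k) : Rlz n P K' := by
  obtain ⟨ι, i1, i2, a, hc⟩ := h
  exact ⟨ι, i1, i2, a, Chain_cfg_congr hc hK⟩

/-- one face with at least six edges, three pentagons, and further faces -/
private theorem LowSmall_B {g : ℕ} {R : Multiset ℕ} (hg : 6 ≤ g) (hR : ∀ k ∈ R, 5 ≤ k) :
    RR (g ::ₘ (({5, 5, 5} : Multiset ℕ) + R)) 2 := by
  have hf : ∀ j : Fin 2, 4 ≤ (![6, 4] : Fin 2 → ℕ) j := by
    intro j
    fin_cases j <;> simp
  have h1 := marked_more base_C1 hf 1 rfl R hR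
  have h2 := marked_rlz (g := ![g, 4]) h1 hf (by
    intro j
    fin_cases j
    · exact hg
    · exact le_rfl)
  have e1 : ∑ j : Fin 2, ((![g, 4] : Fin 2 → ℕ) j - (![6, 4] : Fin 2 → ℕ) j) = g - 6 := by
    rw [Fin.sum_univ_two]
    simp
  have e2 : Multiset.map (![g, 4] : Fin 2 → ℕ) Finset.univ.val = g ::ₘ 4 ::ₘ 0 := rfl
  rw [e1, e2] at h2
  have hpp : pp (g ::ₘ (({5, 5, 5} : Multiset ℕ) + R)) =
      9 + (R.map (fun k => k - 4)).sum + (g - 6) := by
    unfold pp
    simp only [Multiset.map_cons, Multiset.sum_cons, Multiset.map_add, Multiset.sum_add,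
      Multiset.insert_eq_cons, Multiset.map_singleton, Multiset.sum_singleton]
    omega
  refine ⟨7 + (R.map (fun k => k - 4)).sum + (g - 6), by omega, ?_⟩
  rw [hpp]
  refine LowSmall_junk h2 fun k hk => ?_
  simp only [Multiset.cons_add, zero_add, Multiset.count_cons, Multiset.count_add]
  rw [if_neg (show ¬ k = 4 by omega), add_zero]

/-- five pentagons and further faces -/
private theorem LowSmall_C {R : Multiset ℕ} (hR : ∀ k ∈ R, 5 ≤ k) :
    RR (({5, 5, 5, 5, 5} : Multiset ℕ) + R) 2 := by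
  have hf : ∀ j : Fin 1, 4 ≤ (![4] : Fin 1 → ℕ) j := by
    intro j
    fin_cases j
    exact le_rfl
  have h1 := marked_more base_C2 hf 0 rfl R hR
  have h2 := marked_rlz (g := ![4]) h1 hf (fun j => le_rfl)
  have e1 : ∑ j : Fin 1, ((![4] : Fin 1 → ℕ) j - (![4] : Fin 1 → ℕ) j) = 0 := by simp
  have e2 : Multiset.map (![4] : Fin 1 → ℕ) Finset.univ.val = 4 ::ₘ 0 := rfl
  rw [e1, e2, add_zero, add_zero] at h2
  have hpp : pp (({5, 5, 5, 5, 5} : Multiset ℕ) + R) = 9 + (R.map (fun k => k - 4)).sum := by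
    unfold pp
    simp only [Multiset.map_cons, Multiset.sum_cons, Multiset.map_add, Multiset.sum_add,
      Multiset.insert_eq_cons, Multiset.map_singleton, Multiset.sum_singleton]
    omega
  refine ⟨7 + (R.map (fun k => k - 4)).sum, by omega, ?_⟩
  rw [hpp]
  refine LowSmall_junk h2 fun k hk => ?_
  simp only [Multiset.cons_add, zero_add, Multiset.count_cons]
  rw [if_neg (show ¬ k = 4 by omega), add_zero]

private theorem LowSmall_split {K : Multiset ℕ} (hK : ∀ k ∈ K, k = 5) (m : ℕ) (hm : m ≤ K.card) :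
    K = Multiset.replicate m 5 + Multiset.replicate (K.card - m) 5 := by
  rw [← Multiset.replicate_add]
  have e : m + (K.card - m) = K.card := by omega
  rw [e]
  exact Multiset.eq_replicate.2 ⟨rfl, hK⟩

theorem low_two {K : Multiset ℕ} (hK : ∀ k ∈ K, 5 ≤ k) (hr : 5 ≤ K.card) : RR K 2 := by
  by_cases h2 : 2 ≤ (K.filter (fun k => 6 ≤ k)).card
  · obtain ⟨g, hg⟩ := Multiset.card_pos_iff_exists_mem.1
      (show 0 < (K.filter (fun k => 6 ≤ k)).card by omega)
    rw [Multiset.mem_filter] at hg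
    have h3 := chain' K hK 2 (by omega) (by omega) ⟨g, hg.1, hg.2⟩ (Or.inr h2)
    refine ⟨pp K - 2, ?_, h3⟩
    unfold pp
    omega
  · by_cases h1 : 1 ≤ (K.filter (fun k => 6 ≤ k)).card
    · obtain ⟨g, hg⟩ := Multiset.card_pos_iff_exists_mem.1
        (show 0 < (K.filter (fun k => 6 ≤ k)).card by omega)
      rw [Multiset.mem_filter] at hg
      obtain ⟨K', rfl⟩ := Multiset.exists_cons_of_mem hg.1
      have hK' : ∀ k ∈ K', k = 5 := by
        intro k hk
        have h5 := hK k (Multiset.mem_cons_of_mem hk)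
        by_contra hne
        have h6 : 6 ≤ k := by omega
        apply h2
        rw [Multiset.filter_cons_of_pos _ hg.2, Multiset.card_cons]
        exact Nat.succ_le_succ (Nat.succ_le_of_lt (Multiset.card_pos_iff_exists_mem.2
          ⟨k, Multiset.mem_filter.2 ⟨hk, h6⟩⟩))
      rw [Multiset.card_cons] at hr
      rw [LowSmall_split hK' 3 (by omega)]
      exact LowSmall_B hg.2 fun k hk => by rw [Multiset.eq_of_mem_replicate hk]
    · have hK' : ∀ k ∈ K, k = 5 := by
        intro k hk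
        have h5 := hK k hk
        by_contra hne
        have h6 : 6 ≤ k := by omega
        apply h1
        exact Multiset.card_pos_iff_exists_mem.2 ⟨k, Multiset.mem_filter.2 ⟨hk, h6⟩⟩
      rw [LowSmall_split hK' 5 (by omega)]
      exact LowSmall_C fun k hk => by rw [Multiset.eq_of_mem_replicate hk]

private theorem LowSmall_list {K : Multiset ℕ} (hK : ∀ k ∈ K, 5 ≤ k) (hr : K.card = 6) {n : ℕ}
    (h : Marked 6 n 10 (fun _ => 5) 0) {e : ℕ} (he : n + e = 10) : RR K e := by
  obtain ⟨g, rfl⟩ : ∃ g : Fin 6 → ℕ, Multiset.map g Finset.univ.val = K := by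
    obtain ⟨l, rfl⟩ := Quot.exists_rep K
    have hl : l.length = 6 := hr
    refine ⟨fun j => l.get (j.cast hl.symm), ?_⟩
    rw [Fin.univ_val_map]
    congr 1
    apply List.ext_get
    · rw [List.length_ofFn, hl]
    · intro i h1 h2
      rw [List.get_ofFn]
      rfl
  have hg : ∀ j, 5 ≤ g j := fun j => hK _ (Multiset.mem_map_of_mem g (Finset.mem_univ_val j))
  have h2 := marked_rlz (g := g) h (fun _ => by norm_num) hg
  rw [add_zero] at h2
  have hpp : pp (Multiset.map g Finset.univ.val) = 10 + ∑ j, (g j - 5) := by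
    have e1 : (Multiset.map (fun k => k - 4) (Multiset.map g Finset.univ.val)).sum =
        ∑ j, (g j - 4) := by
      rw [Multiset.map_map]
      rfl
    have e2 : ∑ j, (g j - 4) = ∑ j : Fin 6, ((g j - 5) + 1) :=
      Finset.sum_congr rfl fun j _ => by have := hg j; omega
    unfold pp
    rw [e1, e2, Finset.sum_add_distrib]
    simp
    omega
  refine ⟨n + ∑ j, (g j - 5), by omega, ?_⟩
  rw [hpp]
  exact h2

theorem low_three {K : Multiset ℕ} (hK : ∀ k ∈ K, 5 ≤ k) (hr : K.card = 6) : RR K 3 :=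
  LowSmall_list hK hr base_seven (by norm_num)

theorem low_four {K : Multiset ℕ} (hK : ∀ k ∈ K, 5 ≤ k) (hr : K.card = 6) : RR K 4 :=
  LowSmall_list hK hr base_six (by norm_num)

end Pool.Agent.H.MP_b7f8b0_co.helper73
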