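import Pool.Agent.H.MP_b7f8b0_co.helper73.Levi

set_option autoImplicit false
open Matrix

namespace Pool.Agent.H.MP_b7f8b0_co.helper73

section SegCard
variable {ι : Type} [DecidableEq ι] [Fintype ι]

omit [DecidableEq ι] in
private theorem SegCard_third (hn : 3 ≤ Fintype.card ι) (i j : ι) : ∃ k, k ≠ i ∧ k ≠ j := by
  classical
  by_contra hcon
  push Not at hcon
  have h1 : (Finset.univ : Finset ι) ⊆ {i, j} := by
    intro k _
    rw [Finset.mem_insert, Finset.mem_singleton]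
    by_cases h : k = i
    · exact Or.inl h
    · exact Or.inr (hcon k h)
  have h2 := Finset.card_le_card h1
  have h3 := Finset.card_le_two (a := i) (b := j)
  rw [Finset.card_univ] at h2
  omega

/-- the sign vectors around the vertex of `i` and `j` -/
private def SegCard_f (s : ι → ℤˣ) (i j : ι) (t : ℤˣ × ℤˣ × ℤˣ) : ι → ℤˣ :=
  fun k => if k = i then t.2.1 else if k = j then t.2.2 else t.1 * s k

omit [Fintype ι] in
private theorem SegCard_f_ne (s : ι → ℤˣ) {i j : ι} (t : ℤˣ × ℤˣ × ℤˣ) {k : ι} (hk : k ≠ i)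
    (hk' : k ≠ j) : SegCard_f s i j t k = t.1 * s k := by
  unfold SegCard_f
  rw [if_neg hk, if_neg hk']

private theorem SegCard_f_inj (hn : 3 ≤ Fintype.card ι) (s : ι → ℤˣ) {i j : ι} (hij : j ≠ i) :
    Function.Injective (SegCard_f s i j) := by
  rintro ⟨u, p, q⟩ ⟨u', p', q'⟩ h
  obtain ⟨k, hk, hk'⟩ := SegCard_third hn i j
  have h1 := congrFun h i
  have h2 := congrFun h j
  have h3 := congrFun h k
  rw [SegCard_f_ne s _ hk hk', SegCard_f_ne s _ hk hk'] at h3
  unfold SegCard_f at h1 h2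
  rw [if_pos rfl, if_pos rfl] at h1
  rw [if_neg hij, if_neg hij, if_pos rfl, if_pos rfl] at h2
  have h4 : u = u' := mul_right_cancel h3
  have h5 : p = p' := h1
  have h6 : q = q' := h2
  rw [h4, h5, h6]

private theorem SegCard_eight {a : ι → V3} (ha : Simple a) (hn : 3 ≤ Fintype.card ι) {i j : ι}
    (hij : j ≠ i) (S : Finset (ι → ℤˣ))
    (hS : ∀ ε, ε ∈ S ↔ (Tope a ε ∧ Tope a (flip ε i)) ∧ j ∈ nb a ε i) : S.card = 8 := by
  classical
  obtain ⟨v, hv, hvi, hvj⟩ := exists_vertex a i j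
  have hvk : ∀ k, k ≠ i → k ≠ j → a k ⬝ᵥ v ≠ 0 := fun k hk hk' h =>
    hv (gp3 ha (Ne.symm hij) (Ne.symm hk') (Ne.symm hk) hvi hvj h)
  obtain ⟨s, hs⟩ : ∃ s : ι → ℤˣ, ∀ k, k ≠ i → k ≠ j → 0 < ((s k : ℤ) : ℝ) * (a k ⬝ᵥ v) := by
    refine ⟨fun k => if 0 < a k ⬝ᵥ v then 1 else -1, fun k hk hk' => ?_⟩
    show 0 < (((if 0 < a k ⬝ᵥ v then 1 else -1 : ℤˣ) : ℤ) : ℝ) * (a k ⬝ᵥ v)
    rcases lt_trichotomy (a k ⬝ᵥ v) 0 with h | h | h
    · rw [if_neg (not_lt.2 h.le)]
      push_cast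
      linarith
    · exact absurd h (hvk k hk hk')
    · rw [if_pos h]
      push_cast
      linarith
  have hlin := simple_pair ha hn (Ne.symm hij)
  have himg : S = (Finset.univ : Finset (ℤˣ × ℤˣ × ℤˣ)).image (SegCard_f s i j) := by
    ext ε
    rw [hS, Finset.mem_image]
    constructor
    · rintro ⟨⟨h1, h2⟩, -, h3, h4⟩
      obtain ⟨w, hw1, hw2, hw3⟩ := corner_point (Ne.symm hij) h1 h2 h3 h4
      obtain ⟨k0, hk0, hk0'⟩ := SegCard_third hn i j
      obtain ⟨c, hc⟩ := vertex_unique ha (Ne.symm hij) (Ne.symm hk0') (Ne.symm hk0) hv hvi hvj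
        hw1 hw2
      have hc0 : c ≠ 0 := by
        rintro rfl
        have h5 := hw3 k0 hk0 hk0'
        rw [hc, zero_smul, dotProduct_zero, mul_zero] at h5
        exact lt_irrefl _ h5
      obtain ⟨u, hu⟩ : ∃ u : ℤˣ, 0 < ((u : ℤ) : ℝ) * c := by
        rcases lt_or_gt_of_ne hc0 with h | h
        · refine ⟨-1, ?_⟩
          push_cast
          linarith
        · refine ⟨1, ?_⟩
          push_cast
          linarith
      refine ⟨(u, ε i, ε j), Finset.mem_univ _, ?_⟩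
      funext k
      by_cases hk : k = i
      · unfold SegCard_f
        rw [if_pos hk, hk]
      · by_cases hk' : k = j
        · unfold SegCard_f
          rw [if_neg hk, if_pos hk', hk']
        · rw [SegCard_f_ne s _ hk hk']
          have h6 := hw3 k hk hk'
          rw [hc, dotProduct_smul, smul_eq_mul] at h6
          have h7 := hs k hk hk'
          have h8 := mul_pos (mul_pos hu h7) h6
          have h9 : 0 < ((u : ℤ) : ℝ) * ((s k : ℤ) : ℝ) * ((ε k : ℤ) : ℝ) := by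
            have h10 : ((u : ℤ) : ℝ) * c * (((s k : ℤ) : ℝ) * (a k ⬝ᵥ v)) *
                (((ε k : ℤ) : ℝ) * (c * (a k ⬝ᵥ v))) =
                ((u : ℤ) : ℝ) * ((s k : ℤ) : ℝ) * ((ε k : ℤ) : ℝ) *
                  ((c * (a k ⬝ᵥ v)) * (c * (a k ⬝ᵥ v))) := by ring
            rw [h10] at h8
            exact (pos_iff_pos_of_mul_pos h8).2 (mul_self_pos.2 (mul_ne_zero hc0 (hvk k hk hk')))
          show u * s k = ε k
          rcases Int.units_eq_one_or u with e1 | e1 <;> rcases Int.units_eq_one_or (s k) with e2 | e2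
            <;> rcases Int.units_eq_one_or (ε k) with e3 | e3 <;> rw [e1, e2, e3] <;>
            rw [e1, e2, e3] at h9 <;> first | rfl | (exfalso; push_cast at h9; linarith)
    · rintro ⟨⟨u, p, q⟩, -, rfl⟩
      have hall : ∀ η : ι → ℤˣ, (∀ k, k ≠ i → k ≠ j → η k = SegCard_f s i j (u, p, q) k) →
          Tope a η := by
        intro η hη
        refine tope_of_corner_point (v := ((u : ℤ) : ℝ) • v) hlin ?_ ?_ ?_ hη
        · rw [dotProduct_smul, hvi, smul_zero]
        · rw [dotProduct_smul, hvj, smul_zero]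
        · intro k hk hk'
          rw [SegCard_f_ne s _ hk hk', dotProduct_smul, smul_eq_mul]
          have h7 := hs k hk hk'
          rcases Int.units_eq_one_or u with e1 | e1 <;> rw [e1]
          · push_cast
            linarith
          · push_cast
            linarith
      refine ⟨⟨hall _ fun k hk hk' => rfl, hall _ fun k hk hk' => flip_ne _ hk⟩, hij,
        hall _ fun k hk hk' => flip_ne _ hk', hall _ fun k hk hk' => ?_⟩
      rw [flip_ne _ hk', flip_ne _ hk]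
  rw [himg, Finset.card_image_of_injective _ (SegCard_f_inj hn s hij)]
  rfl

/-- there are `n - 1` edges on the line `i` (each is counted four times) -/
theorem seg_card {a : ι → V3} (ha : Simple a) (hn : 3 ≤ Fintype.card ι) (i : ι) :
    {ε : ι → ℤˣ | Tope a ε ∧ Tope a (flip ε i)}.ncard = 4 * (Fintype.card ι - 1) := by
  classical
  obtain ⟨E, hE⟩ : ∃ E : Finset (ι → ℤˣ), E =
      Finset.univ.filter fun ε => Tope a ε ∧ Tope a (flip ε i) := ⟨_, rfl⟩
  have hEm : ∀ ε, ε ∈ E ↔ Tope a ε ∧ Tope a (flip ε i) := by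
    intro ε
    rw [hE, Finset.mem_filter]
    exact ⟨fun h => h.2, fun h => ⟨Finset.mem_univ _, h⟩⟩
  have hcnt : {ε : ι → ℤˣ | Tope a ε ∧ Tope a (flip ε i)}.ncard = E.card := by
    rw [← Set.ncard_coe_finset]
    congr 1
    ext ε
    rw [Set.mem_ofPred_eq, Finset.mem_coe, hEm]
  have hdc := Finset.sum_card_bipartiteAbove_eq_sum_card_bipartiteBelow (s := E)
    (t := (Finset.univ : Finset ι).erase i) (fun (ε : ι → ℤˣ) (j : ι) => j ∈ nb a ε i)
  have hL : ∑ ε ∈ E, (Finset.bipartiteAbove (fun (ε : ι → ℤˣ) (j : ι) => j ∈ nb a ε i)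
      (Finset.univ.erase i) ε).card = E.card * 2 := by
    rw [Finset.sum_const_nat]
    intro ε hε
    have h1 := (hEm ε).1 hε
    rw [← nb_ncard ha hn h1.1 h1.2, ← Set.ncard_coe_finset]
    congr 1
    ext j
    rw [Finset.mem_coe, Finset.mem_bipartiteAbove, Finset.mem_erase]
    exact ⟨fun h => h.2, fun h => ⟨⟨h.1, Finset.mem_univ _⟩, h⟩⟩
  have hR : ∑ j ∈ (Finset.univ : Finset ι).erase i, (Finset.bipartiteBelow
      (fun (ε : ι → ℤˣ) (j : ι) => j ∈ nb a ε i) E j).card =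
      ((Finset.univ : Finset ι).erase i).card * 8 := by
    rw [Finset.sum_const_nat]
    intro j hj
    refine SegCard_eight ha hn (Finset.mem_erase.1 hj).1 _ fun ε => ?_
    rw [Finset.mem_bipartiteBelow, hEm]
  rw [hL, hR, Finset.card_erase_of_mem (Finset.mem_univ i), Finset.card_univ] at hdc
  rw [hcnt]
  omega

/-- at most half of the faces along `i` are triangles, and if exactly half of them are triangles, then each
edge on `i` belongs to a triangle -/
private theorem SegCard_half {a : ι → V3} (ha : Simple a) (hn : 4 ≤ Fintype.card ι) (i : ι)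
    (S : Finset (ι → ℤˣ)) (hS : ∀ ε, ε ∈ S ↔ (Tope a ε ∧ sz a ε = 3) ∧ Tope a (flip ε i)) :
    S.card ≤ 2 * (Fintype.card ι - 1) ∧ (S.card = 2 * (Fintype.card ι - 1) →
      ∀ ε, Tope a ε → Tope a (flip ε i) → sz a ε = 3 ∨ sz a (flip ε i) = 3) := by
  classical
  obtain ⟨E, hE⟩ : ∃ E : Finset (ι → ℤˣ), E =
      Finset.univ.filter fun ε => Tope a ε ∧ Tope a (flip ε i) := ⟨_, rfl⟩
  have hEm : ∀ ε, ε ∈ E ↔ Tope a ε ∧ Tope a (flip ε i) := by
    intro ε
    rw [hE, Finset.mem_filter]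
    exact ⟨fun h => h.2, fun h => ⟨Finset.mem_univ _, h⟩⟩
  have hcard : E.card = 4 * (Fintype.card ι - 1) := by
    rw [← seg_card ha (by omega) i, ← Set.ncard_coe_finset]
    congr 1
    ext ε
    rw [Set.mem_ofPred_eq, Finset.mem_coe, hEm]
  obtain ⟨S', hS'⟩ : ∃ S' : Finset (ι → ℤˣ), S' = S.image fun ε => flip ε i := ⟨_, rfl⟩
  have hd : Disjoint S S' := by
    rw [Finset.disjoint_left]
    intro ε h1 h2
    rw [hS'] at h2
    obtain ⟨η, h4, h5⟩ := Finset.mem_image.1 h2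
    have h6 := ((hS ε).1 h1).1.2
    obtain ⟨⟨h7, h8⟩, h9⟩ := (hS η).1 h4
    rw [← h5] at h6
    exact no_adj_tri ha hn h7 h8 h9 h6
  have hc : (S ∪ S').card = S.card + S.card := by
    rw [Finset.card_union_of_disjoint hd, hS',
      Finset.card_image_of_injective _ fun ε ε' h => flip_inj h]
  have hsub : S ∪ S' ⊆ E := by
    intro ε hε
    rw [hEm]
    rcases Finset.mem_union.1 hε with h1 | h1
    · exact ⟨((hS ε).1 h1).1.1, ((hS ε).1 h1).2⟩
    · rw [hS'] at h1
      obtain ⟨η, h4, h5⟩ := Finset.mem_image.1 h1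
      obtain ⟨⟨h7, h8⟩, h9⟩ := (hS η).1 h4
      rw [← h5, flip_flip]
      exact ⟨h9, h7⟩
  have h8 := Finset.card_le_card hsub
  rw [hc, hcard] at h8
  refine ⟨by omega, fun heq ε h1 h2 => ?_⟩
  have h9 : S ∪ S' = E := Finset.eq_of_subset_of_card_le hsub (by rw [hc, hcard]; omega)
  have h10 : ε ∈ S ∪ S' := by
    rw [h9, hEm]
    exact ⟨h1, h2⟩
  rcases Finset.mem_union.1 h10 with h | h
  · exact Or.inl ((hS ε).1 h).1.2
  · right
    rw [hS'] at h
    obtain ⟨η, h4, h5⟩ := Finset.mem_image.1 h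
    rw [← h5, flip_flip]
    exact ((hS η).1 h4).1.2

/-- the incidences between triangles and lines -/
private theorem SegCard_sum (a : ι → V3) (S : ι → Finset (ι → ℤˣ))
    (hS : ∀ i ε, ε ∈ S i ↔ (Tope a ε ∧ sz a ε = 3) ∧ Tope a (flip ε i)) :
    3 * cnt a 3 = ∑ i, (S i).card := by
  classical
  obtain ⟨T, hT⟩ : ∃ T : Finset (ι → ℤˣ), T =
      Finset.univ.filter fun ε => Tope a ε ∧ sz a ε = 3 := ⟨_, rfl⟩
  have hTm : ∀ ε, ε ∈ T ↔ Tope a ε ∧ sz a ε = 3 := by
    intro ε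
    rw [hT, Finset.mem_filter]
    exact ⟨fun h => h.2, fun h => ⟨Finset.mem_univ _, h⟩⟩
  have hcnt : cnt a 3 = T.card := by
    unfold cnt
    rw [← Set.ncard_coe_finset]
    congr 1
    ext ε
    rw [Set.mem_ofPred_eq, Finset.mem_coe, hTm]
  have hdc := Finset.sum_card_bipartiteAbove_eq_sum_card_bipartiteBelow (s := T)
    (t := (Finset.univ : Finset ι)) (fun (ε : ι → ℤˣ) (ℓ : ι) => Tope a (flip ε ℓ))
  have hL : ∑ ε ∈ T, (Finset.bipartiteAbove (fun (ε : ι → ℤˣ) (ℓ : ι) => Tope a (flip ε ℓ))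
      Finset.univ ε).card = T.card * 3 := by
    rw [Finset.sum_const_nat]
    intro ε hε
    have h1 := ((hTm ε).1 hε).2
    unfold sz at h1
    rw [← h1, ← Set.ncard_coe_finset]
    congr 1
    ext ℓ
    simp only [Finset.coe_bipartiteAbove, edgeSet, Set.mem_ofPred_eq, Finset.mem_univ, true_and]
  have hR : ∑ ℓ : ι, (Finset.bipartiteBelow
      (fun (ε : ι → ℤˣ) (ℓ : ι) => Tope a (flip ε ℓ)) T ℓ).card = ∑ i, (S i).card := by
    refine Finset.sum_congr rfl fun i _ => ?_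
    congr 1
    ext ε
    rw [Finset.mem_bipartiteBelow, hTm, hS]
  rw [hL, hR] at hdc
  rw [hcnt, mul_comm]
  exact hdc

omit [Fintype ι] in
private theorem SegCard_ex [Finite ι] (a : ι → V3) : ∃ S : ι → Finset (ι → ℤˣ), ∀ i ε,
    ε ∈ S i ↔ (Tope a ε ∧ sz a ε = 3) ∧ Tope a (flip ε i) := by
  classical
  have := Fintype.ofFinite ι
  refine ⟨fun i => Finset.univ.filter fun ε => (Tope a ε ∧ sz a ε = 3) ∧ Tope a (flip ε i),
    fun i ε => ?_⟩
  rw [Finset.mem_filter]
  exact ⟨fun h => h.2, fun h => ⟨Finset.mem_univ _, h⟩⟩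

/-- each edge belongs to at most one triangle -/
theorem three_cnt {a : ι → V3} (ha : Simple a) (hn : 4 ≤ Fintype.card ι) :
    3 * cnt a 3 ≤ 2 * Fintype.card ι * (Fintype.card ι - 1) := by
  obtain ⟨S, hS⟩ := SegCard_ex a
  rw [SegCard_sum a S hS]
  refine (Finset.sum_le_card_nsmul Finset.univ _ (2 * (Fintype.card ι - 1)) fun i _ =>
    (SegCard_half ha hn i (S i) (hS i)).1).trans (le_of_eq ?_)
  rw [Finset.card_univ, smul_eq_mul]
  ring

/-- in an arrangement of four lines every edge belongs to a triangle -/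
theorem four_edges {a : ι → V3} (ha : Simple a) (hn : Fintype.card ι = 4) {ε : ι → ℤˣ} {i : ι}
    (h : Tope a ε) (hi : Tope a (flip ε i)) : sz a ε = 3 ∨ sz a (flip ε i) = 3 := by
  obtain ⟨S, hS⟩ := SegCard_ex a
  have hn4 : 4 ≤ Fintype.card ι := hn.ge
  refine (SegCard_half ha hn4 i (S i) (hS i)).2 ?_ ε h hi
  by_contra hne
  have h1 := (SegCard_half ha hn4 i (S i) (hS i)).1
  have h2 : ∑ j, (S j).card < ∑ _j : ι, 2 * (Fintype.card ι - 1) :=
    Finset.sum_lt_sum (fun j _ => (SegCard_half ha hn4 j (S j) (hS j)).1)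
      ⟨i, Finset.mem_univ _, lt_of_le_of_ne h1 hne⟩
  rw [← SegCard_sum a S hS, Finset.sum_const, Finset.card_univ, smul_eq_mul, hn] at h2
  have h3 := levi ha hn4
  rw [hn] at h3
  omega

end SegCard

end Pool.Agent.H.MP_b7f8b0_co.helper73
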