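import Pool.Agent.H.MP_b7f8b0_co.helper73.SmallR
import Pool.Agent.H.MP_b7f8b0_co.helper73.LowSmall

set_option autoImplicit false
open Matrix

namespace Pool.Agent.H.MP_b7f8b0_co.helper73

/-! ### module Six -/

/-- at most six large faces -/
theorem six {K : Multiset ℕ} (hK : ∀ k ∈ K, 5 ≤ k) (hr : K.card ≤ 6) (e e' : ℕ) (h : e' ≤ e)
    (he : RR K e) (h4 : 4 ≤ K.card) : RR K e' := by
  rcases Nat.eq_or_lt_of_le h with h0 | h0
  · rw [h0]
    exact he
  · obtain ⟨u4, u5, u6⟩ := upper_small hK he
    have h5 : e ≤ 5 := by
      have hc : K.card = 4 ∨ K.card = 5 ∨ K.card = 6 := by omega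
      rcases hc with hc | hc | hc
      · have := u4 hc
        omega
      · have := u5 hc
        omega
      · exact u6 hc
    have hcase : e' = 0 ∨ e' = 1 ∨ e' = 2 ∨ e' = 3 ∨ e' = 4 := by omega
    rcases hcase with rfl | rfl | rfl | rfl | rfl
    · exact ⟨pp K, rfl, eberhard K hK⟩
    · obtain ⟨g, hg⟩ := Multiset.card_pos_iff_exists_mem.1 (show 0 < K.card by omega)
      refine ⟨pp K - 1, ?_, chain' K hK 1 le_rfl (by omega) ⟨g, hg, hK g hg⟩ (Or.inl rfl)⟩
      unfold pp
      omega
    · refine low_two hK ?_
      by_contra hlt
      have := u4 (by omega)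
      omega
    · have hc : K.card = 6 := by
        by_contra hne
        have hc : K.card = 4 ∨ K.card = 5 := by omega
        rcases hc with hc | hc
        · have := u4 hc
          omega
        · have := u5 hc
          omega
      exact low_three hK hc
    · have hc : K.card = 6 := by
        by_contra hne
        have hc : K.card = 4 ∨ K.card = 5 := by omega
        rcases hc with hc | hc
        · have := u4 hc
          omega
        · have := u5 hc
          omega
      exact low_four hK hc

end Pool.Agent.H.MP_b7f8b0_co.helper73
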