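import Pool.Agent.H.MP_b7f8b0_co.helper73.DelCount
import Pool.Agent.H.MP_b7f8b0_co.helper73.DelInsep
import Pool.Agent.H.MP_b7f8b0_co.helper73.LocTri
import Pool.Agent.H.MP_b7f8b0_co.helper73.SegCard

set_option autoImplicit false
open Matrix

namespace Pool.Agent.H.MP_b7f8b0_co.helper73

/-! ### module XLem -/
section XLem

/-- deleting a line with a partner -/
private theorem XLem_del {ι : Type} [DecidableEq ι] [Fintype ι] {a : ι → V3} (ha : Simple a)
    (hn : 5 ≤ Fintype.card ι) {x y : ι} (h : Insep a x y) :
    Simple (del a x) ∧ Fintype.card {i : ι // i ≠ x} + 1 = Fintype.card ι ∧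
      cnt a 3 ≤ cnt (del a x) 3 + 4 := by
  obtain ⟨G, hG, h1, h2, h3, h4⟩ := insep_corner ha (by omega) h
  obtain ⟨h5, h6, -, h7, -⟩ := del_count ha hn h hG h1 h2 h3 h4
  exact ⟨h5, h6, by omega⟩

/-- five lines with an inseparable pair have at most five triangles -/
theorem five_lines {ι : Type} [DecidableEq ι] [Fintype ι] {a : ι → V3} (ha : Simple a)
    (hn : Fintype.card ι = 5) {x y : ι} (h : Insep a x y) : cnt a 3 ≤ 10 := by
  obtain ⟨G, hG, h1, h2, h3, h4⟩ := insep_corner ha (by omega) h
  obtain ⟨h5, h6, -, h7, -⟩ := del_count ha hn.ge h hG h1 h2 h3 h4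
  obtain ⟨h8, h9, h10, h11⟩ := del_faces ha hn.ge h hG h1 h2 h3 h4
  have hc : Fintype.card {i : ι // i ≠ x} = 4 := by omega
  have h12 := three_cnt h5 hc.ge
  rw [hc] at h12
  rcases four_edges h5 hc h8 h10 with h13 | h13
  · have h14 : sz a G = 4 := by omega
    rw [if_pos h14] at h7
    omega
  · have h14 : sz a (flip (flip G x) y) = 4 := by omega
    rw [if_pos h14] at h7
    omega

/-- deleting the lines of a set `S`, each of which has a partner outside `S` -/
theorem matching_bound {ι : Type} [DecidableEq ι] [Fintype ι] {a : ι → V3} (ha : Simple a)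
    (S : Finset ι) (hS : ∀ x ∈ S, ∃ y, y ∉ S ∧ Insep a x y) (h1 : 1 ≤ S.card)
    (hn : S.card + 4 = Fintype.card ι) : cnt a 3 + 2 ≤ 2 * Fintype.card ι + 2 * S.card := by
  have key : ∀ (k : ℕ) (ι : Type) (_ : DecidableEq ι) (_ : Fintype ι) (a : ι → V3),
      Simple a → ∀ S : Finset ι, (∀ x ∈ S, ∃ y, y ∉ S ∧ Insep a x y) → S.card = k + 1 →
      S.card + 4 = Fintype.card ι → cnt a 3 + 2 ≤ 2 * Fintype.card ι + 2 * S.card := by
    intro k
    induction k with
    | zero =>
      intro ι _ _ a ha S hS h1 hn
      obtain ⟨x, hx⟩ := Finset.card_pos.1 (by omega : 0 < S.card)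
      obtain ⟨y, -, hxy⟩ := hS x hx
      have h2 := five_lines ha (by omega) hxy
      omega
    | succ k ih =>
      intro ι _ _ a ha S hS h1 hn
      obtain ⟨x, hx⟩ := Finset.card_pos.1 (by omega : 0 < S.card)
      obtain ⟨y, -, hxy⟩ := hS x hx
      obtain ⟨h2, h3, h4⟩ := XLem_del ha (by omega) hxy
      have h5 : (S.subtype (fun i => i ≠ x)).card = k + 1 := by
        rw [Finset.card_subtype]
        have h6 : S.filter (fun i => i ≠ x) = S.erase x := by
          rw [Finset.filter_ne']
        rw [h6, Finset.card_erase_of_mem hx]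
        omega
      have h7 := ih {i : ι // i ≠ x} inferInstance inferInstance (del a x) h2
        (S.subtype (fun i => i ≠ x)) (by
          rintro ⟨x', hx'⟩ hm
          rw [Finset.mem_subtype] at hm
          obtain ⟨y', hy', hxy'⟩ := hS x' hm
          have h8 : y' ≠ x := fun h => hy' (h ▸ hx)
          refine ⟨⟨y', h8⟩, ?_, del_insep hx' h8 hxy'⟩
          rw [Finset.mem_subtype]
          exact hy') h5 (by rw [h5]; omega)
      rw [h5] at h7
      omega
  exact key (S.card - 1) ι _ _ a ha S hS (by omega) hn

/-- a matching -/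
private theorem XLem_match {ι : Type} [DecidableEq ι] [Fintype ι] {a : ι → V3}
    (hone : ∀ x y z, Insep a x y → Insep a x z → y = z) :
    2 * (insepGraph a).edgeSet.ncard ≤ Fintype.card ι ∧
      ∀ k, k ≤ (insepGraph a).edgeSet.ncard → ∃ S : Finset ι, S.card = k ∧
        ∀ x ∈ S, ∃ y, y ∉ S ∧ Insep a x y := by
  classical
  constructor
  · have h1 := (insepGraph a).sum_degrees_eq_twice_card_edges
    have h2 : (insepGraph a).edgeSet.ncard = (insepGraph a).edgeFinset.card := by
      rw [← SimpleGraph.coe_edgeFinset, Set.ncard_coe_finset]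
    rw [h2, ← h1]
    calc ∑ v, (insepGraph a).degree v ≤ ∑ _v : ι, 1 := by
          refine Finset.sum_le_sum fun v _ => ?_
          rw [← SimpleGraph.card_neighborFinset_eq_degree]
          refine Finset.card_le_one.2 fun y hy z hz => ?_
          rw [SimpleGraph.mem_neighborFinset] at hy hz
          exact hone v y z hy hz
      _ = Fintype.card ι := by simp
  · intro k hk
    obtain ⟨E, hE, hEk⟩ := Set.exists_subset_card_eq hk
    -- an end point of every edge
    have hf : ∀ e : Sym2 ι, ∃ v, v ∈ e := fun e => by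
      induction e using Sym2.ind with
      | _ v w => exact ⟨v, Sym2.mem_mk_left v w⟩
    choose f hf using hf
    have huniq : ∀ e ∈ (insepGraph a).edgeSet, ∀ e' ∈ (insepGraph a).edgeSet, ∀ v, v ∈ e →
        v ∈ e' → e = e' := by
      intro e he e' he' v hv hv'
      obtain ⟨w, rfl⟩ := Sym2.mem_iff_exists.1 hv
      obtain ⟨w', rfl⟩ := Sym2.mem_iff_exists.1 hv'
      rw [SimpleGraph.mem_edgeSet] at he he'
      rw [hone v w w' he he']
    have hinj : Set.InjOn f E := fun e he e' he' h =>
      huniq e (hE he) e' (hE he') (f e) (hf e) (h ▸ hf e')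
    refine ⟨(f '' E).toFinset, ?_, ?_⟩
    · rw [← Set.ncard_eq_toFinset_card', hinj.ncard_image, hEk]
    · intro x hx
      rw [Set.mem_toFinset] at hx
      obtain ⟨e, he, rfl⟩ := hx
      obtain ⟨y, hy⟩ := Sym2.mem_iff_exists.1 (hf e)
      have h1 : e ∈ (insepGraph a).edgeSet := hE he
      have h2 : Insep a (f e) y := by
        rw [hy, SimpleGraph.mem_edgeSet] at h1
        exact h1
      refine ⟨y, ?_, h2⟩
      rw [Set.mem_toFinset]
      rintro ⟨e', he', hfe'⟩
      have h3 : y ∈ e' := hfe' ▸ hf e'
      have h4 : y ∈ e := by rw [hy]; exact Sym2.mem_mk_right _ _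
      have h5 := huniq e h1 e' (hE he') y h4 h3
      rw [← h5] at hfe'
      exact h2.1 hfe'

theorem xlem {ι : Type} [DecidableEq ι] [Fintype ι] {a : ι → V3} (ha : Simple a)
    (hn : 5 ≤ Fintype.card ι) :
    (Fintype.card ι ≤ (insepGraph a).edgeSet.ncard + 4 → cnt a 3 ≤ 2 * Fintype.card ι + 6) ∧
    (Fintype.card ι ≤ (insepGraph a).edgeSet.ncard + 3 → cnt a 3 ≤ 2 * Fintype.card ι + 2) := by
  have key : ∀ (k : ℕ) (ι : Type) (_ : DecidableEq ι) (_ : Fintype ι) (a : ι → V3),
      Simple a → Fintype.card ι = k + 5 →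
      (Fintype.card ι ≤ (insepGraph a).edgeSet.ncard + 4 → cnt a 3 ≤ 2 * Fintype.card ι + 6) ∧
      (Fintype.card ι ≤ (insepGraph a).edgeSet.ncard + 3 →
        cnt a 3 ≤ 2 * Fintype.card ι + 2) := by
    intro k
    induction k with
    | zero =>
      intro ι _ _ a ha hn
      have h1 : Fintype.card ι ≤ (insepGraph a).edgeSet.ncard + 4 → cnt a 3 ≤ 10 := by
        intro hd
        have h2 : (insepGraph a).edgeSet.Nonempty := by
          rw [← Set.ncard_pos]
          omega
        obtain ⟨e, he⟩ := h2
        induction e using Sym2.ind with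
        | _ x y =>
          rw [SimpleGraph.mem_edgeSet] at he
          exact five_lines ha hn he
      constructor
      · intro hd
        have := h1 hd
        omega
      · intro hd
        have := h1 (by omega)
        omega
    | succ k ih =>
      intro ι _ _ a ha hn
      by_cases htwo : ∃ x y z, y ≠ z ∧ Insep a x y ∧ Insep a x z
      · obtain ⟨x, y, z, hyz, hxy, hxz⟩ := htwo
        obtain ⟨G, hG, h1, h2, h3, h4⟩ := insep_corner ha (by omega) hxy
        obtain ⟨h5, h6, -, h7, -⟩ := del_count ha (by omega) hxy hG h1 h2 h3 h4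
        have h8 := del_edges ha (by omega) hyz hxy hxz
        have h9 : cnt a 3 ≤ cnt (del a x) 3 + 2 := by
          rcases corner_quad ha (by omega) hxy hxz hyz hG h1 h2 h3 h4 with h10 | h10
          · rw [if_pos h10] at h7
            omega
          · rw [if_pos h10] at h7
            omega
        obtain ⟨h11, h12⟩ := ih {i : ι // i ≠ x} inferInstance inferInstance (del a x) h5
          (by omega)
        constructor
        · intro hd
          have := h11 (by omega)
          omega
        · intro hd
          have := h12 (by omega)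
          omega
      · have hone : ∀ x y z, Insep a x y → Insep a x z → y = z := by
          intro x y z hxy hxz
          by_contra hyz
          exact htwo ⟨x, y, z, hyz, hxy, hxz⟩
        obtain ⟨h1, h2⟩ := XLem_match hone
        have h3 : Fintype.card ι ≤ (insepGraph a).edgeSet.ncard + 4 →
            cnt a 3 + 10 ≤ 4 * Fintype.card ι := by
          intro hd
          obtain ⟨S, hS, hS'⟩ := h2 (Fintype.card ι - 4) (by omega)
          have h4 := matching_bound ha S hS' (by omega) (by omega)
          omega
        constructor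
        · intro hd
          have := h3 hd
          omega
        · intro hd
          have := h3 (by omega)
          omega
  exact key (Fintype.card ι - 5) ι _ _ a ha (by omega)
end XLem

end Pool.Agent.H.MP_b7f8b0_co.helper73
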