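import Pool.Agent.H.MP_b7f8b0_co.helper73.Beam
import Pool.Agent.H.MP_b7f8b0_co.helper73.Defs2
import Pool.Agent.H.MP_b7f8b0_co.helper73.XLem

set_option autoImplicit false
open Matrix

namespace Pool.Agent.H.MP_b7f8b0_co.helper73

section SmallR
variable {ι : Type} [DecidableEq ι] [Fintype ι]

theorem SmallR_sz_le (a : ι → V3) (ε : ι → ℤˣ) : sz a ε ≤ Fintype.card ι := by
  unfold sz
  rw [← Nat.card_eq_fintype_card]
  exact Set.ncard_le_card _

/-- the number of large faces with a property of the size -/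
theorem SmallR_count {a : ι → V3} {n P : ℕ} {K : Multiset ℕ} (h : Cfg n P K a)
    (hK : ∀ k ∈ K, 5 ≤ k) (p : ℕ → Prop) [DecidablePred p] :
    {ε : ι → ℤˣ | Tope a ε ∧ 5 ≤ sz a ε ∧ p (sz a ε)}.ncard = 2 * (K.filter p).card := by
  classical
  obtain ⟨-, hcard, -, hcnt⟩ := h
  set S : Finset (ι → ℤˣ) := Finset.univ.filter fun ε => Tope a ε ∧ 5 ≤ sz a ε ∧ p (sz a ε)
    with hS
  have h1 : {ε : ι → ℤˣ | Tope a ε ∧ 5 ≤ sz a ε ∧ p (sz a ε)} = (S : Set (ι → ℤˣ)) := by
    ext ε
    simp [hS]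
  have hmap : ∀ ε ∈ S, sz a ε ∈ Finset.Icc 5 n := by
    intro ε hε
    rw [hS, Finset.mem_filter] at hε
    rw [Finset.mem_Icc, ← hcard]
    exact ⟨hε.2.2.1, SmallR_sz_le a ε⟩
  have hfib : ∀ k ∈ Finset.Icc 5 n,
      (S.filter fun ε => sz a ε = k).card = 2 * (K.filter p).count k := by
    intro k hk
    rw [Finset.mem_Icc] at hk
    by_cases hp : p k
    · have h2 : {ε : ι → ℤˣ | Tope a ε ∧ sz a ε = k} =
          ((S.filter fun ε => sz a ε = k : Finset (ι → ℤˣ)) : Set (ι → ℤˣ)) := by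
        ext ε
        simp only [hS, Set.mem_ofPred_eq, Finset.coe_filter, Finset.mem_filter, Finset.mem_univ,
          true_and]
        constructor
        · rintro ⟨h3, h4⟩
          exact ⟨⟨h3, by omega, by rw [h4]; exact hp⟩, h4⟩
        · rintro ⟨⟨h3, -, -⟩, h4⟩
          exact ⟨h3, h4⟩
      have h5 := hcnt k hk.1
      unfold cnt at h5
      rw [h2, Set.ncard_coe_finset] at h5
      rw [h5, Multiset.count_filter, if_pos hp]
    · rw [Multiset.count_filter, if_neg hp, mul_zero, Finset.card_eq_zero,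
        Finset.filter_eq_empty_iff]
      intro ε hε h3
      rw [hS, Finset.mem_filter, h3] at hε
      exact hp hε.2.2.2
  have hsub : (K.filter p).toFinset ⊆ Finset.Icc 5 n := by
    intro k hk
    rw [Multiset.mem_toFinset, Multiset.mem_filter] at hk
    have h5 := hK k hk.1
    have h6 := hcnt k h5
    have h7 : 0 < K.count k := Multiset.count_pos.mpr hk.1
    rw [Finset.mem_Icc, ← hcard]
    refine ⟨h5, ?_⟩
    have h8 : {ε : ι → ℤˣ | Tope a ε ∧ sz a ε = k}.Nonempty := by
      apply Set.nonempty_of_ncard_ne_zero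
      unfold cnt at h6
      omega
    obtain ⟨ε, -, h9⟩ := h8
    rw [← h9]
    exact SmallR_sz_le a ε
  rw [h1, Set.ncard_coe_finset, Finset.card_eq_sum_card_fiberwise hmap,
    Finset.sum_congr rfl hfib, ← Finset.mul_sum, ← Multiset.toFinset_sum_count_eq]
  congr 1
  symm
  refine Finset.sum_subset hsub fun k _ hk => ?_
  rw [Multiset.mem_toFinset] at hk
  exact Multiset.count_eq_zero.mpr hk

/-- there are at least five lines -/
theorem SmallR_five {a : ι → V3} {n P : ℕ} {K : Multiset ℕ} (h : Cfg n P K a)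
    (hK : ∀ k ∈ K, 5 ≤ k) (hr : 1 ≤ K.card) : 5 ≤ Fintype.card ι := by
  classical
  have h1 := SmallR_count h hK (fun _ => True)
  rw [Multiset.filter_eq_self.mpr (fun _ _ => trivial)] at h1
  have h2 : {ε : ι → ℤˣ | Tope a ε ∧ 5 ≤ sz a ε ∧ True}.Nonempty := by
    apply Set.nonempty_of_ncard_ne_zero
    omega
  obtain ⟨ε, -, h3, -⟩ := h2
  exact h3.trans (SmallR_sz_le a ε)

/-- the consequence of the beam inequality -/
theorem SmallR_beam {a : ι → V3} {n P : ℕ} {K : Multiset ℕ} (h : Cfg n P K a)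
    (hK : ∀ k ∈ K, 5 ≤ k) (hP : P = 4 + (K.map (fun k => k - 4)).sum) (hr : 1 ≤ K.card) :
    P + 2 ≤ 2 * K.card + (insepGraph a).edgeSet.ncard := by
  classical
  have h5 := SmallR_five h hK hr
  have hb := beam h.1 (by omega : 4 ≤ Fintype.card ι)
  have hcount := SmallR_count h hK
  obtain ⟨-, hcard, h3, hcnt⟩ := h
  have hsum : ∑ k ∈ Finset.Icc 5 (Fintype.card ι), k * cnt a k = 2 * K.sum := by
    have hsub : K.toFinset ⊆ Finset.Icc 5 (Fintype.card ι) := by
      intro k hk
      rw [Multiset.mem_toFinset] at hk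
      have h6 := hcount (fun m => m = k)
      have h7 : 0 < (K.filter fun m => m = k).card := by
        rw [Multiset.card_pos_iff_exists_mem]
        exact ⟨k, Multiset.mem_filter.mpr ⟨hk, rfl⟩⟩
      have h8 : {ε : ι → ℤˣ | Tope a ε ∧ 5 ≤ sz a ε ∧ sz a ε = k}.Nonempty := by
        apply Set.nonempty_of_ncard_ne_zero
        omega
      obtain ⟨ε, -, h9, h10⟩ := h8
      rw [Finset.mem_Icc, ← h10]
      exact ⟨h9, SmallR_sz_le a ε⟩
    rw [Finset.sum_multiset_count, Finset.mul_sum]
    rw [← Finset.sum_subset hsub (f := fun k => k * cnt a k)]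
    · refine Finset.sum_congr rfl fun k hk => ?_
      rw [Multiset.mem_toFinset] at hk
      rw [hcnt k (hK k hk), smul_eq_mul]
      ring
    · intro k hk hk'
      rw [Multiset.mem_toFinset] at hk'
      rw [Finset.mem_Icc] at hk
      rw [hcnt k hk.1, Multiset.count_eq_zero.mpr hk']
      ring
  have hsum4 : K.sum = (K.map (fun k => k - 4)).sum + 4 * K.card := by
    have h6 : K.map (fun k => (k - 4) + 4) = K := by
      conv_rhs => rw [← Multiset.map_id K]
      refine Multiset.map_congr rfl fun k hk => ?_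
      have := hK k hk
      simp only [id_eq]
      omega
    have h7 : (K.map (fun k => (k - 4) + 4)).sum =
        (K.map (fun k => k - 4)).sum + (K.map (fun _ => 4)).sum := Multiset.sum_map_add
    rw [h6, Multiset.map_const', Multiset.sum_replicate, smul_eq_mul] at h7
    rw [h7]
    ring
  omega

end SmallR

/-- the upper bounds for at most six large faces -/
theorem upper_small {K : Multiset ℕ} {e : ℕ} (hK : ∀ k ∈ K, 5 ≤ k) (h : RR K e) :
    (K.card = 4 → e ≤ 2) ∧ (K.card = 5 → e ≤ 3) ∧ (K.card = 6 → e ≤ 5) := by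
  obtain ⟨n, hne, ι, i1, i2, a, hc⟩ := h
  rcases Nat.eq_zero_or_pos K.card with h0 | h0
  · refine ⟨fun h => ?_, fun h => ?_, fun h => ?_⟩ <;> omega
  have h5 := SmallR_five hc hK h0
  have hb := SmallR_beam hc hK rfl h0
  have hx := xlem hc.1 h5
  have h3 : cnt a 3 = 2 * pp K := hc.2.2.1
  have hcard : Fintype.card ι = n := hc.2.1
  rw [h3, hcard] at hx
  obtain ⟨hx1, hx2⟩ := hx
  refine ⟨fun h => ?_, fun h => ?_, fun h => ?_⟩
  · rcases Nat.lt_or_ge ((insepGraph a).edgeSet.ncard + 3) n with hd | hd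
    · omega
    · have := hx2 hd
      omega
  · rcases Nat.lt_or_ge ((insepGraph a).edgeSet.ncard + 4) n with hd | hd
    · omega
    · have := hx1 hd
      omega
  · rcases Nat.lt_or_ge ((insepGraph a).edgeSet.ncard + 4) n with hd | hd
    · omega
    · have := hx1 hd
      omega

end Pool.Agent.H.MP_b7f8b0_co.helper73
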