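import Pool.Agent.H.MP_b7f8b0_co.helper73.Interior
import Pool.Agent.H.MP_b7f8b0_co.helper73.LocTri
import Pool.Agent.H.MP_b7f8b0_co.helper73.DelCount
import Pool.Agent.H.MP_b7f8b0_co.helper73.ChainP
import Pool.Agent.H.MP_b7f8b0_co.helper73.Transport

set_option autoImplicit false
open Matrix

namespace Pool.Agent.H.MP_b7f8b0_co.helper73

/-! ### module Stab -/

private theorem Stab_pp_cons (k : ℕ) (K : Multiset ℕ) (hk : 4 ≤ k) : pp ((k + 1) ::ₘ K) = pp (k ::ₘ K) + 1 := by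
  unfold pp
  simp only [Multiset.map_cons, Multiset.sum_cons]
  omega

private theorem Stab_face {ι : Type} [DecidableEq ι] [Fintype ι] {a : ι → V3} {n P k : ℕ}
    {K : Multiset ℕ} (h : Cfg n P (k ::ₘ K) a) (hk5 : 5 ≤ k) :
    ∃ F : ι → ℤˣ, Tope a F ∧ sz a F = k ∧ k ≤ n := by
  have h1 := h.2.2.2 k hk5
  rw [Multiset.count_cons_self] at h1
  have h2 : cnt a k ≠ 0 := by omega
  have h3 : {ε : ι → ℤˣ | Tope a ε ∧ sz a ε = k}.Nonempty := by
    rw [Set.nonempty_iff_ne_empty]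
    intro h0
    apply h2
    unfold cnt
    rw [h0, Set.ncard_empty]
  obtain ⟨F, hF, hs⟩ := h3
  refine ⟨F, hF, hs, ?_⟩
  rw [← hs, ← h.2.1, sz, ← Nat.card_eq_fintype_card]
  exact Set.ncard_le_card (s := edgeSet a F)

theorem stab_up {K : Multiset ℕ} {e k : ℕ} (hK : ∀ j ∈ K, 5 ≤ j) (hk5 : 5 ≤ k)
    (hk : 4 * (K.card + 1) - 3 ≤ k) (h : RR (k ::ₘ K) e) : RR ((k + 1) ::ₘ K) e := by
  obtain ⟨n, hne, ι, i1, i2, a, hc⟩ := h
  obtain ⟨F, hF, hs, hkn⟩ := Stab_face hc hk5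
  have hK' : ∀ j ∈ k ::ₘ K, 5 ≤ j := by
    intro j hj
    rcases Multiset.mem_cons.mp hj with h1 | h1
    · rw [h1]
      exact hk5
    · exact hK j h1
  obtain ⟨x, y, z, hyz, h1, h2, hx⟩ := exists_interior hc hK' rfl (hk5.trans hkn)
    (by rw [Multiset.card_cons]; omega) hF (by rw [Multiset.card_cons, hs]; exact hk)
  have h3 := loc_tri hc.1 (by rw [hc.2.1]; omega) h1 h2 hyz hF (by rw [hs]; exact hk5) hx
  obtain ⟨a', f1, -⟩ := Chain_step (x := k) (y := 3) (P' := pp (k ::ₘ K) + 1) (K := K)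
    (Chain_cfg_congr hc (Chain_count_junk (y := 3) (by omega))) (by omega) ⟨hF, hs⟩ ⟨hx, h3.1⟩
    (by rw [if_neg (by omega), if_pos rfl])
  have hpp := Stab_pp_cons k K (by omega)
  refine ⟨n + 1, by omega, Option ι, inferInstance, inferInstance, a', ?_⟩
  rw [hpp]
  exact Chain_cfg_congr f1 fun j hj => (Chain_count_junk (y := 3 + 1) (by omega) j hj).symm

theorem stab_down {K : Multiset ℕ} {e k : ℕ} (hK : ∀ j ∈ K, 5 ≤ j) (hk5 : 5 ≤ k)
    (hk : 4 * (K.card + 1) - 3 ≤ k) (h : RR ((k + 1) ::ₘ K) e) : RR (k ::ₘ K) e := by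
  obtain ⟨n, hne, ι, i1, i2, a, hc⟩ := h
  obtain ⟨F, hF, hs, hkn⟩ := Stab_face hc (by omega)
  have hK' : ∀ j ∈ (k + 1) ::ₘ K, 5 ≤ j := by
    intro j hj
    rcases Multiset.mem_cons.mp hj with h1 | h1
    · omega
    · exact hK j h1
  obtain ⟨x, y, z, hyz, h1, h2, hx⟩ := exists_interior hc hK' rfl (by omega)
    (by rw [Multiset.card_cons]; omega) hF (by rw [Multiset.card_cons, hs]; omega)
  obtain ⟨-, t2, t3, -, -, t6, -⟩ := loc_tri hc.1 (by rw [hc.2.1]; omega) h1 h2 hyz hF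
    (by rw [hs]; omega) hx
  obtain ⟨d1, d2, -, d4, d5⟩ := del_count hc.1 (by rw [hc.2.1]; omega) h1 hF hx t6 t2
    (by rw [hs]; omega)
  have hpp := Stab_pp_cons k K (by omega)
  have hcard := hc.2.1
  have h3 := hc.2.2.1
  rw [hs, t3, if_neg (by omega), if_pos rfl] at d4
  refine ⟨n - 1, by omega, {i : ι // i ≠ x}, inferInstance, inferInstance, del a x, d1, by omega,
    by omega, fun j hj => ?_⟩
  have h4 := d5 j hj
  have h5 := hc.2.2.2 j hj
  rw [hs, t3] at h4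
  simp only [Multiset.count_cons] at h5 ⊢
  rw [h5] at h4
  split_ifs at h4 ⊢ <;> omega

end Pool.Agent.H.MP_b7f8b0_co.helper73
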