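import Pool.Agent.H.MP_b7f8b0_co.helper73.Basic
import Pool.Agent.H.MP_b7f8b0_co.helper73.Tri

set_option autoImplicit false
open Matrix

namespace Pool.Agent.H.MP_b7f8b0_co.helper73

section TopeEdge
variable {ι : Type} [DecidableEq ι] [Fintype ι]

/-- every face has an edge -/
theorem tope_edge {a : ι → V3} (ha : Simple a) (hn : 3 ≤ Fintype.card ι) {ε : ι → ℤˣ}
    (h : Tope a ε) : ∃ i, Tope a (flip ε i) := by
  classical
  obtain ⟨x, hx⟩ := h
  obtain ⟨i, j, hij⟩ := Fintype.one_lt_card_iff.1 (show 1 < Fintype.card ι by omega)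
  obtain ⟨v, hv, hvi, hvj⟩ := exists_vertex a i j
  set α : ι → ℝ := fun k => ((ε k : ℤ) : ℝ) * (a k ⬝ᵥ x) with hα
  set β : ι → ℝ := fun k => ((ε k : ℤ) : ℝ) * (a k ⬝ᵥ v) with hβ
  have hα0 : ∀ k, 0 < α k := hx
  set S : Finset ι := Finset.univ.filter (fun k => β k ≤ 0) with hS
  have hiS : i ∈ S := by
    rw [hS, Finset.mem_filter]
    refine ⟨Finset.mem_univ _, ?_⟩
    simp only [hβ, hvi, mul_zero, le_refl]
  obtain ⟨k0, hk0S, hmin⟩ := Finset.exists_min_image S (fun k => α k / (α k - β k)) ⟨i, hiS⟩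
  have hk0β : β k0 ≤ 0 := (Finset.mem_filter.1 hk0S).2
  set t : ℝ := α k0 / (α k0 - β k0) with ht
  have hd0 : 0 < α k0 - β k0 := by
    have := hα0 k0
    linarith
  have ht0 : 0 < t := div_pos (hα0 k0) hd0
  have ht1 : t ≤ 1 := by
    rw [ht, div_le_one hd0]
    linarith
  set p : V3 := (1 - t) • x + t • v with hp
  have hval : ∀ k, ((ε k : ℤ) : ℝ) * (a k ⬝ᵥ p) = (1 - t) * α k + t * β k := by
    intro k
    simp only [hp, hα, hβ, dotProduct_add, dotProduct_smul, smul_eq_mul]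
    ring
  have hnn : ∀ k, 0 ≤ ((ε k : ℤ) : ℝ) * (a k ⬝ᵥ p) := by
    intro k
    rw [hval]
    by_cases hk : β k ≤ 0
    · have h1 := hmin k (by rw [hS, Finset.mem_filter]; exact ⟨Finset.mem_univ _, hk⟩)
      have hd : 0 < α k - β k := by
        have := hα0 k
        linarith
      rw [le_div_iff₀ hd] at h1
      linarith
    · push Not at hk
      have h1 : 0 ≤ (1 - t) * α k := mul_nonneg (by linarith) (hα0 k).le
      have h2 : 0 < t * β k := mul_pos ht0 hk
      linarith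
  have hk0 : a k0 ⬝ᵥ p = 0 := by
    have h1 : ((ε k0 : ℤ) : ℝ) * (a k0 ⬝ᵥ p) = 0 := by
      rw [hval]
      have h2 : t * (α k0 - β k0) = α k0 := div_mul_cancel₀ _ hd0.ne'
      linarith
    rcases mul_eq_zero.1 h1 with h2 | h2
    · exfalso
      rcases Int.units_eq_one_or (ε k0) with h3 | h3 <;> rw [h3] at h2 <;> simp at h2
    · exact h2
  have hp0 : p ≠ 0 := by
    intro h0
    rcases eq_or_lt_of_le ht1 with h1 | h1
    · rw [hp, h1] at h0
      simp at h0
      exact hv h0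
    · have h2 : a i ⬝ᵥ p = 0 := by rw [h0, dotProduct_zero]
      rw [hp, dotProduct_add, dotProduct_smul, dotProduct_smul, hvi, smul_zero, add_zero,
        smul_eq_mul] at h2
      rcases mul_eq_zero.1 h2 with h3 | h3
      · linarith
      · have := hx i
        rw [show dotProduct (a i) x = 0 from h3, mul_zero] at this
        exact lt_irrefl _ this
  have hpos : ∀ k, a k ⬝ᵥ p ≠ 0 → 0 < ((ε k : ℤ) : ℝ) * (a k ⬝ᵥ p) := by
    intro k hk
    refine lt_of_le_of_ne (hnn k) (fun h1 => ?_)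
    rcases mul_eq_zero.1 h1.symm with h2 | h2
    · rcases Int.units_eq_one_or (ε k) with h3 | h3 <;> rw [h3] at h2 <;> simp at h2
    · exact hk h2
  refine ⟨k0, ?_⟩
  by_cases hex : ∃ k1, k1 ≠ k0 ∧ a k1 ⬝ᵥ p = 0
  · obtain ⟨k1, hk1, hk1p⟩ := hex
    refine tope_of_corner_point (ε := ε) (simple_pair ha hn hk1.symm) hk0 hk1p ?_ ?_
    · intro k h1 h2
      exact hpos k fun h3 => hp0 (gp3 ha hk1.symm h2.symm h1.symm hk0 hk1p h3)
    · intro k h1 _
      exact flip_ne ε h1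
  · push Not at hex
    refine tope_of_edge_point (ε := ε) (simple_ne_zero ha hn k0) hk0 ?_ ?_
    · intro k h1
      exact hpos k (hex k h1)
    · intro k h1
      exact flip_ne ε h1

theorem three_le_sz' {a : ι → V3} (ha : Simple a) (hn : 3 ≤ Fintype.card ι) {ε : ι → ℤˣ}
    (h : Tope a ε) : 3 ≤ sz a ε := by
  obtain ⟨i, hi⟩ := tope_edge ha hn h
  exact three_le_sz ha hn h hi

end TopeEdge

end Pool.Agent.H.MP_b7f8b0_co.helper73
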